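import Pool.Agent.Helper66.RF.Defs

set_option autoImplicit false

/-!
A holomorphic logarithm on the right half plane.
-/

namespace Pool.Agent.Helper66.RF

open Complex MeasureTheory Set Filter Topology

/-- PIECE RF-Ba.  A zero-free holomorphic function on the right half plane has a holomorphic
logarithm there.
Proof: either Mathlib `Complex.exists_continuousOn_eqOn_exp_comp` (the half plane is convex, hence
contractible and simply connected) gives a continuous logarithm `g`, which is holomorphic: near
`w0` the function `g w` equals `g w0 + log (f w / f w0)` (both sides are continuous with the same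
exponential and agree at `w0`; their difference lies in `2 pi I Z`).  Or: glue primitives of
`deriv f w / f w` on the balls `ball (n : ℂ) n` (`DifferentiableOn.isExactOn_ball`), normalised at
the point `1`, and compare `exp (- g) * f`, whose derivative is `0`. -/
theorem exists_log {f : ℂ → ℂ} (hf : ∀ w : ℂ, 0 < w.re → DifferentiableAt ℂ f w)
    (hne : ∀ w : ℂ, 0 < w.re → f w ≠ 0) :
    ∃ g : ℂ → ℂ, (∀ w : ℂ, 0 < w.re → DifferentiableAt ℂ g w) ∧
      ∀ w : ℂ, 0 < w.re → cexp (g w) = f w := by
  have hconv : Convex ℝ {w : ℂ | 0 < w.re} := convex_halfSpace_re_gt 0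
  have hopen : IsOpen {w : ℂ | 0 < w.re} := isOpen_lt continuous_const continuous_re
  have hcs : ContractibleSpace {w : ℂ | 0 < w.re} := hconv.contractibleSpace ⟨1, by simp⟩
  have hsc : IsSimplyConnected {w : ℂ | 0 < w.re} := by
    unfold IsSimplyConnected
    infer_instance
  have hc : ContinuousOn f {w : ℂ | 0 < w.re} := fun w hw =>
    (hf w hw).continuousAt.continuousWithinAt
  have h0 : (0 : ℂ) ∉ f '' {w : ℂ | 0 < w.re} := by
    rintro ⟨w, hw, h⟩
    exact hne w hw h
  obtain ⟨g, hg, he⟩ := exists_continuousOn_eqOn_exp_comp hsc hopen hc h0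
  have hex : ∀ w : ℂ, 0 < w.re → cexp (g w) = f w := fun w hw => he hw
  refine ⟨g, fun w hw => ?_, hex⟩
  have hgc : ContinuousAt g w := (hg w hw).continuousAt (hopen.mem_nhds hw)
  have hd := Complex.hasStrictDerivAt_exp (g w)
  have hnz : cexp (g w) ≠ 0 := Complex.exp_ne_zero _
  obtain ⟨l, hl, hi⟩ : ∃ l : ℂ → ℂ, (∀ᶠ x in 𝓝 (g w), l (cexp x) = x) ∧
      DifferentiableAt ℂ l (cexp (g w)) :=
    ⟨_, hd.eventually_left_inverse hnz, (hd.to_localInverse hnz).hasDerivAt.differentiableAt⟩
  rw [hex w hw] at hi
  have h1 : DifferentiableAt ℂ (fun z => l (f z)) w := DifferentiableAt.comp w hi (hf w hw)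
  refine h1.congr_of_eventuallyEq ?_
  filter_upwards [hgc.eventually hl, hopen.mem_nhds hw] with z hz hz'
  rw [← hex z hz']
  exact hz.symm

end Pool.Agent.Helper66.RF
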