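import Pool.Agent.Helper66.RF.Defs

set_option autoImplicit false

/-!
Bounds for the generalised Dirichlet series `Phi`.
-/

namespace Pool.Agent.Helper66.RF

open Complex MeasureTheory Set Filter Topology

private lemma sa_norm (b : ℕ → ℝ) (n : ℕ) (z : ℂ) :
    ‖(b n : ℂ) * cexp (-((Real.log n : ℝ) : ℂ) * z)‖ = |b n| * Real.exp (-Real.log n * z.re) := by
  rw [norm_mul, Complex.norm_real, Real.norm_eq_abs, Complex.norm_exp]
  congr 2
  rw [← Complex.ofReal_neg, Complex.re_ofReal_mul]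

private lemma sa_summable {b : ℕ → ℝ} (hb : Bd b) {z : ℂ} (hz : 1 < z.re) :
    Summable fun n : ℕ => (b n : ℂ) * cexp (-((Real.log n : ℝ) : ℂ) * z) := by
  refine Summable.of_norm_bounded (g := fun n : ℕ => 6 * (n : ℝ) ^ (-z.re))
    ((Real.summable_nat_rpow.2 (by linarith)).mul_left 6) fun n => ?_
  rw [sa_norm]
  rcases Nat.eq_zero_or_pos n with rfl | hn
  · rw [hb.2.1, abs_zero, zero_mul]
    positivity
  · have hn' : (0 : ℝ) < n := by exact_mod_cast hn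
    have h1 : Real.exp (-Real.log n * z.re) = (n : ℝ) ^ (-z.re) := by
      rw [Real.rpow_def_of_pos hn']
      congr 1
      ring
    rw [h1]
    exact mul_le_mul_of_nonneg_right (hb.1 n) (Real.rpow_nonneg hn'.le _)

private lemma sa_exp {n : ℕ} (hn : 2 ≤ n) {X : ℝ} (hX : 2 ≤ X) :
    Real.exp (-Real.log n * X) ≤ 4 * Real.exp (-X * Real.log 2) * (n : ℝ) ^ (-2 : ℝ) := by
  have hn' : (0 : ℝ) < n := by
    have : 0 < n := by omega
    exact_mod_cast this
  have h2n : Real.log 2 ≤ Real.log n := Real.log_le_log (by norm_num) (by exact_mod_cast hn)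
  have h4 : (4 : ℝ) = Real.exp (2 * Real.log 2) := by
    rw [two_mul, Real.exp_add, Real.exp_log (by norm_num)]
    norm_num
  rw [Real.rpow_def_of_pos hn', h4, ← Real.exp_add, ← Real.exp_add]
  refine Real.exp_le_exp.2 ?_
  nlinarith [mul_nonneg (sub_nonneg.2 hX) (sub_nonneg.2 h2n)]

private lemma sa_log_exp {n : ℕ} (hn : 2 ≤ n) {X : ℝ} (hX : 2 ≤ X) :
    Real.log n * Real.exp (-Real.log n * X) ≤
      8 * Real.exp (-X * Real.log 2) * (n : ℝ) ^ (-(3 / 2) : ℝ) := by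
  have hn' : (0 : ℝ) < n := by
    have : 0 < n := by omega
    exact_mod_cast this
  have h1 : Real.log n ≤ 2 * (n : ℝ) ^ (1 / 2 : ℝ) := by
    have := Real.log_le_rpow_div hn'.le (show (0 : ℝ) < 1 / 2 by norm_num)
    calc Real.log n ≤ (n : ℝ) ^ (1 / 2 : ℝ) / (1 / 2) := this
      _ = 2 * (n : ℝ) ^ (1 / 2 : ℝ) := by ring
  have h2 : (n : ℝ) ^ (-(3 / 2) : ℝ) = (n : ℝ) ^ (1 / 2 : ℝ) * (n : ℝ) ^ (-2 : ℝ) := by
    rw [← Real.rpow_add hn']
    norm_num
  calc Real.log n * Real.exp (-Real.log n * X)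
      ≤ (2 * (n : ℝ) ^ (1 / 2 : ℝ)) * (4 * Real.exp (-X * Real.log 2) * (n : ℝ) ^ (-2 : ℝ)) :=
        mul_le_mul h1 (sa_exp hn hX) (Real.exp_pos _).le (by positivity)
    _ = 8 * Real.exp (-X * Real.log 2) * (n : ℝ) ^ (-(3 / 2) : ℝ) := by rw [h2]; ring

private lemma sa_half : Real.exp (-2 * Real.log 2) = 1 / 4 := by
  have : -2 * Real.log 2 = Real.log (1 / 4) := by
    have h4 : (1 / 4 : ℝ) = (2 : ℝ) ^ (-2 : ℝ) := by
      rw [Real.rpow_neg (by norm_num)]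
      norm_num
    rw [h4, Real.log_rpow (by norm_num)]
  rw [this, Real.exp_log (by norm_num)]

private lemma sa_norm_le {b : ℕ → ℝ} (hb : Bd b) (n : ℕ) {z : ℂ} (hz : 2 ≤ z.re) :
    ‖(b n : ℂ) * cexp (-((Real.log n : ℝ) : ℂ) * z)‖ ≤
      24 * Real.exp (-z.re * Real.log 2) * (n : ℝ) ^ (-2 : ℝ) := by
  rw [sa_norm]
  rcases Nat.lt_or_ge n 2 with hn | hn
  · have h0 : b n = 0 := by
      interval_cases n
      · exact hb.2.1
      · exact hb.2.2
    rw [h0, abs_zero, zero_mul]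
    positivity
  · calc |b n| * Real.exp (-Real.log n * z.re)
        ≤ 6 * (4 * Real.exp (-z.re * Real.log 2) * (n : ℝ) ^ (-2 : ℝ)) :=
          mul_le_mul (hb.1 n) (sa_exp hn hz) (Real.exp_pos _).le (by norm_num)
      _ = _ := by ring

private lemma sa_norm_le' {b : ℕ → ℝ} (hb : Bd b) (n : ℕ) {z : ℂ} (hz : 2 ≤ z.re) :
    ‖(b n : ℂ) * (cexp (-((Real.log n : ℝ) : ℂ) * z) * -((Real.log n : ℝ) : ℂ))‖ ≤
      48 * Real.exp (-z.re * Real.log 2) * (n : ℝ) ^ (-(3 / 2) : ℝ) := by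
  rw [← mul_assoc, norm_mul, sa_norm, norm_neg, Complex.norm_real, Real.norm_eq_abs]
  rcases Nat.lt_or_ge n 2 with hn | hn
  · have h0 : b n = 0 := by
      interval_cases n
      · exact hb.2.1
      · exact hb.2.2
    rw [h0, abs_zero, zero_mul, zero_mul]
    positivity
  · have hlog : 0 ≤ Real.log n := Real.log_natCast_nonneg n
    rw [abs_of_nonneg hlog]
    calc |b n| * Real.exp (-Real.log n * z.re) * Real.log n
        = |b n| * (Real.log n * Real.exp (-Real.log n * z.re)) := by ring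
      _ ≤ 6 * (8 * Real.exp (-z.re * Real.log 2) * (n : ℝ) ^ (-(3 / 2) : ℝ)) :=
          mul_le_mul (hb.1 n) (sa_log_exp hn hz) (by positivity) (by norm_num)
      _ = _ := by ring

private lemma sa_s32 : Summable fun n : ℕ => (n : ℝ) ^ (-(3 / 2) : ℝ) :=
  Real.summable_nat_rpow.2 (by norm_num)

private lemma sa_s2 : Summable fun n : ℕ => (n : ℝ) ^ (-2 : ℝ) :=
  Real.summable_nat_rpow.2 (by norm_num)

private lemma sa_hasDerivAt {b : ℕ → ℝ} (hb : Bd b) {z : ℂ} (hz : 2 < z.re) :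
    HasDerivAt (fun z : ℂ => ∑' n : ℕ, (b n : ℂ) * cexp (-((Real.log n : ℝ) : ℂ) * z))
      (∑' n : ℕ, (b n : ℂ) * (cexp (-((Real.log n : ℝ) : ℂ) * z) * -((Real.log n : ℝ) : ℂ))) z := by
  have ht : IsOpen {z : ℂ | 2 < z.re} := isOpen_lt continuous_const Complex.continuous_re
  refine hasDerivAt_tsum_of_isPreconnected (u := fun n : ℕ => 12 * (n : ℝ) ^ (-(3 / 2) : ℝ))
    (t := {z : ℂ | 2 < z.re}) (sa_s32.mul_left 12) ht
    (convex_halfSpace_re_gt 2).isPreconnected (g := fun (n : ℕ) (z : ℂ) =>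
      (b n : ℂ) * cexp (-((Real.log n : ℝ) : ℂ) * z))
    (g' := fun (n : ℕ) (z : ℂ) =>
      (b n : ℂ) * (cexp (-((Real.log n : ℝ) : ℂ) * z) * -((Real.log n : ℝ) : ℂ)))
    (fun n y _ => ?_) (fun n y hy => ?_) (y₀ := z) hz (sa_summable hb (by linarith)) hz
  · have h1 : HasDerivAt (fun y : ℂ => -((Real.log n : ℝ) : ℂ) * y) (-((Real.log n : ℝ) : ℂ)) y := by
      simpa using (hasDerivAt_id y).const_mul (-((Real.log n : ℝ) : ℂ))
    exact (h1.cexp).const_mul (b n : ℂ)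
  · refine (sa_norm_le' hb n (le_of_lt hy)).trans ?_
    have h1 : Real.exp (-y.re * Real.log 2) ≤ 1 / 4 := by
      rw [← sa_half]
      refine Real.exp_le_exp.2 ?_
      have hy' : 2 < y.re := hy
      nlinarith [Real.log_pos (show (1 : ℝ) < 2 by norm_num)]
    have h2 : 0 ≤ (n : ℝ) ^ (-(3 / 2) : ℝ) := by positivity
    nlinarith

/-- PIECE RF-Sa, first statement: summability for `Re w^a > 1`. -/
theorem Phi_summable {a : ℝ} {b : ℕ → ℝ} (hb : Bd b) {w : ℂ} (hw : 1 < (w ^ (a : ℂ)).re) :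
    Summable fun n : ℕ => (b n : ℂ) * cexp (-((Real.log n : ℝ) : ℂ) * w ^ (a : ℂ)) :=
  sa_summable hb hw

/-- PIECE RF-Sa.  Bounds for `Phi` where `X = Re w^a > 2`: with one constant `C`,
`|Phi| ≤ C exp (- X / 2)` and `|w Phi'(w)| ≤ C`.
Proof: put `z = w^a`; the series `S(z) = sum b n n^(-z)` is `LSeries`-like, holomorphic for
`Re z > 1` (`LSeries_hasDerivAt`, or `hasDerivAt_tsum_of_isPreconnected` on the half plane), with
derivative `S'(z) = - sum b n log n n^(-z)`; `Phi b a w = S(w^a)` and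
`w Phi'(w) = a z S'(z)`.  For `X ≥ 2`, `n ≥ 2`: `n^(-X) ≤ n^(-2) 2^(-(X-2))`, so
`|S| ≤ 6 * 4 * 2^(-X) * sum n^(-2)` and `2^(-X) ≤ exp (- X / 2)`; and
`|S'| ≤ C 2^(-X)` (use `log n ≤ 2 sqrt n` and `sum n^(-3/2)` converges).  Finally
`|z| = |w|^a ≤ X / ca a` (`re_pw_ge`, `norm_pw`) and `X 2^(-X) ≤ 1`. -/
theorem Phi_bounds {a : ℝ} (h0 : 0 < a) (h1 : a < 1) {b : ℕ → ℝ} (hb : Bd b) :
    ∃ C : ℝ, 0 ≤ C ∧ ∀ w : ℂ, 0 < w.re → 2 < (w ^ (a : ℂ)).re →
      DifferentiableAt ℂ (Phi b a) w ∧ ‖Phi b a w‖ ≤ C * Real.exp (-(w ^ (a : ℂ)).re / 2) ∧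
        ‖w * deriv (Phi b a) w‖ ≤ C := by
  set S2 : ℝ := ∑' n : ℕ, (n : ℝ) ^ (-2 : ℝ) with hS2
  set S3 : ℝ := ∑' n : ℕ, (n : ℝ) ^ (-(3 / 2) : ℝ) with hS3
  have hS2' : 0 ≤ S2 := tsum_nonneg fun n => by positivity
  have hS3' : 0 ≤ S3 := tsum_nonneg fun n => by positivity
  have hca := ca_pos h0 h1
  have hlog2 : (1 / 2 : ℝ) ≤ Real.log 2 := by
    have := Real.log_two_gt_d9
    linarith
  refine ⟨24 * S2 + 48 * S3 * (a * (2 / ca a)), by positivity, fun w hw hX => ?_⟩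
  set z : ℂ := w ^ (a : ℂ) with hz
  have hw0 : w ≠ 0 := ne_zero_of_re hw
  -- the derivative
  have hS := sa_hasDerivAt hb hX
  have hP : HasDerivAt (Phi b a)
      ((∑' n : ℕ, (b n : ℂ) * (cexp (-((Real.log n : ℝ) : ℂ) * z) * -((Real.log n : ℝ) : ℂ)))
        * ((a : ℂ) * w ^ ((a : ℂ) - 1))) w :=
    HasDerivAt.comp (h₂ := fun z : ℂ => ∑' n : ℕ, (b n : ℂ) *
      cexp (-((Real.log n : ℝ) : ℂ) * z)) w hS (hasDerivAt_pw (mem_slit hw))
  refine ⟨hP.differentiableAt, ?_, ?_⟩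
  · have h2 : ‖Phi b a w‖ ≤ ∑' n : ℕ, 24 * Real.exp (-z.re * Real.log 2) * (n : ℝ) ^ (-2 : ℝ) := by
      refine tsum_of_norm_bounded ((sa_s2.mul_left _).hasSum) fun n => ?_
      exact sa_norm_le hb n hX.le
    rw [tsum_mul_left] at h2
    have h3 : Real.exp (-z.re * Real.log 2) ≤ Real.exp (-z.re / 2) := by
      refine Real.exp_le_exp.2 ?_
      nlinarith
    refine h2.trans ?_
    have h4 : 0 ≤ 48 * S3 * (a * (2 / ca a)) := by positivity
    have h5 : 0 ≤ Real.exp (-z.re / 2) := (Real.exp_pos _).le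
    calc 24 * Real.exp (-z.re * Real.log 2) * S2 ≤ 24 * Real.exp (-z.re / 2) * S2 := by
          gcongr
      _ ≤ (24 * S2 + 48 * S3 * (a * (2 / ca a))) * Real.exp (-z.re / 2) := by nlinarith
  · have h2 : ‖∑' n : ℕ, (b n : ℂ) * (cexp (-((Real.log n : ℝ) : ℂ) * z) *
        -((Real.log n : ℝ) : ℂ))‖ ≤
        ∑' n : ℕ, 48 * Real.exp (-z.re * Real.log 2) * (n : ℝ) ^ (-(3 / 2) : ℝ) := by
      refine tsum_of_norm_bounded ((sa_s32.mul_left _).hasSum) fun n => ?_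
      exact sa_norm_le' hb n hX.le
    rw [tsum_mul_left] at h2
    have hzw : w * w ^ ((a : ℂ) - 1) = z := by
      rw [Complex.cpow_sub _ _ hw0, Complex.cpow_one, mul_div_cancel₀ _ hw0]
    have hzn : ‖z‖ ≤ z.re / ca a := by
      rw [le_div_iff₀ hca, hz, norm_pw hw0, mul_comm]
      exact re_pw_ge h0 h1 hw.le hw0
    have hXX : z.re * Real.exp (-z.re * Real.log 2) ≤ 2 := by
      have h3 : z.re * Real.log 2 ≤ Real.exp (z.re * Real.log 2) := by
        have := Real.add_one_le_exp (z.re * Real.log 2)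
        linarith
      have h4 : Real.exp (-z.re * Real.log 2) * Real.exp (z.re * Real.log 2) = 1 := by
        rw [← Real.exp_add]
        rw [show -z.re * Real.log 2 + z.re * Real.log 2 = 0 by ring, Real.exp_zero]
      have h5 : 0 < Real.exp (-z.re * Real.log 2) := Real.exp_pos _
      have h6 : z.re * Real.log 2 * Real.exp (-z.re * Real.log 2) ≤ 1 := by
        rw [← h4, mul_comm]
        exact mul_le_mul_of_nonneg_left h3 h5.le
      have h7 : 0 ≤ z.re * Real.exp (-z.re * Real.log 2) := by positivity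
      nlinarith
    have h8 : w * deriv (Phi b a) w = (∑' n : ℕ, (b n : ℂ) *
        (cexp (-((Real.log n : ℝ) : ℂ) * z) * -((Real.log n : ℝ) : ℂ))) * ((a : ℂ) * z) := by
      rw [hP.deriv, ← hzw]
      ring
    rw [h8, norm_mul, norm_mul, Complex.norm_real, Real.norm_eq_abs, abs_of_pos h0]
    have h9 : 0 ≤ 24 * S2 := by positivity
    calc ‖∑' n : ℕ, (b n : ℂ) * (cexp (-((Real.log n : ℝ) : ℂ) * z) *
          -((Real.log n : ℝ) : ℂ))‖ * (a * ‖z‖)
        ≤ (48 * Real.exp (-z.re * Real.log 2) * S3) * (a * (z.re / ca a)) := by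
          refine mul_le_mul h2 (mul_le_mul_of_nonneg_left hzn h0.le) (by positivity) ?_
          positivity
      _ = 48 * S3 * (a * ((z.re * Real.exp (-z.re * Real.log 2)) / ca a)) := by ring
      _ ≤ 48 * S3 * (a * (2 / ca a)) := by
          gcongr
      _ ≤ 24 * S2 + 48 * S3 * (a * (2 / ca a)) := by linarith

/-- PIECE RF-Sa2.  Consequence used for the line integrals: for `A > 0` with `4 ≤ ca a * A^a` the
function `Phi b a` is holomorphic and bounded by `C / (1 + |w|)` on the half plane `Re w ≥ A`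
(`Re w^a ≥ ca a * |w|^a ≥ 4` there, and `exp (- ca |w|^a / 2) (1 + |w|)` is bounded). -/
theorem Phi_half {a A : ℝ} (h0 : 0 < a) (h1 : a < 1) {b : ℕ → ℝ} (hb : Bd b) (hA : 0 < A)
    (hA2 : 4 ≤ ca a * A ^ a) :
    ∃ C : ℝ, 0 ≤ C ∧ ∀ w : ℂ, A ≤ w.re →
      DifferentiableAt ℂ (Phi b a) w ∧ ‖Phi b a w‖ ≤ C / (1 + ‖w‖) := by
  obtain ⟨C, hC, hP⟩ := Phi_bounds h0 h1 hb
  have hca := ca_pos h0 h1
  obtain ⟨m, hm⟩ := exists_nat_ge (1 / a)
  set κ : ℝ := ca a / 2 with hκ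
  have hκ0 : 0 < κ := by positivity
  set K : ℝ := 2 + (m.factorial : ℝ) / κ ^ m with hK
  have hK0 : 0 ≤ K := by positivity
  refine ⟨C * K, by positivity, fun w hw => ?_⟩
  have hw0 : 0 < w.re := hA.trans_le hw
  have hwne : w ≠ 0 := ne_zero_of_re hw0
  have hwn : A ≤ ‖w‖ := hw.trans (Complex.re_le_norm w)
  have hge := re_pw_ge h0 h1 hw0.le hwne
  have hAa : A ^ a ≤ ‖w‖ ^ a := Real.rpow_le_rpow hA.le hwn h0.le
  have hX : 4 ≤ (w ^ (a : ℂ)).re := by
    refine hA2.trans (le_trans ?_ hge)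
    exact mul_le_mul_of_nonneg_left hAa hca.le
  obtain ⟨hd, hn, -⟩ := hP w hw0 (by linarith)
  refine ⟨hd, hn.trans ?_⟩
  rw [mul_div_assoc]
  refine mul_le_mul_of_nonneg_left ?_ hC
  have hpos : 0 < 1 + ‖w‖ := by positivity
  rw [le_div_iff₀ hpos]
  -- the elementary bound
  set y : ℝ := κ * ‖w‖ ^ a with hy
  have hy0 : 0 ≤ y := by positivity
  have h2 : Real.exp (-(w ^ (a : ℂ)).re / 2) ≤ Real.exp (-y) := by
    refine Real.exp_le_exp.2 ?_
    rw [hy, hκ]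
    linarith
  have h3 : Real.exp (-y) ≤ 1 := Real.exp_le_one_iff.2 (by linarith)
  have h4 : Real.exp (-y) * ‖w‖ ≤ 1 + (m.factorial : ℝ) / κ ^ m := by
    have h10 : 0 ≤ (m.factorial : ℝ) / κ ^ m := by positivity
    rcases le_total ‖w‖ 1 with hle | hge1
    · have : Real.exp (-y) * ‖w‖ ≤ 1 * 1 :=
        mul_le_mul h3 hle (norm_nonneg _) zero_le_one
      linarith
    · have h5 : ‖w‖ ≤ (‖w‖ ^ a) ^ m := by
        rw [← Real.rpow_natCast, ← Real.rpow_mul (norm_nonneg _)]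
        have h6 : 1 ≤ a * m := by
          rw [div_le_iff₀ h0] at hm
          linarith
        calc ‖w‖ = ‖w‖ ^ (1 : ℝ) := (Real.rpow_one _).symm
          _ ≤ ‖w‖ ^ (a * (m : ℝ)) := Real.rpow_le_rpow_of_exponent_le hge1 h6
      have h7 : y ^ m / (m.factorial : ℝ) ≤ Real.exp y := Real.pow_div_factorial_le_exp y hy0 m
      have h8 : (‖w‖ ^ a) ^ m ≤ (m.factorial : ℝ) / κ ^ m * Real.exp y := by
        have h9 : (‖w‖ ^ a) ^ m = y ^ m / κ ^ m := by
          rw [hy, mul_pow, mul_div_cancel_left₀ _ (pow_ne_zero m hκ0.ne')]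
        rw [div_le_iff₀ (by positivity)] at h7
        rw [h9, div_mul_eq_mul_div]
        refine div_le_div_of_nonneg_right ?_ (by positivity)
        linarith
      have h11 : Real.exp (-y) * Real.exp y = 1 := by
        rw [← Real.exp_add, neg_add_cancel, Real.exp_zero]
      have h12 : Real.exp (-y) * ‖w‖ ≤ (m.factorial : ℝ) / κ ^ m := by
        calc Real.exp (-y) * ‖w‖ ≤ Real.exp (-y) * ((m.factorial : ℝ) / κ ^ m * Real.exp y) :=
              mul_le_mul_of_nonneg_left (h5.trans h8) (Real.exp_pos _).le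
          _ = (m.factorial : ℝ) / κ ^ m * (Real.exp (-y) * Real.exp y) := by ring
          _ = _ := by rw [h11, mul_one]
      linarith
  calc Real.exp (-(w ^ (a : ℂ)).re / 2) * (1 + ‖w‖) ≤ Real.exp (-y) * (1 + ‖w‖) :=
        mul_le_mul_of_nonneg_right h2 hpos.le
    _ = Real.exp (-y) + Real.exp (-y) * ‖w‖ := by ring
    _ ≤ K := by rw [hK]; linarith

end Pool.Agent.Helper66.RF
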