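import Pool.Agent.Helper66.RF.Ba
import Pool.Agent.Helper66.RF.Sa

set_option autoImplicit false

/-!
The logarithm normalised by the Dirichlet series, and its size far out.
-/

namespace Pool.Agent.Helper66.RF

open Complex MeasureTheory Set Filter Topology

private theorem bb_deriv {a : ℝ} (h0 : 0 < a) (h1 : a < 1) {b : ℕ → ℝ} (hb : Bd b) {f g : ℂ → ℂ}
    (hg : ∀ w : ℂ, 0 < w.re → DifferentiableAt ℂ g w)
    (hgf : ∀ w : ℂ, 0 < w.re → cexp (g w) = f w)
    (hexp : ∀ w : ℂ, 0 < w.re → 2 < (w ^ (a : ℂ)).re → cexp (Phi b a w) = f w)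
    {w : ℂ} (hw : 0 < w.re) (hX : 2 < (w ^ (a : ℂ)).re) :
    HasDerivAt (fun z => g z - Phi b a z) 0 w ∧ cexp (g w - Phi b a w) = 1 := by
  obtain ⟨C, hC, hP⟩ := Phi_bounds h0 h1 hb
  have hd : DifferentiableAt ℂ (fun z => g z - Phi b a z) w := (hg w hw).sub (hP w hw hX).1
  have hval : ∀ z : ℂ, 0 < z.re → 2 < (z ^ (a : ℂ)).re → cexp (g z - Phi b a z) = 1 := by
    intro z hz hz2
    rw [Complex.exp_sub, hgf z hz, hexp z hz hz2, div_self]
    rw [← hgf z hz]
    exact Complex.exp_ne_zero _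
  refine ⟨?_, hval w hw hX⟩
  have hev : (fun z => cexp (g z - Phi b a z)) =ᶠ[𝓝 w] fun _ => (1 : ℂ) := by
    have h2 : ∀ᶠ z in 𝓝 w, 0 < z.re :=
      Complex.continuous_re.continuousAt.eventually (lt_mem_nhds hw)
    have h3 : ∀ᶠ z in 𝓝 w, 2 < (z ^ (a : ℂ)).re := by
      have hc : ContinuousAt (fun z : ℂ => (z ^ (a : ℂ)).re) w :=
        Complex.continuous_re.continuousAt.comp (hasDerivAt_pw (mem_slit hw)).continuousAt
      exact hc.eventually (lt_mem_nhds hX)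
    filter_upwards [h2, h3] with z hz1 hz2 using hval z hz1 hz2
  have hD := hd.hasDerivAt.cexp
  have h4 := (hD.congr_of_eventuallyEq hev.symm).unique (hasDerivAt_const w (1 : ℂ))
  rw [hval w hw hX, one_mul] at h4
  rw [← h4]
  exact hd.hasDerivAt

/-- PIECE RF-Bb1.  The logarithm of `f` on the half plane which equals the series `Phi b a` wherever
`Re w^a > 2`.
Proof: `g0` from `exists_log`; let `ρ > 0` with `ca a * ρ^a ≥ 2`; on the convex open set `Re w > ρ`
one has `Re w^a ≥ ca |w|^a > 2`, and `d = g0 - Phi b a` has `exp d = 1`, so `d' = 0` and `d` is a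
constant `c0` with `exp c0 = 1` (`IsOpen.is_const_of_deriv_eq_zero` or
`IsOpen.eqOn_of_deriv_eq` on the preconnected set).  Put `g = g0 - c0`.  For a general `w` with
`Re w > 0`, `Re w^a > 2`: the function `t ↦ (g - Phi b a)(t w)`, `t ≥ 1`, has derivative `0`
(`Re (t w)^a = t^a Re w^a > 2` by `pw_real_mul`, and `exp (g - Phi) = 1`), and it vanishes as soon as
`t Re w > ρ`; so it vanishes at `t = 1`. -/
theorem exists_Phi {a : ℝ} (h0 : 0 < a) (h1 : a < 1) {b : ℕ → ℝ} (hb : Bd b) {f : ℂ → ℂ}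
    (hf : ∀ w : ℂ, 0 < w.re → DifferentiableAt ℂ f w) (hne : ∀ w : ℂ, 0 < w.re → f w ≠ 0)
    (hexp : ∀ w : ℂ, 0 < w.re → 2 < (w ^ (a : ℂ)).re → cexp (Phi b a w) = f w) :
    ∃ g : ℂ → ℂ, (∀ w : ℂ, 0 < w.re → DifferentiableAt ℂ g w) ∧
      (∀ w : ℂ, 0 < w.re → cexp (g w) = f w) ∧
      ∀ w : ℂ, 0 < w.re → 2 < (w ^ (a : ℂ)).re → g w = Phi b a w := by
  obtain ⟨g0, hg0, hgf⟩ := exists_log hf hne
  have hca := ca_pos h0 h1
  set ρ : ℝ := (2 / ca a) ^ (1 / a) with hρ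
  have hρ0 : 0 < ρ := by positivity
  have hρa : ca a * ρ ^ a = 2 := by
    rw [hρ, ← Real.rpow_mul (by positivity), one_div_mul_cancel h0.ne', Real.rpow_one]
    field_simp
  have hH : ∀ w : ℂ, ρ < w.re → 0 < w.re ∧ 2 < (w ^ (a : ℂ)).re := by
    intro w hw
    have hw0 : 0 < w.re := hρ0.trans hw
    refine ⟨hw0, ?_⟩
    have h2 := re_pw_ge h0 h1 hw0.le (ne_zero_of_re hw0)
    have h3 : ρ ^ a < ‖w‖ ^ a :=
      Real.rpow_lt_rpow hρ0.le (hw.trans_le (Complex.re_le_norm w)) h0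
    have h4 : ca a * ρ ^ a < ca a * ‖w‖ ^ a := mul_lt_mul_of_pos_left h3 hca
    linarith
  have hder : ∀ w : ℂ, 0 < w.re → 2 < (w ^ (a : ℂ)).re →
      HasDerivAt (fun z => g0 z - Phi b a z) 0 w ∧ cexp (g0 w - Phi b a w) = 1 :=
    fun w hw hX => bb_deriv h0 h1 hb hg0 hgf hexp hw hX
  have hHo : IsOpen {w : ℂ | ρ < w.re} := isOpen_lt continuous_const Complex.continuous_re
  obtain ⟨c, hc⟩ := hHo.exists_is_const_of_deriv_eq_zero
    (convex_halfSpace_re_gt ρ).isPreconnected (f := fun z => g0 z - Phi b a z)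
    (fun w hw => (hder w (hH w hw).1 (hH w hw).2).1.differentiableAt.differentiableWithinAt)
    (fun w hw => (hder w (hH w hw).1 (hH w hw).2).1.deriv)
  have hc1 : cexp c = 1 := by
    have hm : ρ < ((ρ + 1 : ℝ) : ℂ).re := by simp
    rw [← hc _ hm]
    exact (hder _ (hH _ hm).1 (hH _ hm).2).2
  refine ⟨fun w => g0 w - c, fun w hw => (hg0 w hw).sub_const c, fun w hw => ?_,
    fun w hw hX => ?_⟩
  · rw [Complex.exp_sub, hc1, div_one]
    exact hgf w hw
  · set X : ℝ := (w ^ (a : ℂ)).re with hXdef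
    have hX0 : 0 < X := by linarith
    set t0 : ℝ := (2 / X) ^ (1 / a) with ht0
    have ht00 : 0 < t0 := by positivity
    have ht01 : t0 < 1 := Real.rpow_lt_one (by positivity) ((div_lt_one hX0).2 hX) (by positivity)
    have ht0a : t0 ^ a = 2 / X := by
      rw [ht0, ← Real.rpow_mul (by positivity), one_div_mul_cancel h0.ne', Real.rpow_one]
    have hray : ∀ t : ℝ, t0 < t → 0 < ((t : ℂ) * w).re ∧ 2 < (((t : ℂ) * w) ^ (a : ℂ)).re := by
      intro t ht
      have htp : 0 < t := ht00.trans ht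
      constructor
      · rw [Complex.re_ofReal_mul]
        positivity
      · rw [pw_real_mul htp, Complex.re_ofReal_mul, ← hXdef]
        have h3 : t0 ^ a < t ^ a := Real.rpow_lt_rpow ht00.le ht h0
        rw [ht0a, div_lt_iff₀ hX0] at h3
        exact h3
    have hψ : ∀ t : ℝ, t0 < t →
        HasDerivAt (fun s : ℝ => g0 ((s : ℂ) * w) - Phi b a ((s : ℂ) * w)) 0 t := by
      intro t ht
      have h2 := (hder _ (hray t ht).1 (hray t ht).2).1
      have h3 : HasDerivAt (fun s : ℝ => (s : ℂ) * w) w t := by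
        simpa using (Complex.ofRealCLM.hasDerivAt (x := t)).mul_const w
      have h4 := HasDerivAt.scomp (h := fun s : ℝ => (s : ℂ) * w)
        (g₁ := fun z => g0 z - Phi b a z) t h2 h3
      rw [smul_zero] at h4
      exact h4
    have hT1 : t0 < 1 + ρ / w.re := by
      have : 0 < ρ / w.re := by positivity
      linarith
    have hconst := (isOpen_Ioi (a := t0)).is_const_of_deriv_eq_zero
      (f := fun s : ℝ => g0 ((s : ℂ) * w) - Phi b a ((s : ℂ) * w)) isPreconnected_Ioi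
      (fun t ht => (hψ t ht).differentiableAt.differentiableWithinAt)
      (fun t ht => (hψ t ht).deriv) (x := 1) (y := 1 + ρ / w.re) ht01 hT1
    have hm : ρ < (((1 + ρ / w.re : ℝ) : ℂ) * w).re := by
      rw [Complex.re_ofReal_mul, add_mul, one_mul, div_mul_cancel₀ _ hw.ne']
      linarith
    have h5 := hc _ hm
    rw [h5] at hconst
    rw [Complex.ofReal_one, one_mul] at hconst
    change g0 w - c = Phi b a w
    rw [← hconst]
    ring

/-- PIECE RF-Bb2.  Size far out.  Proof: for `|w| ≥ R` (`ca a * R^a > 2`, `R ≥ 1`) `Re w^a ≥ ca |w|^a > 2`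
(`re_pw_ge`), so `g = Phi b a` in a neighbourhood of `w` and `Phi_bounds` applies;
`exp (- ca |w|^a / 2) |w|` is bounded. -/
theorem far {a : ℝ} (h0 : 0 < a) (h1 : a < 1) {b : ℕ → ℝ} (hb : Bd b) {g : ℂ → ℂ}
    (hg : ∀ w : ℂ, 0 < w.re → 2 < (w ^ (a : ℂ)).re → g w = Phi b a w) :
    ∃ R C : ℝ, ∀ w : ℂ, 0 < w.re → R ≤ ‖w‖ → ‖g w‖ ≤ C / ‖w‖ ∧ ‖w * deriv g w‖ ≤ C := by
  obtain ⟨C, hC, hP⟩ := Phi_bounds h0 h1 hb
  have hca := ca_pos h0 h1
  obtain ⟨m, hm⟩ := exists_nat_ge (1 / a)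
  set κ : ℝ := ca a / 2 with hκ
  have hκ0 : 0 < κ := by positivity
  have hK0 : 0 ≤ (m.factorial : ℝ) / κ ^ m := by positivity
  obtain ⟨R, hR1, hR⟩ : ∃ R : ℝ, 1 ≤ R ∧ 3 / ca a ≤ R ^ a :=
    (((tendsto_rpow_atTop h0).eventually_ge_atTop (3 / ca a)).and
      (eventually_ge_atTop 1)).exists.imp fun _ h => ⟨h.2, h.1⟩
  refine ⟨R, C * (1 + (m.factorial : ℝ) / κ ^ m), fun w hw hwR => ?_⟩
  have hwne : w ≠ 0 := ne_zero_of_re hw
  have hw1 : 1 ≤ ‖w‖ := hR1.trans hwR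
  have hge := re_pw_ge h0 h1 hw.le hwne
  have hAa : R ^ a ≤ ‖w‖ ^ a := Real.rpow_le_rpow (by linarith) hwR h0.le
  have hX : 2 < (w ^ (a : ℂ)).re := by
    have h2 : 3 ≤ ca a * R ^ a := by
      rw [div_le_iff₀ hca] at hR
      linarith
    have h3 := mul_le_mul_of_nonneg_left hAa hca.le
    linarith
  obtain ⟨-, hn, hd⟩ := hP w hw hX
  have hev : g =ᶠ[𝓝 w] Phi b a := by
    have e1 : ∀ᶠ z : ℂ in 𝓝 w, 0 < z.re :=
      (Complex.continuous_re.continuousAt (x := w)).eventually_const_lt hw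
    have e2 : ∀ᶠ z : ℂ in 𝓝 w, 2 < (z ^ (a : ℂ)).re :=
      (Complex.continuous_re.continuousAt.comp
        (hasDerivAt_pw (mem_slit hw)).continuousAt).eventually_const_lt hX
    filter_upwards [e1, e2] with z hz1 hz2
    exact hg z hz1 hz2
  constructor
  · rw [hg w hw hX]
    refine hn.trans ?_
    rw [mul_div_assoc]
    refine mul_le_mul_of_nonneg_left ?_ hC
    rw [le_div_iff₀ (by linarith)]
    set y : ℝ := κ * ‖w‖ ^ a with hy
    have hy0 : 0 ≤ y := by positivity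
    have h2 : Real.exp (-(w ^ (a : ℂ)).re / 2) ≤ Real.exp (-y) := by
      refine Real.exp_le_exp.2 ?_
      rw [hy, hκ]
      linarith
    have h5 : ‖w‖ ≤ (‖w‖ ^ a) ^ m := by
      rw [← Real.rpow_natCast, ← Real.rpow_mul (norm_nonneg _)]
      have h6 : 1 ≤ a * m := by
        rw [div_le_iff₀ h0] at hm
        linarith
      calc ‖w‖ = ‖w‖ ^ (1 : ℝ) := (Real.rpow_one _).symm
        _ ≤ ‖w‖ ^ (a * (m : ℝ)) := Real.rpow_le_rpow_of_exponent_le hw1 h6
    have h7 : y ^ m / (m.factorial : ℝ) ≤ Real.exp y := Real.pow_div_factorial_le_exp y hy0 m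
    have h8 : (‖w‖ ^ a) ^ m ≤ (m.factorial : ℝ) / κ ^ m * Real.exp y := by
      have h9 : (‖w‖ ^ a) ^ m = y ^ m / κ ^ m := by
        rw [hy, mul_pow, mul_div_cancel_left₀ _ (pow_ne_zero m hκ0.ne')]
      rw [div_le_iff₀ (by positivity)] at h7
      rw [h9, div_mul_eq_mul_div]
      refine div_le_div_of_nonneg_right ?_ (by positivity)
      linarith
    have h11 : Real.exp (-y) * Real.exp y = 1 := by
      rw [← Real.exp_add, neg_add_cancel, Real.exp_zero]
    have h12 : Real.exp (-y) * ‖w‖ ≤ (m.factorial : ℝ) / κ ^ m := by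
      calc Real.exp (-y) * ‖w‖ ≤ Real.exp (-y) * ((m.factorial : ℝ) / κ ^ m * Real.exp y) :=
            mul_le_mul_of_nonneg_left (h5.trans h8) (Real.exp_pos _).le
        _ = (m.factorial : ℝ) / κ ^ m * (Real.exp (-y) * Real.exp y) := by ring
        _ = _ := by rw [h11, mul_one]
    have h13 := mul_le_mul_of_nonneg_right h2 (norm_nonneg w)
    linarith
  · rw [hev.deriv_eq]
    refine hd.trans ?_
    nlinarith [mul_nonneg hC hK0]

end Pool.Agent.Helper66.RF
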