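import Pool.Agent.Helper66.RF.Defs
import Pool.Agent.Helper9.BSD.Cont

set_option autoImplicit false

/-!
The logarithm near the point `0`.
-/

namespace Pool.Agent.Helper66.RF

open Complex MeasureTheory Set Filter Topology

lemma near_deriv_pw {a : ℝ} {w : ℂ} (hw : 0 < w.re) :
    HasDerivAt (fun w : ℂ => 1 + w ^ (a : ℂ)) ((a : ℂ) * w ^ ((a : ℂ) - 1)) w := by
  have h := (hasDerivAt_id w).cpow_const (c := (a : ℂ)) (mem_slit hw)
  have h2 := h.const_add (1 : ℂ)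
  simpa using h2

lemma near_tendsto_pw {a : ℝ} (h0 : 0 < a) :
    Tendsto (fun w : ℂ => w ^ (a : ℂ)) (𝓝[{w : ℂ | 0 < w.re}] 0) (𝓝 0) := by
  rw [tendsto_zero_iff_norm_tendsto_zero]
  have h1 : Tendsto (fun w : ℂ => ‖w‖ ^ a) (𝓝[{w : ℂ | 0 < w.re}] 0) (𝓝 0) := by
    have h2 : Tendsto (fun w : ℂ => ‖w‖ ^ a) (𝓝 0) (𝓝 (‖(0 : ℂ)‖ ^ a)) := by
      have h3 : ContinuousAt (fun x : ℝ => x ^ a) ‖(0 : ℂ)‖ :=
        Real.continuousAt_rpow_const _ _ (Or.inr h0.le)
      exact h3.tendsto.comp continuous_norm.continuousAt.tendsto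
    rw [norm_zero, Real.zero_rpow h0.ne'] at h2
    exact h2.mono_left nhdsWithin_le_nhds
  refine h1.congr' ?_
  filter_upwards [self_mem_nhdsWithin] with w hw
  exact (norm_pw (ne_zero_of_re hw)).symm

lemma near_point {F G : ℂ → ℂ} {m : ℕ} (hG : AnalyticAt ℂ G 1) (hG1 : G 1 ≠ 0)
    (hFG : ∀ᶠ z in 𝓝 (1 : ℂ), F z = (z - 1) ^ m • G z) :
    ∃ δ : ℝ, 0 < δ ∧ ∀ s : ℂ, ‖s - 1‖ < δ →
      F s = (s - 1) ^ m * G s ∧ DifferentiableAt ℂ G s ∧ G s / G 1 ∈ slitPlane := by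
  have hd : ∀ᶠ s in 𝓝 (1 : ℂ), DifferentiableAt ℂ G s :=
    hG.eventually_analyticAt.mono fun s hs => hs.differentiableAt
  have hs : ∀ᶠ s in 𝓝 (1 : ℂ), G s / G 1 ∈ slitPlane := by
    have hc : ContinuousAt (fun s => G s / G 1) 1 := hG.continuousAt.div_const _
    have hmem : slitPlane ∈ 𝓝 ((fun s => G s / G 1) (1 : ℂ)) := by
      apply isOpen_slitPlane.mem_nhds
      show G 1 / G 1 ∈ slitPlane
      rw [div_self hG1]
      exact one_mem_slitPlane
    exact hc hmem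
  obtain ⟨δ, hδ, h⟩ := Metric.eventually_nhds_iff.mp (hFG.and (hd.and hs))
  refine ⟨δ, hδ, fun s hs => ?_⟩
  have h1 := h (by rwa [dist_eq_norm] : dist s 1 < δ)
  exact ⟨by simpa [smul_eq_mul] using h1.1, h1.2.1, h1.2.2⟩

/-- PIECE RF-Bc.  Behaviour near `0` of the logarithm `g` of `F (1 + w^a)`.
Proof: `F s = (s - 1)^m * G s` near `1` with `G` analytic at `1`, `G 1 = iteratedDeriv m F 1 / m! ≠ 0`
(`AnalyticAt.analyticOrderAt_eq_natCast`; the value of `G 1`: `Pool.Agent.Helper9.BSD.leading_coeff` in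
`Helper9/BSD/Cont.lean` gives the limit of `F s / (s-1)^m`; import that file).  For `w` in a small half disc
`{Re w > 0, |w| < r}` (convex) put `E w = g w - a m log w`; then `exp (E w) = G (1 + w^a)` because
`exp (a m log w) = (w^a)^m`, and `E w - log (G (1 + w^a) / G 1)` (principal logarithm, `G(1+w^a)/G 1` is
close to `1`) has derivative `0` (or is continuous with constant exponential `G 1`), so it is a
constant `ℓ`, `exp ℓ = G 1`.  As `w → 0`: `E w → ℓ`.  Also `E' = g' - a m / w` equals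
`a w^(a-1) G'(1+w^a) / G(1+w^a)`, so `w g'(w) = a m + a w^a G'/G → a m`. -/
theorem near {a : ℝ} (h0 : 0 < a) (h1 : a < 1) {F : ℂ → ℂ} (hF : Differentiable ℂ F) {m : ℕ}
    (hm : analyticOrderAt F 1 = m) {g : ℂ → ℂ}
    (hg : ∀ w : ℂ, 0 < w.re → DifferentiableAt ℂ g w)
    (hexp : ∀ w : ℂ, 0 < w.re → cexp (g w) = F (1 + w ^ (a : ℂ))) :
    ∃ ℓ : ℂ, cexp ℓ = iteratedDeriv m F 1 / (m.factorial : ℂ) ∧
      Tendsto (fun w : ℂ => g w - ((a * m : ℝ) : ℂ) * log w) (𝓝[{w : ℂ | 0 < w.re}] 0) (𝓝 ℓ) ∧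
      Tendsto (fun w : ℂ => w * deriv g w) (𝓝[{w : ℂ | 0 < w.re}] 0)
        (𝓝 (((a * m : ℝ) : ℂ))) := by
  obtain ⟨G, hG, hG1, hFG⟩ := (hF.analyticAt 1).analyticOrderAt_eq_natCast.mp hm
  obtain ⟨-, hlim⟩ := Pool.Agent.Helper9.BSD.leading_coeff F hF m hm
  have hval : G 1 = iteratedDeriv m F 1 / (m.factorial : ℂ) := by
    have h1 : Tendsto (fun s => F s / (s - 1) ^ m) (𝓝[≠] 1) (𝓝 (G 1)) := by
      have h2 : Tendsto G (𝓝[≠] 1) (𝓝 (G 1)) :=
        hG.continuousAt.tendsto.mono_left nhdsWithin_le_nhds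
      refine h2.congr' ?_
      have h3 : ∀ᶠ s in 𝓝[≠] (1 : ℂ), F s = (s - 1) ^ m • G s :=
        hFG.filter_mono nhdsWithin_le_nhds
      filter_upwards [h3, self_mem_nhdsWithin] with s hs hs1
      have hne : s - 1 ≠ 0 := sub_ne_zero.mpr hs1
      rw [hs, smul_eq_mul, mul_comm, mul_div_assoc, div_self (pow_ne_zero _ hne), mul_one]
    exact tendsto_nhds_unique h1 hlim
  obtain ⟨δ, hδ, hpt⟩ := near_point hG hG1 hFG
  set r : ℝ := δ ^ (1 / a) with hr
  have hr0 : 0 < r := Real.rpow_pos_of_pos hδ _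
  have hra : r ^ a = δ := by
    rw [hr, ← Real.rpow_mul hδ.le, one_div, inv_mul_cancel₀ h0.ne', Real.rpow_one]
  set U : Set ℂ := {w : ℂ | 0 < w.re} ∩ Metric.ball 0 r with hU
  have hUo : IsOpen U :=
    (isOpen_lt continuous_const Complex.continuous_re).inter Metric.isOpen_ball
  have hUc : IsPreconnected U :=
    ((convex_halfSpace_re_gt 0).inter (convex_ball 0 r)).isPreconnected
  have hUn : U ∈ 𝓝[{w : ℂ | 0 < w.re}] 0 := by
    rw [hU]
    exact inter_mem self_mem_nhdsWithin (mem_nhdsWithin_of_mem_nhds (Metric.ball_mem_nhds 0 hr0))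
  have hin : ∀ w ∈ U, ‖(1 + w ^ (a : ℂ)) - 1‖ < δ := by
    intro w hw
    have hw1 : ‖w‖ < r := by simpa using hw.2
    rw [add_sub_cancel_left, norm_pw (ne_zero_of_re hw.1), ← hra]
    exact Real.rpow_lt_rpow (norm_nonneg _) hw1 h0
  -- the difference is constant
  set D : ℂ → ℂ := fun w => g w - ((a * m : ℝ) : ℂ) * log w - log (G (1 + w ^ (a : ℂ)) / G 1)
    with hD
  have hdG : ∀ w ∈ U, HasDerivAt (fun w : ℂ => G (1 + w ^ (a : ℂ)) / G 1)
      (deriv G (1 + w ^ (a : ℂ)) * ((a : ℂ) * w ^ ((a : ℂ) - 1)) / G 1) w := by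
    intro w hw
    have h1 : HasDerivAt G (deriv G (1 + w ^ (a : ℂ))) (1 + w ^ (a : ℂ)) :=
      (hpt _ (hin w hw)).2.1.hasDerivAt
    exact (h1.comp w (near_deriv_pw hw.1)).div_const _
  have hdlog : ∀ w ∈ U, HasDerivAt (fun w : ℂ => log (G (1 + w ^ (a : ℂ)) / G 1))
      ((deriv G (1 + w ^ (a : ℂ)) * ((a : ℂ) * w ^ ((a : ℂ) - 1)) / G 1) /
        (G (1 + w ^ (a : ℂ)) / G 1)) w := by
    intro w hw
    exact (hdG w hw).clog (hpt _ (hin w hw)).2.2
  have hdm : ∀ w ∈ U, HasDerivAt (fun w : ℂ => ((a * m : ℝ) : ℂ) * log w)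
      (((a * m : ℝ) : ℂ) * w⁻¹) w := by
    intro w hw
    exact (Complex.hasDerivAt_log (mem_slit hw.1)).const_mul _
  have hDd : ∀ w ∈ U, DifferentiableAt ℂ D w := by
    intro w hw
    exact (((hg w hw.1).sub (hdm w hw).differentiableAt).sub (hdlog w hw).differentiableAt)
  have hDexp : ∀ w ∈ U, cexp (D w) = G 1 := by
    intro w hw
    have hw0 : w ≠ 0 := ne_zero_of_re hw.1
    have hq : G (1 + w ^ (a : ℂ)) / G 1 ≠ 0 := slitPlane_ne_zero (hpt _ (hin w hw)).2.2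
    have hGne : G (1 + w ^ (a : ℂ)) ≠ 0 := fun h => hq (by rw [h, zero_div])
    have h1 : cexp (((a * m : ℝ) : ℂ) * log w) = (w ^ (a : ℂ)) ^ m := by
      rw [Complex.cpow_def_of_ne_zero hw0, ← Complex.exp_nat_mul]
      congr 1
      push_cast
      ring
    have h2 := (hpt _ (hin w hw)).1
    rw [add_sub_cancel_left] at h2
    rw [hD]
    simp only
    rw [Complex.exp_sub, Complex.exp_sub, hexp w hw.1, h1, Complex.exp_log hq, h2]
    have h3 : (w ^ (a : ℂ)) ^ m ≠ 0 := pow_ne_zero _ (pw_ne_zero hw0)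
    field_simp
  have hD0 : Set.EqOn (deriv D) 0 U := by
    intro w hw
    have h1 : HasDerivAt (fun w => cexp (D w)) (cexp (D w) * deriv D w) w :=
      (hDd w hw).hasDerivAt.cexp
    have h2 : (fun w => cexp (D w)) =ᶠ[𝓝 w] fun _ => G 1 := by
      filter_upwards [hUo.mem_nhds hw] with z hz using hDexp z hz
    have h3 : HasDerivAt (fun w => cexp (D w)) 0 w :=
      (hasDerivAt_const w (G 1)).congr_of_eventuallyEq h2
    have h4 := h1.unique h3
    exact (mul_eq_zero.mp h4).resolve_left (Complex.exp_ne_zero _)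
  have hw0 : ((r / 2 : ℝ) : ℂ) ∈ U := by
    refine ⟨?_, ?_⟩
    · show 0 < (((r / 2 : ℝ) : ℂ)).re
      rw [Complex.ofReal_re]
      linarith
    · rw [Metric.mem_ball, dist_zero_right, Complex.norm_real, Real.norm_eq_abs,
        abs_of_pos (by linarith)]
      linarith
  have hconst : ∀ w ∈ U, D w = D ((r / 2 : ℝ) : ℂ) := fun w hw =>
    hUo.is_const_of_deriv_eq_zero hUc (fun z hz => (hDd z hz).differentiableWithinAt) hD0 hw hw0
  refine ⟨D ((r / 2 : ℝ) : ℂ), by rw [hDexp _ hw0, hval], ?_, ?_⟩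
  · have hp : Tendsto (fun w : ℂ => 1 + w ^ (a : ℂ)) (𝓝[{w : ℂ | 0 < w.re}] 0) (𝓝 1) := by
      simpa using (near_tendsto_pw h0).const_add 1
    have h1 : Tendsto (fun w : ℂ => log (G (1 + w ^ (a : ℂ)) / G 1))
        (𝓝[{w : ℂ | 0 < w.re}] 0) (𝓝 0) := by
      have h2 : ContinuousAt (fun s => log (G s / G 1)) 1 := by
        have h3 : ContinuousAt (fun s => G s / G 1) 1 := hG.continuousAt.div_const _
        refine h3.clog ?_
        show G 1 / G 1 ∈ slitPlane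
        rw [div_self hG1]
        exact one_mem_slitPlane
      have h4 := h2.tendsto.comp hp
      rw [div_self hG1, Complex.log_one] at h4
      exact h4
    have h5 := h1.const_add (D ((r / 2 : ℝ) : ℂ))
    rw [add_zero] at h5
    refine h5.congr' ?_
    filter_upwards [hUn] with w hw
    rw [← hconst w hw, hD]
    ring
  · have hp : Tendsto (fun w : ℂ => 1 + w ^ (a : ℂ)) (𝓝[{w : ℂ | 0 < w.re}] 0) (𝓝 1) := by
      simpa using (near_tendsto_pw h0).const_add 1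
    have h1 : Tendsto (fun w : ℂ => deriv G (1 + w ^ (a : ℂ)) / G (1 + w ^ (a : ℂ)))
        (𝓝[{w : ℂ | 0 < w.re}] 0) (𝓝 (deriv G 1 / G 1)) := by
      have h2 : ContinuousAt (fun s => deriv G s / G s) 1 :=
        (hG.deriv.continuousAt).div hG.continuousAt hG1
      exact h2.tendsto.comp hp
    have h3 : Tendsto (fun w : ℂ => ((a * m : ℝ) : ℂ) +
        (a : ℂ) * (w ^ (a : ℂ) * (deriv G (1 + w ^ (a : ℂ)) / G (1 + w ^ (a : ℂ)))))
        (𝓝[{w : ℂ | 0 < w.re}] 0) (𝓝 (((a * m : ℝ) : ℂ))) := by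
      have h4 := (((near_tendsto_pw h0).mul h1).const_mul (a : ℂ)).const_add ((a * m : ℝ) : ℂ)
      rw [zero_mul, mul_zero, add_zero] at h4
      exact h4
    refine h3.congr' ?_
    filter_upwards [hUn] with w hw
    have hw0 : w ≠ 0 := ne_zero_of_re hw.1
    have hq : G (1 + w ^ (a : ℂ)) / G 1 ≠ 0 := slitPlane_ne_zero (hpt _ (hin w hw)).2.2
    have hGne : G (1 + w ^ (a : ℂ)) ≠ 0 := fun h => hq (by rw [h, zero_div])
    have h5 : HasDerivAt g (((a * m : ℝ) : ℂ) * w⁻¹ +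
        (deriv G (1 + w ^ (a : ℂ)) * ((a : ℂ) * w ^ ((a : ℂ) - 1)) / G 1) /
        (G (1 + w ^ (a : ℂ)) / G 1)) w := by
      have h6 := ((hdm w hw).add (hdlog w hw)).const_add (D ((r / 2 : ℝ) : ℂ))
      refine h6.congr_of_eventuallyEq ?_
      filter_upwards [hUo.mem_nhds hw] with z hz
      have h7 := hconst z hz
      rw [← h7, hD]
      simp only [Pi.add_apply]
      ring
    rw [h5.deriv]
    have h8 : w * w ^ ((a : ℂ) - 1) = w ^ (a : ℂ) := by
      rw [Complex.cpow_sub _ _ hw0, Complex.cpow_one]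
      field_simp
    rw [← h8]
    field_simp

end Pool.Agent.Helper66.RF
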