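import Pool.Agent.Helper66.RF.Defs

set_option autoImplicit false

/-!
The logarithmic derivative up to the boundary line.
-/

namespace Pool.Agent.Helper66.RF

open Complex MeasureTheory Set Filter Topology

private lemma bd1_aux {f : ℂ → ℂ} {w0 : ℂ} (hf : AnalyticAt ℂ f w0) (hne : f w0 ≠ 0) :
    ∃ C : ℝ, 0 ≤ C ∧ ∀ᶠ w in 𝓝 w0, ‖deriv f w / f w‖ ≤ C := by
  have h1 : ContinuousAt (fun w => ‖deriv f w / f w‖) w0 :=
    (hf.deriv.continuousAt.div hf.continuousAt hne).norm
  refine ⟨‖deriv f w0 / f w0‖ + 1, by positivity, ?_⟩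
  have h2 : ∀ᶠ w in 𝓝 w0, ‖deriv f w / f w‖ < ‖deriv f w0 / f w0‖ + 1 :=
    h1.eventually_lt continuousAt_const (by simp)
  filter_upwards [h2] with w hw
  exact hw.le

/-- PIECE RF-Bd1.  Local bound: the logarithmic derivative of a function analytic at `w0` which is not
locally zero has at most a simple pole.
Proof: `f w = (w - w0)^n * G w` near `w0` with `G w0 ≠ 0` (`AnalyticAt.analyticOrderAt_eq_natCast` or
`exists_eventuallyEq_pow_smul_nonzero_iff`), so `f'/f = n / (w - w0) + G'/G`. -/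
theorem logDeriv_local {f : ℂ → ℂ} {w0 : ℂ} (hf : AnalyticAt ℂ f w0)
    (hne : analyticOrderAt f w0 ≠ ⊤) :
    ∃ C : ℝ, 0 ≤ C ∧ ∀ᶠ w in 𝓝[≠] w0, ‖deriv f w / f w‖ ≤ C * (1 + 1 / ‖w - w0‖) := by
  obtain ⟨G, hG, hG0, hfG⟩ := hf.analyticOrderAt_ne_top.1 hne
  set n := analyticOrderNatAt f w0 with hn
  obtain ⟨C, hC0, hC⟩ := bd1_aux hG hG0
  refine ⟨C + n, by positivity, ?_⟩
  have h1 : ∀ᶠ w in 𝓝 w0, G w ≠ 0 := hG.continuousAt.eventually_ne hG0
  have h2 : ∀ᶠ w in 𝓝 w0, DifferentiableAt ℂ G w :=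
    (hG.eventually_analyticAt).mono fun w hw => hw.differentiableAt
  have h3 := hfG.eventually_nhds
  filter_upwards [self_mem_nhdsWithin, nhdsWithin_le_nhds hC, nhdsWithin_le_nhds h1,
    nhdsWithin_le_nhds h2, nhdsWithin_le_nhds h3, nhdsWithin_le_nhds hfG]
    with w hw hwC hwG hwd hwf hwf'
  have hw0 : w - w0 ≠ 0 := sub_ne_zero.2 hw
  have hder : deriv f w = (n : ℂ) * (w - w0) ^ (n - 1) * G w + (w - w0) ^ n * deriv G w := by
    rw [Filter.EventuallyEq.deriv_eq hwf]
    simp only [smul_eq_mul]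
    have h4 : HasDerivAt (fun z : ℂ => (z - w0) ^ n) ((n : ℂ) * (w - w0) ^ (n - 1) * 1) w :=
      ((hasDerivAt_id w).sub_const w0).pow n
    rw [mul_one] at h4
    exact (h4.mul hwd.hasDerivAt).deriv
  have hq : deriv f w / f w = (n : ℂ) / (w - w0) + deriv G w / G w := by
    rw [hder, hwf', smul_eq_mul]
    rcases Nat.eq_zero_or_pos n with h5 | h5
    · rw [h5]
      simp
    · obtain ⟨k, hk⟩ : ∃ k, n = k + 1 := ⟨n - 1, by omega⟩
      rw [hk]
      simp only [Nat.add_sub_cancel]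
      field_simp
      ring
  rw [hq]
  refine (norm_add_le _ _).trans ?_
  rw [norm_div, Complex.norm_natCast]
  have h6 : 0 ≤ 1 / ‖w - w0‖ := by positivity
  have h7 : (n : ℝ) / ‖w - w0‖ = n * (1 / ‖w - w0‖) := by ring
  rw [h7]
  have h8 : (0 : ℝ) ≤ n := Nat.cast_nonneg n
  nlinarith [mul_nonneg hC0 h6]

/-- PIECE RF-Bd1, second statement: no pole if `f w0 ≠ 0`. -/
theorem logDeriv_local' {f : ℂ → ℂ} {w0 : ℂ} (hf : AnalyticAt ℂ f w0) (hne : f w0 ≠ 0) :
    ∃ C : ℝ, 0 ≤ C ∧ ∀ᶠ w in 𝓝 w0, ‖deriv f w / f w‖ ≤ C := bd1_aux hf hne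

/-- PIECE RF-Bd2.  Bound on compact parts of the closed half plane without `0`: the boundary zeros of
`F (1 + w^a)` give at most simple poles of `g'` on the imaginary axis.
Proof: `f w = F (1 + w^a)` is analytic on the slit plane (`hasDerivAt_pw`), which is preconnected
(star-shaped), and `f ≠ 0` on `Re w > 0` (`= exp (g w)`), so its order is finite at every point of the
slit plane (`AnalyticOnNhd.eqOn_zero_of_preconnected_of_eventuallyEq_zero`).  For `Re w > 0`,
`deriv g w = deriv f w / f w` (differentiate `exp g = f`).  Compact set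
`K = {0 ≤ Re w ≤ 1, δ ≤ |w| ≤ R}`, contained in the slit plane (`mem_slit'`).  For the property
`P(S) : ∃ C Z, 0 ≤ C ∧ ∀ w ∈ S, 0 < Re w → ‖deriv g w‖ ≤ C (1 + sum over Z of 1/‖w - v I‖)` use
`IsCompact.induction_on`: empty set, monotone, union (max of the constants, union of the sets), and
locally: at `w0 ∈ K` with `f w0 ≠ 0` use `logDeriv_local'` with `Z` empty; with `f w0 = 0` one has
`Re w0 = 0`, `w0 = v I`, use `logDeriv_local` with `Z = {v}` (points `w` with `Re w > 0` are different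
from `w0`). -/
theorem middle {a : ℝ} (h0 : 0 < a) (h1 : a < 1) {F : ℂ → ℂ} (hF : Differentiable ℂ F)
    {g : ℂ → ℂ} (hg : ∀ w : ℂ, 0 < w.re → DifferentiableAt ℂ g w)
    (hexp : ∀ w : ℂ, 0 < w.re → cexp (g w) = F (1 + w ^ (a : ℂ))) {δ R : ℝ} (hδ : 0 < δ) :
    ∃ (C : ℝ) (Z : Finset ℝ), 0 ≤ C ∧ ∀ w : ℂ, 0 < w.re → w.re ≤ 1 → δ ≤ ‖w‖ → ‖w‖ ≤ R →
      ‖deriv g w‖ ≤ C * (1 + ∑ v ∈ Z, 1 / ‖w - v * I‖) := by
  classical
  obtain ⟨f, hf⟩ : ∃ f : ℂ → ℂ, f = fun w => F (1 + w ^ (a : ℂ)) := ⟨_, rfl⟩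
  have hfd : DifferentiableOn ℂ f slitPlane := by
    intro w hw
    rw [hf]
    exact ((hF _).comp w ((hasDerivAt_pw hw).differentiableAt.const_add 1)).differentiableWithinAt
  have hfa : AnalyticOnNhd ℂ f slitPlane := hfd.analyticOnNhd isOpen_slitPlane
  have hfe : ∀ w : ℂ, 0 < w.re → f w = cexp (g w) := by
    intro w hw
    rw [hexp w hw, hf]
  have hf0 : ∀ w : ℂ, 0 < w.re → f w ≠ 0 := by
    intro w hw
    rw [hfe w hw]
    exact Complex.exp_ne_zero _
  have hpre : IsPreconnected slitPlane :=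
    (Complex.starConvex_one_slitPlane.isPathConnected
      Complex.one_mem_slitPlane).isConnected.isPreconnected
  have hord : ∀ w0 ∈ slitPlane, analyticOrderAt f w0 ≠ ⊤ := by
    intro w0 hw0 htop
    have h2 := hfa.eqOn_zero_of_preconnected_of_eventuallyEq_zero hpre hw0
      (analyticOrderAt_eq_top.1 htop)
    exact hf0 1 (by simp) (h2 Complex.one_mem_slitPlane)
  have hder : ∀ w : ℂ, 0 < w.re → deriv g w = deriv f w / f w := by
    intro w hw
    have hopen : {z : ℂ | 0 < z.re} ∈ 𝓝 w :=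
      (isOpen_lt continuous_const Complex.continuous_re).mem_nhds hw
    have h3 : f =ᶠ[𝓝 w] fun z => cexp (g z) := by
      filter_upwards [hopen] with z hz
      exact hfe z hz
    have h4 : deriv f w = cexp (g w) * deriv g w := by
      rw [h3.deriv_eq]
      exact (hg w hw).hasDerivAt.cexp.deriv
    rw [h4, ← hfe w hw, mul_div_cancel_left₀ _ (hf0 w hw)]
  have hK : IsCompact {w : ℂ | 0 ≤ w.re ∧ w.re ≤ 1 ∧ δ ≤ ‖w‖ ∧ ‖w‖ ≤ R} := by
    refine Metric.isCompact_of_isClosed_isBounded ?_ ?_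
    · exact (isClosed_le continuous_const Complex.continuous_re).inter
        ((isClosed_le Complex.continuous_re continuous_const).inter
          ((isClosed_le continuous_const continuous_norm).inter
            (isClosed_le continuous_norm continuous_const)))
    · refine (Metric.isBounded_closedBall (x := (0 : ℂ)) (r := R)).subset ?_
      intro w hw
      rw [mem_closedBall_zero_iff]
      exact hw.2.2.2
  have hcov : ∃ (C : ℝ) (Z : Finset ℝ), 0 ≤ C ∧
      ∀ w ∈ {w : ℂ | 0 ≤ w.re ∧ w.re ≤ 1 ∧ δ ≤ ‖w‖ ∧ ‖w‖ ≤ R}, 0 < w.re →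
        ‖deriv g w‖ ≤ C * (1 + ∑ v ∈ Z, 1 / ‖w - v * I‖) := by
    refine hK.induction_on (p := fun S => ∃ (C : ℝ) (Z : Finset ℝ), 0 ≤ C ∧
      ∀ w ∈ S, 0 < w.re → ‖deriv g w‖ ≤ C * (1 + ∑ v ∈ Z, 1 / ‖w - v * I‖)) ?_ ?_ ?_ ?_
    · exact ⟨0, ∅, le_rfl, fun w hw => absurd hw (Set.notMem_empty w)⟩
    · rintro S T hST ⟨C, Z, hC, h⟩
      exact ⟨C, Z, hC, fun w hw => h w (hST hw)⟩
    · rintro S T ⟨C, Z, hC, h⟩ ⟨C', Z', hC', h'⟩
      refine ⟨max C C', Z ∪ Z', le_max_of_le_left hC, ?_⟩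
      have hnn : ∀ (w : ℂ) (Y : Finset ℝ), 0 ≤ ∑ v ∈ Y, 1 / ‖w - v * I‖ := fun w Y =>
        Finset.sum_nonneg fun v _ => by positivity
      rintro w (hw | hw) hw0
      · refine (h w hw hw0).trans (mul_le_mul (le_max_left _ _) ?_ ?_ (le_max_of_le_left hC))
        · have h5 := Finset.sum_le_sum_of_subset_of_nonneg (Finset.subset_union_left (s₁ := Z)
            (s₂ := Z')) (f := fun v : ℝ => 1 / ‖w - v * I‖) (fun v _ _ => by positivity)
          linarith
        · have := hnn w Z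
          linarith
      · refine (h' w hw hw0).trans (mul_le_mul (le_max_right _ _) ?_ ?_ (le_max_of_le_left hC))
        · have h5 := Finset.sum_le_sum_of_subset_of_nonneg (Finset.subset_union_right (s₁ := Z)
            (s₂ := Z')) (f := fun v : ℝ => 1 / ‖w - v * I‖) (fun v _ _ => by positivity)
          linarith
        · have := hnn w Z'
          linarith
    · intro w0 hw0
      have hne0 : w0 ≠ 0 := by
        rintro rfl
        have h6 := hw0.2.2.1
        rw [norm_zero] at h6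
        linarith
      have hs : w0 ∈ slitPlane := mem_slit' hw0.1 hne0
      by_cases hz : f w0 = 0
      · have hre : w0.re = 0 := by
          by_contra hre
          exact hf0 w0 (lt_of_le_of_ne hw0.1 (Ne.symm hre)) hz
        obtain ⟨C, hC, hev⟩ := logDeriv_local (hfa w0 hs) (hord w0 hs)
        rw [eventually_nhdsWithin_iff] at hev
        refine ⟨_, mem_nhdsWithin_of_mem_nhds hev, C, {w0.im}, hC, ?_⟩
        intro w hw hw1
        have hne : w ≠ w0 := by
          rintro rfl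
          rw [hre] at hw1
          exact lt_irrefl _ hw1
        have e : ((w0.im : ℝ) : ℂ) * I = w0 := by
          apply Complex.ext
          · simp [hre]
          · simp
        rw [Finset.sum_singleton, e, hder w hw1]
        exact hw hne
      · obtain ⟨C, hC, hev⟩ := logDeriv_local' (hfa w0 hs) hz
        refine ⟨_, mem_nhdsWithin_of_mem_nhds hev, C, ∅, hC, ?_⟩
        intro w hw hw1
        rw [Finset.sum_empty, add_zero, mul_one, hder w hw1]
        exact hw
  obtain ⟨C, Z, hC, h⟩ := hcov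
  exact ⟨C, Z, hC, fun w hw hw1 hw2 hw3 => h w ⟨hw.le, hw1, hw2, hw3⟩ hw⟩

end Pool.Agent.Helper66.RF
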