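import Pool.Agent.Helper66.RF.Sc
import Pool.Agent.Helper9.BSD.ContZero

set_option autoImplicit false

/-!
The converse: growth at most a power of `τ` makes the sector zero-free.
-/

namespace Pool.Agent.Helper66.RF

open Complex MeasureTheory Set Filter Topology Pool.Agent.Helper9.BSD

/-- The coefficients of the Euler product are admissible. -/
lemma bd_lam (W : WeierstrassCurve ℤ) : Bd (lam W) := by
  refine ⟨fun n => (abs_lam_le W n).trans (by norm_num), ?_, ?_⟩
  · unfold lam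
    rw [if_neg not_isPrimePow_zero]
  · unfold lam
    rw [if_neg not_isPrimePow_one]

/-- PIECE RF-Ca1.  The Dirichlet series is the logarithm of the Euler product where `Re w^a > 2`.
Proof: `LE_eq_lam` with `w^a` in place of `w`, `hFL`, and `Phi (lam W) a w = LSeries (lam W) (w^a)`
(termwise `n^(-z) = exp (- log n z)` for `n ≥ 1`, both vanish at `n = 0`). -/
theorem exp_Phi_lam (W : WeierstrassCurve ℤ) {F : ℂ → ℂ}
    (hFL : ∀ s : ℂ, 3 / 2 < s.re → F s = LE W s) {a : ℝ} {w : ℂ}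
    (hw : 2 < (w ^ (a : ℂ)).re) : cexp (Phi (lam W) a w) = F (1 + w ^ (a : ℂ)) := by
  have h1 : Phi (lam W) a w = LSeries (fun n => (lam W n : ℂ)) (w ^ (a : ℂ)) := by
    unfold Phi LSeries
    refine tsum_congr fun n => ?_
    rcases eq_or_ne n 0 with rfl | hn
    · rw [LSeries.term_zero, (bd_lam W).2.1]
      simp
    · have hn0 : (n : ℂ) ≠ 0 := Nat.cast_ne_zero.mpr hn
      rw [LSeries.term_of_ne_zero hn, div_eq_mul_inv, ← Complex.cpow_neg,
        Complex.cpow_def_of_ne_zero hn0, ← Complex.natCast_log]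
      congr 2
      ring
  rw [h1, ← LE_eq_lam W _ (by linarith), hFL]
  rw [add_re, one_re]
  linarith

/-- PIECE RF-Ca2.  The converse by Landau's lemma.
Proof.  Let `S x = - Ser (lam W) a (log x)` for `x > 1` (`0` otherwise), measurable by the continuity in
`Ser_bound`.  (i) For every `ε > 0` there is `A` with `S x ≤ A x^ε` for all `x > 1`: for large `T = log x`
by the hypothesis (`B log T ≤ A exp (ε T)`), for bounded `T` by `Ser_bound`.  (ii) For `w > A0` (`A0 > 0`
with `4 ≤ ca a * A0^a`) `∫ x in Ioi 1, S x * x^(-w-1) = - ∫ T in Ioi 0, Ser T exp (- w T) = - Phi(w)/w`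
(`series_laplace`; substitution `x = exp T`: see `mellin_laplace_int`, `JJ_eq_Lap`, `JJ_ofReal` in
`Helper9/BSD/WRep.lean`), and `F (1 + w^a) = exp (Phi w)`; for real `w` all are real.  (iii) apply
`Pool.Agent.Helper9.BSD.core` (file `Helper9/BSD/Core.lean`) with `S`, `w₁ = A0`, any small `θ = ε`,
`F := fun w => F (1 + (w : ℂ)^a)` (real analytic on `w > 0`), `H = 0`: integrability and
`F (1 + w^a) = exp (- w ∫ S x x^(-w-1))` for all real `w > ε`, so for all `w > 0`.  (iv) `exp_rep` in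
`WRep.lean` extends to complex `w`, `Re w > 0` (as in `ne_of_hone`, file `ContZero.lean`), hence
`F (1 + w^a) ≠ 0`. -/
theorem converse_exp (W : WeierstrassCurve ℤ) {F : ℂ → ℂ} (hF : Differentiable ℂ F)
    (hFL : ∀ s : ℂ, 3 / 2 < s.re → F s = LE W s) {a : ℝ} (h0 : 0 < a) (h1 : a < 1)
    (hb : ∀ ε : ℝ, 0 < ε → ∀ᶠ T : ℝ in atTop, -Ser (lam W) a T ≤ Real.exp (ε * T)) :
    ∀ w : ℂ, 0 < w.re → F (1 + w ^ (a : ℂ)) ≠ 0 := by
  have hca := ca_pos h0 h1
  obtain ⟨A0, hA0, hA2⟩ : ∃ A : ℝ, 0 < A ∧ 4 ≤ ca a * A ^ a := by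
    have h2 : Tendsto (fun A : ℝ => A ^ a) atTop atTop := tendsto_rpow_atTop h0
    obtain ⟨A, hA1, hA2⟩ := ((h2.eventually_ge_atTop (4 / ca a)).and
      (eventually_gt_atTop 0)).exists
    refine ⟨A, hA2, ?_⟩
    rw [div_le_iff₀ hca] at hA1
    linarith
  obtain ⟨⟨C, hC0, hC⟩, hcont⟩ := Ser_bound h0 h1 (bd_lam W) hA0 hA2
  -- the function
  set S : ℝ → ℝ := (Ioi (1 : ℝ)).piecewise (fun x => -Ser (lam W) a (Real.log x)) (fun _ => 0)
    with hS
  have hSm : Measurable S := by
    refine ContinuousOn.measurable_piecewise ?_ continuousOn_const measurableSet_Ioi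
    refine ContinuousOn.neg (hcont.comp ?_ fun x hx => Real.log_pos hx)
    exact Real.continuousOn_log.mono fun x hx => ne_of_gt (lt_trans one_pos hx)
  have hS1 : ∀ x : ℝ, 1 < x → S x = -Ser (lam W) a (Real.log x) := fun x hx =>
    Set.piecewise_eq_of_mem _ _ _ hx
  have hSe : ∀ u : ℝ, 0 < u → S (Real.exp u) = -Ser (lam W) a u := by
    intro u hu
    rw [hS1 _ (Real.one_lt_exp_iff.2 hu), Real.log_exp]
  -- the bound
  have hone : ∀ ε : ℝ, 0 < ε → ∃ A : ℝ, ∀ x : ℝ, 1 < x → S x ≤ A * x ^ ε := by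
    intro ε hε
    obtain ⟨T0, hT1⟩ := eventually_atTop.1 (hb ε hε)
    set T1 : ℝ := max T0 1 with hT1d
    have hT11 : 1 ≤ T1 := le_max_right _ _
    refine ⟨1 + C * Real.exp (A0 * T1), fun x hx => ?_⟩
    have hx0 : 0 < x := lt_trans one_pos hx
    set T : ℝ := Real.log x with hT
    have hT0 : 0 < T := Real.log_pos hx
    have hxε : x ^ ε = Real.exp (ε * T) := by
      rw [Real.rpow_def_of_pos hx0, mul_comm]
    have hexp1 : 1 ≤ Real.exp (ε * T) := Real.one_le_exp (by positivity)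
    rw [hS1 x hx, hxε]
    rcases le_total T1 T with h | h
    · have h2 := hT1 T ((le_max_left _ _).trans h)
      have h8 : 0 ≤ C * Real.exp (A0 * T1) * Real.exp (ε * T) := by positivity
      rw [add_mul, one_mul]
      linarith
    · have h2 := hC T hT0
      have h3 : -Ser (lam W) a T ≤ C * Real.exp (A0 * T) := (neg_le_abs _).trans h2
      have h4 : C * Real.exp (A0 * T) ≤ C * Real.exp (A0 * T1) :=
        mul_le_mul_of_nonneg_left (Real.exp_le_exp.2 (mul_le_mul_of_nonneg_left h hA0.le)) hC0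
      have h5 : C * Real.exp (A0 * T1) ≤ C * Real.exp (A0 * T1) * Real.exp (ε * T) :=
        le_mul_of_one_le_right (by positivity) hexp1
      rw [add_mul, one_mul]
      linarith
  -- the values for large `w`
  have hlarge : ∀ w : ℝ, A0 < w → IntegrableOn (fun x => S x * x ^ (-w - 1)) (Ioi (1 : ℝ)) ∧
      F (1 + (w : ℂ) ^ (a : ℂ)) =
        ((Real.exp (-w * (∫ x in Ioi (1 : ℝ), S x * x ^ (-w - 1))) : ℝ) : ℂ) := by
    intro w hw
    have hw0 : 0 < w := hA0.trans hw
    obtain ⟨hi, hv⟩ := series_laplace h0 h1 (bd_lam W) hA0 hA2 hw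
    constructor
    · rw [mellin_laplace_int]
      refine (integrableOn_congr_fun (fun u hu => ?_) measurableSet_Ioi).2 hi.neg
      rw [hSe u hu, Pi.neg_apply]
      ring
    · have h2 : JJ S w = -(Phi (lam W) a (w : ℂ) / (w : ℂ)) := by
        rw [JJ_eq_Lap, ← hv]
        unfold Lap
        have e1 := integral_ofReal (𝕜 := ℂ) (μ := volume.restrict (Ioi (0 : ℝ)))
          (f := fun T : ℝ => Ser (lam W) a T * Real.exp (-w * T))
        refine Eq.trans ?_ (congrArg Neg.neg e1)
        rw [← integral_neg]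
        refine setIntegral_congr_fun measurableSet_Ioi fun u hu => ?_
        change ((S (Real.exp u) : ℝ) : ℂ) * cexp (-(w : ℂ) * u) =
          -((Ser (lam W) a u * Real.exp (-w * u) : ℝ) : ℂ)
        rw [hSe u hu]
        push_cast
        ring
      have hwC : (w : ℂ) ≠ 0 := ofReal_ne_zero.2 hw0.ne'
      have h3 : 2 < ((w : ℂ) ^ (a : ℂ)).re := by
        rw [← ofReal_cpow hw0.le, ofReal_re]
        have h4 : A0 ^ a ≤ w ^ a := Real.rpow_le_rpow hA0.le hw.le h0.le
        have h5 : ca a * A0 ^ a ≤ 1 * w ^ a :=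
          mul_le_mul (ca_le_one a) h4 (by positivity) zero_le_one
        linarith
      rw [← exp_Phi_lam W hFL h3]
      have h4 : -(w : ℂ) * JJ S w = Phi (lam W) a (w : ℂ) := by
        rw [h2]
        field_simp
      rw [← h4, JJ_ofReal]
      push_cast
      rfl
  -- analyticity on the real axis
  have han : ∀ w : ℝ, 0 < w → AnalyticAt ℝ (fun w : ℝ => F (1 + (w : ℂ) ^ (a : ℂ))) w := by
    intro w hw
    have hd : AnalyticAt ℂ (fun z : ℂ => F (1 + z ^ (a : ℂ))) (w : ℂ) := by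
      have h2 : AnalyticAt ℂ (fun z : ℂ => 1 + z ^ (a : ℂ)) (w : ℂ) :=
        analyticAt_const.add (analyticAt_id.cpow analyticAt_const
          (mem_slit (by rw [id, ofReal_re]; exact hw)))
      exact (hF.analyticAt _).comp h2
    exact (hd.restrictScalars (𝕜 := ℝ)).comp (Complex.ofRealCLM.analyticAt w)
  -- the core theorem
  have hall : ∀ w : ℝ, 0 < w → IntegrableOn (fun x => S x * x ^ (-w - 1)) (Ioi (1 : ℝ)) ∧
      F (1 + (w : ℂ) ^ (a : ℂ)) =
        ((Real.exp (-w * (∫ x in Ioi (1 : ℝ), S x * x ^ (-w - 1))) : ℝ) : ℂ) := by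
    intro w hw
    set θ : ℝ := min (w / 2) A0 with hθ
    have hθ0 : 0 < θ := lt_min (by linarith) hA0
    have hθw : θ < w := (min_le_left _ _).trans_lt (by linarith)
    obtain ⟨A, hA⟩ := hone θ hθ0
    have h2 := core S hSm A0 θ A hθ0.le (min_le_right _ _) (fun w hw => (hlarge w hw).1)
      (fun x hx => hA x hx) (fun w : ℝ => F (1 + (w : ℂ) ^ (a : ℂ)))
      (fun w hw => han w (hθ0.trans hw)) (fun _ => 0) (fun w _ => analyticAt_const)
      (fun w hw => by
        rw [add_zero]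
        exact (hlarge w hw).2) w hθw
    rw [add_zero] at h2
    exact h2
  intro w hw
  have h2 := exp_rep S hSm (fun w hw => (hall w hw).1) (Or.inl hone)
    (fun w => F (1 + w ^ (a : ℂ))) (fun w hw => ?_) (fun w hw => (hall w hw).2) w hw
  · rw [← h2]
    exact Complex.exp_ne_zero _
  · have h3 := (hasDerivAt_pw (a := a) (mem_slit hw)).differentiableAt
    exact (hF _).comp w ((differentiableAt_const _).add h3)

/-- PIECE RF-Ca2, the form with a power of `T = log x`. -/
theorem converse (W : WeierstrassCurve ℤ) {F : ℂ → ℂ} (hF : Differentiable ℂ F)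
    (hFL : ∀ s : ℂ, 3 / 2 < s.re → F s = LE W s) {a : ℝ} (h0 : 0 < a) (h1 : a < 1) {B : ℝ}
    (hb : ∀ᶠ T : ℝ in atTop, -Ser (lam W) a T ≤ B * Real.log T) :
    ∀ w : ℂ, 0 < w.re → F (1 + w ^ (a : ℂ)) ≠ 0 := by
  refine converse_exp W hF hFL h0 h1 fun ε hε => ?_
  filter_upwards [hb, eventually_ge_atTop (max 1 (2 * |B| / ε ^ 2))] with T h2 h3
  have hT1 : 1 ≤ T := (le_max_left _ _).trans h3
  have hT0 : 0 < T := by linarith
  have h4 : 2 * |B| ≤ T * ε ^ 2 := (div_le_iff₀ (by positivity)).1 ((le_max_right _ _).trans h3)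
  have h5 : 0 ≤ Real.log T := Real.log_nonneg hT1
  have h6 : Real.log T ≤ T := (Real.log_le_sub_one_of_pos hT0).trans (by linarith)
  have h7 : B * Real.log T ≤ |B| * T :=
    (mul_le_mul_of_nonneg_right (le_abs_self B) h5).trans
      (mul_le_mul_of_nonneg_left h6 (abs_nonneg B))
  have h8 := Real.quadratic_le_exp_of_nonneg (x := ε * T) (by positivity)
  have h9 : 2 * |B| * T ≤ T * ε ^ 2 * T := mul_le_mul_of_nonneg_right h4 hT0.le
  have h10 : 0 ≤ ε * T := by positivity
  nlinarith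

end Pool.Agent.Helper66.RF
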