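import Pool.Agent.Helper66.RF.Ca

set_option autoImplicit false

/-!
The converse from growth or decay slower than every power of `x`.
-/

namespace Pool.Agent.Helper66.RF

open Complex MeasureTheory Set Filter Topology Pool.Agent.Helper9.BSD

/-- The data for the argument of Landau. -/
lemma conv_setup (W : WeierstrassCurve ℤ) {F : ℂ → ℂ} (hF : Differentiable ℂ F)
    (hFL : ∀ s : ℂ, 3 / 2 < s.re → F s = LE W s) {a : ℝ} (h0 : 0 < a) (h1 : a < 1) :
    ∃ (A0 C : ℝ) (S : ℝ → ℝ), 0 < A0 ∧ 0 ≤ C ∧ Measurable S ∧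
      (∀ x : ℝ, 1 < x → S x = -Ser (lam W) a (Real.log x)) ∧
      (∀ x : ℝ, 1 < x → |S x| ≤ C * Real.exp (A0 * Real.log x)) ∧
      (∀ w : ℝ, A0 < w → IntegrableOn (fun x => S x * x ^ (-w - 1)) (Ioi (1 : ℝ)) ∧
        F (1 + (w : ℂ) ^ (a : ℂ)) =
          ((Real.exp (-w * (∫ x in Ioi (1 : ℝ), S x * x ^ (-w - 1))) : ℝ) : ℂ)) ∧
      (∀ w : ℝ, 0 < w → AnalyticAt ℝ (fun w : ℝ => F (1 + (w : ℂ) ^ (a : ℂ))) w) := by
  have hca := ca_pos h0 h1
  obtain ⟨A0, hA0, hA2⟩ : ∃ A : ℝ, 0 < A ∧ 4 ≤ ca a * A ^ a := by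
    have h2 : Tendsto (fun A : ℝ => A ^ a) atTop atTop := tendsto_rpow_atTop h0
    obtain ⟨A, hA1, hA2⟩ := ((h2.eventually_ge_atTop (4 / ca a)).and
      (eventually_gt_atTop 0)).exists
    refine ⟨A, hA2, ?_⟩
    rw [div_le_iff₀ hca] at hA1
    linarith
  obtain ⟨⟨C, hC0, hC⟩, hcont⟩ := Ser_bound h0 h1 (bd_lam W) hA0 hA2
  -- the function
  set S : ℝ → ℝ := (Ioi (1 : ℝ)).piecewise (fun x => -Ser (lam W) a (Real.log x)) (fun _ => 0)
    with hS
  have hSm : Measurable S := by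
    refine ContinuousOn.measurable_piecewise ?_ continuousOn_const measurableSet_Ioi
    refine ContinuousOn.neg (hcont.comp ?_ fun x hx => Real.log_pos hx)
    exact Real.continuousOn_log.mono fun x hx => ne_of_gt (lt_trans one_pos hx)
  have hS1 : ∀ x : ℝ, 1 < x → S x = -Ser (lam W) a (Real.log x) := fun x hx =>
    Set.piecewise_eq_of_mem _ _ _ hx
  have hSe : ∀ u : ℝ, 0 < u → S (Real.exp u) = -Ser (lam W) a u := by
    intro u hu
    rw [hS1 _ (Real.one_lt_exp_iff.2 hu), Real.log_exp]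
  refine ⟨A0, C, S, hA0, hC0, hSm, hS1, fun x hx => ?_, fun w hw => ?_, fun w hw => ?_⟩
  · rw [hS1 x hx, abs_neg]
    exact hC _ (Real.log_pos hx)
  · have hw0 : 0 < w := hA0.trans hw
    obtain ⟨hi, hv⟩ := series_laplace h0 h1 (bd_lam W) hA0 hA2 hw
    constructor
    · rw [mellin_laplace_int]
      refine (integrableOn_congr_fun (fun u hu => ?_) measurableSet_Ioi).2 hi.neg
      rw [hSe u hu, Pi.neg_apply]
      ring
    · have h2 : JJ S w = -(Phi (lam W) a (w : ℂ) / (w : ℂ)) := by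
        rw [JJ_eq_Lap, ← hv]
        unfold Lap
        have e1 := integral_ofReal (𝕜 := ℂ) (μ := volume.restrict (Ioi (0 : ℝ)))
          (f := fun T : ℝ => Ser (lam W) a T * Real.exp (-w * T))
        refine Eq.trans ?_ (congrArg Neg.neg e1)
        rw [← integral_neg]
        refine setIntegral_congr_fun measurableSet_Ioi fun u hu => ?_
        change ((S (Real.exp u) : ℝ) : ℂ) * cexp (-(w : ℂ) * u) =
          -((Ser (lam W) a u * Real.exp (-w * u) : ℝ) : ℂ)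
        rw [hSe u hu]
        push_cast
        ring
      have hwC : (w : ℂ) ≠ 0 := ofReal_ne_zero.2 hw0.ne'
      have h3 : 2 < ((w : ℂ) ^ (a : ℂ)).re := by
        rw [← ofReal_cpow hw0.le, ofReal_re]
        have h4 : A0 ^ a ≤ w ^ a := Real.rpow_le_rpow hA0.le hw.le h0.le
        have h5 : ca a * A0 ^ a ≤ 1 * w ^ a :=
          mul_le_mul (ca_le_one a) h4 (by positivity) zero_le_one
        linarith
      rw [← exp_Phi_lam W hFL h3]
      have h4 : -(w : ℂ) * JJ S w = Phi (lam W) a (w : ℂ) := by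
        rw [h2]
        field_simp
      rw [← h4, JJ_ofReal]
      push_cast
      rfl
  · have hd : AnalyticAt ℂ (fun z : ℂ => F (1 + z ^ (a : ℂ))) (w : ℂ) := by
      have h2 : AnalyticAt ℂ (fun z : ℂ => 1 + z ^ (a : ℂ)) (w : ℂ) :=
        analyticAt_const.add (analyticAt_id.cpow analyticAt_const
          (mem_slit (by rw [id, ofReal_re]; exact hw)))
      exact (hF.analyticAt _).comp h2
    exact (hd.restrictScalars (𝕜 := ℝ)).comp (Complex.ofRealCLM.analyticAt w)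

/-- From a bound for large arguments to a bound for all. -/
lemma conv_bound {S : ℝ → ℝ} {A0 C : ℝ} (hA0 : 0 < A0) (hC0 : 0 ≤ C)
    (hC : ∀ x : ℝ, 1 < x → S x ≤ C * Real.exp (A0 * Real.log x))
    (h : ∀ ε : ℝ, 0 < ε → ∀ᶠ T : ℝ in atTop, S (Real.exp T) ≤ Real.exp (ε * T)) :
    ∀ ε : ℝ, 0 < ε → ∃ A : ℝ, ∀ x : ℝ, 1 < x → S x ≤ A * x ^ ε := by
  intro ε hε
  obtain ⟨T1, hT1⟩ := eventually_atTop.1 (h ε hε)
  refine ⟨1 + C * Real.exp (A0 * |T1|), fun x hx => ?_⟩
  have hx0 : 0 < x := lt_trans one_pos hx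
  have hT0 : 0 < Real.log x := Real.log_pos hx
  have hxε : x ^ ε = Real.exp (ε * Real.log x) := by
    rw [Real.rpow_def_of_pos hx0, mul_comm]
  have hexp1 : 1 ≤ Real.exp (ε * Real.log x) := Real.one_le_exp (by positivity)
  rw [hxε, add_mul, one_mul]
  rcases le_total T1 (Real.log x) with h | h
  · have h2 := hT1 _ h
    rw [Real.exp_log hx0] at h2
    have h8 : 0 ≤ C * Real.exp (A0 * |T1|) * Real.exp (ε * Real.log x) := by positivity
    linarith
  · have h2 := hC x hx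
    have h4 : C * Real.exp (A0 * Real.log x) ≤ C * Real.exp (A0 * |T1|) :=
      mul_le_mul_of_nonneg_left (Real.exp_le_exp.2
        (mul_le_mul_of_nonneg_left (h.trans (le_abs_self _)) hA0.le)) hC0
    have h5 : C * Real.exp (A0 * |T1|) ≤ C * Real.exp (A0 * |T1|) * Real.exp (ε * Real.log x) :=
      le_mul_of_one_le_right (by positivity) hexp1
    have h6 := Real.exp_pos (ε * Real.log x)
    linarith

/-- The last step: from the real axis to the half plane. -/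
lemma conv_last {S : ℝ → ℝ} (hSm : Measurable S) {F : ℂ → ℂ} (hF : Differentiable ℂ F) {a : ℝ}
    (hall : ∀ w : ℝ, 0 < w → IntegrableOn (fun x => S x * x ^ (-w - 1)) (Ioi (1 : ℝ)) ∧
      F (1 + (w : ℂ) ^ (a : ℂ)) =
        ((Real.exp (-w * (∫ x in Ioi (1 : ℝ), S x * x ^ (-w - 1))) : ℝ) : ℂ))
    (hone : (∀ ε : ℝ, 0 < ε → ∃ A : ℝ, ∀ x : ℝ, 1 < x → S x ≤ A * x ^ ε) ∨
      (∀ ε : ℝ, 0 < ε → ∃ A : ℝ, ∀ x : ℝ, 1 < x → -S x ≤ A * x ^ ε)) :
    ∀ w : ℂ, 0 < w.re → F (1 + w ^ (a : ℂ)) ≠ 0 := by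
  intro w hw
  have h2 := exp_rep S hSm (fun w hw => (hall w hw).1) hone
    (fun w => F (1 + w ^ (a : ℂ))) (fun w hw => ?_) (fun w hw => (hall w hw).2) w hw
  · rw [← h2]
    exact Complex.exp_ne_zero _
  · have h3 := (hasDerivAt_pw (a := a) (mem_slit hw)).differentiableAt
    exact (hF _).comp w ((differentiableAt_const _).add h3)

/-- Decay of the product slower than `exp (- x^ε)` for every `ε` makes the sector zero-free if there
is no real zero. -/
theorem converse_low (W : WeierstrassCurve ℤ) {F : ℂ → ℂ} (hF : Differentiable ℂ F)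
    (hFL : ∀ s : ℂ, 3 / 2 < s.re → F s = LE W s) {a : ℝ} (h0 : 0 < a) (h1 : a < 1)
    (hreal : ∀ x : ℝ, 1 < x → F x ≠ 0)
    (hb : ∀ ε : ℝ, 0 < ε → ∀ᶠ T : ℝ in atTop, Ser (lam W) a T ≤ Real.exp (ε * T)) :
    ∀ w : ℂ, 0 < w.re → F (1 + w ^ (a : ℂ)) ≠ 0 := by
  obtain ⟨A0, C, S, hA0, hC0, hSm, hS1, hC, hlarge, han⟩ := conv_setup W hF hFL h0 h1
  have hone : ∀ ε : ℝ, 0 < ε → ∃ A : ℝ, ∀ x : ℝ, 1 < x → -S x ≤ A * x ^ ε := by
    refine conv_bound (S := fun x => -S x) hA0 hC0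
      (fun x hx => (neg_le_abs _).trans (hC x hx)) fun ε hε => ?_
    filter_upwards [hb ε hε, eventually_gt_atTop 0] with T hT hT0
    rw [hS1 _ (Real.one_lt_exp_iff.2 hT0), Real.log_exp, neg_neg]
    exact hT
  have hne : ∀ w : ℝ, 0 < w → F (1 + (w : ℂ) ^ (a : ℂ)) ≠ 0 := by
    intro w hw
    have h3 := hreal (1 + w ^ a) (by linarith [Real.rpow_pos_of_pos hw a])
    rw [Complex.ofReal_add, Complex.ofReal_one, Complex.ofReal_cpow hw.le] at h3
    exact h3
  have hneg : ∀ w : ℝ, ∫ x in Ioi (1 : ℝ), -S x * x ^ (-w - 1)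
      = -∫ x in Ioi (1 : ℝ), S x * x ^ (-w - 1) := by
    intro w
    rw [← integral_neg]
    exact integral_congr_ae (Eventually.of_forall fun x => by simp only; ring)
  refine conv_last hSm hF ?_ (Or.inr hone)
  intro w hw
  set θ : ℝ := min (w / 2) A0 with hθ
  have hθ0 : 0 < θ := lt_min (by linarith) hA0
  have hθw : θ < w := (min_le_left _ _).trans_lt (by linarith)
  obtain ⟨A, hA⟩ := hone θ hθ0
  have h2 := core (fun x => -S x) hSm.neg A0 θ A hθ0.le (min_le_right _ _)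
    (fun w hw => by
      refine (hlarge w hw).1.neg.congr (Eventually.of_forall fun x => ?_)
      simp only [Pi.neg_apply]
      ring)
    (fun x hx => hA x hx) (fun w : ℝ => (F (1 + (w : ℂ) ^ (a : ℂ)))⁻¹)
    (fun w hw => (han w (hθ0.trans hw)).inv (hne w (hθ0.trans hw))) (fun _ => 0)
    (fun w _ => analyticAt_const)
    (fun w hw => by
      rw [add_zero, (hlarge w hw).2, hneg, ← Complex.ofReal_inv, ← Real.exp_neg]
      congr 2
      ring) w hθw
  rw [add_zero, hneg] at h2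
  refine ⟨?_, ?_⟩
  · refine h2.1.neg.congr (Eventually.of_forall fun x => ?_)
    simp only [Pi.neg_apply]
    ring
  · rw [← inv_inv (F (1 + (w : ℂ) ^ (a : ℂ))), h2.2, ← Complex.ofReal_inv, ← Real.exp_neg]
    congr 2
    ring

end Pool.Agent.Helper66.RF
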