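import Pool.Agent.Helper66.RF.Wc
import Pool.Agent.Helper66.RF.Ca
import Pool.Agent.Helper99.CM.TpCmp

set_option autoImplicit false

/-!
The product of the `N_p / p` against the truncated Euler product, smoothed.
-/

namespace Pool.Agent.Helper66.RF

open Complex MeasureTheory Set Filter Topology Pool.Agent.Helper9.BSD Pool.Agent.Helper99.CM

/-- The logarithms `log (N_p / p)` are admissible coefficients. -/
lemma bd_cc (W : WeierstrassCurve ℤ) : Bd (cc W) := by
  refine ⟨fun n => (cc_bound W n).trans (by norm_num), ?_, ?_⟩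
  · unfold cc
    rw [if_neg (fun h => Nat.not_prime_zero h.1)]
  · unfold cc
    rw [if_neg (fun h => Nat.not_prime_one h.1)]

/-- PIECE RF-Da1.  Comparison.  Proof: `toeplitz` for `b n = cc W n + lam W n` (`|b| ≤ 4 + 2`), whose
finite sums tend to `dd W`: `compare2_g` (file `Helper99/CM/TpCmp.lean`) at `x = N`, with
`log_bsdProd` (`log (bsdProd W N) = sum of cc`) and `starProd W N = exp (- sum of lam)`. -/
theorem compare_wt (W : WeierstrassCurve ℤ) (hΔ : W.Δ ≠ 0) (hS : SqWin W) {a : ℝ} (h0 : 0 < a)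
    (h1 : a < 1) :
    Tendsto (fun τ : ℝ => ∑' n : ℕ, (cc W n + lam W n) * wt a (Real.log n / τ)) atTop
      (𝓝 (dd W)) := by
  have hb : Bd (fun n => cc W n + lam W n) := by
    refine ⟨fun n => ?_, ?_, ?_⟩
    · have h2 := cc_bound W n
      have h3 := abs_lam_le W n
      exact (abs_add_le _ _).trans (by linarith)
    · change cc W 0 + lam W 0 = 0
      rw [(bd_cc W).2.1, (bd_lam W).2.1, add_zero]
    · change cc W 1 + lam W 1 = 0
      rw [(bd_cc W).2.2, (bd_lam W).2.2, add_zero]
  refine toeplitz h0 h1 hb ?_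
  obtain ⟨C, hC⟩ := compare2_g W hΔ hS
  have hsum : ∀ N : ℕ, ∑ n ∈ Finset.Icc 1 N, (cc W n + lam W n) =
      Real.log (bsdProd W N) - Real.log (starProd W N) := by
    intro N
    rw [log_bsdProd, starProd, Real.log_exp, sub_neg_eq_add, Finset.sum_add_distrib]
  have hlim : Tendsto (fun N : ℕ => C / Real.log (N : ℝ)) atTop (𝓝 0) :=
    (Real.tendsto_log_atTop.comp tendsto_natCast_atTop_atTop).const_div_atTop C
  rw [tendsto_iff_norm_sub_tendsto_zero]
  refine squeeze_zero' (Eventually.of_forall fun N => norm_nonneg _) ?_ hlim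
  filter_upwards [eventually_gt_atTop 2] with N hN
  have h2 := hC (N : ℝ) (by exact_mod_cast hN)
  rw [Nat.floor_natCast] at h2
  rw [hsum, Real.norm_eq_abs]
  exact h2

end Pool.Agent.Helper66.RF
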