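import Mathlib

set_option autoImplicit false

/-!
RH-free product form: the weights, the line integrals and the powers `w ^ a` on the right half
plane.
-/

namespace Pool.Agent.Helper66.RF

open Complex MeasureTheory Set Filter Topology

/-- The weight `W_a(x) = (1 / 2 pi i) * integral over Re w = 1 of exp (w - x w^a) / w dw` for
`x > 0`, and `1` for `x ≤ 0`. -/
noncomputable def wt (a x : ℝ) : ℝ :=
  if x ≤ 0 then 1 else
    (1 / (2 * Real.pi)) * ∫ y : ℝ,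
      (cexp ((1 + (y : ℂ) * I) - (x : ℂ) * (1 + (y : ℂ) * I) ^ (a : ℂ)) / (1 + (y : ℂ) * I)).re

/-- Minus the derivative of the weight. -/
noncomputable def wd (a x : ℝ) : ℝ :=
  (1 / (2 * Real.pi)) * ∫ y : ℝ,
    (cexp ((1 + (y : ℂ) * I) - (x : ℂ) * (1 + (y : ℂ) * I) ^ (a : ℂ))
      * (1 + (y : ℂ) * I) ^ ((a : ℂ) - 1)).re

/-- Coefficients: bounded by `6`, zero at `0` and `1`. -/
def Bd (b : ℕ → ℝ) : Prop := (∀ n, |b n| ≤ 6) ∧ b 0 = 0 ∧ b 1 = 0

/-- The generalised Dirichlet series `sum of b n * n ^ (- w ^ a)`. -/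
noncomputable def Phi (b : ℕ → ℝ) (a : ℝ) (w : ℂ) : ℂ :=
  ∑' n : ℕ, (b n : ℂ) * cexp (-((Real.log n : ℝ) : ℂ) * w ^ (a : ℂ))

/-- The smoothed sum `sum of b n * W_a (log n / T ^ a)`. -/
noncomputable def Ser (b : ℕ → ℝ) (a T : ℝ) : ℝ := ∑' n : ℕ, b n * wt a (Real.log n / T ^ a)

/-- The constant `cos (pi a / 2)`. -/
noncomputable def ca (a : ℝ) : ℝ := Real.cos (Real.pi * a / 2)

lemma ca_pos {a : ℝ} (h0 : 0 < a) (h1 : a < 1) : 0 < ca a := by
  unfold ca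
  apply Real.cos_pos_of_mem_Ioo
  have := Real.pi_pos
  constructor <;> nlinarith

lemma ca_le_one (a : ℝ) : ca a ≤ 1 := Real.cos_le_one _

lemma ne_zero_of_re {w : ℂ} (hw : 0 < w.re) : w ≠ 0 := by
  rintro rfl
  simp at hw

lemma mem_slit {w : ℂ} (hw : 0 < w.re) : w ∈ slitPlane := Or.inl hw

/-- A point of the closed right half plane other than `0` lies in the slit plane. -/
lemma mem_slit' {w : ℂ} (hw : 0 ≤ w.re) (h0 : w ≠ 0) : w ∈ slitPlane := by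
  rcases lt_or_eq_of_le hw with h | h
  · exact Or.inl h
  · right
    intro him
    exact h0 (Complex.ext h.symm him)

lemma norm_pw {a : ℝ} {w : ℂ} (hw : w ≠ 0) : ‖w ^ (a : ℂ)‖ = ‖w‖ ^ a := by
  rw [Complex.norm_cpow_of_ne_zero hw]
  simp

lemma pw_ne_zero {a : ℝ} {w : ℂ} (hw : w ≠ 0) : w ^ (a : ℂ) ≠ 0 := by
  rw [Ne, Complex.cpow_eq_zero_iff]
  tauto

lemma pw_eq {a : ℝ} {w : ℂ} (hw : w ≠ 0) :
    w ^ (a : ℂ) = ((‖w‖ ^ a : ℝ) : ℂ) * cexp (((a * arg w : ℝ) : ℂ) * I) := by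
  rw [Complex.cpow_def_of_ne_zero hw, Complex.log, add_mul, Complex.exp_add]
  congr 1
  · rw [Real.rpow_def_of_pos (norm_pos_iff.mpr hw)]
    push_cast
    ring_nf
  · congr 1
    push_cast
    ring

lemma re_pw {a : ℝ} {w : ℂ} (hw : w ≠ 0) :
    (w ^ (a : ℂ)).re = ‖w‖ ^ a * Real.cos (a * arg w) := by
  rw [pw_eq hw, Complex.re_ofReal_mul, Complex.exp_ofReal_mul_I_re]

/-- The lower bound for the real part. -/
lemma re_pw_ge {a : ℝ} (h0 : 0 < a) (h1 : a < 1) {w : ℂ} (hw : 0 ≤ w.re) (hw0 : w ≠ 0) :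
    ca a * ‖w‖ ^ a ≤ (w ^ (a : ℂ)).re := by
  rw [re_pw hw0, mul_comm]
  have harg : |arg w| ≤ Real.pi / 2 := Complex.abs_arg_le_pi_div_two_iff.mpr hw
  have hpos : 0 ≤ ‖w‖ ^ a := by positivity
  refine mul_le_mul_of_nonneg_left ?_ hpos
  unfold ca
  rw [← Real.cos_abs (a * arg w), abs_mul, abs_of_pos h0]
  have hpi := Real.pi_pos
  apply Real.cos_le_cos_of_nonneg_of_le_pi
  · positivity
  · nlinarith
  · nlinarith [abs_nonneg (arg w)]

lemma hasDerivAt_pw {a : ℝ} {w : ℂ} (hw : w ∈ slitPlane) :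
    HasDerivAt (fun w : ℂ => w ^ (a : ℂ)) ((a : ℂ) * w ^ ((a : ℂ) - 1)) w := by
  have h := (hasDerivAt_id w).cpow_const (c := (a : ℂ)) hw
  simpa using h

/-- Positive real scalars come out of the power. -/
lemma pw_real_mul {a T : ℝ} (hT : 0 < T) (w : ℂ) :
    ((T : ℂ) * w) ^ (a : ℂ) = ((T ^ a : ℝ) : ℂ) * w ^ (a : ℂ) := by
  rw [Complex.real_smul.symm, Complex.ofReal_cpow hT.le]
  rcases eq_or_ne w 0 with rfl | hw
  · rcases eq_or_ne (a : ℂ) 0 with h | h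
    · rw [h]; simp
    · simp [Complex.zero_cpow h]
  · rw [Complex.real_smul, Complex.cpow_def_of_ne_zero (mul_ne_zero (by exact_mod_cast hT.ne') hw),
      Complex.cpow_def_of_ne_zero (by exact_mod_cast hT.ne' : (T : ℂ) ≠ 0),
      Complex.cpow_def_of_ne_zero hw, Complex.log_ofReal_mul hT hw, Complex.ofReal_log hT.le,
      ← Complex.exp_add]
    congr 1
    ring

lemma pw_conj {a : ℝ} {w : ℂ} (hw : 0 < w.re) :
    ((starRingEnd ℂ) w) ^ (a : ℂ) = (starRingEnd ℂ) (w ^ (a : ℂ)) := by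
  have harg : arg w ≠ Real.pi := by
    have h1 : |arg w| < Real.pi / 2 := Complex.abs_arg_lt_pi_div_two_iff.mpr (Or.inl hw)
    have h2 := Real.pi_pos
    intro h
    rw [h, abs_of_pos h2] at h1
    linarith
  rw [Complex.conj_cpow _ _ harg]
  simp

end Pool.Agent.Helper66.RF
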