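import Pool.Agent.Helper66.RF.Defs

set_option autoImplicit false

/-!
Integration by parts on a vertical line.
-/

namespace Pool.Agent.Helper66.RF

open Complex MeasureTheory Set Filter Topology

/-- PIECE RF-Lb.  Integration by parts on the line `Re w = A` against `exp (T w)`:
`d/dy exp (T (A + i y)) = i T exp (T w)` and `d/dy g (A + i y) = i g' (A + i y)`.
Proof: Mathlib `integral_mul_deriv_eq_deriv_mul_of_integrable` (all three products are integrable
because `exp (T w)` has the constant norm `exp (T A)` on the line). -/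
theorem parts {T A : ℝ} (hT : 0 < T) {g g' : ℂ → ℂ}
    (hg : ∀ y : ℝ, HasDerivAt g (g' ((A : ℂ) + y * I)) ((A : ℂ) + y * I))
    (h1 : Integrable fun y : ℝ => g ((A : ℂ) + y * I))
    (h2 : Integrable fun y : ℝ => g' ((A : ℂ) + y * I)) :
    ∫ y : ℝ, cexp ((T : ℂ) * ((A : ℂ) + y * I)) * g ((A : ℂ) + y * I)
      = -(1 / (T : ℂ)) * ∫ y : ℝ, cexp ((T : ℂ) * ((A : ℂ) + y * I)) * g' ((A : ℂ) + y * I) := by
  have hTc : (T : ℂ) ≠ 0 := by exact_mod_cast hT.ne'
  have hw : ∀ y : ℝ, HasDerivAt (fun y : ℝ => (A : ℂ) + y * I) I y := by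
    intro y
    have h := ((Complex.ofRealCLM.hasDerivAt (x := y)).mul_const I).const_add (A : ℂ)
    simpa using h
  have he : ∀ y : ℝ, HasDerivAt (fun y : ℝ => cexp ((T : ℂ) * ((A : ℂ) + y * I)))
      (cexp ((T : ℂ) * ((A : ℂ) + y * I)) * ((T : ℂ) * I)) y := fun y =>
    ((hw y).const_mul (T : ℂ)).cexp
  have hG : ∀ y : ℝ, HasDerivAt (fun y : ℝ => g ((A : ℂ) + y * I))
      (g' ((A : ℂ) + y * I) * I) y := fun y => (hg y).comp y (hw y)
  have hec : Continuous fun y : ℝ => cexp ((T : ℂ) * ((A : ℂ) + y * I)) := by fun_prop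
  have hen : ∀ y : ℝ, ‖cexp ((T : ℂ) * ((A : ℂ) + y * I))‖ ≤ Real.exp (T * A) := by
    intro y
    rw [Complex.norm_exp]
    apply Real.exp_le_exp.mpr
    simp
  have k1 : Integrable fun y : ℝ => cexp ((T : ℂ) * ((A : ℂ) + y * I)) * g ((A : ℂ) + y * I) :=
    h1.bdd_mul hec.aestronglyMeasurable (Eventually.of_forall hen)
  have k2 : Integrable fun y : ℝ => cexp ((T : ℂ) * ((A : ℂ) + y * I)) * g' ((A : ℂ) + y * I) :=
    h2.bdd_mul hec.aestronglyMeasurable (Eventually.of_forall hen)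
  have key := integral_mul_deriv_eq_deriv_mul_of_integrable
    (u := fun y : ℝ => cexp ((T : ℂ) * ((A : ℂ) + y * I)))
    (v := fun y : ℝ => g ((A : ℂ) + y * I))
    (u' := fun y : ℝ => cexp ((T : ℂ) * ((A : ℂ) + y * I)) * ((T : ℂ) * I))
    (v' := fun y : ℝ => g' ((A : ℂ) + y * I) * I)
    (fun y _ => he y) (fun y _ => hG y)
    ((k2.mul_const I).congr (Eventually.of_forall fun y => by
      simp only [Pi.mul_apply]
      ring))
    ((k1.mul_const ((T : ℂ) * I)).congr (Eventually.of_forall fun y => by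
      simp only [Pi.mul_apply]
      ring))
    k1
  have e1 : ∀ y : ℝ, cexp ((T : ℂ) * ((A : ℂ) + y * I)) * (g' ((A : ℂ) + y * I) * I) =
      cexp ((T : ℂ) * ((A : ℂ) + y * I)) * g' ((A : ℂ) + y * I) * I := fun y => by ring
  have e2 : ∀ y : ℝ, cexp ((T : ℂ) * ((A : ℂ) + y * I)) * ((T : ℂ) * I) * g ((A : ℂ) + y * I) =
      cexp ((T : ℂ) * ((A : ℂ) + y * I)) * g ((A : ℂ) + y * I) * ((T : ℂ) * I) := fun y => by ring
  simp only [e1, e2] at key
  rw [integral_mul_const, integral_mul_const] at key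
  have hI : (I : ℂ) ≠ 0 := I_ne_zero
  generalize (∫ y : ℝ, cexp ((T : ℂ) * ((A : ℂ) + y * I)) * g ((A : ℂ) + y * I)) = P at key ⊢
  generalize (∫ y : ℝ, cexp ((T : ℂ) * ((A : ℂ) + y * I)) * g' ((A : ℂ) + y * I)) = Q at key ⊢
  have h3 : Q = -((T : ℂ) * P) := by
    apply mul_right_cancel₀ hI
    linear_combination key
  rw [h3]
  field_simp

end Pool.Agent.Helper66.RF
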