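import Pool.Agent.Helper66.RF.La
import Pool.Agent.Helper66.RF.Lb

set_option autoImplicit false

/-!
The limit of the line integrals: frame and change of variable.
-/

namespace Pool.Agent.Helper66.RF

open Complex MeasureTheory Set Filter Topology

/-- A logarithm with all the properties needed for the limit: holomorphic on the right half plane,
`g w = α log w + ℓ + o(1)` and `w g'(w) → α` at `0`, small far out, and at most simple poles of `g'` on
the imaginary axis away from `0`. -/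
structure Good (g : ℂ → ℂ) (α : ℝ) (ℓ : ℂ) : Prop where
  diff : ∀ w : ℂ, 0 < w.re → DifferentiableAt ℂ g w
  near : Tendsto (fun w : ℂ => g w - (α : ℂ) * log w) (𝓝[{w : ℂ | 0 < w.re}] 0) (𝓝 ℓ)
  near' : Tendsto (fun w : ℂ => w * deriv g w) (𝓝[{w : ℂ | 0 < w.re}] 0) (𝓝 (α : ℂ))
  far : ∃ R C : ℝ, ∀ w : ℂ, 0 < w.re → R ≤ ‖w‖ → ‖g w‖ ≤ C / ‖w‖ ∧ ‖w * deriv g w‖ ≤ C
  middle : ∀ δ R : ℝ, 0 < δ → ∃ (C : ℝ) (Z : Finset ℝ), 0 ≤ C ∧ ∀ w : ℂ, 0 < w.re → w.re ≤ 1 →
    δ ≤ ‖w‖ → ‖w‖ ≤ R → ‖deriv g w‖ ≤ C * (1 + ∑ v ∈ Z, 1 / ‖w - v * I‖)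

/-- A continuous function is bounded on the compact part of the strip. -/
private lemma ea1_compact {A B R : ℝ} {f : ℂ → ℂ} (hA : 0 < A)
    (hf : ContinuousOn f {w : ℂ | 0 < w.re}) :
    ∃ M : ℝ, 0 ≤ M ∧ ∀ w : ℂ, A ≤ w.re → w.re ≤ B → ‖w‖ ≤ R → ‖f w‖ ≤ M := by
  have hK : IsCompact (Metric.closedBall (0 : ℂ) R ∩ {w : ℂ | A ≤ w.re ∧ w.re ≤ B}) := by
    refine (isCompact_closedBall (0 : ℂ) R).inter_right ?_
    exact (isClosed_le continuous_const Complex.continuous_re).inter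
      (isClosed_le Complex.continuous_re continuous_const)
  obtain ⟨M, hM⟩ := hK.exists_bound_of_continuousOn (hf.mono fun w hw => lt_of_lt_of_le hA hw.2.1)
  refine ⟨|M|, abs_nonneg _, fun w h1 h2 h3 => (hM w ⟨?_, h1, h2⟩).trans (le_abs_self _)⟩
  simpa using h3

/-- On the strip and near the origin. -/
private lemma ea1_near {M R x : ℝ} {w : ℂ} (hM : 0 ≤ M) (hw : ‖w‖ ≤ R) (hx : x ≤ M) :
    x ≤ M * (1 + R ^ 2) / (1 + w.im ^ 2) := by
  rw [le_div_iff₀ (by positivity)]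
  have h1 : |w.im| ≤ R := (Complex.abs_im_le_norm w).trans hw
  have h2 : w.im ^ 2 ≤ R ^ 2 := by
    rw [← sq_abs]
    exact pow_le_pow_left₀ (abs_nonneg _) h1 2
  exact mul_le_mul hx (by linarith) (by positivity) hM

/-- Far out. -/
private lemma ea1_far {C x : ℝ} {w : ℂ} (hC : 0 ≤ C) (hw : 1 ≤ ‖w‖) (hx : x ≤ C / ‖w‖ ^ 2) :
    x ≤ 2 * C / (1 + w.im ^ 2) := by
  refine hx.trans ?_
  have h0 : 0 < ‖w‖ ^ 2 := by positivity
  rw [div_le_div_iff₀ h0 (by positivity)]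
  have h1 : w.im ^ 2 ≤ ‖w‖ ^ 2 := by
    rw [← sq_abs]
    exact pow_le_pow_left₀ (abs_nonneg _) (Complex.abs_im_le_norm w) 2
  have h2 : 1 ≤ ‖w‖ ^ 2 := one_le_pow₀ hw
  nlinarith

/-- PIECE RF-Ea1.  On a strip `A ≤ Re w ≤ B` (`0 < A`) the function `exp (T w) g(w) / w` is bounded by
`C / (1 + (Im w)^2)`, and so are `g(w) / w` and `(w g'(w) - g(w)) / w^2`.
Proof: for `|w| ≥ R` (and `≥ 1`) use `far`; the remaining part of the strip is compact and the
functions are continuous there (`deriv g` is continuous where `g` is holomorphic on an open set). -/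
theorem strip_bound {g : ℂ → ℂ} {α : ℝ} {ℓ : ℂ} (h : Good g α ℓ) {A B T : ℝ} (hA : 0 < A)
    (hT : 0 ≤ T) : ∃ C : ℝ, 0 ≤ C ∧ ∀ w : ℂ, A ≤ w.re → w.re ≤ B →
      ‖cexp ((T : ℂ) * w) * (g w / w)‖ ≤ C / (1 + w.im ^ 2) ∧
      ‖g w / w‖ ≤ C / (1 + w.im ^ 2) ∧ ‖(w * deriv g w - g w) / w ^ 2‖ ≤ C / (1 + w.im ^ 2) := by
  obtain ⟨R, C₀, hfar⟩ := h.far
  set S := max R 1 with hS
  set C₁ := |C₀| with hC₁
  have hC₁0 : 0 ≤ C₁ := abs_nonneg _
  have hopen : IsOpen {w : ℂ | 0 < w.re} := isOpen_lt continuous_const Complex.continuous_re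
  have hd : DifferentiableOn ℂ g {w : ℂ | 0 < w.re} := fun w hw =>
    (h.diff w hw).differentiableWithinAt
  have hgc : ContinuousOn g {w : ℂ | 0 < w.re} := hd.continuousOn
  have hd'c : ContinuousOn (deriv g) {w : ℂ | 0 < w.re} := (hd.deriv hopen).continuousOn
  have hne : ∀ w ∈ {w : ℂ | 0 < w.re}, w ≠ 0 := fun w hw => ne_zero_of_re hw
  obtain ⟨M₁, hM₁, h1⟩ := ea1_compact (B := B) (R := S) (f := fun w => cexp ((T : ℂ) * w)
    * (g w / w)) hA (by
      refine ContinuousOn.mul (by fun_prop) (hgc.div continuousOn_id hne))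
  obtain ⟨M₂, hM₂, h2⟩ := ea1_compact (B := B) (R := S) (f := fun w => g w / w) hA
    (hgc.div continuousOn_id hne)
  obtain ⟨M₃, hM₃, h3⟩ := ea1_compact (B := B) (R := S)
    (f := fun w => (w * deriv g w - g w) / w ^ 2) hA
    (((continuousOn_id.mul hd'c).sub hgc).div (continuousOn_id.pow 2)
      (fun w hw => pow_ne_zero _ (hne w hw)))
  set E := Real.exp (T * |B|) with hE
  have hE1 : 1 ≤ E := Real.one_le_exp (by positivity)
  set M := M₁ + M₂ + M₃ with hM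
  have hM0 : 0 ≤ M := by positivity
  refine ⟨M * (1 + S ^ 2) + 2 * (E * (2 * C₁)), by positivity, fun w hw1 hw2 => ?_⟩
  have hwpos : 0 < w.re := lt_of_lt_of_le hA hw1
  have hden : 0 < 1 + w.im ^ 2 := by positivity
  rcases le_total ‖w‖ S with hws | hws
  · have key : ∀ x : ℝ, x ≤ M → x ≤ (M * (1 + S ^ 2) + 2 * (E * (2 * C₁))) / (1 + w.im ^ 2) := by
      intro x hx
      refine (ea1_near hM0 hws hx).trans ?_
      apply div_le_div_of_nonneg_right _ hden.le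
      have : 0 ≤ 2 * (E * (2 * C₁)) := by positivity
      linarith
    refine ⟨key _ ?_, key _ ?_, key _ ?_⟩
    · have := h1 w hw1 hw2 hws
      linarith
    · have := h2 w hw1 hw2 hws
      linarith
    · have := h3 w hw1 hw2 hws
      linarith
  · have hw1' : 1 ≤ ‖w‖ := (le_max_right _ _).trans hws
    have hw0 : 0 < ‖w‖ := by linarith
    obtain ⟨f1, f2⟩ := hfar w hwpos ((le_max_left _ _).trans hws)
    have f1' : ‖g w‖ ≤ C₁ / ‖w‖ := f1.trans (by
      apply div_le_div_of_nonneg_right (le_abs_self _) hw0.le)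
    have f2' : ‖w * deriv g w‖ ≤ C₁ := f2.trans (le_abs_self _)
    have key : ∀ x : ℝ, x ≤ (E * (2 * C₁)) / ‖w‖ ^ 2 →
        x ≤ (M * (1 + S ^ 2) + 2 * (E * (2 * C₁))) / (1 + w.im ^ 2) := by
      intro x hx
      refine (ea1_far (by positivity) hw1' hx).trans ?_
      apply div_le_div_of_nonneg_right _ hden.le
      have : 0 ≤ M * (1 + S ^ 2) := by positivity
      linarith
    have hq : ‖g w / w‖ ≤ C₁ / ‖w‖ ^ 2 := by
      rw [norm_div, div_le_iff₀ hw0]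
      refine f1'.trans (le_of_eq ?_)
      field_simp
    have hx : ‖cexp ((T : ℂ) * w)‖ ≤ E := by
      rw [Complex.norm_exp, Complex.re_ofReal_mul]
      apply Real.exp_le_exp.mpr
      exact mul_le_mul_of_nonneg_left (hw2.trans (le_abs_self B)) hT
    have hb : C₁ / ‖w‖ ^ 2 ≤ E * (2 * C₁) / ‖w‖ ^ 2 := by
      apply div_le_div_of_nonneg_right _ (by positivity)
      nlinarith
    refine ⟨key _ ?_, key _ (hq.trans hb), key _ ?_⟩
    · rw [norm_mul]
      calc ‖cexp ((T : ℂ) * w)‖ * ‖g w / w‖ ≤ E * (C₁ / ‖w‖ ^ 2) := by gcongr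
        _ ≤ E * (2 * C₁) / ‖w‖ ^ 2 := by
          rw [← mul_div_assoc]
          apply div_le_div_of_nonneg_right _ (by positivity)
          nlinarith
    · rw [norm_div, norm_pow]
      apply div_le_div_of_nonneg_right _ (by positivity)
      have h4 : C₁ / ‖w‖ ≤ C₁ := div_le_self hC₁0 hw1'
      calc ‖w * deriv g w - g w‖ ≤ ‖w * deriv g w‖ + ‖g w‖ := norm_sub_le _ _
        _ ≤ C₁ + C₁ := by linarith
        _ ≤ E * (2 * C₁) := by nlinarith

/-- The line of integration may be moved to the right. -/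
private lemma ea2_move {g : ℂ → ℂ} {α : ℝ} {ℓ : ℂ} (h : Good g α ℓ) {A B T : ℝ} (hA : 0 < A)
    (hAB : A ≤ B) (hT : 0 ≤ T) :
    ∫ y : ℝ, cexp ((T : ℂ) * ((A : ℂ) + y * I)) * (g ((A : ℂ) + y * I) / ((A : ℂ) + y * I))
      = ∫ y : ℝ, cexp ((T : ℂ) * ((B : ℂ) + y * I)) * (g ((B : ℂ) + y * I) / ((B : ℂ) + y * I)) := by
  obtain ⟨C, _, hC⟩ := strip_bound h (B := B) hA hT
  refine shift (g := fun w : ℂ => cexp ((T : ℂ) * w) * (g w / w)) (C := C) hAB
    (fun w hw1 _ => ?_) (fun w hw1 hw2 => (hC w hw1 hw2).1)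
  have hw : 0 < w.re := lt_of_lt_of_le hA hw1
  exact (differentiableAt_id.const_mul (T : ℂ)).cexp.mul
    ((h.diff w hw).div differentiableAt_id (ne_zero_of_re hw))

/-- PIECE RF-Ea2.  The line of integration may be moved. -/
theorem move {g : ℂ → ℂ} {α : ℝ} {ℓ : ℂ} (h : Good g α ℓ) {A B T : ℝ} (hA : 0 < A) (hB : 0 < B)
    (hT : 0 ≤ T) :
    ∫ y : ℝ, cexp ((T : ℂ) * ((A : ℂ) + y * I)) * (g ((A : ℂ) + y * I) / ((A : ℂ) + y * I))
      = ∫ y : ℝ, cexp ((T : ℂ) * ((B : ℂ) + y * I)) * (g ((B : ℂ) + y * I) / ((B : ℂ) + y * I)) := by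
  rcases le_total A B with hAB | hAB
  · exact ea2_move h hA hAB hT
  · exact (ea2_move h hB hAB hT).symm

/-- PIECE RF-Ea2, second statement.  Change of variable `w = μ / T`, `μ = 1 + i y`.
Proof: `move` to the line `1 / T`, `parts` with `G w = g w / w`, `G' w = (w g' w - g w) / w^2`, then
`y → y / T` (`Measure.integral_comp_div` or `integral_comp_mul_left`). -/
theorem to_mu {g : ℂ → ℂ} {α : ℝ} {ℓ : ℂ} (h : Good g α ℓ) {T : ℝ} (hT : 0 < T) :
    ∫ y : ℝ, cexp ((T : ℂ) * (1 + (y : ℂ) * I)) * (g (1 + (y : ℂ) * I) / (1 + (y : ℂ) * I))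
      = ∫ y : ℝ, cexp (1 + (y : ℂ) * I) * ((g ((1 + (y : ℂ) * I) / T)
        - (1 + (y : ℂ) * I) / T * deriv g ((1 + (y : ℂ) * I) / T)) / (1 + (y : ℂ) * I) ^ 2) := by
  have hTc : (T : ℂ) ≠ 0 := by exact_mod_cast hT.ne'
  have hA : 0 < T⁻¹ := inv_pos.2 hT
  have hre : ∀ y : ℝ, (((T⁻¹ : ℝ) : ℂ) + y * I).re = T⁻¹ := fun y => by simp
  have him : ∀ y : ℝ, (((T⁻¹ : ℝ) : ℂ) + y * I).im = y := fun y => by simp
  have hpos : ∀ y : ℝ, 0 < (((T⁻¹ : ℝ) : ℂ) + y * I).re := fun y => by rw [hre]; exact hA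
  have h1 := move h (A := 1) one_pos hA hT.le
  simp only [Complex.ofReal_one] at h1
  rw [h1]
  obtain ⟨C, _, hC⟩ := strip_bound h (B := T⁻¹) (T := T) hA hT.le
  have hopen : IsOpen {w : ℂ | 0 < w.re} := isOpen_lt continuous_const Complex.continuous_re
  have hd : DifferentiableOn ℂ g {w : ℂ | 0 < w.re} := fun w hw =>
    (h.diff w hw).differentiableWithinAt
  have hd' : DifferentiableOn ℂ (deriv g) {w : ℂ | 0 < w.re} := hd.deriv hopen
  have h2 := parts (T := T) (A := T⁻¹) hT (g := fun w => g w / w)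
    (g' := fun w => (w * deriv g w - g w) / w ^ 2) ?_ ?_ ?_
  · rw [h2]
    set F : ℝ → ℂ := fun y => cexp ((T : ℂ) * (((T⁻¹ : ℝ) : ℂ) + y * I)) *
      (((((T⁻¹ : ℝ) : ℂ) + y * I) * deriv g (((T⁻¹ : ℝ) : ℂ) + y * I)
        - g (((T⁻¹ : ℝ) : ℂ) + y * I)) / (((T⁻¹ : ℝ) : ℂ) + y * I) ^ 2) with hF
    have h3 : ∫ y : ℝ, F (T⁻¹ * y) = T • ∫ y : ℝ, F y := by
      have h4 := MeasureTheory.Measure.integral_comp_mul_left F T⁻¹
      rw [inv_inv, abs_of_pos hT] at h4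
      exact h4
    have h5 : ∫ y : ℝ, F y = (1 / (T : ℂ)) * ∫ y : ℝ, F (T⁻¹ * y) := by
      rw [h3, Complex.real_smul]
      field_simp
    show -(1 / (T : ℂ)) * ∫ y : ℝ, F y = _
    rw [h5, ← mul_assoc, ← integral_const_mul]
    refine integral_congr_ae (Eventually.of_forall fun y => ?_)
    simp only [hF]
    have h6 : ((T⁻¹ : ℝ) : ℂ) + ((T⁻¹ * y : ℝ) : ℂ) * I = (1 + (y : ℂ) * I) / T := by
      push_cast
      field_simp
    have hmu : (1 + (y : ℂ) * I) ≠ 0 := ne_zero_of_re (by simp)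
    rw [h6]
    have h7 : (T : ℂ) * ((1 + (y : ℂ) * I) / T) = 1 + (y : ℂ) * I := by
      field_simp
    rw [h7]
    generalize g ((1 + (y : ℂ) * I) / T) = P
    generalize deriv g ((1 + (y : ℂ) * I) / T) = Q
    generalize cexp (1 + (y : ℂ) * I) = E
    field_simp
    ring
  · intro y
    have hs := (h.diff _ (hpos y)).hasDerivAt.div (hasDerivAt_id _) (ne_zero_of_re (hpos y))
    refine hs.congr_deriv ?_
    simp only [id]
    ring
  · exact line_integrable (g := fun w => g w / w) (A := T⁻¹) (C := C)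
      (fun y => (h.diff _ (hpos y)).div differentiableAt_id (ne_zero_of_re (hpos y)))
      (fun y => by
        have h8 := (hC _ (hre y).ge (hre y).le).2.1
        rw [him] at h8
        exact h8)
  · exact line_integrable (g := fun w => (w * deriv g w - g w) / w ^ 2) (A := T⁻¹) (C := C)
      (fun y => by
        have h9 : DifferentiableAt ℂ (deriv g) (((T⁻¹ : ℝ) : ℂ) + y * I) :=
          (hd' _ (hpos y)).differentiableAt (hopen.mem_nhds (hpos y))
        exact ((differentiableAt_id.mul h9).sub (h.diff _ (hpos y))).div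
          (differentiableAt_id.pow 2) (pow_ne_zero _ (ne_zero_of_re (hpos y))))
      (fun y => by
        have h8 := (hC _ (hre y).ge (hre y).le).2.2
        rw [him] at h8
        exact h8)

end Pool.Agent.Helper66.RF
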