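import Pool.Agent.Helper66.RF.Ea

set_option autoImplicit false

/-!
The limit of the line integrals: the part away from `0`.
-/

namespace Pool.Agent.Helper66.RF

open Complex MeasureTheory Set Filter Topology

lemma eb_sqrt {ε v z : ℝ} (hε : 0 < ε) : √ε * √|v - z| ≤ ‖((ε : ℂ) + v * I) - z * I‖ := by
  set w : ℂ := ((ε : ℂ) + v * I) - z * I with hw
  have h1 : ε ≤ ‖w‖ := by
    have := Complex.abs_re_le_norm w
    have h2 : w.re = ε := by simp [hw]
    rw [h2, abs_of_pos hε] at this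
    exact this
  have h2 : |v - z| ≤ ‖w‖ := by
    have := Complex.abs_im_le_norm w
    have h2 : w.im = v - z := by simp [hw]
    rwa [h2] at this
  rw [← Real.sqrt_mul hε.le]
  refine Real.sqrt_le_iff.mpr ⟨norm_nonneg _, ?_⟩
  rw [sq]
  exact mul_le_mul h1 h2 (abs_nonneg _) (norm_nonneg _)

lemma eb_re {ε v z : ℝ} (hε : 0 < ε) : ε ≤ ‖((ε : ℂ) + v * I) - z * I‖ := by
  have := Complex.abs_re_le_norm (((ε : ℂ) + v * I) - z * I)
  have h2 : (((ε : ℂ) + v * I) - z * I).re = ε := by simp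
  rw [h2, abs_of_pos hε] at this
  exact this

lemma eb_log {ε : ℝ} (hε : 0 < ε) : -Real.log ε ≤ 2 / √ε := by
  have h0 : 0 < √ε := Real.sqrt_pos.mpr hε
  have h1 := Real.log_le_sub_one_of_pos (inv_pos.mpr h0)
  rw [Real.log_inv, Real.log_sqrt hε.le] at h1
  rw [div_eq_mul_inv]
  linarith

/-- Growth of `g` on horizontal segments. -/
lemma eb_seg {g : ℂ → ℂ} (hd : ∀ w : ℂ, 0 < w.re → DifferentiableAt ℂ g w) {C1 n M v : ℝ}
    (hb : ∀ u : ℝ, 0 < u → u ≤ 1 → ‖deriv g ((u : ℂ) + v * I)‖ ≤ C1 * (1 + n / u))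
    (hM : ‖g (1 + (v : ℂ) * I)‖ ≤ M) {ε : ℝ} (hε : 0 < ε) (hε1 : ε ≤ 1) :
    ‖g ((ε : ℂ) + v * I)‖ ≤ M + C1 * ((1 - ε) + n * (-Real.log ε)) := by
  have hder : ∀ t : ℝ, t < 1 → HasDerivAt (fun t : ℝ => g (((1 - t : ℝ) : ℂ) + v * I))
      (-deriv g (((1 - t : ℝ) : ℂ) + v * I)) t := by
    intro t ht
    have h1 : HasDerivAt g (deriv g (((1 - t : ℝ) : ℂ) + v * I)) (((1 - t : ℝ) : ℂ) + v * I) :=
      (hd _ (by simp; linarith)).hasDerivAt
    have h2 : HasDerivAt (fun t : ℝ => ((1 - t : ℝ) : ℂ) + v * I) (-1) t := by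
      have h3 : HasDerivAt (fun t : ℝ => (1 - t : ℝ)) (-1) t := by
        simpa using (hasDerivAt_id t).const_sub 1
      have h4 := h3.ofReal_comp.add_const ((v : ℂ) * I)
      simpa using h4
    have h5 := h1.comp t h2
    rw [mul_neg_one] at h5
    exact h5
  have key := image_norm_le_of_norm_deriv_right_le_deriv_boundary'
    (f := fun t : ℝ => g (((1 - t : ℝ) : ℂ) + v * I))
    (f' := fun t : ℝ => -deriv g (((1 - t : ℝ) : ℂ) + v * I))
    (B := fun t : ℝ => M + C1 * (t + n * (-Real.log (1 - t))))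
    (B' := fun t : ℝ => C1 * (1 + n / (1 - t))) (a := 0) (b := 1 - ε) ?_ ?_ ?_ ?_ ?_ ?_
    (x := 1 - ε) ⟨by linarith, le_rfl⟩
  · simpa using key
  · intro t ht
    exact (hder t (by linarith [ht.2])).continuousAt.continuousWithinAt
  · intro t ht
    exact (hder t (by linarith [ht.2])).hasDerivWithinAt
  · simpa using hM
  · intro t ht
    have h1 : (1 - t) ≠ 0 := by linarith [ht.2]
    refine ContinuousAt.continuousWithinAt ?_
    have h2 : ContinuousAt (fun t : ℝ => Real.log (1 - t)) t :=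
      (continuousAt_const.sub continuousAt_id).log h1
    exact continuousAt_const.add (continuousAt_const.mul
      (continuousAt_id.add (continuousAt_const.mul h2.neg)))
  · intro t ht
    have h1 : (1 - t) ≠ 0 := by linarith [ht.2]
    have h3 : HasDerivAt (fun t : ℝ => (1 - t : ℝ)) (-1) t := by
      simpa using (hasDerivAt_id t).const_sub 1
    have h4 := h3.log h1
    have h5 : HasDerivAt (fun t : ℝ => M + C1 * (t + n * (-Real.log (1 - t))))
        (C1 * (1 + n * -(-1 / (1 - t)))) t :=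
      (((hasDerivAt_id' t).add (h4.neg.const_mul n)).const_mul C1).const_add M
    have h6 : C1 * (1 + n * -(-1 / (1 - t))) = C1 * (1 + n / (1 - t)) := by ring
    rw [h6] at h5
    exact h5.hasDerivWithinAt
  · intro t ht
    have := hb (1 - t) (by linarith [ht.2]) (by linarith [ht.1])
    rw [norm_neg]
    exact this

/-- PIECE RF-Eb1.  Pointwise bound on the line `w = ε + i v`, `|v| > δ`, uniformly in `0 < ε ≤ 1`,
outside a finite set of `v`.
Proof: let `R ≥ 1, C` be as in `far`; for `|v| ≥ R` both terms are bounded and `|w|^2 ≥ v^2`.  For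
`δ < |v| < R` take `C, Z` from `middle` with `R + 1` in place of `R`.  (i) `|w g'(w)| / |w|^2 ≤ |g'(w)| / δ`
and `1 / ‖w - z I‖ ≤ 1 / (√ε √|v - z|)` because `‖w - z I‖ ≥ ε` and `≥ |v - z|`.  (ii) `|g(w)|`: the
segment from `ε + i v` to `1 + i v` lies in the region, there `|g'(u + i v)| ≤ C (1 + |Z| / u)`, and
`|g(1 + i v)|` is bounded for `|v| ≤ R`; so `|g(w)| ≤ C' (1 + log (1/ε)) ≤ C'' / √ε`
(`Real.log_le_sub_one_of_pos`-type: `log (1/ε) = 2 log (1/√ε) ≤ 2 / √ε`).  Use `1 ≤ (1 + R^2)/(1 + v^2)`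
for `|v| ≤ R`. -/
theorem tail_pt {g : ℂ → ℂ} {α : ℝ} {ℓ : ℂ} (h : Good g α ℓ) {δ : ℝ} (hδ : 0 < δ) :
    ∃ (C : ℝ) (Z : Finset ℝ), 0 ≤ C ∧ ∀ ε v : ℝ, 0 < ε → ε ≤ 1 → δ < |v| → v ∉ Z →
      (‖g ((ε : ℂ) + v * I)‖ + ‖((ε : ℂ) + v * I) * deriv g ((ε : ℂ) + v * I)‖)
        / ‖(ε : ℂ) + v * I‖ ^ 2
      ≤ C / √ε * ((1 + ∑ z ∈ Z, 1 / √|v - z|) / (1 + v ^ 2)) := by
  obtain ⟨R0, C0, hfar⟩ := h.far
  obtain ⟨R, hR0, hR1⟩ : ∃ R : ℝ, R0 ≤ R ∧ 1 ≤ R := ⟨max R0 1, le_max_left _ _, le_max_right _ _⟩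
  obtain ⟨C1, Z, hC1, hmid⟩ := h.middle δ (R + 1) hδ
  obtain ⟨M, hM⟩ : ∃ M : ℝ, ∀ v ∈ Icc (-R) R, ‖g (1 + (v : ℂ) * I)‖ ≤ M := by
    refine isCompact_Icc.exists_bound_of_continuousOn (f := fun v : ℝ => g (1 + (v : ℂ) * I)) ?_
    intro v _
    have h1 : ContinuousAt g (1 + (v : ℂ) * I) := (h.diff _ (by simp)).continuousAt
    exact (ContinuousAt.comp (f := fun v : ℝ => 1 + (v : ℂ) * I) h1
      (by fun_prop)).continuousWithinAt
  have hM0 : 0 ≤ M := (norm_nonneg _).trans (hM 0 ⟨by linarith, by linarith⟩)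
  set K : ℝ := M + C1 * (1 + 2 * Z.card) with hK
  have hK0 : 0 ≤ K := by positivity
  set D : ℝ := 4 * |C0| + (K / δ ^ 2 + C1 / δ) * (1 + R ^ 2) with hD
  refine ⟨D, Z, by positivity, ?_⟩
  intro ε v hε hε1 hv hvZ
  set w : ℂ := (ε : ℂ) + v * I with hw
  have hwre : w.re = ε := by simp [hw]
  have hwim : w.im = v := by simp [hw]
  have hwv : |v| ≤ ‖w‖ := by
    have := Complex.abs_im_le_norm w
    rwa [hwim] at this
  have hwpos : 0 < ‖w‖ := lt_of_lt_of_le (hδ.trans hv) hwv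
  have hs0 : 0 < √ε := Real.sqrt_pos.mpr hε
  have hs1 : √ε ≤ 1 := Real.sqrt_le_one.mpr hε1
  have hinv : 1 ≤ 1 / √ε := by rw [le_div_iff₀ hs0]; linarith
  set Sg : ℝ := ∑ z ∈ Z, 1 / √|v - z| with hSg
  have hSg0 : 0 ≤ Sg := Finset.sum_nonneg fun z _ => by positivity
  have hv2 : 0 < 1 + v ^ 2 := by positivity
  have hvsq : v ^ 2 ≤ ‖w‖ ^ 2 := by
    rw [← sq_abs v]
    exact pow_le_pow_left₀ (abs_nonneg _) hwv 2
  -- it is enough to bound by `D' / √ε * (1 + Sg) / (1 + v ^ 2)`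
  have hfin : ∀ x D' : ℝ, 0 ≤ D' → D' ≤ D → x ≤ D' * (1 / √ε) * (1 + Sg) / (1 + v ^ 2) →
      x ≤ D / √ε * ((1 + Sg) / (1 + v ^ 2)) := by
    intro x D' hD' hDD hx
    refine hx.trans ?_
    have : D / √ε * ((1 + Sg) / (1 + v ^ 2)) = D * (1 / √ε) * (1 + Sg) / (1 + v ^ 2) := by ring
    rw [this]
    gcongr
  rcases le_or_gt R |v| with hRv | hRv
  · -- far
    obtain ⟨h1, h2⟩ := hfar w (by rw [hwre]; exact hε) (hR0.trans (hRv.trans hwv))
    have hw1 : 1 ≤ ‖w‖ := hR1.trans (hRv.trans hwv)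
    have h3 : ‖g w‖ ≤ |C0| := by
      refine h1.trans ((div_le_div_of_nonneg_right (le_abs_self C0) hwpos.le).trans ?_)
      exact div_le_self (abs_nonneg _) hw1
    have h4 : ‖w * deriv g w‖ ≤ |C0| := h2.trans (le_abs_self _)
    refine hfin _ (4 * |C0|) (by positivity) ?_ ?_
    · rw [hD]
      have : 0 ≤ (K / δ ^ 2 + C1 / δ) * (1 + R ^ 2) := by positivity
      linarith
    · have hv1 : 1 ≤ v ^ 2 := by
        rw [← sq_abs v]
        nlinarith [hR1.trans hRv]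
      have h5 : (‖g w‖ + ‖w * deriv g w‖) / ‖w‖ ^ 2 ≤ 2 * |C0| / v ^ 2 := by
        refine div_le_div₀ (by positivity) (by linarith) (by linarith) hvsq
      have h6 : 2 * |C0| / v ^ 2 ≤ 4 * |C0| / (1 + v ^ 2) := by
        rw [div_le_div_iff₀ (by linarith) hv2]
        nlinarith [abs_nonneg C0]
      refine h5.trans (h6.trans ?_)
      refine div_le_div_of_nonneg_right ?_ hv2.le
      have h7 : 4 * |C0| * 1 * 1 ≤ 4 * |C0| * (1 / √ε) * (1 + Sg) := by
        gcongr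
        linarith
      linarith
  · -- middle
    have hder : ∀ u : ℝ, 0 < u → u ≤ 1 → ‖deriv g ((u : ℂ) + v * I)‖
        ≤ C1 * (1 + ∑ z ∈ Z, 1 / ‖((u : ℂ) + v * I) - z * I‖) := by
      intro u hu hu1
      have hn1 : |v| ≤ ‖(u : ℂ) + v * I‖ := by
        have := Complex.abs_im_le_norm ((u : ℂ) + v * I)
        simpa using this
      refine hmid _ (by simpa using hu) (by simpa using hu1) (by linarith) ?_
      calc ‖(u : ℂ) + v * I‖ ≤ ‖(u : ℂ)‖ + ‖(v : ℂ) * I‖ := norm_add_le _ _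
        _ = |u| + |v| := by simp
        _ ≤ R + 1 := by rw [abs_of_pos hu]; linarith
    -- derivative at `w`
    have h1 : ‖deriv g w‖ ≤ C1 * (1 / √ε) * (1 + Sg) := by
      have h2 : (1 : ℝ) + ∑ z ∈ Z, 1 / ‖w - z * I‖ ≤ (1 / √ε) * (1 + Sg) := by
        rw [mul_add, mul_one, hSg, Finset.mul_sum]
        refine add_le_add hinv (Finset.sum_le_sum fun z hz => ?_)
        have hvz : v ≠ z := fun e => hvZ (e ▸ hz)
        have h3 : 0 < √|v - z| := Real.sqrt_pos.mpr (abs_pos.mpr (sub_ne_zero.mpr hvz))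
        rw [div_mul_div_comm, one_mul]
        exact one_div_le_one_div_of_le (by positivity) (eb_sqrt hε)
      have h3 := (hder ε hε hε1).trans (mul_le_mul_of_nonneg_left h2 hC1)
      rw [mul_assoc]
      exact h3
    -- growth of `g`
    have h2 : ‖g w‖ ≤ K * (1 / √ε) := by
      have hb : ∀ u : ℝ, 0 < u → u ≤ 1 →
          ‖deriv g ((u : ℂ) + v * I)‖ ≤ C1 * (1 + (Z.card : ℝ) / u) := by
        intro u hu hu1
        refine (hder u hu hu1).trans (mul_le_mul_of_nonneg_left (add_le_add le_rfl ?_) hC1)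
        calc ∑ z ∈ Z, 1 / ‖((u : ℂ) + v * I) - z * I‖ ≤ ∑ _z ∈ Z, 1 / u :=
              Finset.sum_le_sum fun z _ => one_div_le_one_div_of_le hu (eb_re hu)
          _ = (Z.card : ℝ) / u := by rw [Finset.sum_const, nsmul_eq_mul]; ring
      have h3 := eb_seg h.diff hb (hM v ⟨by linarith [neg_abs_le v], by linarith [le_abs_self v]⟩)
        hε hε1
      refine h3.trans ?_
      have h4 := eb_log hε
      have h5 : (1 - ε) + (Z.card : ℝ) * (-Real.log ε) ≤ (1 + 2 * Z.card) * (1 / √ε) := by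
        have h6 : (Z.card : ℝ) * (-Real.log ε) ≤ (Z.card : ℝ) * (2 / √ε) :=
          mul_le_mul_of_nonneg_left h4 (by positivity)
        have h7 : (1 + 2 * (Z.card : ℝ)) * (1 / √ε) = 1 / √ε + (Z.card : ℝ) * (2 / √ε) := by ring
        rw [h7]
        linarith
      have h8 : M ≤ M * (1 / √ε) := le_mul_of_one_le_right hM0 hinv
      calc M + C1 * ((1 - ε) + (Z.card : ℝ) * (-Real.log ε))
          ≤ M * (1 / √ε) + C1 * ((1 + 2 * Z.card) * (1 / √ε)) :=
            add_le_add h8 (mul_le_mul_of_nonneg_left h5 hC1)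
        _ = K * (1 / √ε) := by rw [hK]; ring
    refine hfin _ ((K / δ ^ 2 + C1 / δ) * (1 + R ^ 2)) (by positivity) ?_ ?_
    · rw [hD]
      have : 0 ≤ 4 * |C0| := by positivity
      linarith
    · have hδw : δ ≤ ‖w‖ := (hv.le).trans hwv
      have h3 : (‖g w‖ + ‖w * deriv g w‖) / ‖w‖ ^ 2
          ≤ (K / δ ^ 2 + C1 / δ) * ((1 / √ε) * (1 + Sg)) := by
        have e1 : (‖g w‖ + ‖w * deriv g w‖) / ‖w‖ ^ 2 = ‖g w‖ / ‖w‖ ^ 2 + ‖deriv g w‖ / ‖w‖ := by
          rw [norm_mul]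
          field_simp
        rw [e1, add_mul]
        refine add_le_add ?_ ?_
        · have : ‖g w‖ / ‖w‖ ^ 2 ≤ (K * (1 / √ε)) / δ ^ 2 :=
            div_le_div₀ (by positivity) h2 (by positivity) (pow_le_pow_left₀ hδ.le hδw 2)
          refine this.trans ?_
          have e2 : (K * (1 / √ε)) / δ ^ 2 = K / δ ^ 2 * ((1 / √ε) * 1) := by ring
          rw [e2]
          gcongr
          linarith
        · have : ‖deriv g w‖ / ‖w‖ ≤ (C1 * (1 / √ε) * (1 + Sg)) / δ :=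
            div_le_div₀ (by positivity) h1 hδ hδw
          refine this.trans (le_of_eq ?_)
          ring
      refine h3.trans ?_
      rw [le_div_iff₀ hv2]
      have h4 : 1 + v ^ 2 ≤ 1 + R ^ 2 := by
        rw [← sq_abs v]
        have := pow_le_pow_left₀ (abs_nonneg v) hRv.le 2
        linarith
      calc (K / δ ^ 2 + C1 / δ) * ((1 / √ε) * (1 + Sg)) * (1 + v ^ 2)
          ≤ (K / δ ^ 2 + C1 / δ) * ((1 / √ε) * (1 + Sg)) * (1 + R ^ 2) := by gcongr
        _ = (K / δ ^ 2 + C1 / δ) * (1 + R ^ 2) * (1 / √ε) * (1 + Sg) := by ring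

/-- The singularity `1 / √|x|` is integrable near `0`. -/
private lemma eb2_ker : Integrable ((Ioc (-1 : ℝ) 1).indicator fun x : ℝ => 1 / √|x|) := by
  rw [integrable_indicator_iff measurableSet_Ioc,
    ← intervalIntegrable_iff_integrableOn_Ioc_of_le (by norm_num)]
  have h1 : IntervalIntegrable (fun x : ℝ => 1 / √|x|) volume 0 1 := by
    have h := intervalIntegral.intervalIntegrable_rpow' (a := 0) (b := 1)
      (r := -(1 / 2 : ℝ)) (by norm_num)
    refine h.congr ?_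
    rw [uIoc_of_le zero_le_one]
    intro x hx
    show x ^ (-(1 / 2 : ℝ)) = 1 / √|x|
    rw [abs_of_pos hx.1, Real.rpow_neg hx.1.le, Real.sqrt_eq_rpow, one_div (x ^ (1 / 2 : ℝ))]
  have h2 : IntervalIntegrable (fun x : ℝ => 1 / √|x|) volume (-1) 0 := by
    rw [IntervalIntegrable.iff_comp_neg]
    simpa using h1.symm
  exact h2.trans h1

private lemma eb2_int (z : ℝ) : Integrable fun v : ℝ => 1 / √|v - z| * (1 + v ^ 2)⁻¹ := by
  have hk := (eb2_ker.comp_sub_right z).add integrable_inv_one_add_sq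
  refine hk.mono' ?_ (Eventually.of_forall fun v => ?_)
  · refine Measurable.aestronglyMeasurable ?_
    exact (measurable_const.div (((measurable_id.sub_const z).abs).sqrt)).mul
      ((measurable_const.add (measurable_id.pow_const 2)).inv)
  · have h0 : (0 : ℝ) < 1 + v ^ 2 := by positivity
    have hle : (1 + v ^ 2)⁻¹ ≤ 1 := inv_le_one_of_one_le₀ (by nlinarith [sq_nonneg v])
    have hs : 0 ≤ 1 / √|v - z| := by positivity
    rw [Real.norm_of_nonneg (by positivity), Pi.add_apply]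
    by_cases hv : v - z ∈ Ioc (-1 : ℝ) 1
    · rw [indicator_of_mem hv]
      have : 1 / √|v - z| * (1 + v ^ 2)⁻¹ ≤ 1 / √|v - z| := mul_le_of_le_one_right hs hle
      have h3 : (0 : ℝ) ≤ (1 + v ^ 2)⁻¹ := by positivity
      linarith
    · rw [indicator_of_notMem hv, zero_add]
      have h1 : 1 ≤ |v - z| := by
        by_contra hlt
        rw [not_le] at hlt
        have := abs_lt.mp hlt
        exact hv ⟨this.1, this.2.le⟩
      have h2 : 1 / √|v - z| ≤ 1 := by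
        rw [div_le_one (by positivity)]
        exact Real.one_le_sqrt.mpr h1
      exact mul_le_of_le_one_left (by positivity) h2

private lemma eb2_phi (Z : Finset ℝ) :
    Integrable fun v : ℝ => (1 + ∑ z ∈ Z, 1 / √|v - z|) / (1 + v ^ 2) := by
  have h := integrable_inv_one_add_sq.add (integrable_finsetSum Z fun z _ => eb2_int z)
  refine h.congr (Eventually.of_forall fun v => ?_)
  simp only [Pi.add_apply]
  rw [div_eq_mul_inv, add_mul, one_mul, Finset.sum_mul]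

/-- PIECE RF-Eb2.  The part `|y| > δ T` tends to `0`.
Proof: substitute `y = T v`, `ε = 1 / T`: the integral is at most
`(1/T) * integral over |v| > δ of (‖g w‖ + ‖w g' w‖) / ‖w‖^2 dv`, by `tail_pt` at most
`(1/T) C √T * integral of (1 + sum 1/√|v - z|) / (1 + v^2) dv`, a finite constant times `T^(-1/2)`
(`1/√|v - z|` is locally integrable: `intervalIntegrable_rpow` type lemmas or
`integrableOn` of `|x|^(-1/2)` on `[-1, 1]`, and at most `1` where `|v - z| ≥ 1`). -/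
theorem tail {g : ℂ → ℂ} {α : ℝ} {ℓ : ℂ} (h : Good g α ℓ) {δ : ℝ} (hδ : 0 < δ) :
    Tendsto (fun T : ℝ => ∫ y in {y : ℝ | δ * T < |y|},
      ‖g ((1 + (y : ℂ) * I) / T) - (1 + (y : ℂ) * I) / T * deriv g ((1 + (y : ℂ) * I) / T)‖
        / ‖1 + (y : ℂ) * I‖ ^ 2) atTop (𝓝 0) := by
  obtain ⟨C, Z, hC, hpt⟩ := tail_pt h hδ
  set φ : ℝ → ℝ := fun v => (1 + ∑ z ∈ Z, 1 / √|v - z|) / (1 + v ^ 2) with hφ
  have hφi : Integrable φ := eb2_phi Z
  have hφ0 : ∀ v, 0 ≤ φ v := fun v => by simp only [hφ]; positivity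
  have hlim : Tendsto (fun T : ℝ => C * (∫ v, φ v) / √T) atTop (𝓝 0) :=
    Real.tendsto_sqrt_atTop.const_div_atTop _
  refine squeeze_zero' (Eventually.of_forall fun T => integral_nonneg fun y => by positivity) ?_
    hlim
  filter_upwards [eventually_ge_atTop 1] with T hT
  have hT0 : 0 < T := by linarith
  have hTc : (T : ℂ) ≠ 0 := by exact_mod_cast hT0.ne'
  have hbound : ∀ y : ℝ, δ * T < |y| → y / T ∉ Z →
      ‖g ((1 + (y : ℂ) * I) / T) - (1 + (y : ℂ) * I) / T * deriv g ((1 + (y : ℂ) * I) / T)‖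
        / ‖1 + (y : ℂ) * I‖ ^ 2 ≤ C * √T / T ^ 2 * φ (y / T) := by
    intro y hy hyZ
    have hw : (1 + (y : ℂ) * I) / T = ((T⁻¹ : ℝ) : ℂ) + ((y / T : ℝ) : ℂ) * I := by
      push_cast
      field_simp
    have hv : δ < |y / T| := by
      rw [abs_div, abs_of_pos hT0, lt_div_iff₀ hT0]
      exact hy
    have h1 := hpt T⁻¹ (y / T) (inv_pos.mpr hT0) (inv_le_one_of_one_le₀ hT) hv hyZ
    have hn : ‖1 + (y : ℂ) * I‖ ^ 2 = T ^ 2 * ‖((T⁻¹ : ℝ) : ℂ) + ((y / T : ℝ) : ℂ) * I‖ ^ 2 := by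
      rw [← hw, norm_div, Complex.norm_real, Real.norm_of_nonneg hT0.le]
      field_simp
    rw [hw, hn]
    have hnorm := norm_sub_le (g (((T⁻¹ : ℝ) : ℂ) + ((y / T : ℝ) : ℂ) * I))
      ((((T⁻¹ : ℝ) : ℂ) + ((y / T : ℝ) : ℂ) * I) *
        deriv g (((T⁻¹ : ℝ) : ℂ) + ((y / T : ℝ) : ℂ) * I))
    have hwpos : 0 < ‖((T⁻¹ : ℝ) : ℂ) + ((y / T : ℝ) : ℂ) * I‖ ^ 2 := by
      have : ((T⁻¹ : ℝ) : ℂ) + ((y / T : ℝ) : ℂ) * I ≠ 0 := ne_zero_of_re (by
        simp only [add_re, ofReal_re, mul_re, I_re, mul_zero, ofReal_im, I_im, sub_self,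
          add_zero, zero_mul]
        positivity)
      positivity
    have hsq : C / √T⁻¹ = C * √T := by
      rw [Real.sqrt_inv, div_inv_eq_mul]
    rw [hsq] at h1
    calc _ ≤ (‖g (((T⁻¹ : ℝ) : ℂ) + ((y / T : ℝ) : ℂ) * I)‖ +
          ‖(((T⁻¹ : ℝ) : ℂ) + ((y / T : ℝ) : ℂ) * I) *
            deriv g (((T⁻¹ : ℝ) : ℂ) + ((y / T : ℝ) : ℂ) * I)‖) /
          (T ^ 2 * ‖((T⁻¹ : ℝ) : ℂ) + ((y / T : ℝ) : ℂ) * I‖ ^ 2) := by gcongr
      _ = 1 / T ^ 2 * ((‖g (((T⁻¹ : ℝ) : ℂ) + ((y / T : ℝ) : ℂ) * I)‖ +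
          ‖(((T⁻¹ : ℝ) : ℂ) + ((y / T : ℝ) : ℂ) * I) *
            deriv g (((T⁻¹ : ℝ) : ℂ) + ((y / T : ℝ) : ℂ) * I)‖) /
          ‖((T⁻¹ : ℝ) : ℂ) + ((y / T : ℝ) : ℂ) * I‖ ^ 2) := by
            rw [div_mul_div_comm, one_mul]
      _ ≤ 1 / T ^ 2 * (C * √T * φ (y / T)) := by gcongr
      _ = C * √T / T ^ 2 * φ (y / T) := by ring
  have hms : MeasurableSet {y : ℝ | δ * T < |y|} :=
    measurableSet_lt measurable_const measurable_id.abs
  have hgi : Integrable fun y : ℝ => C * √T / T ^ 2 * φ (y / T) :=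
    (hφi.comp_div hT0.ne').const_mul _
  have hfin : ∀ᵐ y : ℝ, y / T ∉ Z := by
    have hf : ((Z : Set ℝ).image fun z => z * T).Finite := Z.finite_toSet.image _
    filter_upwards [hf.countable.ae_notMem volume] with y hy hyZ
    exact hy ⟨y / T, hyZ, by field_simp⟩
  calc _ ≤ ∫ y in {y : ℝ | δ * T < |y|}, C * √T / T ^ 2 * φ (y / T) := by
        refine integral_mono_of_nonneg (Eventually.of_forall fun y => by positivity)
          hgi.integrableOn ?_
        filter_upwards [ae_restrict_mem hms, ae_restrict_of_ae hfin] with y hy1 hy2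
        exact hbound y hy1 hy2
    _ ≤ ∫ y, C * √T / T ^ 2 * φ (y / T) :=
        setIntegral_le_integral hgi (Eventually.of_forall fun y => by
          have := hφ0 (y / T)
          positivity)
    _ = C * (∫ v, φ v) / √T := by
        rw [integral_const_mul, Measure.integral_comp_div, abs_of_pos hT0, smul_eq_mul]
        have hs : √T * √T = T := Real.mul_self_sqrt hT0.le
        have hs0 : 0 < √T := Real.sqrt_pos.mpr hT0
        field_simp
        rw [sq, hs]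

end Pool.Agent.Helper66.RF
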