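import Pool.Agent.Helper66.RF.Ea

set_option autoImplicit false

/-!
The limit of the line integrals: the part near `0`.
-/

namespace Pool.Agent.Helper66.RF

open Complex MeasureTheory Set Filter Topology

lemma ec_re (y : ℝ) : (1 + (y : ℂ) * I).re = 1 := by simp

lemma ec_ne (y : ℝ) : (1 + (y : ℂ) * I) ≠ 0 := ne_zero_of_re (by rw [ec_re]; exact one_pos)

lemma ec_norm_sq (y : ℝ) : ‖(1 + (y : ℂ) * I)‖ ^ 2 = 1 + y ^ 2 := by
  rw [Complex.sq_norm, Complex.normSq_apply]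
  simp
  ring

lemma ec_log_bound (y : ℝ) : ‖log (1 + (y : ℂ) * I)‖ ≤ 2 * (1 + y ^ 2) ^ (1 / 4 : ℝ) + Real.pi := by
  set μ : ℂ := 1 + (y : ℂ) * I with hμ
  have h1 : ‖log μ‖ ≤ |(log μ).re| + |(log μ).im| := Complex.norm_le_abs_re_add_abs_im _
  rw [Complex.log_re, Complex.log_im] at h1
  have h2 : |arg μ| ≤ Real.pi := Complex.abs_arg_le_pi μ
  have h3 : ‖μ‖ = (1 + y ^ 2) ^ (1 / 2 : ℝ) := by
    rw [← ec_norm_sq, ← Real.sqrt_eq_rpow, Real.sqrt_sq (norm_nonneg _)]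
  have h4 : 1 ≤ 1 + y ^ 2 := by nlinarith [sq_nonneg y]
  have h5 : 0 ≤ Real.log ‖μ‖ := by
    apply Real.log_nonneg
    rw [h3]
    exact Real.one_le_rpow h4 (by norm_num)
  have h6 : Real.log ‖μ‖ ≤ 2 * (1 + y ^ 2) ^ (1 / 4 : ℝ) := by
    have h7 := Real.log_le_rpow_div (norm_nonneg μ) (ε := 1 / 2) (by norm_num)
    rw [h3, ← Real.rpow_mul (by positivity)] at h7
    rw [h3]
    norm_num at h7 ⊢
    linarith
  rw [abs_of_nonneg h5] at h1
  linarith

lemma ec_dom_int (A B : ℝ) : Integrable fun y : ℝ =>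
    Real.exp 1 * ((A * (2 * (1 + y ^ 2) ^ (1 / 4 : ℝ) + Real.pi) + B) / (1 + y ^ 2)) := by
  have h1 : Integrable fun y : ℝ => (1 + y ^ 2)⁻¹ := integrable_inv_one_add_sq
  have h2 : Integrable fun y : ℝ => (1 + y ^ 2) ^ (-(3 / 2 : ℝ) / 2) := by
    have := integrable_rpow_neg_one_add_norm_sq (E := ℝ) (μ := volume) (r := 3 / 2) (by simp; norm_num)
    simpa using this
  have h3 : (fun y : ℝ => Real.exp 1 * ((A * (2 * (1 + y ^ 2) ^ (1 / 4 : ℝ) + Real.pi) + B)
      / (1 + y ^ 2))) = fun y : ℝ => Real.exp 1 * (2 * A) * (1 + y ^ 2) ^ (-(3 / 2 : ℝ) / 2)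
        + Real.exp 1 * (A * Real.pi + B) * (1 + y ^ 2)⁻¹ := by
    ext y
    have h4 : 0 < 1 + y ^ 2 := by positivity
    have h5 : (1 + y ^ 2) ^ (-(3 / 2 : ℝ) / 2) = (1 + y ^ 2) ^ (1 / 4 : ℝ) / (1 + y ^ 2) := by
      rw [show (-(3 / 2 : ℝ) / 2) = 1 / 4 - 1 by norm_num, Real.rpow_sub h4, Real.rpow_one]
    rw [h5]
    field_simp
    ring
  rw [h3]
  exact (h2.const_mul _).add (h1.const_mul _)

lemma ec_cont {g : ℂ → ℂ} (hg : ∀ w : ℂ, 0 < w.re → DifferentiableAt ℂ g w) {T : ℝ} (hT : 0 < T) :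
    Continuous (fun y : ℝ => g ((1 + (y : ℂ) * I) / T)) ∧
    Continuous (fun y : ℝ => deriv g ((1 + (y : ℂ) * I) / T)) := by
  have hopen : IsOpen {w : ℂ | 0 < w.re} := isOpen_lt continuous_const Complex.continuous_re
  have hd : DifferentiableOn ℂ g {w : ℂ | 0 < w.re} := fun w hw => (hg w hw).differentiableWithinAt
  have ha := hd.analyticOnNhd hopen
  have hmem : ∀ y : ℝ, 0 < ((1 + (y : ℂ) * I) / T).re := by
    intro y
    rw [Complex.div_ofReal_re, ec_re]
    positivity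
  have hc : Continuous fun y : ℝ => (1 + (y : ℂ) * I) / (T : ℂ) := by fun_prop
  constructor
  · rw [continuous_iff_continuousAt]
    intro y
    exact ContinuousAt.comp (f := fun y : ℝ => (1 + (y : ℂ) * I) / (T : ℂ))
      (hg _ (hmem y)).continuousAt hc.continuousAt
  · rw [continuous_iff_continuousAt]
    intro y
    exact ContinuousAt.comp (f := fun y : ℝ => (1 + (y : ℂ) * I) / (T : ℂ))
      (ha.deriv _ (hmem y)).continuousAt hc.continuousAt

/-- PIECE RF-Ec.  The part `|y| ≤ δ T` for a suitable small `δ`.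
Proof: choose `r > 0` with `‖g w - α log w - ℓ‖ ≤ 1` and `‖w g'(w) - α‖ ≤ 1` for `0 < Re w`,
`‖w‖ < r`, and `δ = r / 3`.  For `T > 3 / r` and `|y| ≤ δ T` the point `w = μ / T`, `μ = 1 + i y`, has
`‖w‖ ≤ 1 / T + δ < r`, `log w = log μ - log T` (`Complex.log_ofReal_mul`), so the integrand is at most
`e (|α| ‖log μ‖ + ‖ℓ‖ + |α| + 2) / ‖μ‖^2`, integrable (`‖log μ‖ ≤ log ‖μ‖ + pi`, and
`log x ≤ 2 √x`); for fixed `y` it converges to `exp μ (α log μ + ℓ - α) / μ^2` (`w → 0` inside the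
half plane).  Dominated convergence with the indicator of `|y| ≤ δ T`. -/
theorem near_lim {g : ℂ → ℂ} {α : ℝ} {ℓ : ℂ} (h : Good g α ℓ) : ∃ δ : ℝ, 0 < δ ∧
    Tendsto (fun T : ℝ => ∫ y in {y : ℝ | |y| ≤ δ * T}, cexp (1 + (y : ℂ) * I)
      * ((g ((1 + (y : ℂ) * I) / T) + (α : ℂ) * (Real.log T : ℝ)
        - (1 + (y : ℂ) * I) / T * deriv g ((1 + (y : ℂ) * I) / T)) / (1 + (y : ℂ) * I) ^ 2))
      atTop (𝓝 (∫ y : ℝ, cexp (1 + (y : ℂ) * I)
        * (((α : ℂ) * log (1 + (y : ℂ) * I) + ℓ - α) / (1 + (y : ℂ) * I) ^ 2))) := by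
  have e1 := (Metric.tendsto_nhds.mp h.near) 1 one_pos
  have e2 := (Metric.tendsto_nhds.mp h.near') 1 one_pos
  obtain ⟨r, hr, hrs⟩ := Metric.mem_nhdsWithin_iff.mp (e1.and e2)
  refine ⟨r / 3, by positivity, ?_⟩
  have hre : ∀ (T y : ℝ), 0 < T → 0 < ((1 + (y : ℂ) * I) / T).re := by
    intro T y hT
    rw [Complex.div_ofReal_re, ec_re]
    positivity
  have hlog : ∀ (T y : ℝ), 0 < T →
      log ((1 + (y : ℂ) * I) / T) = log (1 + (y : ℂ) * I) - (Real.log T : ℝ) := by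
    intro T y hT
    have h1 : (1 + (y : ℂ) * I) = (T : ℂ) * ((1 + (y : ℂ) * I) / T) := by
      rw [mul_div_cancel₀]
      exact_mod_cast hT.ne'
    have h2 := Complex.log_ofReal_mul hT (ne_zero_of_re (hre T y hT))
    rw [← h1] at h2
    rw [h2]
    ring
  have hmeas : ∀ T : ℝ, MeasurableSet {y : ℝ | |y| ≤ r / 3 * T} := fun T =>
    measurableSet_le measurable_norm measurable_const
  have hint : ∀ T : ℝ, ∫ y in {y : ℝ | |y| ≤ r / 3 * T}, cexp (1 + (y : ℂ) * I)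
      * ((g ((1 + (y : ℂ) * I) / T) + (α : ℂ) * (Real.log T : ℝ)
        - (1 + (y : ℂ) * I) / T * deriv g ((1 + (y : ℂ) * I) / T)) / (1 + (y : ℂ) * I) ^ 2)
      = ∫ y : ℝ, {y : ℝ | |y| ≤ r / 3 * T}.indicator (fun y : ℝ => cexp (1 + (y : ℂ) * I)
      * ((g ((1 + (y : ℂ) * I) / T) + (α : ℂ) * (Real.log T : ℝ)
        - (1 + (y : ℂ) * I) / T * deriv g ((1 + (y : ℂ) * I) / T))
          / (1 + (y : ℂ) * I) ^ 2)) y := fun T => (integral_indicator (hmeas T)).symm
  simp_rw [hint]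
  refine tendsto_integral_filter_of_dominated_convergence (fun y : ℝ =>
    Real.exp 1 * ((|α| * (2 * (1 + y ^ 2) ^ (1 / 4 : ℝ) + Real.pi) + (‖ℓ‖ + |α| + 2))
      / (1 + y ^ 2))) ?_ ?_ (ec_dom_int _ _) ?_
  · filter_upwards [eventually_gt_atTop 0] with T hT
    obtain ⟨c1, c2⟩ := ec_cont h.diff hT
    refine AEStronglyMeasurable.indicator (Continuous.aestronglyMeasurable ?_) (hmeas T)
    have c3 : Continuous fun y : ℝ => (1 + (y : ℂ) * I) := by fun_prop
    refine (Complex.continuous_exp.comp c3).mul (Continuous.div ?_ (c3.pow 2) fun y =>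
      pow_ne_zero 2 (ec_ne y))
    exact (c1.add continuous_const).sub ((c3.div_const _).mul c2)
  · filter_upwards [eventually_gt_atTop 0, eventually_gt_atTop (3 / r)] with T hT hT2
    refine Eventually.of_forall fun y => ?_
    have hpos : 0 ≤ Real.exp 1 * ((|α| * (2 * (1 + y ^ 2) ^ (1 / 4 : ℝ) + Real.pi)
        + (‖ℓ‖ + |α| + 2)) / (1 + y ^ 2)) := by
      have := Real.pi_pos
      positivity
    by_cases hy : y ∈ {y : ℝ | |y| ≤ r / 3 * T}
    · rw [indicator_of_mem hy]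
      set μ : ℂ := 1 + (y : ℂ) * I with hμ
      set w : ℂ := μ / T with hw
      have hwre : 0 < w.re := hre T y hT
      have hwn : ‖w‖ < r := by
        have h1 : ‖μ‖ ≤ 1 + |y| := by
          refine (norm_add_le _ _).trans ?_
          simp
        have h2 : ‖w‖ = ‖μ‖ / T := by
          rw [hw, norm_div, Complex.norm_real, Real.norm_eq_abs, abs_of_pos hT]
        rw [h2, div_lt_iff₀ hT]
        have h3 : |y| ≤ r / 3 * T := hy
        have h4 : 3 < T * r := by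
          rwa [div_lt_iff₀ hr] at hT2
        nlinarith
      have hmem : w ∈ Metric.ball (0 : ℂ) r ∩ {w : ℂ | 0 < w.re} :=
        ⟨by rwa [mem_ball_zero_iff], hwre⟩
      obtain ⟨b1, b2⟩ := hrs hmem
      rw [dist_eq_norm] at b1 b2
      have hl := hlog T y hT
      have e3 : g w + (α : ℂ) * (Real.log T : ℝ) - w * deriv g w
          = (g w - (α : ℂ) * log w - ℓ) + (α : ℂ) * log μ + ℓ - (w * deriv g w - α) - α := by
        rw [hw, hμ, hl]
        ring
      have b3 : ‖g w + (α : ℂ) * (Real.log T : ℝ) - w * deriv g w‖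
          ≤ |α| * (2 * (1 + y ^ 2) ^ (1 / 4 : ℝ) + Real.pi) + (‖ℓ‖ + |α| + 2) := by
        rw [e3]
        have b4 : ‖(α : ℂ) * log μ‖ ≤ |α| * (2 * (1 + y ^ 2) ^ (1 / 4 : ℝ) + Real.pi) := by
          rw [norm_mul, Complex.norm_real, Real.norm_eq_abs]
          exact mul_le_mul_of_nonneg_left (ec_log_bound y) (abs_nonneg _)
        have b5 : ‖(α : ℂ)‖ = |α| := by rw [Complex.norm_real, Real.norm_eq_abs]
        have t1 := norm_sub_le ((g w - (α : ℂ) * log w - ℓ) + (α : ℂ) * log μ + ℓ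
          - (w * deriv g w - α)) (α : ℂ)
        have t2 := norm_sub_le ((g w - (α : ℂ) * log w - ℓ) + (α : ℂ) * log μ + ℓ)
          (w * deriv g w - α)
        have t3 := norm_add_le ((g w - (α : ℂ) * log w - ℓ) + (α : ℂ) * log μ) ℓ
        have t4 := norm_add_le (g w - (α : ℂ) * log w - ℓ) ((α : ℂ) * log μ)
        rw [b5] at t1
        linarith
      rw [norm_mul, norm_div, norm_pow, ec_norm_sq, Complex.norm_exp, ec_re]
      have h9 : 0 < 1 + y ^ 2 := by positivity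
      gcongr
    · rw [indicator_of_notMem hy, norm_zero]
      exact hpos
  · refine Eventually.of_forall fun y => ?_
    have hw0 : Tendsto (fun T : ℝ => (1 + (y : ℂ) * I) / (T : ℂ)) atTop
        (𝓝[{w : ℂ | 0 < w.re}] 0) := by
      refine tendsto_nhdsWithin_iff.mpr ⟨?_, ?_⟩
      · have h1 : Tendsto (fun T : ℝ => ((T : ℂ))⁻¹) atTop (𝓝 0) := by
          have h2 : Tendsto (fun T : ℝ => ((T⁻¹ : ℝ) : ℂ)) atTop (𝓝 ((0 : ℝ) : ℂ)) :=
            (Complex.continuous_ofReal.tendsto _).comp tendsto_inv_atTop_zero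
          simpa using h2
        have h3 := h1.const_mul (1 + (y : ℂ) * I)
        rw [mul_zero] at h3
        exact h3
      · filter_upwards [eventually_gt_atTop 0] with T hT
        exact hre T y hT
    have l1 := h.near.comp hw0
    have l2 := h.near'.comp hw0
    have l3 := ((l1.add_const ((α : ℂ) * log (1 + (y : ℂ) * I))).sub l2).div_const
      ((1 + (y : ℂ) * I) ^ 2)
    have l4 := l3.const_mul (cexp (1 + (y : ℂ) * I))
    have e5 : ℓ + (α : ℂ) * log (1 + (y : ℂ) * I) - (α : ℂ)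
        = (α : ℂ) * log (1 + (y : ℂ) * I) + ℓ - α := by ring
    rw [e5] at l4
    refine l4.congr' ?_
    filter_upwards [eventually_gt_atTop 0, eventually_ge_atTop (|y| / (r / 3))] with T hT hT2
    have hy : y ∈ {y : ℝ | |y| ≤ r / 3 * T} := by
      change |y| ≤ r / 3 * T
      rw [div_le_iff₀ (by positivity)] at hT2
      linarith
    rw [indicator_of_mem hy]
    simp only [Function.comp]
    rw [hlog T y hT]
    congr 2
    ring

end Pool.Agent.Helper66.RF
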