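import Pool.Agent.Helper66.RF.Defs

set_option autoImplicit false

/-!
The first constant.
-/

namespace Pool.Agent.Helper66.RF

open Complex MeasureTheory Set Filter Topology

lemma k0_norm (y : ℝ) : ‖(1 + (y : ℂ) * I)‖ ^ 2 = 1 + y ^ 2 := by
  rw [← Complex.normSq_eq_norm_sq]
  simp [Complex.normSq_apply]
  ring

lemma k0_ne (y : ℝ) : (1 + (y : ℂ) * I) ≠ 0 := by
  intro h
  have := congrArg Complex.re h
  simp at this

lemma k0_cont : Continuous fun y : ℝ => cexp (1 + (y : ℂ) * I) / (1 + (y : ℂ) * I) ^ 2 := by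
  apply Continuous.div
  · fun_prop
  · fun_prop
  · intro y
    exact pow_ne_zero 2 (k0_ne y)

/-- PIECE RF-Ka, first statement. -/
theorem int0 : Integrable fun y : ℝ => cexp (1 + (y : ℂ) * I) / (1 + (y : ℂ) * I) ^ 2 := by
  have h1 : Integrable fun y : ℝ => Real.exp 1 * (1 + y ^ 2)⁻¹ :=
    integrable_inv_one_add_sq.const_mul _
  refine h1.mono' k0_cont.aestronglyMeasurable (Eventually.of_forall fun y => ?_)
  rw [norm_div, norm_pow, k0_norm, Complex.norm_exp]
  simp [div_eq_mul_inv]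

/-- The function with Mellin transform `1 / s ^ 2`. -/
noncomputable def k0f (t : ℝ) : ℂ :=
  (-1 : ℂ) • (Real.log t • (Ioc (0 : ℝ) 1).indicator (fun _ => (1 : ℂ)) t)

lemma k0_mellin {s : ℂ} (hs : 0 < s.re) : HasMellin k0f s (1 / s ^ 2) := by
  have hs0 : s ≠ 0 := by
    rintro rfl
    simp at hs
  have hloc : LocallyIntegrableOn ((Ioc (0 : ℝ) 1).indicator (fun _ => (1 : ℂ))) (Ioi 0) := by
    apply LocallyIntegrable.locallyIntegrableOn
    exact (integrable_indicator_iff measurableSet_Ioc).2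
      (integrableOn_const (by simp)) |>.locallyIntegrable
  have h := mellin_hasDerivAt_of_isBigO_rpow (a := s.re + 1) (b := 0)
    (f := (Ioc (0 : ℝ) 1).indicator (fun _ => (1 : ℂ))) (s := s) hloc
    (by
      refine Asymptotics.IsBigO.of_bound 1 ?_
      filter_upwards [eventually_gt_atTop (1 : ℝ)] with t ht
      rw [indicator_of_notMem (by simp [ht])]
      simp)
    (by linarith)
    (by
      refine Asymptotics.IsBigO.of_bound 1 ?_
      filter_upwards with t
      simp only [neg_zero, Real.rpow_zero, norm_one, mul_one]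
      by_cases ht : t ∈ Ioc (0 : ℝ) 1
      · rw [indicator_of_mem ht]; simp
      · rw [indicator_of_notMem ht]; simp)
    hs
  have hd : HasDerivAt (mellin ((Ioc (0 : ℝ) 1).indicator (fun _ => (1 : ℂ)))) (-(1 / s ^ 2)) s := by
    have h2 : HasDerivAt (fun z : ℂ => 1 / z) (-(1 / s ^ 2)) s := by
      have := hasDerivAt_inv hs0
      simpa [one_div] using this
    refine h2.congr_of_eventuallyEq ?_
    have hopen : {z : ℂ | 0 < z.re} ∈ 𝓝 s :=
      (isOpen_lt continuous_const Complex.continuous_re).mem_nhds hs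
    filter_upwards [hopen] with z hz
    exact (hasMellin_one_Ioc hz).2
  have heq := h.2.unique hd
  have h3 := hasMellin_const_smul h.1 (-1 : ℂ)
  rw [heq] at h3
  have h5 : (-1 : ℂ) • -(1 / s ^ 2) = 1 / s ^ 2 := by simp
  rw [h5] at h3
  exact h3

/-- PIECE RF-Ka.  `(1 / 2 pi i) * integral over Re w = 1 of e^w / w^2 dw = 1`.
Proof: Mathlib `mellinInv_mellin_eq` (Mellin inversion) with `σ = 1`, `x = exp (-1)` and
`f t = - log t` for `0 < t < 1`, `0` for `t ≥ 1` (continuous at `x`); `mellin f s = 1 / s^2` for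
`Re s > 0` (substitute `t = exp (-u)`, or differentiate, or `hasMellin_...`; the integral
`∫ u in Ioi 0, u * exp (-s u)` is `Complex.integral_cpow_mul_exp_neg_mul_Ioi` with `a = 2`), and
`x^(-(σ + i y)) = exp (1 + i y)`. -/
theorem K0 : (1 / (2 * (Real.pi : ℂ))) * ∫ y : ℝ,
    cexp (1 + (y : ℂ) * I) / (1 + (y : ℂ) * I) ^ 2 = 1 := by
  have hre : ∀ y : ℝ, 0 < (1 + (y : ℂ) * I).re := fun y => by simp
  have hx : (0 : ℝ) < Real.exp (-1) := Real.exp_pos _
  have hx1 : Real.exp (-1) < 1 := by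
    rw [Real.exp_lt_one_iff]; norm_num
  have hconv : MellinConvergent k0f ((1 : ℝ) : ℂ) := (k0_mellin (by simp)).1
  have hF : ∀ y : ℝ, mellin k0f (((1 : ℝ) : ℂ) + (y : ℂ) * I) = 1 / (1 + (y : ℂ) * I) ^ 2 := by
    intro y
    have h := (k0_mellin (hre y)).2
    simpa using h
  have hvert : VerticalIntegrable (mellin k0f) 1 := by
    unfold VerticalIntegrable
    simp_rw [hF]
    have h1 : Integrable fun y : ℝ => (1 + y ^ 2)⁻¹ := integrable_inv_one_add_sq
    refine h1.mono' ?_ (Eventually.of_forall fun y => ?_)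
    · apply Continuous.aestronglyMeasurable
      apply Continuous.div continuous_const (by fun_prop)
      intro y
      exact pow_ne_zero 2 (k0_ne y)
    · rw [norm_div, norm_pow, k0_norm]
      simp
  have hca : ContinuousAt k0f (Real.exp (-1)) := by
    have h1 : ContinuousAt (fun t : ℝ => (-1 : ℂ) • (Real.log t • (1 : ℂ))) (Real.exp (-1)) := by
      have := Real.continuousAt_log hx.ne'
      fun_prop
    refine h1.congr ?_
    filter_upwards [Ioo_mem_nhds hx hx1] with t ht
    simp only [k0f]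
    rw [indicator_of_mem (show t ∈ Ioc (0 : ℝ) 1 from ⟨ht.1, ht.2.le⟩)]
  have hinv := mellinInv_mellin_eq 1 k0f hx hconv hvert hca
  have hval : k0f (Real.exp (-1)) = 1 := by
    simp only [k0f]
    rw [indicator_of_mem (show Real.exp (-1) ∈ Ioc (0 : ℝ) 1 from ⟨hx, hx1.le⟩), Real.log_exp]
    simp
  rw [hval] at hinv
  unfold mellinInv at hinv
  simp_rw [hF] at hinv
  have hpow : ∀ y : ℝ, ((Real.exp (-1) : ℝ) : ℂ) ^ (-(((1 : ℝ) : ℂ) + (y : ℂ) * I)) =
      cexp (1 + (y : ℂ) * I) := by
    intro y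
    rw [Complex.cpow_def_of_ne_zero (by exact_mod_cast hx.ne'), ← Complex.ofReal_log hx.le,
      Real.log_exp]
    congr 1
    push_cast
    ring
  simp_rw [hpow] at hinv
  refine Eq.trans ?_ hinv
  rw [Complex.real_smul]
  congr 1
  · push_cast; ring_nf
  · congr 1
    ext y
    rw [smul_eq_mul, mul_one_div]

end Pool.Agent.Helper66.RF
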