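import Pool.Agent.Helper66.RF.Defs
import Pool.Agent.Helper9.BSD.WRep

set_option autoImplicit false

/-!
The second constant.
-/

namespace Pool.Agent.Helper66.RF

open Complex MeasureTheory Set Filter Topology

lemma kb_norm_log (w : ℂ) : ‖log w‖ ≤ |Real.log ‖w‖| + Real.pi := by
  have h := Complex.norm_le_abs_re_add_abs_im (log w)
  rw [Complex.log_re, Complex.log_im] at h
  have h2 := Complex.abs_arg_le_pi w
  linarith

lemma kb_bound (y : ℝ) : ‖log (1 + (y : ℂ) * I) / (1 + (y : ℂ) * I) ^ 2‖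
    ≤ 6 * (1 + ‖y‖ ^ 2) ^ (-(3 / 2 : ℝ) / 2) := by
  have hn2 : ‖(1 + (y : ℂ) * I)‖ ^ 2 = 1 + y ^ 2 := by
    rw [← Complex.normSq_eq_norm_sq]
    have : (1 + (y : ℂ) * I) = ((1 : ℝ) : ℂ) + (y : ℂ) * I := by simp
    rw [this, Complex.normSq_add_mul_I]
    ring
  have hpos : (0 : ℝ) < 1 + y ^ 2 := by positivity
  have hge : (1 : ℝ) ≤ 1 + y ^ 2 := by nlinarith [sq_nonneg y]
  have hl : Real.log ‖(1 + (y : ℂ) * I)‖ = (1 / 2) * Real.log (1 + y ^ 2) := by
    rw [← hn2, Real.log_pow]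
    push_cast
    ring
  have h1 : Real.log (1 + y ^ 2) ≤ 4 * (1 + y ^ 2) ^ (1 / 4 : ℝ) := by
    have := Real.log_le_rpow_div hpos.le (by norm_num : (0 : ℝ) < 1 / 4)
    linarith
  have h0 : 0 ≤ Real.log (1 + y ^ 2) := Real.log_nonneg hge
  have h2 : (1 : ℝ) ≤ (1 + y ^ 2) ^ (1 / 4 : ℝ) := Real.one_le_rpow hge (by norm_num)
  have h3 : ‖log (1 + (y : ℂ) * I)‖ ≤ 6 * (1 + y ^ 2) ^ (1 / 4 : ℝ) := by
    have h4 := kb_norm_log (1 + (y : ℂ) * I)
    rw [hl, abs_of_nonneg (by positivity)] at h4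
    have h5 := Real.pi_le_four
    nlinarith
  rw [norm_div, norm_pow, hn2, div_le_iff₀ hpos, Real.norm_eq_abs, sq_abs]
  have h6 : (1 + y ^ 2) ^ (-(3 / 2 : ℝ) / 2) * (1 + y ^ 2) = (1 + y ^ 2) ^ (1 / 4 : ℝ) := by
    nth_rewrite 2 [← Real.rpow_one (1 + y ^ 2)]
    rw [← Real.rpow_add hpos]
    norm_num
  rw [mul_assoc, h6]
  exact h3

lemma kb_cont : Continuous fun y : ℝ => log (1 + (y : ℂ) * I) / (1 + (y : ℂ) * I) ^ 2 := by
  have hre : ∀ y : ℝ, (0 : ℝ) < (1 + (y : ℂ) * I).re := by intro y; simp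
  refine Continuous.div ?_ (by fun_prop) fun y => pow_ne_zero _ (ne_zero_of_re (hre y))
  exact Continuous.clog (by fun_prop) fun y => mem_slit (hre y)

lemma kb_int : Integrable fun y : ℝ => log (1 + (y : ℂ) * I) / (1 + (y : ℂ) * I) ^ 2 := by
  have h := (integrable_rpow_neg_one_add_norm_sq (E := ℝ) (μ := volume) (r := 3 / 2)
    (by norm_num [Module.finrank_self])).const_mul 6
  exact h.mono' kb_cont.aestronglyMeasurable (Eventually.of_forall kb_bound)

/-- PIECE RF-Kb, first statement. -/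
theorem int1 : Integrable fun y : ℝ =>
    cexp (1 + (y : ℂ) * I) * log (1 + (y : ℂ) * I) / (1 + (y : ℂ) * I) ^ 2 := by
  have h : Integrable fun y : ℝ =>
      cexp (1 + (y : ℂ) * I) * (log (1 + (y : ℂ) * I) / (1 + (y : ℂ) * I) ^ 2) := by
    refine kb_int.bdd_mul (c := Real.exp 1) ?_ ?_
    · exact Continuous.aestronglyMeasurable (by fun_prop)
    · refine Eventually.of_forall fun y => ?_
      rw [Complex.norm_exp]
      simp
  simpa only [mul_div_assoc] using h

/-- The function with transform `log s / s ^ 2`. -/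
noncomputable def kbf (u : ℝ) : ℝ := u * (1 - Real.eulerMascheroniConstant - Real.log u)

lemma kb_real (r : ℝ) (hr : 0 < r) :
    IntegrableOn (fun u : ℝ => ((kbf u : ℝ) : ℂ) * cexp (-(r : ℂ) * u)) (Ioi 0) ∧
    ∫ u in Ioi (0 : ℝ), ((kbf u : ℝ) : ℂ) * cexp (-(r : ℂ) * u) = log r / r ^ 2 := by
  have hr0 : (r : ℂ) ≠ 0 := by exact_mod_cast hr.ne'
  have hmel : ∀ a : ℂ, 0 < a.re → mellin (fun t : ℝ => cexp (-(r : ℂ) * t)) a
      = (1 / r) ^ a * Complex.Gamma a := by
    intro a ha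
    have h := Complex.integral_cpow_mul_exp_neg_mul_Ioi ha hr
    rw [← h]
    unfold mellin
    refine integral_congr_ae (Eventually.of_forall fun t => ?_)
    simp only [smul_eq_mul]
    congr 2
    ring
  have hO : (fun t : ℝ => cexp (-(r : ℂ) * t)) =O[atTop] fun t : ℝ => t ^ (-(3 : ℝ)) := by
    have h1 : (fun t : ℝ => cexp (-(r : ℂ) * t)) =O[atTop] fun t : ℝ => Real.exp (-r * t) := by
      refine Asymptotics.IsBigO.of_bound 1 (Eventually.of_forall fun t => ?_)
      rw [Complex.norm_exp, Real.norm_eq_abs, abs_of_pos (Real.exp_pos _)]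
      simp
    exact h1.trans (isLittleO_exp_neg_mul_rpow_atTop hr (-3)).isBigO
  have hO' : (fun t : ℝ => cexp (-(r : ℂ) * t)) =O[𝓝[>] 0] fun t : ℝ => t ^ (-(0 : ℝ)) := by
    have h1 : ContinuousAt (fun t : ℝ => cexp (-(r : ℂ) * t)) 0 := by fun_prop
    have h2 := (h1.isBigO_one ℝ).mono (nhdsWithin_le_nhds (s := Ioi 0))
    simpa using h2
  have hder := mellin_hasDerivAt_of_isBigO_rpow (a := 3) (b := 0) (s := 2)
    (f := fun t : ℝ => cexp (-(r : ℂ) * t))
    ((Continuous.continuousOn (by fun_prop)).locallyIntegrableOn measurableSet_Ioi)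
    hO (by norm_num) hO' (by norm_num)
  obtain ⟨hc1, hd1⟩ := hder
  have hc0 : MellinConvergent (fun t : ℝ => cexp (-(r : ℂ) * t)) 2 :=
    mellinConvergent_of_isBigO_rpow
      ((Continuous.continuousOn (by fun_prop)).locallyIntegrableOn measurableSet_Ioi)
      hO (by norm_num) hO' (by norm_num)
  have hG : HasDerivAt Complex.Gamma (1 - (Real.eulerMascheroniConstant : ℂ)) 2 := by
    have := Complex.hasDerivAt_Gamma_nat 1
    have e1 : ((1 : ℕ) : ℂ) + 1 = 2 := by norm_num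
    rw [e1] at this
    convert this using 1
    simp [harmonic]
    ring
  have hd2 : HasDerivAt (mellin fun t : ℝ => cexp (-(r : ℂ) * t))
      ((1 / (r : ℂ)) ^ (2 : ℂ) * log (1 / (r : ℂ)) * Complex.Gamma 2
        + (1 / (r : ℂ)) ^ (2 : ℂ) * (1 - (Real.eulerMascheroniConstant : ℂ))) 2 := by
    have h1 : HasDerivAt (fun a : ℂ => (1 / (r : ℂ)) ^ a)
        ((1 / (r : ℂ)) ^ (2 : ℂ) * log (1 / (r : ℂ))) 2 := by
      have := (hasDerivAt_id (2 : ℂ)).const_cpow (c := 1 / (r : ℂ)) (Or.inl (one_div_ne_zero hr0))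
      simpa using this
    have h2 := h1.mul hG
    refine h2.congr_of_eventuallyEq ?_
    have h3 : ∀ᶠ a : ℂ in 𝓝 2, 0 < a.re :=
      (isOpen_lt continuous_const continuous_re).eventually_mem (by norm_num)
    filter_upwards [h3] with a ha
    exact hmel a ha
  have hval := hd1.unique hd2
  have hval0 := hmel 2 (by norm_num)
  have hlog : log (1 / (r : ℂ)) = -log r := by
    have e : (1 / (r : ℂ)) = ((r⁻¹ : ℝ) : ℂ) := by push_cast; rw [one_div]
    rw [e, ← Complex.ofReal_log (inv_pos.mpr hr).le, ← Complex.ofReal_log hr.le, Real.log_inv]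
    push_cast
    rfl
  have hpow : (1 / (r : ℂ)) ^ (2 : ℂ) = 1 / (r : ℂ) ^ 2 := by
    have : ((2 : ℕ) : ℂ) = 2 := by norm_num
    rw [← this, Complex.cpow_natCast]
    rw [one_div, inv_pow, one_div]
  have hG2 : Complex.Gamma 2 = 1 := by simp
  have hpt : ∀ u : ℝ, ((kbf u : ℝ) : ℂ) * cexp (-(r : ℂ) * u)
      = (1 - (Real.eulerMascheroniConstant : ℂ)) * ((u : ℂ) ^ ((2 : ℂ) - 1) • cexp (-(r : ℂ) * u))
        - (u : ℂ) ^ ((2 : ℂ) - 1) • (Real.log u • cexp (-(r : ℂ) * u)) := by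
    intro u
    have e2 : ((2 : ℂ) - 1) = 1 := by norm_num
    rw [e2, Complex.cpow_one]
    simp only [kbf, smul_eq_mul, Complex.real_smul]
    push_cast
    ring
  have i0 : IntegrableOn (fun u : ℝ => (1 - (Real.eulerMascheroniConstant : ℂ))
      * ((u : ℂ) ^ ((2 : ℂ) - 1) • cexp (-(r : ℂ) * u))) (Ioi 0) := hc0.const_mul _
  have i1 : IntegrableOn (fun u : ℝ =>
      (u : ℂ) ^ ((2 : ℂ) - 1) • (Real.log u • cexp (-(r : ℂ) * u))) (Ioi 0) := hc1
  simp_rw [hpt]
  refine ⟨i0.sub i1, ?_⟩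
  rw [integral_sub i0 i1, integral_const_mul]
  unfold mellin at hval hval0
  rw [hval, hval0, hlog, hpow, hG2]
  ring

lemma kb_meas : Measurable kbf := by
  unfold kbf
  exact measurable_id.mul (measurable_const.sub Real.measurable_log)

lemma kb_realInt (σ : ℝ) (hσ : 0 < σ) :
    IntegrableOn (fun u : ℝ => kbf u * Real.exp (-σ * u)) (Ioi 0) := by
  have h := (kb_real σ hσ).1.re
  refine h.congr (Eventually.of_forall fun u => ?_)
  simp only
  have : ((kbf u : ℝ) : ℂ) * cexp (-(σ : ℂ) * u) = ((kbf u * Real.exp (-σ * u) : ℝ) : ℂ) := by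
    push_cast; rfl
  rw [this]
  exact ofReal_re _

lemma kb_le {θ : ℝ} (hθ : 0 < θ) {u : ℝ} (hu : 0 < u) :
    kbf u ≤ (1 + 1 / θ) * Real.exp (θ * u) := by
  have h1 : -(u * Real.log u) ≤ 1 := by
    have h2 := Real.log_le_sub_one_of_pos (x := 1 / u) (by positivity)
    rw [one_div, Real.log_inv] at h2
    have h3 : u * (-Real.log u) ≤ u * (u⁻¹ - 1) := mul_le_mul_of_nonneg_left h2 hu.le
    rw [mul_sub, mul_inv_cancel₀ hu.ne'] at h3
    linarith
  have hg : 0 < Real.eulerMascheroniConstant := by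
    have := Real.one_half_lt_eulerMascheroniConstant
    linarith
  have h4 : kbf u ≤ 1 + u := by
    unfold kbf
    nlinarith
  have h5 : θ * u + 1 ≤ Real.exp (θ * u) := Real.add_one_le_exp _
  have h6 : 1 ≤ Real.exp (θ * u) := by nlinarith [mul_pos hθ hu]
  have h7 : u ≤ 1 / θ * Real.exp (θ * u) := by
    rw [one_div, ← div_eq_inv_mul, le_div_iff₀ hθ]
    linarith
  calc kbf u ≤ 1 + u := h4
    _ ≤ Real.exp (θ * u) + 1 / θ * Real.exp (θ * u) := add_le_add h6 h7
    _ = _ := by ring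

open Pool.Agent.Helper9.BSD in
lemma kb_JJ (s : ℂ) (hs : 0 < s.re) :
    JJ (fun x => kbf (Real.log x)) s = log s / s ^ 2 := by
  refine half_plane_ext (f := JJ (fun x => kbf (Real.log x)))
    (g := fun w => log w / w ^ 2) ?_ ?_ ?_ s hs
  · intro v hv
    refine JJ_differentiableAt _ (kb_meas.comp Real.measurable_log) (v.re / 2)
      (1 + 1 / (v.re / 2)) (fun x hx => ?_) (fun σ hσ => ?_) v (by linarith)
    · have h := kb_le (θ := v.re / 2) (by linarith) (Real.log_pos hx)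
      rw [Real.rpow_def_of_pos (by linarith), mul_comm (Real.log x)]
      exact h
    · rw [mellin_laplace_int]
      have h := kb_realInt σ (by linarith)
      simpa only [Function.comp, Real.log_exp] using h
  · intro v hv
    have hv0 : v ≠ 0 := ne_zero_of_re hv
    exact (differentiableAt_id.clog (Or.inl hv)).div (differentiableAt_id.pow 2)
      (pow_ne_zero _ hv0)
  · intro v hv
    rw [JJ_eq_Lap]
    unfold Lap
    simp only [Real.log_exp]
    exact (kb_real v hv).2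

/-- The function on `(0, oo)` whose transform is `log s / s ^ 2`, at the inverse point. -/
noncomputable def kbg (x : ℝ) : ℂ := (Ioi (1 : ℝ)).indicator (fun x => ((kbf (Real.log x) : ℝ) : ℂ)) x

lemma kb_pt (s : ℂ) : (fun t : ℝ => (t : ℂ) ^ (-s - 1) • kbg t) =
    (Ioi (1 : ℝ)).indicator
      (fun x : ℝ => ((kbf (Real.log x) : ℝ) : ℂ) * (x : ℂ) ^ (-(s + 1))) := by
  funext t
  unfold kbg
  by_cases ht : t ∈ Ioi (1 : ℝ)
  · rw [indicator_of_mem ht, indicator_of_mem ht, smul_eq_mul, mul_comm]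
    congr 2
    ring
  · rw [indicator_of_notMem ht, indicator_of_notMem ht, smul_zero]

lemma kb_mellin (s : ℂ) (hs : 0 < s.re) :
    mellin (fun t : ℝ => kbg t⁻¹) s = log s / s ^ 2 := by
  rw [mellin_comp_inv, ← kb_JJ s hs]
  unfold mellin Pool.Agent.Helper9.BSD.JJ
  rw [kb_pt s, setIntegral_indicator measurableSet_Ioi]
  congr 2
  ext x
  simp only [mem_inter_iff, mem_Ioi]
  constructor
  · intro h; exact h.2
  · intro h; exact ⟨by linarith, h⟩

lemma kb_conv : MellinConvergent (fun t : ℝ => kbg t⁻¹) ((1 : ℝ) : ℂ) := by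
  have h0 : (fun t : ℝ => kbg t⁻¹) = fun t : ℝ => kbg (t ^ (-1 : ℝ)) := by
    funext t
    rw [Real.rpow_neg_one]
  rw [h0, MellinConvergent.comp_rpow (by norm_num)]
  have e : (((1 : ℝ) : ℂ) / ((-1 : ℝ) : ℂ)) = -((1 : ℝ) : ℂ) := by push_cast; norm_num
  rw [e, MellinConvergent, kb_pt]
  refine ((integrable_indicator_iff measurableSet_Ioi).mpr ?_).integrableOn
  refine Pool.Agent.Helper9.BSD.cintegrable (fun x => kbf (Real.log x))
    (kb_meas.comp Real.measurable_log) ((1 : ℝ) : ℂ) ?_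
  rw [Pool.Agent.Helper9.BSD.mellin_laplace_int]
  have h := kb_realInt 1 one_pos
  simpa only [Real.log_exp, ofReal_re] using h

/-- PIECE RF-Kb.  `(1 / 2 pi i) * integral over Re w = 1 of e^w (log w) / w^2 dw = 1 - γ`. -/
theorem K1 : (1 / (2 * (Real.pi : ℂ))) * ∫ y : ℝ,
    cexp (1 + (y : ℂ) * I) * log (1 + (y : ℂ) * I) / (1 + (y : ℂ) * I) ^ 2
      = 1 - (Real.eulerMascheroniConstant : ℂ) := by
  have hre : ∀ y : ℝ, (0 : ℝ) < (((1 : ℝ) : ℂ) + (y : ℂ) * I).re := by intro y; simp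
  have hx : (0 : ℝ) < Real.exp (-1) := Real.exp_pos _
  have hv : VerticalIntegrable (mellin fun t : ℝ => kbg t⁻¹) 1 := by
    unfold VerticalIntegrable
    refine kb_int.congr (Eventually.of_forall fun y => ?_)
    simp only
    rw [kb_mellin _ (hre y)]
    push_cast
    rfl
  have hval : ∀ t : ℝ, 0 < t → t < 1 → kbg t⁻¹ = ((kbf (-Real.log t) : ℝ) : ℂ) := by
    intro t h0 h1
    have : t⁻¹ ∈ Ioi (1 : ℝ) := (one_lt_inv₀ h0).mpr h1
    unfold kbg
    rw [indicator_of_mem this, Real.log_inv]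
  have he1 : Real.exp (-1) < 1 := by
    rw [Real.exp_lt_one_iff] 
    norm_num
  have hc : ContinuousAt (fun t : ℝ => kbg t⁻¹) (Real.exp (-1)) := by
    have h1 : ∀ᶠ t in 𝓝 (Real.exp (-1)), t ∈ Ioo (0 : ℝ) 1 :=
      isOpen_Ioo.eventually_mem ⟨hx, he1⟩
    have h2 : ContinuousAt (fun t : ℝ => ((kbf (-Real.log t) : ℝ) : ℂ)) (Real.exp (-1)) := by
      have h3 : ContinuousAt (fun t : ℝ => -Real.log t) (Real.exp (-1)) :=
        (Real.continuousAt_log hx.ne').neg
      have h4 : ContinuousAt kbf (-Real.log (Real.exp (-1))) := by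
        unfold kbf
        rw [Real.log_exp]
        exact continuousAt_id.mul (continuousAt_const.sub (Real.continuousAt_log (by norm_num)))
      exact Complex.continuous_ofReal.continuousAt.comp
        (ContinuousAt.comp (g := kbf) (f := fun t : ℝ => -Real.log t) h4 h3)
    refine h2.congr ?_
    filter_upwards [h1] with t ht
    exact (hval t ht.1 ht.2).symm
  have h := mellinInv_mellin_eq 1 (fun t : ℝ => kbg t⁻¹) hx kb_conv hv hc
  rw [hval _ hx he1, Real.log_exp] at h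
  have hk : kbf (-(-1)) = 1 - Real.eulerMascheroniConstant := by
    unfold kbf
    norm_num
  rw [hk] at h
  unfold mellinInv at h
  have hI : (∫ y : ℝ, ((Real.exp (-1) : ℝ) : ℂ) ^ (-(((1 : ℝ) : ℂ) + (y : ℂ) * I)) •
      mellin (fun t : ℝ => kbg t⁻¹) (((1 : ℝ) : ℂ) + (y : ℂ) * I))
      = ∫ y : ℝ, cexp (1 + (y : ℂ) * I) * log (1 + (y : ℂ) * I) / (1 + (y : ℂ) * I) ^ 2 := by
    refine integral_congr_ae (Eventually.of_forall fun y => ?_)
    simp only
    rw [kb_mellin _ (hre y), cpow_def_of_ne_zero (by exact_mod_cast hx.ne'),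
      ← Complex.ofReal_log hx.le, Real.log_exp, smul_eq_mul, mul_div_assoc]
    congr 2
    push_cast; ring
  rw [hI, Complex.real_smul] at h
  push_cast at h
  exact h

end Pool.Agent.Helper66.RF
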