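import Pool.Agent.Helper66.RF.Eb
import Pool.Agent.Helper66.RF.Ec
import Pool.Agent.Helper66.RF.Ka
import Pool.Agent.Helper66.RF.Kb

set_option autoImplicit false

/-!
The limit of the line integrals.
-/

namespace Pool.Agent.Helper66.RF

open Complex MeasureTheory Set Filter Topology

/-- Integrability of the integrand on the line `Re μ = 1`. -/
private lemma ed_int {g : ℂ → ℂ} {α : ℝ} {ℓ : ℂ} (h : Good g α ℓ) {T : ℝ} (hT : 0 < T) :
    Integrable fun y : ℝ => (g ((1 + (y : ℂ) * I) / T)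
        - (1 + (y : ℂ) * I) / T * deriv g ((1 + (y : ℂ) * I) / T)) / (1 + (y : ℂ) * I) ^ 2 := by
  have hTc : (T : ℂ) ≠ 0 := by exact_mod_cast hT.ne'
  have hA : 0 < T⁻¹ := inv_pos.2 hT
  have hre : ∀ y : ℝ, (((T⁻¹ : ℝ) : ℂ) + y * I).re = T⁻¹ := fun y => by simp
  have him : ∀ y : ℝ, (((T⁻¹ : ℝ) : ℂ) + y * I).im = y := fun y => by simp
  have hpos : ∀ y : ℝ, 0 < (((T⁻¹ : ℝ) : ℂ) + y * I).re := fun y => by rw [hre]; exact hA
  obtain ⟨C, _, hC⟩ := strip_bound h (B := T⁻¹) (T := T) hA hT.le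
  have hopen : IsOpen {w : ℂ | 0 < w.re} := isOpen_lt continuous_const Complex.continuous_re
  have hd : DifferentiableOn ℂ g {w : ℂ | 0 < w.re} := fun w hw =>
    (h.diff w hw).differentiableWithinAt
  have hd' : DifferentiableOn ℂ (deriv g) {w : ℂ | 0 < w.re} := hd.deriv hopen
  have h1 : Integrable fun y : ℝ => ((((T⁻¹ : ℝ) : ℂ) + y * I) * deriv g (((T⁻¹ : ℝ) : ℂ) + y * I)
        - g (((T⁻¹ : ℝ) : ℂ) + y * I)) / (((T⁻¹ : ℝ) : ℂ) + y * I) ^ 2 := by
    refine line_integrable (g := fun w => (w * deriv g w - g w) / w ^ 2) (A := T⁻¹) (C := C)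
      (fun y => ?_) (fun y => ?_)
    · have h9 : DifferentiableAt ℂ (deriv g) (((T⁻¹ : ℝ) : ℂ) + y * I) :=
        (hd' _ (hpos y)).differentiableAt (hopen.mem_nhds (hpos y))
      exact ((differentiableAt_id.mul h9).sub (h.diff _ (hpos y))).div (differentiableAt_id.pow 2)
        (pow_ne_zero 2 (ne_zero_of_re (hpos y)))
    · have h8 := (hC _ (hre y).ge (hre y).le).2.2
      rw [him] at h8
      exact h8
  have h2 := (h1.comp_mul_left' hA.ne').const_mul (-(1 / (T : ℂ) ^ 2))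
  refine h2.congr (Eventually.of_forall fun y => ?_)
  have h6 : ((T⁻¹ : ℝ) : ℂ) + ((T⁻¹ * y : ℝ) : ℂ) * I = (1 + (y : ℂ) * I) / T := by
    push_cast
    field_simp
  have hmu : (1 + (y : ℂ) * I) ≠ 0 := ne_zero_of_re (by simp)
  simp only [h6]
  generalize g ((1 + (y : ℂ) * I) / T) = P
  generalize deriv g ((1 + (y : ℂ) * I) / T) = Q
  field_simp
  ring

/-- The exponential has constant norm on the line. -/
private lemma ed_exp (y : ℝ) : ‖cexp (1 + (y : ℂ) * I)‖ = Real.exp 1 := by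
  rw [Complex.norm_exp]
  simp

/-- The tail of `1 / (1 + y^2)`. -/
private lemma ed_rp {r y : ℝ} (hr : 0 < r) (hy : r < |y|) :
    (1 + y ^ 2)⁻¹ ≤ r ^ (-(1 / 2 : ℝ)) * ((1 : ℝ) + ‖y‖ ^ 2) ^ (-(3 / 2 : ℝ) / 2) := by
  have h0 : (0 : ℝ) < 1 + y ^ 2 := by positivity
  have h1 : (1 : ℝ) + ‖y‖ ^ 2 = 1 + y ^ 2 := by rw [Real.norm_eq_abs, sq_abs]
  rw [h1]
  have h2 : (1 + y ^ 2)⁻¹ = (1 + y ^ 2) ^ (-(1 / 4 : ℝ)) * (1 + y ^ 2) ^ (-(3 / 2 : ℝ) / 2) := by
    rw [← Real.rpow_add h0, ← Real.rpow_neg_one]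
    norm_num
  rw [h2]
  refine mul_le_mul_of_nonneg_right ?_ (by positivity)
  have h3 : r ^ (-(1 / 2 : ℝ)) = (r ^ 2) ^ (-(1 / 4 : ℝ)) := by
    rw [← Real.rpow_natCast, ← Real.rpow_mul hr.le]
    norm_num
  rw [h3]
  refine Real.rpow_le_rpow_of_nonpos (by positivity) ?_ (by norm_num)
  have h4 : r ^ 2 ≤ |y| ^ 2 := pow_le_pow_left₀ hr.le hy.le 2
  rw [sq_abs] at h4
  linarith

/-- The limit of the full integrals. -/
private lemma ed_main {g : ℂ → ℂ} {α : ℝ} {ℓ : ℂ} (h : Good g α ℓ) :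
    Tendsto (fun T : ℝ => ∫ y : ℝ, cexp (1 + (y : ℂ) * I)
      * ((g ((1 + (y : ℂ) * I) / T) + (α : ℂ) * (Real.log T : ℝ)
        - (1 + (y : ℂ) * I) / T * deriv g ((1 + (y : ℂ) * I) / T)) / (1 + (y : ℂ) * I) ^ 2))
      atTop (𝓝 (∫ y : ℝ, cexp (1 + (y : ℂ) * I)
        * (((α : ℂ) * log (1 + (y : ℂ) * I) + ℓ - α) / (1 + (y : ℂ) * I) ^ 2))) := by
  obtain ⟨δ, hδ, hnear⟩ := near_lim h
  have htail := tail h hδ
  have hM : Integrable fun y : ℝ => ((1 : ℝ) + ‖y‖ ^ 2) ^ (-(3 / 2 : ℝ) / 2) :=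
    integrable_rpow_neg_one_add_norm_sq (by simp; norm_num)
  set M : ℝ := ∫ y : ℝ, ((1 : ℝ) + ‖y‖ ^ 2) ^ (-(3 / 2 : ℝ) / 2) with hMdef
  have hec : Continuous fun y : ℝ => cexp (1 + (y : ℂ) * I) := by fun_prop
  have hE : Integrable fun y : ℝ => (1 : ℂ) / (1 + (y : ℂ) * I) ^ 2 := by
    have h1 : Integrable fun y : ℝ => (1 + y ^ 2)⁻¹ := integrable_inv_one_add_sq
    refine h1.mono' ?_ (Eventually.of_forall fun y => ?_)
    · apply Continuous.aestronglyMeasurable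
      apply Continuous.div continuous_const (by fun_prop)
      intro y
      exact pow_ne_zero 2 (k0_ne y)
    · rw [norm_div, norm_pow, k0_norm]
      simp
  -- integrability of the integrand
  have hint : ∀ T : ℝ, 0 < T → Integrable fun y : ℝ => cexp (1 + (y : ℂ) * I)
      * ((g ((1 + (y : ℂ) * I) / T) + (α : ℂ) * (Real.log T : ℝ)
        - (1 + (y : ℂ) * I) / T * deriv g ((1 + (y : ℂ) * I) / T)) / (1 + (y : ℂ) * I) ^ 2) := by
    intro T hT
    have h1 := (ed_int h hT).add (hE.const_mul ((α : ℂ) * (Real.log T : ℝ)))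
    have h2 := h1.bdd_mul (c := Real.exp 1) hec.aestronglyMeasurable
      (Eventually.of_forall fun y => (ed_exp y).le)
    refine h2.congr (Eventually.of_forall fun y => ?_)
    simp only [Pi.add_apply]
    ring
  have hmeas : ∀ T : ℝ, MeasurableSet {y : ℝ | |y| ≤ δ * T} := fun T =>
    measurableSet_le continuous_abs.measurable measurable_const
  have hcompl : ∀ T : ℝ, {y : ℝ | |y| ≤ δ * T}ᶜ = {y : ℝ | δ * T < |y|} := fun T => by
    ext y
    simp
  -- the tail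
  have hbd : Tendsto (fun T : ℝ => Real.exp 1 * (∫ y in {y : ℝ | δ * T < |y|},
      ‖g ((1 + (y : ℂ) * I) / T) - (1 + (y : ℂ) * I) / T * deriv g ((1 + (y : ℂ) * I) / T)‖
        / ‖1 + (y : ℂ) * I‖ ^ 2) + Real.exp 1 * |α| * (|Real.log T| * ((δ * T) ^ (-(1 / 2 : ℝ)) * M)))
      atTop (𝓝 0) := by
    have h1 : Tendsto (fun T : ℝ => |Real.log T| * ((δ * T) ^ (-(1 / 2 : ℝ)) * M)) atTop (𝓝 0) := by
      have h2 := (isLittleO_log_rpow_atTop (r := 1 / 2) (by norm_num)).tendsto_div_nhds_zero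
      have h3 : Tendsto (fun T : ℝ => |Real.log T / T ^ (1 / 2 : ℝ)| * (δ ^ (-(1 / 2 : ℝ)) * M))
          atTop (𝓝 0) := by
        have h4 := (h2.abs).mul_const (δ ^ (-(1 / 2 : ℝ)) * M)
        simpa using h4
      refine h3.congr' ?_
      filter_upwards [eventually_gt_atTop 0] with T hT
      rw [Real.mul_rpow hδ.le hT.le, abs_div, abs_of_pos (Real.rpow_pos_of_pos hT _),
        Real.rpow_neg hT.le]
      field_simp
    have h5 := (htail.const_mul (Real.exp 1)).add (h1.const_mul (Real.exp 1 * |α|))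
    simpa using h5
  have htl : Tendsto (fun T : ℝ => ∫ y in {y : ℝ | δ * T < |y|}, cexp (1 + (y : ℂ) * I)
      * ((g ((1 + (y : ℂ) * I) / T) + (α : ℂ) * (Real.log T : ℝ)
        - (1 + (y : ℂ) * I) / T * deriv g ((1 + (y : ℂ) * I) / T)) / (1 + (y : ℂ) * I) ^ 2))
      atTop (𝓝 0) := by
    refine squeeze_zero_norm' ?_ hbd
    filter_upwards [eventually_gt_atTop 0] with T hT
    have hδT : 0 < δ * T := mul_pos hδ hT
    have hmeas' : MeasurableSet {y : ℝ | δ * T < |y|} :=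
      measurableSet_lt measurable_const continuous_abs.measurable
    have i1 : Integrable fun y : ℝ => ‖g ((1 + (y : ℂ) * I) / T)
        - (1 + (y : ℂ) * I) / T * deriv g ((1 + (y : ℂ) * I) / T)‖ / ‖1 + (y : ℂ) * I‖ ^ 2 := by
      refine (ed_int h hT).norm.congr (Eventually.of_forall fun y => ?_)
      simp only [norm_div, norm_pow]
    have i2 : Integrable fun y : ℝ => (δ * T) ^ (-(1 / 2 : ℝ))
        * ((1 : ℝ) + ‖y‖ ^ 2) ^ (-(3 / 2 : ℝ) / 2) := hM.const_mul _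
    calc ‖∫ y in {y : ℝ | δ * T < |y|}, cexp (1 + (y : ℂ) * I)
          * ((g ((1 + (y : ℂ) * I) / T) + (α : ℂ) * (Real.log T : ℝ)
          - (1 + (y : ℂ) * I) / T * deriv g ((1 + (y : ℂ) * I) / T)) / (1 + (y : ℂ) * I) ^ 2)‖
        ≤ ∫ y in {y : ℝ | δ * T < |y|}, (Real.exp 1 * (‖g ((1 + (y : ℂ) * I) / T)
            - (1 + (y : ℂ) * I) / T * deriv g ((1 + (y : ℂ) * I) / T)‖ / ‖1 + (y : ℂ) * I‖ ^ 2)
            + Real.exp 1 * |α| * |Real.log T| * ((δ * T) ^ (-(1 / 2 : ℝ))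
              * ((1 : ℝ) + ‖y‖ ^ 2) ^ (-(3 / 2 : ℝ) / 2))) := by
          refine norm_integral_le_of_norm_le
            ((i1.const_mul _).add (i2.const_mul _)).integrableOn ?_
          refine (ae_restrict_iff' hmeas').mpr (Eventually.of_forall fun y hy => ?_)
          have hy' : δ * T < |y| := hy
          have h1 := ed_rp hδT hy'
          have h2 : ‖(g ((1 + (y : ℂ) * I) / T) + (α : ℂ) * (Real.log T : ℝ)
              - (1 + (y : ℂ) * I) / T * deriv g ((1 + (y : ℂ) * I) / T)) / (1 + (y : ℂ) * I) ^ 2‖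
              ≤ ‖g ((1 + (y : ℂ) * I) / T)
            - (1 + (y : ℂ) * I) / T * deriv g ((1 + (y : ℂ) * I) / T)‖ / ‖1 + (y : ℂ) * I‖ ^ 2
              + |α| * |Real.log T| * (1 + y ^ 2)⁻¹ := by
            rw [norm_div, norm_pow, ← div_eq_mul_inv, ← k0_norm, ← add_div]
            refine div_le_div_of_nonneg_right ?_ (by positivity)
            have e : g ((1 + (y : ℂ) * I) / T) + (α : ℂ) * (Real.log T : ℝ)
              - (1 + (y : ℂ) * I) / T * deriv g ((1 + (y : ℂ) * I) / T)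
              = (g ((1 + (y : ℂ) * I) / T)
              - (1 + (y : ℂ) * I) / T * deriv g ((1 + (y : ℂ) * I) / T))
                + (α : ℂ) * (Real.log T : ℝ) := by ring
            rw [e]
            refine (norm_add_le _ _).trans (le_of_eq ?_)
            rw [norm_mul, Complex.norm_real, Complex.norm_real, Real.norm_eq_abs, Real.norm_eq_abs]
          rw [norm_mul, ed_exp]
          have h3 : |α| * |Real.log T| * (1 + y ^ 2)⁻¹ ≤ |α| * |Real.log T|
              * ((δ * T) ^ (-(1 / 2 : ℝ)) * ((1 : ℝ) + ‖y‖ ^ 2) ^ (-(3 / 2 : ℝ) / 2)) :=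
            mul_le_mul_of_nonneg_left h1 (by positivity)
          have h4 := mul_le_mul_of_nonneg_left (h2.trans (add_le_add le_rfl h3))
            (Real.exp_pos 1).le
          refine h4.trans (le_of_eq ?_)
          ring
      _ = Real.exp 1 * (∫ y in {y : ℝ | δ * T < |y|}, ‖g ((1 + (y : ℂ) * I) / T)
            - (1 + (y : ℂ) * I) / T * deriv g ((1 + (y : ℂ) * I) / T)‖ / ‖1 + (y : ℂ) * I‖ ^ 2)
            + Real.exp 1 * |α| * |Real.log T| * ((δ * T) ^ (-(1 / 2 : ℝ))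
              * ∫ y in {y : ℝ | δ * T < |y|}, ((1 : ℝ) + ‖y‖ ^ 2) ^ (-(3 / 2 : ℝ) / 2)) := by
          rw [integral_add (i1.const_mul _).integrableOn (i2.const_mul _).integrableOn,
            integral_const_mul, integral_const_mul, integral_const_mul]
      _ ≤ _ := by
          have h6 : ∫ y in {y : ℝ | δ * T < |y|}, ((1 : ℝ) + ‖y‖ ^ 2) ^ (-(3 / 2 : ℝ) / 2) ≤ M :=
            setIntegral_le_integral hM (Eventually.of_forall fun y => by positivity)
          have h7 : 0 ≤ (δ * T) ^ (-(1 / 2 : ℝ)) := by positivity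
          have h8 : Real.exp 1 * |α| * |Real.log T| * ((δ * T) ^ (-(1 / 2 : ℝ))
              * ∫ y in {y : ℝ | δ * T < |y|}, ((1 : ℝ) + ‖y‖ ^ 2) ^ (-(3 / 2 : ℝ) / 2))
              ≤ Real.exp 1 * |α| * |Real.log T| * ((δ * T) ^ (-(1 / 2 : ℝ)) * M) :=
            mul_le_mul_of_nonneg_left (mul_le_mul_of_nonneg_left h6 h7) (by positivity)
          refine add_le_add le_rfl (h8.trans (le_of_eq ?_))
          ring
  have hsum := hnear.add htl
  rw [add_zero] at hsum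
  refine hsum.congr' ?_
  filter_upwards [eventually_gt_atTop 0] with T hT
  rw [← hcompl T]
  exact integral_add_compl (hmeas T) (hint T hT)

/-- PIECE RF-Ed.  The limit.
Proof: `to_mu`; `α log T = (1 / 2 pi) * integral of exp μ * (α log T) / μ^2` by `K0`; add; split the
integral of `exp μ (g(μ/T) + α log T - (μ/T) g'(μ/T)) / μ^2` into `|y| ≤ δ T` (`near_lim`) and
`|y| > δ T`: the latter is at most `e * (tail integral)` (`tail`) plus
`e |α| log T * integral over |y| > δ T of 1 / ‖μ‖^2 ≤ e |α| log T * 2 / (δ T) → 0`.  The limit of the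
first is `2 pi (α (1 - γ) + ℓ - α) = 2 pi (ℓ - γ α)` by `K0`, `K1` (linearity with `int0`, `int1`).
(Integrability on the whole line of the integrand for fixed `T`: `strip_bound` after the change of
variable, or `line_integrable`.) -/
theorem limit {g : ℂ → ℂ} {α : ℝ} {ℓ : ℂ} (h : Good g α ℓ) :
    Tendsto (fun T : ℝ => (1 / (2 * (Real.pi : ℂ))) * (∫ y : ℝ,
      cexp ((T : ℂ) * (1 + (y : ℂ) * I)) * (g (1 + (y : ℂ) * I) / (1 + (y : ℂ) * I)))
        + (α : ℂ) * (Real.log T : ℝ)) atTop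
      (𝓝 (ℓ - (Real.eulerMascheroniConstant : ℂ) * α)) := by
  have hmain := ed_main h
  have hLval : (1 / (2 * (Real.pi : ℂ))) * (∫ y : ℝ, cexp (1 + (y : ℂ) * I)
        * (((α : ℂ) * log (1 + (y : ℂ) * I) + ℓ - α) / (1 + (y : ℂ) * I) ^ 2))
      = ℓ - (Real.eulerMascheroniConstant : ℂ) * α := by
    have e : ∀ y : ℝ, cexp (1 + (y : ℂ) * I)
        * (((α : ℂ) * log (1 + (y : ℂ) * I) + ℓ - α) / (1 + (y : ℂ) * I) ^ 2)
        = (α : ℂ) * (cexp (1 + (y : ℂ) * I) * log (1 + (y : ℂ) * I) / (1 + (y : ℂ) * I) ^ 2)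
          + (ℓ - α) * (cexp (1 + (y : ℂ) * I) / (1 + (y : ℂ) * I) ^ 2) := fun y => by ring
    simp_rw [e]
    rw [integral_add (int1.const_mul _) (int0.const_mul _), integral_const_mul,
      integral_const_mul]
    have k0 := K0
    have k1 := K1
    generalize (∫ y : ℝ, cexp (1 + (y : ℂ) * I) / (1 + (y : ℂ) * I) ^ 2) = A0 at k0 ⊢
    generalize (∫ y : ℝ, cexp (1 + (y : ℂ) * I) * log (1 + (y : ℂ) * I)
      / (1 + (y : ℂ) * I) ^ 2) = A1 at k1 ⊢
    calc (1 / (2 * (Real.pi : ℂ))) * ((α : ℂ) * A1 + (ℓ - α) * A0)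
        = (α : ℂ) * ((1 / (2 * (Real.pi : ℂ))) * A1)
          + (ℓ - α) * ((1 / (2 * (Real.pi : ℂ))) * A0) := by ring
      _ = ℓ - (Real.eulerMascheroniConstant : ℂ) * α := by rw [k0, k1]; ring
  rw [← hLval]
  refine (hmain.const_mul (1 / (2 * (Real.pi : ℂ)))).congr' ?_
  filter_upwards [eventually_gt_atTop 0] with T hT
  rw [to_mu h hT]
  have hec : Continuous fun y : ℝ => cexp (1 + (y : ℂ) * I) := by fun_prop
  have i1 : Integrable fun y : ℝ => cexp (1 + (y : ℂ) * I) * ((g ((1 + (y : ℂ) * I) / T)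
        - (1 + (y : ℂ) * I) / T * deriv g ((1 + (y : ℂ) * I) / T)) / (1 + (y : ℂ) * I) ^ 2) :=
    (ed_int h hT).bdd_mul (c := Real.exp 1) hec.aestronglyMeasurable
      (Eventually.of_forall fun y => (ed_exp y).le)
  have e : ∀ y : ℝ, cexp (1 + (y : ℂ) * I)
      * ((g ((1 + (y : ℂ) * I) / T) + (α : ℂ) * (Real.log T : ℝ)
        - (1 + (y : ℂ) * I) / T * deriv g ((1 + (y : ℂ) * I) / T)) / (1 + (y : ℂ) * I) ^ 2)
      = cexp (1 + (y : ℂ) * I) * ((g ((1 + (y : ℂ) * I) / T)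
        - (1 + (y : ℂ) * I) / T * deriv g ((1 + (y : ℂ) * I) / T)) / (1 + (y : ℂ) * I) ^ 2)
        + (α : ℂ) * (Real.log T : ℝ) * (cexp (1 + (y : ℂ) * I) / (1 + (y : ℂ) * I) ^ 2) :=
    fun y => by ring
  simp_rw [e]
  rw [integral_add i1 (int0.const_mul _), integral_const_mul, mul_add]
  congr 1
  have k0 := K0
  calc (1 / (2 * (Real.pi : ℂ))) * ((α : ℂ) * (Real.log T : ℝ)
        * ∫ y : ℝ, cexp (1 + (y : ℂ) * I) / (1 + (y : ℂ) * I) ^ 2)
      = (α : ℂ) * (Real.log T : ℝ) * ((1 / (2 * (Real.pi : ℂ)))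
        * ∫ y : ℝ, cexp (1 + (y : ℂ) * I) / (1 + (y : ℂ) * I) ^ 2) := by ring
    _ = (α : ℂ) * (Real.log T : ℝ) := by rw [k0, mul_one]

end Pool.Agent.Helper66.RF
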