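import Pool.Agent.Helper66.RF.Wc

set_option autoImplicit false

/-!
The weight for `a = 1/2` is the complementary error function.
-/

namespace Pool.Agent.Helper66.RF

open Complex MeasureTheory Set Filter Topology

private lemma wt_half_norm {a x y : ℝ} (h0 : 0 < a) (h1 : a < 1) (hx : 0 ≤ x) :
    ‖cexp ((1 + (y : ℂ) * I) - (x : ℂ) * (1 + (y : ℂ) * I) ^ (a : ℂ))‖ ≤
      Real.exp 1 * Real.exp (-(x * ca a * |y| ^ a)) := by
  have hre : (1 + (y : ℂ) * I).re = 1 := by simp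
  have him : (1 + (y : ℂ) * I).im = y := by simp
  have hw0 : (1 + (y : ℂ) * I) ≠ 0 := ne_zero_of_re (by rw [hre]; exact one_pos)
  rw [Complex.norm_exp, ← Real.exp_add, Real.exp_le_exp, Complex.sub_re, hre,
    Complex.re_ofReal_mul]
  have e2 := re_pw_ge h0 h1 (w := 1 + (y : ℂ) * I) (by rw [hre]; exact zero_le_one) hw0
  have e3 : |y| ^ a ≤ ‖1 + (y : ℂ) * I‖ ^ a := by
    refine Real.rpow_le_rpow (abs_nonneg _) ?_ h0.le
    have := Complex.abs_im_le_norm (1 + (y : ℂ) * I)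
    rwa [him] at this
  have hca := ca_pos h0 h1
  have e4 : x * (ca a * |y| ^ a) ≤ x * ((1 + (y : ℂ) * I) ^ (a : ℂ)).re :=
    mul_le_mul_of_nonneg_left (le_trans (mul_le_mul_of_nonneg_left e3 hca.le) e2) hx
  have e5 : x * ca a * |y| ^ a = x * (ca a * |y| ^ a) := by ring
  rw [e5]
  linarith

private lemma wt_half_pw {a : ℝ} (h1 : a < 1) (y : ℝ) :
    ‖(1 + (y : ℂ) * I) ^ ((a : ℂ) - 1)‖ ≤ 1 := by
  have hre : (1 + (y : ℂ) * I).re = 1 := by simp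
  have hw0 : (1 + (y : ℂ) * I) ≠ 0 := ne_zero_of_re (by rw [hre]; exact one_pos)
  have e1 : ((a : ℂ) - 1) = ((a - 1 : ℝ) : ℂ) := by push_cast; rfl
  rw [e1, norm_pw hw0]
  refine Real.rpow_le_one_of_one_le_of_nonpos ?_ (by linarith)
  have := Complex.re_le_norm (1 + (y : ℂ) * I)
  rwa [hre] at this

private lemma wt_half_bd {a x : ℝ} (h0 : 0 < a) (h1 : a < 1) (hx : 0 < x) :
    ∃ K : ℝ, 0 ≤ K ∧ ∀ x' y : ℝ, x ≤ x' →
      ‖cexp ((1 + (y : ℂ) * I) - (x' : ℂ) * (1 + (y : ℂ) * I) ^ (a : ℂ))‖ ≤ K / (1 + y ^ 2) := by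
  obtain ⟨K, hK0, hK⟩ := aux_exp_bound (a := a) (k := x * ca a) h0 (mul_pos hx (ca_pos h0 h1))
  refine ⟨Real.exp 1 * K, by positivity, fun x' y hx' => ?_⟩
  have hca := ca_pos h0 h1
  refine (wt_half_norm h0 h1 (hx.le.trans hx')).trans ?_
  rw [mul_div_assoc]
  refine mul_le_mul_of_nonneg_left (le_trans ?_ (hK y)) (Real.exp_pos _).le
  rw [Real.exp_le_exp]
  have h2 : 0 ≤ |y| ^ a := Real.rpow_nonneg (abs_nonneg y) a
  have h3 : x * ca a * |y| ^ a ≤ x' * ca a * |y| ^ a :=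
    mul_le_mul_of_nonneg_right (mul_le_mul_of_nonneg_right hx' hca.le) h2
  linarith

private lemma wt_half_cont {a : ℝ} (x : ℝ) : Continuous fun y : ℝ =>
    cexp ((1 + (y : ℂ) * I) - (x : ℂ) * (1 + (y : ℂ) * I) ^ (a : ℂ)) := by
  have hs : ∀ y : ℝ, (1 + (y : ℂ) * I) ∈ slitPlane := fun y => mem_slit (by simp)
  have hc : Continuous fun y : ℝ => (1 + (y : ℂ) * I) := by fun_prop
  exact (hc.sub (continuous_const.mul (hc.cpow continuous_const hs))).cexp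

private lemma wt_half_cont' {a : ℝ} : Continuous fun y : ℝ => (1 + (y : ℂ) * I) ^ ((a : ℂ) - 1) := by
  have hs : ∀ y : ℝ, (1 + (y : ℂ) * I) ∈ slitPlane := fun y => mem_slit (by simp)
  have hc : Continuous fun y : ℝ => (1 + (y : ℂ) * I) := by fun_prop
  exact hc.cpow continuous_const hs

private lemma wt_half_int {a x : ℝ} (h0 : 0 < a) (h1 : a < 1) (hx : 0 < x) :
    (Integrable fun y : ℝ =>
      cexp ((1 + (y : ℂ) * I) - (x : ℂ) * (1 + (y : ℂ) * I) ^ (a : ℂ))) ∧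
    Integrable fun y : ℝ =>
      cexp ((1 + (y : ℂ) * I) - (x : ℂ) * (1 + (y : ℂ) * I) ^ (a : ℂ))
        * (1 + (y : ℂ) * I) ^ ((a : ℂ) - 1) := by
  obtain ⟨K, hK0, hK⟩ := wt_half_bd h0 h1 hx
  have hb : Integrable fun y : ℝ => K * (1 + y ^ 2)⁻¹ := integrable_inv_one_add_sq.const_mul K
  constructor
  · refine hb.mono' (wt_half_cont x).aestronglyMeasurable (Filter.Eventually.of_forall fun y => ?_)
    rw [← div_eq_mul_inv]
    exact hK x y le_rfl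
  · refine hb.mono' ((wt_half_cont x).mul wt_half_cont').aestronglyMeasurable
      (Filter.Eventually.of_forall fun y => ?_)
    rw [← div_eq_mul_inv, norm_mul]
    calc _ ≤ K / (1 + y ^ 2) * 1 := mul_le_mul (hK x y le_rfl) (wt_half_pw h1 y) (norm_nonneg _)
          (by positivity)
      _ = K / (1 + y ^ 2) := mul_one _

private lemma wt_half_parts {x : ℝ} (hx : 0 < x) :
    ∫ y : ℝ, (cexp ((1 + (y : ℂ) * I) - (x : ℂ) * (1 + (y : ℂ) * I) ^ ((1 / 2 : ℝ) : ℂ))).re =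
      x / 2 * ∫ y : ℝ, (cexp ((1 + (y : ℂ) * I) - (x : ℂ) * (1 + (y : ℂ) * I) ^ ((1 / 2 : ℝ) : ℂ))
        * (1 + (y : ℂ) * I) ^ (((1 / 2 : ℝ) : ℂ) - 1)).re := by
  have h0 : (0 : ℝ) < 1 / 2 := by norm_num
  have h1 : (1 / 2 : ℝ) < 1 := by norm_num
  obtain ⟨hi1, hi2⟩ := wt_half_int h0 h1 hx
  have he' : ∀ y : ℝ, (((1 : ℝ) : ℂ) + (y : ℂ) * I) = 1 + (y : ℂ) * I := fun y => by
    rw [Complex.ofReal_one]
  have hb0 : ∀ y : ℝ, cexp (-(1 + (y : ℂ) * I)) *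
      cexp ((1 + (y : ℂ) * I) - (x : ℂ) * (1 + (y : ℂ) * I) ^ ((1 / 2 : ℝ) : ℂ)) =
      cexp (-((x : ℂ) * (1 + (y : ℂ) * I) ^ ((1 / 2 : ℝ) : ℂ))) := fun y => by
    rw [← Complex.exp_add]
    congr 1
    ring
  have hn : ∀ y : ℝ, ‖cexp (-(1 + (y : ℂ) * I))‖ = Real.exp (-1) := fun y => by
    rw [Complex.norm_exp]
    simp
  have hc0 : Continuous fun y : ℝ => cexp (-(1 + (y : ℂ) * I)) := by fun_prop
  have hg1 : Integrable fun y : ℝ =>
      cexp (-((x : ℂ) * (1 + (y : ℂ) * I) ^ ((1 / 2 : ℝ) : ℂ))) := by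
    have := hi1.bdd_mul (c := Real.exp (-1)) hc0.aestronglyMeasurable
      (Filter.Eventually.of_forall fun y => (hn y).le)
    refine this.congr (Filter.Eventually.of_forall fun y => ?_)
    exact hb0 y
  have hg2 : Integrable fun y : ℝ =>
      cexp (-((x : ℂ) * (1 + (y : ℂ) * I) ^ ((1 / 2 : ℝ) : ℂ))) *
        -((x : ℂ) * (((1 / 2 : ℝ) : ℂ) * (1 + (y : ℂ) * I) ^ (((1 / 2 : ℝ) : ℂ) - 1))) := by
    have := (hi2.bdd_mul (c := Real.exp (-1)) hc0.aestronglyMeasurable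
      (Filter.Eventually.of_forall fun y => (hn y).le)).mul_const (-((x : ℂ) * ((1 / 2 : ℝ) : ℂ)))
    refine this.congr (Filter.Eventually.of_forall fun y => ?_)
    show cexp (-(1 + (y : ℂ) * I)) *
      (cexp ((1 + (y : ℂ) * I) - (x : ℂ) * (1 + (y : ℂ) * I) ^ ((1 / 2 : ℝ) : ℂ)) *
        (1 + (y : ℂ) * I) ^ (((1 / 2 : ℝ) : ℂ) - 1)) * (-((x : ℂ) * ((1 / 2 : ℝ) : ℂ))) = _
    rw [← mul_assoc, hb0 y]
    ring
  have hp := parts (T := 1) (A := 1) one_pos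
    (g := fun w : ℂ => cexp (-((x : ℂ) * w ^ ((1 / 2 : ℝ) : ℂ))))
    (g' := fun w : ℂ => cexp (-((x : ℂ) * w ^ ((1 / 2 : ℝ) : ℂ))) *
      -((x : ℂ) * (((1 / 2 : ℝ) : ℂ) * w ^ (((1 / 2 : ℝ) : ℂ) - 1))))
    (fun y => ((hasDerivAt_pw (mem_slit (by simp))).const_mul (x : ℂ)).neg.cexp)
    (by
      refine hg1.congr (Filter.Eventually.of_forall fun y => ?_)
      simp only [he'])
    (by
      refine hg2.congr (Filter.Eventually.of_forall fun y => ?_)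
      simp only [he'])
  simp only [Complex.ofReal_one, one_mul] at hp
  have hL : ∀ y : ℝ, cexp (1 + (y : ℂ) * I) *
      cexp (-((x : ℂ) * (1 + (y : ℂ) * I) ^ ((1 / 2 : ℝ) : ℂ))) =
      cexp ((1 + (y : ℂ) * I) - (x : ℂ) * (1 + (y : ℂ) * I) ^ ((1 / 2 : ℝ) : ℂ)) := fun y => by
    rw [← Complex.exp_add]
    congr 1
  have hR : ∀ y : ℝ, cexp (1 + (y : ℂ) * I) *
      (cexp (-((x : ℂ) * (1 + (y : ℂ) * I) ^ ((1 / 2 : ℝ) : ℂ))) *
        -((x : ℂ) * (((1 / 2 : ℝ) : ℂ) * (1 + (y : ℂ) * I) ^ (((1 / 2 : ℝ) : ℂ) - 1)))) =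
      -((x / 2 : ℝ) : ℂ) *
        (cexp ((1 + (y : ℂ) * I) - (x : ℂ) * (1 + (y : ℂ) * I) ^ ((1 / 2 : ℝ) : ℂ)) *
        (1 + (y : ℂ) * I) ^ (((1 / 2 : ℝ) : ℂ) - 1)) := fun y => by
    rw [← mul_assoc, hL y]
    push_cast
    ring
  simp only [hL, hR] at hp
  rw [integral_const_mul] at hp
  have e1 := Complex.reCLM.integral_comp_comm hi1
  have e2 := Complex.reCLM.integral_comp_comm hi2
  simp only [Complex.reCLM_apply] at e1 e2
  rw [e1, e2, hp, ← Complex.re_ofReal_mul]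
  congr 1
  push_cast
  ring

private lemma wt_half_deriv {x : ℝ} (hx : 0 < x) :
    HasDerivAt (wd (1 / 2)) (-(x / 2) * wd (1 / 2) x) x := by
  have h0 : (0 : ℝ) < 1 / 2 := by norm_num
  have h1 : (1 / 2 : ℝ) < 1 := by norm_num
  obtain ⟨K, hK0, hK⟩ := wt_half_bd (a := 1 / 2) (x := x / 2) h0 h1 (by linarith)
  have hcd : ∀ y : ℝ, (1 + (y : ℂ) * I) ^ ((1 / 2 : ℝ) : ℂ) *
      (1 + (y : ℂ) * I) ^ (((1 / 2 : ℝ) : ℂ) - 1) = 1 := fun y => by
    rw [← Complex.cpow_add _ _ (ne_zero_of_re (by simp))]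
    have : (((1 / 2 : ℝ) : ℂ) + (((1 / 2 : ℝ) : ℂ) - 1)) = 0 := by
      push_cast
      norm_num
    rw [this, Complex.cpow_zero]
  have hd := hasDerivAt_integral_of_dominated_loc_of_deriv_le (μ := volume) (x₀ := x)
    (s := Ioi (x / 2)) (bound := fun y => K * (1 + y ^ 2)⁻¹)
    (F := fun (x : ℝ) (y : ℝ) =>
      (cexp ((1 + (y : ℂ) * I) - (x : ℂ) * (1 + (y : ℂ) * I) ^ ((1 / 2 : ℝ) : ℂ))
        * (1 + (y : ℂ) * I) ^ (((1 / 2 : ℝ) : ℂ) - 1)).re)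
    (F' := fun (x : ℝ) (y : ℝ) =>
      -(cexp ((1 + (y : ℂ) * I) - (x : ℂ) * (1 + (y : ℂ) * I) ^ ((1 / 2 : ℝ) : ℂ))).re)
    (Ioi_mem_nhds (by linarith))
    (Filter.Eventually.of_forall fun x' =>
      (Complex.continuous_re.comp ((wt_half_cont x').mul wt_half_cont')).aestronglyMeasurable)
    (wt_half_int h0 h1 hx).2.re
    (Complex.continuous_re.comp (wt_half_cont x)).neg.aestronglyMeasurable
    (Filter.Eventually.of_forall fun y x' hx' => ?_)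
    (integrable_inv_one_add_sq.const_mul K)
    (Filter.Eventually.of_forall fun y x' hx' => ?_)
  · have h3 := hd.2
    have h4 := h3.const_mul (1 / (2 * Real.pi))
    have h5 : (1 / (2 * Real.pi)) * ∫ y : ℝ,
        -(cexp ((1 + (y : ℂ) * I) - (x : ℂ) * (1 + (y : ℂ) * I) ^ ((1 / 2 : ℝ) : ℂ))).re =
        -(x / 2) * wd (1 / 2) x := by
      rw [integral_neg, wt_half_parts hx, wd]
      ring
    rw [h5] at h4
    exact h4
  · rw [norm_neg, ← div_eq_mul_inv]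
    exact (Complex.abs_re_le_norm _).trans (hK x' y (le_of_lt hx'))
  · have h3 : HasDerivAt (fun z : ℂ =>
        cexp ((1 + (y : ℂ) * I) - z * (1 + (y : ℂ) * I) ^ ((1 / 2 : ℝ) : ℂ))
        * (1 + (y : ℂ) * I) ^ (((1 / 2 : ℝ) : ℂ) - 1))
        (cexp ((1 + (y : ℂ) * I) - (x' : ℂ) * (1 + (y : ℂ) * I) ^ ((1 / 2 : ℝ) : ℂ)) *
          -(1 * (1 + (y : ℂ) * I) ^ ((1 / 2 : ℝ) : ℂ)) *
          (1 + (y : ℂ) * I) ^ (((1 / 2 : ℝ) : ℂ) - 1)) (x' : ℂ) :=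
      ((((hasDerivAt_id (x' : ℂ)).mul_const _).const_sub _).cexp).mul_const _
    have h4 := h3.real_of_complex
    have h5 : (cexp ((1 + (y : ℂ) * I) - (x' : ℂ) * (1 + (y : ℂ) * I) ^ ((1 / 2 : ℝ) : ℂ)) *
          -(1 * (1 + (y : ℂ) * I) ^ ((1 / 2 : ℝ) : ℂ)) *
          (1 + (y : ℂ) * I) ^ (((1 / 2 : ℝ) : ℂ) - 1)).re =
        -(cexp ((1 + (y : ℂ) * I) - (x' : ℂ) * (1 + (y : ℂ) * I) ^ ((1 / 2 : ℝ) : ℂ))).re := by
      rw [one_mul, mul_assoc, neg_mul, hcd y, mul_neg, mul_one, Complex.neg_re]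
    rw [h5] at h4
    exact h4

private lemma wt_half_wd {x : ℝ} (hx : 0 < x) :
    wd (1 / 2) x = wd (1 / 2) 1 * Real.exp (1 / 4) * Real.exp (-(1 / 4) * x ^ 2) := by
  have hd : ∀ t : ℝ, 0 < t →
      HasDerivAt (fun t => wd (1 / 2) t * Real.exp (t ^ 2 / 4)) 0 t := fun t ht => by
    have h1 : HasDerivAt (fun t : ℝ => Real.exp (t ^ 2 / 4)) (Real.exp (t ^ 2 / 4) * (t / 2)) t := by
      have h2 : HasDerivAt (fun t : ℝ => t ^ 2 / 4) (t / 2) t := by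
        have := (hasDerivAt_pow 2 t).div_const 4
        refine this.congr_deriv ?_
        push_cast
        ring
      exact h2.exp
    refine ((wt_half_deriv ht).mul h1).congr_deriv ?_
    ring
  have hc : wd (1 / 2) x * Real.exp (x ^ 2 / 4) = wd (1 / 2) 1 * Real.exp (1 ^ 2 / 4) :=
    isOpen_Ioi.is_const_of_deriv_eq_zero (s := Ioi (0 : ℝ)) isPreconnected_Ioi
      (f := fun t => wd (1 / 2) t * Real.exp (t ^ 2 / 4))
      (fun t ht => (hd t ht).differentiableAt.differentiableWithinAt)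
      (fun t ht => (hd t ht).deriv) (show x ∈ Ioi (0 : ℝ) from hx)
      (mem_Ioi.mpr (zero_lt_one : (0 : ℝ) < 1))
  have he : Real.exp (x ^ 2 / 4) * Real.exp (-(1 / 4) * x ^ 2) = 1 := by
    rw [← Real.exp_add]
    have : x ^ 2 / 4 + -(1 / 4) * x ^ 2 = 0 := by ring
    rw [this, Real.exp_zero]
  have h2 : Real.exp (1 ^ 2 / 4) = Real.exp (1 / 4) := by norm_num
  rw [h2] at hc
  rw [← hc, mul_assoc, he, mul_one]

/-- PIECE RF-Wd.  For `a = 1/2`: `wt (1/2) x = (2 / sqrt pi) * integral of exp (-t^2) over t > x/2`.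
Proof: `q(x) = wd (1/2) x` satisfies `q'(x) = - (x/2) q(x)` for `x > 0`: differentiate under the
integral (`q' = - Re (1 / 2 pi) integral of exp w exp (- x w^(1/2))`, since `w^(-1/2) w^(1/2) = 1`;
dominated as in `hasDerivAt_wt`) and integrate by parts (`parts` with `T = 1`, `G = exp (- x w^(1/2))`,
`G' = - (x/2) w^(-1/2) exp (- x w^(1/2))`).  Hence `q(x) exp (x^2/4)` is constant on `(0, oo)`, say
`q(x) = c exp (- x^2/4)`, and `integral of q = 1` (`wt_eq`) gives `c = 1 / sqrt pi` (`integral_gaussian_Ioi`).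
Then `wt = integral of q over (x, oo)` and the substitution `x = 2 t`. For `x = 0` both sides
are `1`. -/
theorem wt_half {x : ℝ} (hx : 0 ≤ x) :
    wt (1 / 2) x = 2 / √Real.pi * ∫ t in Ioi (x / 2), Real.exp (-t ^ 2) := by
  have h0 : (0 : ℝ) < 1 / 2 := by norm_num
  have h1 : (1 / 2 : ℝ) < 1 := by norm_num
  have hpi : 0 < √Real.pi := Real.sqrt_pos.mpr Real.pi_pos
  rcases hx.eq_or_lt with rfl | hx
  · rw [wt, if_pos le_rfl, zero_div]
    have h2 := integral_gaussian_Ioi 1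
    simp only [neg_one_mul, div_one] at h2
    rw [h2]
    field_simp
  · obtain ⟨_, hw1, hw2⟩ := wt_eq (a := 1 / 2) h0 h1
    set c : ℝ := wd (1 / 2) 1 * Real.exp (1 / 4) with hc
    have h3 : ∀ y : ℝ, 0 ≤ y →
        ∫ t in Ioi y, wd (1 / 2) t = c * ∫ t in Ioi y, Real.exp (-(1 / 4) * t ^ 2) := fun y hy => by
      rw [← integral_const_mul]
      exact setIntegral_congr_fun measurableSet_Ioi fun t ht =>
        wt_half_wd (lt_of_le_of_lt hy ht)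
    have h4 : c * √Real.pi = 1 := by
      rw [← hw1, h3 0 le_rfl, integral_gaussian_Ioi]
      congr 1
      rw [show Real.pi / (1 / 4) = 2 ^ 2 * Real.pi by ring, Real.sqrt_mul (by norm_num),
        Real.sqrt_sq (by norm_num)]
      ring
    have h5 : c = 1 / √Real.pi := by
      rw [eq_div_iff hpi.ne', h4]
    have h6 := integral_comp_mul_left_Ioi (fun t : ℝ => Real.exp (-(1 / 4) * t ^ 2)) (x / 2)
      (b := 2) two_pos
    have h7 : ∀ t : ℝ, Real.exp (-(1 / 4) * (2 * t) ^ 2) = Real.exp (-t ^ 2) := fun t => by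
      congr 1
      ring
    simp only [h7] at h6
    rw [show 2 * (x / 2) = x by ring, smul_eq_mul] at h6
    rw [hw2 x hx, h3 x hx.le, h5, h6]
    field_simp

end Pool.Agent.Helper66.RF
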