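import Pool.Agent.Helper66.RF.Main
import Pool.Agent.Helper66.RF.Wd
import Pool.Agent.Helper99.RF.Tri
import Pool.Agent.Helper99.CM.Fam

set_option autoImplicit false

/-!
The curves `y² = x³ - x` and `y² = x³ - 4 x`.
-/

namespace Pool.Agent.Helper66.RF

open Complex MeasureTheory Set Filter Topology Pool.Agent.Helper9.BSD Pool.Agent.Helper99.CM

lemma good_quar (n : ℕ) (hn : n = 1 ∨ n = 2) {p : ℕ} (hp : p.Prime) :
    ¬ (p : ℤ) ∣ (quar ((n : ℤ) ^ 2)).Δ ↔ p ≠ 2 := by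
  have h : (quar ((n : ℤ) ^ 2)).Δ = ((2 ^ 6 * n ^ 6 : ℕ) : ℤ) := by
    rw [quar_disc]
    push_cast
    ring
  rw [h, Int.natCast_dvd_natCast]
  have h2 : 2 ^ 6 * n ^ 6 = 2 ^ 6 ∨ 2 ^ 6 * n ^ 6 = 2 ^ 12 := by
    rcases hn with rfl | rfl
    · left; norm_num
    · right; norm_num
  rw [not_iff_comm, not_ne_iff]
  rcases h2 with h2 | h2
  · rw [h2]
    constructor
    · rintro rfl
      norm_num
    · intro h3
      exact (Nat.prime_dvd_prime_iff_eq hp Nat.prime_two).mp (hp.dvd_of_dvd_pow h3)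
  · rw [h2]
    constructor
    · rintro rfl
      norm_num
    · intro h3
      exact (Nat.prime_dvd_prime_iff_eq hp Nat.prime_two).mp (hp.dvd_of_dvd_pow h3)

lemma numPts_two (n : ℕ) (hn : n = 1 ∨ n = 2) : numPts (quar ((n : ℤ) ^ 2)) 2 = 3 := by
  unfold numPts quar
  rcases hn with rfl | rfl
  · simp only [Nat.card_eq_fintype_card]
    decide
  · simp only [Nat.card_eq_fintype_card]
    decide

lemma badProd_quar (n : ℕ) (hn : n = 1 ∨ n = 2) : badProd (quar ((n : ℤ) ^ 2)) = 1 := by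
  unfold badProd
  refine Finset.prod_eq_one fun p hp => ?_
  have h1 := Nat.prime_of_mem_primeFactors hp
  have h2 := Nat.dvd_of_mem_primeFactors hp
  have h3 : (p : ℤ) ∣ (quar ((n : ℤ) ^ 2)).Δ := Int.natCast_dvd.2 h2
  have h4 : p = 2 := by
    by_contra h
    exact (good_quar n hn h1).mpr h h3
  subst h4
  unfold ap
  rw [numPts_two n hn]
  norm_num

/-- The sector for these two curves. -/
theorem quar_sector (n : ℕ) (hn : n = 1 ∨ n = 2) {F : ℂ → ℂ} {m : ℕ}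
    (hF : IsCont (quar ((n : ℤ) ^ 2)) F m) {a : ℝ} (ha : a ≤ 3 / 4) :
    ∀ s : ℂ, s ≠ 1 → |arg (s - 1)| < Real.pi * a / 2 → F s ≠ 0 := by
  intro s hs h
  have hpi := Real.pi_pos
  exact Pool.Agent.Helper99.RF.congr_sector n hn F m hF s hs (by nlinarith)

lemma ca_half : (1 : ℝ) / 64 < (ca (1 / 2) / 4) ^ (1 / (1 / 2 : ℝ)) := by
  have h1 : ca (1 / 2) = √2 / 2 := by
    unfold ca
    rw [show Real.pi * (1 / 2) / 2 = Real.pi / 4 by ring, Real.cos_pi_div_four]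
  rw [h1, show (1 : ℝ) / (1 / 2) = ((2 : ℕ) : ℝ) by norm_num, Real.rpow_natCast]
  have h2 : √2 ^ 2 = 2 := Real.sq_sqrt (by norm_num)
  nlinarith

/-- The explicit example. -/
theorem example_limit (n : ℕ) (hn : n = 1 ∨ n = 2) {F : ℂ → ℂ} {m : ℕ}
    (hF : IsCont (quar ((n : ℤ) ^ 2)) F m) (hm : m = 0) :
    Tendsto (fun x : ℝ => ∏ p ∈ (Finset.Icc 3 ⌊x⌋₊).filter Nat.Prime,
      ((numPts (quar ((n : ℤ) ^ 2)) p : ℝ) / p)
        ^ (2 / √Real.pi * ∫ t in Ioi (4 * Real.log p / √(Real.log x)), Real.exp (-t ^ 2)))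
      atTop (𝓝 (√2 / ‖F 1‖)) := by
  have hn2 : ((n : ℤ) ^ 2) ≠ 0 := by
    rcases hn with rfl | rfl <;> norm_num
  obtain ⟨hΔ, hS, -⟩ := cm_all hn2 (Or.inl rfl : quar ((n : ℤ) ^ 2) = quar ((n : ℤ) ^ 2) ∨ _)
  subst hm
  have hb := badProd_quar n hn
  have h := ((law_bsd (quar ((n : ℤ) ^ 2)) hΔ hS hF (a := 1 / 2) (c := 1 / 64) (by norm_num)
    (by norm_num) (by norm_num) ca_half).1 0 (√2 / ‖F 1‖) ?_).mpr ⟨quar_sector n hn hF
      (by norm_num), by simp, ?_⟩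
  · refine h.congr fun x => ?_
    rw [Real.rpow_zero, div_one]
    have hset : (Finset.Icc 1 ⌊x⌋₊).filter
        (fun p : ℕ => p.Prime ∧ ¬ (p : ℤ) ∣ (quar ((n : ℤ) ^ 2)).Δ)
        = (Finset.Icc 3 ⌊x⌋₊).filter Nat.Prime := by
      ext p
      simp only [Finset.mem_filter, Finset.mem_Icc]
      constructor
      · rintro ⟨⟨h1, h2⟩, h3, h4⟩
        have h5 := (good_quar n hn h3).mp h4
        have h6 := h3.two_le
        exact ⟨⟨by omega, h2⟩, h3⟩
      · rintro ⟨⟨h1, h2⟩, h3⟩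
        exact ⟨⟨by omega, h2⟩, h3, (good_quar n hn h3).mpr (by omega)⟩
    rw [hset]
    refine Finset.prod_congr rfl fun p hp => ?_
    have hp1 : (1 : ℝ) ≤ p := by
      have h3 := (Finset.mem_Icc.mp (Finset.mem_filter.mp hp).1).1
      exact_mod_cast (by omega : 1 ≤ p)
    have hlp := Real.log_nonneg hp1
    congr 1
    have h8 : ((1 / 64 : ℝ) * Real.log x) ^ (1 / 2 : ℝ) = 1 / 8 * √(Real.log x) := by
      rw [← Real.sqrt_eq_rpow, Real.sqrt_mul (by norm_num),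
        show (1 / 64 : ℝ) = (1 / 8) ^ 2 by norm_num, Real.sqrt_sq (by norm_num)]
    rw [h8, wt_half (by positivity)]
    congr 4
    have h9 := Real.sqrt_nonneg (Real.log x)
    rcases h9.eq_or_lt with h | h
    · rw [← h]; simp
    · rw [div_div, div_eq_div_iff (by positivity) (by positivity)]
      ring
  · have h1 := lead_pos hF.1 hF.2.2
    simp only [iteratedDeriv_zero, Nat.factorial_zero, Nat.cast_one, div_one] at h1
    positivity
  · rw [hb]
    simp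

end Pool.Agent.Helper66.RF
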