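import Pool.Agent.Helper66.RF.Sb

set_option autoImplicit false

/-!
The finite form: the tail of the smoothed sum at `T = c log x` beyond `x` is negligible.
-/

namespace Pool.Agent.Helper66.RF

open Complex MeasureTheory Set Filter Topology

private lemma fa_term {a A C : ℝ} {b : ℕ → ℝ} (hb : Bd b) (hC0 : 0 ≤ C)
    (hA2 : 4 ≤ ca a * A ^ a)
    (hC : ∀ u T : ℝ, 1 / 2 ≤ u → 0 < T →
      |wt a (u / T ^ a)| ≤ C * Real.exp (A * T) * Real.exp (-(ca a * A ^ a / 2) * u))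
    {T : ℝ} (hT : 0 < T) (n : ℕ) :
    |b n * wt a (Real.log n / T ^ a)| ≤ 6 * (C * Real.exp (A * T)) * (1 / (n : ℝ) ^ 2) := by
  obtain ⟨hb1, hb2, hb3⟩ := hb
  match n with
  | 0 => simp [hb2]
  | 1 => rw [hb3]; simp; positivity
  | (k + 2) =>
    set m : ℕ := k + 2 with hm
    have hm2 : (2 : ℝ) ≤ (m : ℝ) := by
      rw [hm]; push_cast; linarith [(Nat.cast_nonneg k : (0 : ℝ) ≤ (k : ℝ))]
    have hm0 : (0 : ℝ) < (m : ℝ) := by linarith
    have hlog : 1 / 2 ≤ Real.log (m : ℝ) := by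
      have h2 : Real.log 2 ≤ Real.log (m : ℝ) := Real.log_le_log (by norm_num) hm2
      have h3 := Real.log_two_gt_d9
      linarith
    have h4 := hC _ T hlog hT
    have h5 : Real.exp (-(ca a * A ^ a / 2) * Real.log (m : ℝ)) ≤ 1 / (m : ℝ) ^ 2 := by
      have h6 : (1 : ℝ) / (m : ℝ) ^ 2 = Real.exp (-2 * Real.log (m : ℝ)) := by
        rw [neg_mul, Real.exp_neg, one_div]
        congr 1
        rw [mul_comm, Real.exp_mul, Real.exp_log hm0]
        norm_cast
      rw [h6]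
      refine Real.exp_le_exp.2 ?_
      nlinarith
    rw [abs_mul]
    calc |b m| * |wt a (Real.log (m : ℝ) / T ^ a)|
        ≤ 6 * (C * Real.exp (A * T) * Real.exp (-(ca a * A ^ a / 2) * Real.log (m : ℝ))) :=
          mul_le_mul (hb1 m) h4 (abs_nonneg _) (by norm_num)
      _ ≤ 6 * (C * Real.exp (A * T) * (1 / (m : ℝ) ^ 2)) := by
          refine mul_le_mul_of_nonneg_left ?_ (by norm_num)
          exact mul_le_mul_of_nonneg_left h5 (by positivity)
      _ = 6 * (C * Real.exp (A * T)) * (1 / (m : ℝ) ^ 2) := by ring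

private lemma fa_telescope {N : ℕ} (hN : 1 ≤ N) :
    HasSum (fun i : ℕ => 1 / ((i : ℝ) + N) - 1 / (((i + 1 : ℕ) : ℝ) + N)) (1 / (N : ℝ)) := by
  have hN0 : (0 : ℝ) < (N : ℝ) := by exact_mod_cast hN
  rw [hasSum_iff_tendsto_nat_of_nonneg]
  · have h1 : ∀ k : ℕ, ∑ i ∈ Finset.range k, (1 / ((i : ℝ) + N) - 1 / (((i + 1 : ℕ) : ℝ) + N)) =
        1 / (N : ℝ) - 1 / ((k : ℝ) + N) := by
      intro k
      have h2 := Finset.sum_range_sub' (fun i : ℕ => 1 / ((i : ℝ) + N)) k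
      rw [h2]
      simp
    simp only [h1]
    have h3 : Tendsto (fun k : ℕ => 1 / ((k : ℝ) + N)) atTop (𝓝 0) := by
      have h4 : Tendsto (fun k : ℕ => (k : ℝ) + N) atTop atTop :=
        tendsto_atTop_add_const_right _ _ tendsto_natCast_atTop_atTop
      refine h4.inv_tendsto_atTop.congr fun k => ?_
      rw [Pi.inv_apply, one_div]
    simpa using (tendsto_const_nhds (x := 1 / (N : ℝ))).sub h3
  · intro i
    have hi : (0 : ℝ) < (i : ℝ) + N := by positivity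
    rw [sub_nonneg]
    refine one_div_le_one_div_of_le hi ?_
    push_cast
    linarith

private lemma fa_diff {a A C : ℝ} (h0 : 0 < a) (h1 : a < 1) {b : ℕ → ℝ} (hb : Bd b) (hA : 0 < A)
    (hA2 : 4 ≤ ca a * A ^ a) (hC0 : 0 ≤ C)
    (hC : ∀ u T : ℝ, 1 / 2 ≤ u → 0 < T →
      |wt a (u / T ^ a)| ≤ C * Real.exp (A * T) * Real.exp (-(ca a * A ^ a / 2) * u))
    {T : ℝ} (hT : 0 < T) {N : ℕ} (hN : 1 ≤ N) :
    |(∑' n : ℕ, b n * wt a (Real.log n / T ^ a))
      - ∑ n ∈ Finset.Icc 1 N, b n * wt a (Real.log n / T ^ a)| ≤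
      6 * (C * Real.exp (A * T)) * (1 / (N : ℝ)) := by
  have hs := (series_line h0 h1 hb hA hA2 hT).1
  have hN0 : (0 : ℝ) < (N : ℝ) := by exact_mod_cast hN
  have h2 := hs.sum_add_tsum_nat_add (N + 1)
  have h3 : ∑ n ∈ Finset.range (N + 1), b n * wt a (Real.log n / T ^ a) =
      ∑ n ∈ Finset.Icc 1 N, b n * wt a (Real.log n / T ^ a) := by
    rw [Finset.sum_range_succ', Finset.range_eq_Ico, Finset.sum_Ico_add' (fun n : ℕ =>
      b n * wt a (Real.log n / T ^ a)) 0 N 1]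
    rw [hb.2.1, zero_mul, add_zero, zero_add]
    rfl
  have h4 : (∑' n : ℕ, b n * wt a (Real.log n / T ^ a))
      - ∑ n ∈ Finset.Icc 1 N, b n * wt a (Real.log n / T ^ a) =
      ∑' i : ℕ, b (i + (N + 1)) * wt a (Real.log ((i + (N + 1) : ℕ) : ℝ) / T ^ a) := by
    rw [← h2, h3]; ring
  rw [h4, ← Real.norm_eq_abs]
  refine tsum_of_norm_bounded ((fa_telescope hN).mul_left (6 * (C * Real.exp (A * T)))) ?_
  intro i
  rw [Real.norm_eq_abs]
  refine (fa_term hb hC0 hA2 hC hT (i + (N + 1))).trans ?_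
  refine mul_le_mul_of_nonneg_left ?_ (by positivity)
  have hi : (0 : ℝ) < (i : ℝ) + N := by positivity
  push_cast
  rw [div_sub_div _ _ hi.ne' (by positivity), div_le_div_iff₀ (by positivity) (by positivity)]
  nlinarith

/-- PIECE RF-Fa.  For `A > 0` with `4 ≤ ca a * A^a` and `c A < 1` the smoothed sum with `T = c log x` and
the same sum over `n ≤ x` differ by `o(1)`.
Proof: `wt_bound` with this `A`: for `n ≥ 2`, `u = log n ≥ 1/2`,
`|wt a (log n / T^a)| ≤ C exp (A T) exp (- 2 log n) = C exp (A T) / n^2`, so the difference, a sum over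
`n > x` (`Summable.sum_add_tsum_compl`-type lemma; summability from `series_line`), is at most
`6 C exp (A T) * sum over n > x of 1/n^2 ≤ 6 C x^(c A) * (2 / x)` for `x ≥ 2` (`exp (A c log x) = x^(c A)`), and
`c A < 1`.  (Tail of `1/n^2`: `sum_Ioc_inv_sq_le`-type lemmas, or compare with
`1/(n-1) - 1/n`.) -/
theorem fin_tail {a A c : ℝ} (h0 : 0 < a) (h1 : a < 1) {b : ℕ → ℝ} (hb : Bd b) (hA : 0 < A)
    (hA2 : 4 ≤ ca a * A ^ a) (hc : 0 < c) (hcA : c * A < 1) :
    Tendsto (fun x : ℝ => (∑' n : ℕ, b n * wt a (Real.log n / (c * Real.log x) ^ a))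
      - ∑ n ∈ Finset.Icc 1 ⌊x⌋₊, b n * wt a (Real.log n / (c * Real.log x) ^ a)) atTop (𝓝 0) := by
  obtain ⟨C, hC0, hC⟩ := wt_bound h0 h1 hA
  have hlim : Tendsto (fun x : ℝ => 12 * C * x ^ (-(1 - c * A))) atTop (𝓝 0) := by
    simpa using (tendsto_rpow_neg_atTop (by linarith : 0 < 1 - c * A)).const_mul (12 * C)
  refine squeeze_zero_norm' ?_ hlim
  filter_upwards [eventually_ge_atTop (2 : ℝ)] with x hx
  have hx0 : 0 < x := by linarith
  have hlx : 0 < Real.log x := Real.log_pos (by linarith)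
  have hN : 1 ≤ ⌊x⌋₊ := by
    rw [Nat.one_le_floor_iff]
    linarith
  have hN2 : x / 2 ≤ (⌊x⌋₊ : ℝ) := by
    have := Nat.lt_floor_add_one x
    linarith
  rw [Real.norm_eq_abs]
  refine (fa_diff h0 h1 hb hA hA2 hC0 hC (mul_pos hc hlx) hN).trans ?_
  have h5 : Real.exp (A * (c * Real.log x)) = x ^ (c * A) := by
    rw [Real.rpow_def_of_pos hx0]
    congr 1
    ring
  have h6 : x ^ (-(1 - c * A)) = x ^ (c * A) * (1 / x) := by
    rw [one_div, ← Real.rpow_neg_one x, ← Real.rpow_add hx0]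
    congr 1
    ring
  have h7 : 1 / (⌊x⌋₊ : ℝ) ≤ 2 * (1 / x) := by
    have h8 := one_div_le_one_div_of_le (by positivity : 0 < x / 2) hN2
    refine h8.trans (le_of_eq ?_)
    field_simp
  rw [h5, h6]
  have h9 : 0 ≤ 6 * (C * x ^ (c * A)) := by positivity
  calc 6 * (C * x ^ (c * A)) * (1 / (⌊x⌋₊ : ℝ)) ≤ 6 * (C * x ^ (c * A)) * (2 * (1 / x)) :=
        mul_le_mul_of_nonneg_left h7 h9
    _ = 12 * C * (x ^ (c * A) * (1 / x)) := by ring

end Pool.Agent.Helper66.RF
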