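import Pool.Agent.Helper66.RF.Defs

set_option autoImplicit false

/-!
Moving a vertical line of integration.
-/

namespace Pool.Agent.Helper66.RF

open Complex MeasureTheory Set Filter Topology

private theorem line_integrable_aux {g : ℂ → ℂ} {A C : ℝ}
    (hg : ∀ y : ℝ, DifferentiableAt ℂ g ((A : ℂ) + y * I))
    (hb : ∀ y : ℝ, ‖g ((A : ℂ) + y * I)‖ ≤ C / (1 + y ^ 2)) :
    Integrable fun y : ℝ => g ((A : ℂ) + y * I) := by
  have hc : Continuous fun y : ℝ => g ((A : ℂ) + y * I) := by
    rw [continuous_iff_continuousAt]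
    intro y
    exact ContinuousAt.comp (f := fun y : ℝ => (A : ℂ) + y * I) (g := g) (hg y).continuousAt
      (by fun_prop)
  refine Integrable.mono' (g := fun y => C * (1 + y ^ 2)⁻¹)
    (integrable_inv_one_add_sq.const_mul C) hc.aestronglyMeasurable
    (Filter.Eventually.of_forall fun y => ?_)
  rw [← div_eq_mul_inv]
  exact hb y

/-- PIECE RF-La.  Moving the line: if `g` is holomorphic on the closed strip `A ≤ Re w ≤ B` and
bounded there by `C / (1 + (Im w)^2)`, the integrals over the two vertical lines agree.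
Proof: Mathlib `Complex.integral_boundary_rect_eq_zero_of_differentiableOn` for the rectangle with
corners `A - N I` and `B + N I`; the two horizontal sides are at most `(B - A) C / (1 + N^2)` and
tend to `0` for `N → oo` (take `N : ℕ`), the vertical ones tend to the full integrals by
`intervalIntegral_tendsto_integral` (both integrands are continuous and bounded by
`C / (1 + y^2)`, see `integrable_inv_one_add_sq`). -/
theorem shift {g : ℂ → ℂ} {A B C : ℝ} (hAB : A ≤ B)
    (hg : ∀ w : ℂ, A ≤ w.re → w.re ≤ B → DifferentiableAt ℂ g w)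
    (hb : ∀ w : ℂ, A ≤ w.re → w.re ≤ B → ‖g w‖ ≤ C / (1 + w.im ^ 2)) :
    ∫ y : ℝ, g ((A : ℂ) + y * I) = ∫ y : ℝ, g ((B : ℂ) + y * I) := by
  have hiA : Integrable fun y : ℝ => g ((A : ℂ) + y * I) :=
    line_integrable_aux (fun y => hg _ (by simp) (by simpa using hAB))
      (fun y => by simpa using hb ((A : ℂ) + y * I) (by simp) (by simpa using hAB))
  have hiB : Integrable fun y : ℝ => g ((B : ℂ) + y * I) :=
    line_integrable_aux (fun y => hg _ (by simpa using hAB) (by simp))
      (fun y => by simpa using hb ((B : ℂ) + y * I) (by simpa using hAB) (by simp))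
  have hN : Tendsto (fun n : ℕ => (n : ℝ)) atTop atTop := tendsto_natCast_atTop_atTop
  have tA := intervalIntegral_tendsto_integral hiA (tendsto_neg_atTop_atBot.comp hN) hN
  have tB := intervalIntegral_tendsto_integral hiB (tendsto_neg_atTop_atBot.comp hN) hN
  have hside : ∀ (n : ℕ) (s : ℝ), s ^ 2 = (n : ℝ) ^ 2 →
      ‖∫ x in A..B, g ((x : ℂ) + (s : ℂ) * I)‖ ≤ C / (1 + (n : ℝ) ^ 2) * |B - A| := by
    intro n s hs
    refine intervalIntegral.norm_integral_le_of_norm_le_const fun x hx => ?_
    rw [uIoc_of_le hAB] at hx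
    have := hb ((x : ℂ) + (s : ℂ) * I) (by simpa using hx.1.le) (by simpa using hx.2)
    simpa [hs] using this
  have h0 : Tendsto (fun n : ℕ => (∫ y in (-(n : ℝ))..n, g ((A : ℂ) + y * I)) -
      ∫ y in (-(n : ℝ))..n, g ((B : ℂ) + y * I)) atTop (𝓝 0) := by
    refine squeeze_zero_norm (a := fun n : ℕ => 2 * (C / (1 + (n : ℝ) ^ 2) * |B - A|))
      (fun n => ?_) ?_
    · have hc := Complex.integral_boundary_rect_eq_zero_of_differentiableOn g
        (⟨A, -(n : ℝ)⟩ : ℂ) (⟨B, (n : ℝ)⟩ : ℂ) (fun w hw => by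
          have h1 := hw.1
          simp only [mem_preimage, uIcc_of_le hAB, mem_Icc] at h1
          exact (hg w h1.1 h1.2).differentiableWithinAt)
      simp only at hc
      have h1 := hside n (-(n : ℝ)) (by ring)
      have h2 := hside n (n : ℝ) rfl
      set H1 := ∫ x in A..B, g ((x : ℂ) + ((-(n : ℝ) : ℝ) : ℂ) * I)
      set H2 := ∫ x in A..B, g ((x : ℂ) + ((n : ℝ) : ℂ) * I)
      set GA := ∫ y in (-(n : ℝ))..n, g ((A : ℂ) + y * I)
      set GB := ∫ y in (-(n : ℝ))..n, g ((B : ℂ) + y * I)
      have h3 : I * (GA - GB) = H1 - H2 := by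
        simp only [smul_eq_mul] at hc
        linear_combination -hc
      have h4 : ‖GA - GB‖ = ‖H1 - H2‖ := by
        rw [← h3, norm_mul, Complex.norm_I, one_mul]
      rw [h4]
      calc ‖H1 - H2‖ ≤ ‖H1‖ + ‖H2‖ := norm_sub_le _ _
        _ ≤ _ := by linarith
    · have hsq : Tendsto (fun n : ℕ => 1 + (n : ℝ) ^ 2) atTop atTop :=
        tendsto_atTop_add_const_left _ _ ((tendsto_pow_atTop two_ne_zero).comp hN)
      have := ((tendsto_const_nhds (x := C)).div_atTop hsq).mul_const |B - A|
      simpa using this.const_mul 2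
  have h1 := tA.sub tB
  have h2 := tendsto_nhds_unique h1 h0
  exact sub_eq_zero.mp h2

/-- PIECE RF-La, second statement: integrability on a line inside the strip. -/
theorem line_integrable {g : ℂ → ℂ} {A C : ℝ}
    (hg : ∀ y : ℝ, DifferentiableAt ℂ g ((A : ℂ) + y * I))
    (hb : ∀ y : ℝ, ‖g ((A : ℂ) + y * I)‖ ≤ C / (1 + y ^ 2)) :
    Integrable fun y : ℝ => g ((A : ℂ) + y * I) :=
  line_integrable_aux hg hb

end Pool.Agent.Helper66.RF
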