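import Pool.Agent.Helper66.RF.La

set_option autoImplicit false

/-!
The residue of the Laplace kernel.
-/

namespace Pool.Agent.Helper66.RF

open Complex MeasureTheory Set Filter Topology

private lemma lc_cauchy {p : ℝ} (hp : 0 < p) :
    Integrable (fun y : ℝ => p / (p ^ 2 + y ^ 2)) ∧ ∫ y : ℝ, p / (p ^ 2 + y ^ 2) = Real.pi := by
  have e : (fun y : ℝ => p / (p ^ 2 + y ^ 2)) = fun y : ℝ => p⁻¹ * (1 + (p⁻¹ * y) ^ 2)⁻¹ := by
    funext y
    have h1 : p ^ 2 + y ^ 2 ≠ 0 := by positivity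
    have h2 : 1 + (p⁻¹ * y) ^ 2 ≠ 0 := by positivity
    field_simp
  rw [e]
  have hi : Integrable fun y : ℝ => (1 + (p⁻¹ * y) ^ 2)⁻¹ :=
    integrable_inv_one_add_sq.comp_mul_left' (inv_ne_zero hp.ne')
  refine ⟨hi.const_mul _, ?_⟩
  rw [integral_const_mul, Measure.integral_comp_mul_left (fun y : ℝ => (1 + y ^ 2)⁻¹) p⁻¹,
    integral_univ_inv_one_add_sq, inv_inv, abs_of_pos hp, smul_eq_mul]
  field_simp

private lemma lc_norm_add_one {w : ℂ} (hw : 0 ≤ w.re) : ‖w‖ ≤ ‖w + 1‖ := by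
  rw [Complex.norm_def, Complex.norm_def]
  apply Real.sqrt_le_sqrt
  rw [Complex.normSq_apply, Complex.normSq_apply]
  simp only [Complex.add_re, Complex.one_re, Complex.add_im, Complex.one_im, add_zero]
  nlinarith

private lemma lc_abs_im_sub {w : ℂ} {lam : ℝ} : |w.im| ≤ ‖w - lam‖ := by
  have := Complex.abs_im_le_norm (w - lam)
  simpa using this

/-- On the line with real part `A`, the two simple fractions. -/
private lemma lc_two {A lam : ℝ} (hA : 0 < A) (hl : A < lam) :
    Integrable (fun y : ℝ => ((lam : ℂ) + 1)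
        / ((((A : ℂ) + y * I) + 1) * ((lam : ℂ) - ((A : ℂ) + y * I)))) ∧
      ∫ y : ℝ, ((lam : ℂ) + 1)
        / ((((A : ℂ) + y * I) + 1) * ((lam : ℂ) - ((A : ℂ) + y * I))) = 2 * (Real.pi : ℂ) := by
  set k : ℝ → ℂ := fun y : ℝ => ((lam : ℂ) + 1)
        / ((((A : ℂ) + y * I) + 1) * ((lam : ℂ) - ((A : ℂ) + y * I))) with hk
  have hp : 0 < A + 1 := by linarith
  have hq : 0 < lam - A := by linarith
  have hne1 : ∀ y : ℝ, ((A : ℂ) + y * I) + 1 ≠ 0 := by
    intro y h
    have := congrArg Complex.re h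
    simp at this
    linarith
  have hne2 : ∀ y : ℝ, (lam : ℂ) - ((A : ℂ) + y * I) ≠ 0 := by
    intro y h
    have := congrArg Complex.re h
    simp at this
    linarith
  have hint : Integrable k := by
    have hcont : Continuous k := by
      rw [hk]
      refine Continuous.div continuous_const (by fun_prop) fun y => mul_ne_zero (hne1 y) (hne2 y)
    have hpi := (lc_cauchy hp).1
    have hqi := (lc_cauchy hq).1
    refine Integrable.mono' (g := fun y : ℝ => (lam + 1) / (A + 1) *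
      ((A + 1) / ((A + 1) ^ 2 + y ^ 2)) + (lam + 1) / (lam - A) *
      ((lam - A) / ((lam - A) ^ 2 + y ^ 2)))
      ((hpi.const_mul _).add (hqi.const_mul _)) hcont.aestronglyMeasurable
      (Filter.Eventually.of_forall fun y => ?_)
    have h1 : ‖((A : ℂ) + y * I) + 1‖ ^ 2 = (A + 1) ^ 2 + y ^ 2 := by
      rw [Complex.sq_norm, Complex.normSq_apply]
      simp
      ring
    have h2 : ‖(lam : ℂ) - ((A : ℂ) + y * I)‖ ^ 2 = (lam - A) ^ 2 + y ^ 2 := by
      rw [Complex.sq_norm, Complex.normSq_apply]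
      simp
      ring
    have hn1 : 0 < ‖((A : ℂ) + y * I) + 1‖ := norm_pos_iff.mpr (hne1 y)
    have hn2 : 0 < ‖(lam : ℂ) - ((A : ℂ) + y * I)‖ := norm_pos_iff.mpr (hne2 y)
    rw [← h1, ← h2]
    have h3 : ‖(lam : ℂ) + 1‖ = lam + 1 := by
      rw [show ((lam : ℂ) + 1) = ((lam + 1 : ℝ) : ℂ) by push_cast; ring, Complex.norm_real,
        Real.norm_eq_abs, abs_of_pos (by linarith)]
    have hl1 : 0 < lam + 1 := by linarith
    simp only [hk]
    rw [norm_div, norm_mul, h3]
    set s := ‖((A : ℂ) + y * I) + 1‖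
    set t := ‖(lam : ℂ) - ((A : ℂ) + y * I)‖
    have e1 : (lam + 1) / (A + 1) * ((A + 1) / s ^ 2) = (lam + 1) * (1 / s ^ 2) := by
      field_simp
    have e2 : (lam + 1) / (lam - A) * ((lam - A) / t ^ 2) = (lam + 1) * (1 / t ^ 2) := by
      field_simp
    rw [e1, e2, ← mul_add, div_eq_mul_one_div]
    refine mul_le_mul_of_nonneg_left ?_ hl1.le
    have h4 : 1 / (s * t) = (1 / s) * (1 / t) := by
      field_simp
    have h5 : 1 / s ^ 2 = (1 / s) ^ 2 := by field_simp
    have h6 : 1 / t ^ 2 = (1 / t) ^ 2 := by field_simp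
    rw [h4, h5, h6]
    nlinarith [sq_nonneg (1 / s - 1 / t), sq_nonneg (1 / s), sq_nonneg (1 / t)]
  refine ⟨hint, ?_⟩
  have hneg : ∫ y : ℝ, k (-y) = ∫ y : ℝ, k y := integral_neg_eq_self k volume
  have hsum : ∀ y : ℝ, k y + k (-y) = (((2 * ((A + 1) / ((A + 1) ^ 2 + y ^ 2))
      + 2 * ((lam - A) / ((lam - A) ^ 2 + y ^ 2)) : ℝ)) : ℂ) := by
    intro y
    have h1 : ((A : ℂ) + 1) ^ 2 + (y : ℂ) ^ 2 ≠ 0 := by
      have : (0 : ℝ) < (A + 1) ^ 2 + y ^ 2 := by positivity
      exact_mod_cast this.ne'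
    have h2 : ((lam : ℂ) - A) ^ 2 + (y : ℂ) ^ 2 ≠ 0 := by
      have : (0 : ℝ) < (lam - A) ^ 2 + y ^ 2 := by positivity
      exact_mod_cast this.ne'
    have hI : I ^ 2 = -1 := Complex.I_sq
    have a1 := hne1 y
    have a2 := hne2 y
    have a3 : ((A : ℂ) + (-(y : ℂ)) * I) + 1 ≠ 0 := by
      have := hne1 (-y)
      push_cast at this
      exact this
    have a4 : (lam : ℂ) - ((A : ℂ) + (-(y : ℂ)) * I) ≠ 0 := by
      have := hne2 (-y)
      push_cast at this
      exact this
    have k1 : k y = 1 / (((A : ℂ) + y * I) + 1) + 1 / ((lam : ℂ) - ((A : ℂ) + y * I)) := by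
      simp only [hk]
      field_simp
      ring
    have k2 : k (-y) = 1 / (((A : ℂ) + (-(y : ℂ)) * I) + 1)
        + 1 / ((lam : ℂ) - ((A : ℂ) + (-(y : ℂ)) * I)) := by
      simp only [hk]
      push_cast
      rw [div_add_div _ _ a3 a4]
      congr 1
      ring
    have m1 : 1 / (((A : ℂ) + y * I) + 1) + 1 / (((A : ℂ) + (-(y : ℂ)) * I) + 1)
        = 2 * (((A : ℂ) + 1) / (((A : ℂ) + 1) ^ 2 + (y : ℂ) ^ 2)) := by
      have e : (((A : ℂ) + y * I) + 1) * (((A : ℂ) + (-(y : ℂ)) * I) + 1)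
          = ((A : ℂ) + 1) ^ 2 + (y : ℂ) ^ 2 := by
        linear_combination (-(y : ℂ) ^ 2) * hI
      rw [← e, div_add_div _ _ a1 a3, ← mul_div_assoc]
      congr 1
      ring
    have m2 : 1 / ((lam : ℂ) - ((A : ℂ) + y * I)) + 1 / ((lam : ℂ) - ((A : ℂ) + (-(y : ℂ)) * I))
        = 2 * (((lam : ℂ) - A) / (((lam : ℂ) - A) ^ 2 + (y : ℂ) ^ 2)) := by
      have e : ((lam : ℂ) - ((A : ℂ) + y * I)) * ((lam : ℂ) - ((A : ℂ) + (-(y : ℂ)) * I))
          = ((lam : ℂ) - A) ^ 2 + (y : ℂ) ^ 2 := by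
        linear_combination (-(y : ℂ) ^ 2) * hI
      rw [← e, div_add_div _ _ a2 a4, ← mul_div_assoc]
      congr 1
      ring
    rw [k1, k2]
    push_cast
    linear_combination m1 + m2
  have hintn : Integrable fun y : ℝ => k (-y) := hint.comp_neg
  have h2 : ∫ y : ℝ, (k y + k (-y)) = 4 * (Real.pi : ℂ) := by
    simp_rw [hsum]
    rw [integral_complex_ofReal, integral_add ((lc_cauchy hp).1.const_mul 2)
      ((lc_cauchy hq).1.const_mul 2), integral_const_mul, integral_const_mul, (lc_cauchy hp).2,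
      (lc_cauchy hq).2]
    push_cast
    ring
  rw [integral_add hint hintn, hneg] at h2
  linear_combination h2 / 2

/-- PIECE RF-Lc.  If `Φ` is holomorphic and bounded on `Re w ≥ A > 0` and `lam > A`, then
`(1 / 2 pi) * integral of Φ(w) / (w (lam - w)) dy = Φ(lam) / lam` on the line `w = A + i y`.
Proof.  Put `c = Φ(lam) / lam` and
`g(w) = (Φ(w) / w - c (lam + 1) / (w + 1)) / (lam - w)` for `w ≠ lam` (numerator zero at `lam`:
removable; formally `g = - dslope N lam` with `N w = Φ w / w - c (lam + 1) / (w + 1)`, which is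
holomorphic on `Re w > 0` by `dslope` lemmas).  `|g(w)| ≤ C' / (1 + (Im w)^2)` on `Re w ≥ A` with one
constant `C'` (away from `lam` both terms are `O(1 / |w|^2)`, near `lam` continuity/compactness), and
for large `Re w = B` even `|g(w)| ≤ C'' / ((B/2)^2 + (Im w)^2)`, so the integral over `Re w = B`
tends to `0` (it is at most `C'' pi / (B / 2)`).  By `shift` the integral of `g` over `Re w = A` is
`0`.  Hence `integral of Φ(w) / (w (lam - w)) = c * integral of (lam + 1) / ((w + 1)(lam - w))`, and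
`(lam + 1) / ((w + 1)(lam - w)) = 1 / (w + 1) + 1 / (lam - w)`; with `p = A + 1`, `q = lam - A` the sum is
`p / (p^2 + y^2) + q / (q^2 + y^2) + i (- y / (p^2 + y^2) + y / (q^2 + y^2))`: the first two integrate
to `pi` each (`integral_univ_inv_one_add_sq` after scaling), the last one is odd and integrable:
integral `0`.  Total `2 pi c`. -/
theorem residue {Φ : ℂ → ℂ} {A lam C : ℝ} (hA : 0 < A) (hl : A < lam)
    (hΦ : ∀ w : ℂ, A ≤ w.re → DifferentiableAt ℂ Φ w) (hb : ∀ w : ℂ, A ≤ w.re → ‖Φ w‖ ≤ C) :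
    (1 / (2 * (Real.pi : ℂ))) * ∫ y : ℝ, Φ ((A : ℂ) + y * I)
      / (((A : ℂ) + y * I) * ((lam : ℂ) - ((A : ℂ) + y * I))) = Φ lam / lam := by
  have hlam : 0 < lam := hA.trans hl
  have hlamC : (lam : ℂ) ≠ 0 := by exact_mod_cast hlam.ne'
  have hlam1 : (lam : ℂ) + 1 ≠ 0 := by
    have : (lam + 1 : ℝ) ≠ 0 := by linarith
    exact_mod_cast this
  set c : ℂ := Φ lam / lam with hc
  set N : ℂ → ℂ := fun w => Φ w / w - c * (lam + 1) / (w + 1) with hN
  have hw0 : ∀ w : ℂ, A ≤ w.re → w ≠ 0 := fun w hw => ne_zero_of_re (hA.trans_le hw)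
  have hw1 : ∀ w : ℂ, A ≤ w.re → w + 1 ≠ 0 := by
    intro w hw h
    have := congrArg Complex.re h
    simp at this
    linarith
  have hNd : ∀ w : ℂ, A ≤ w.re → DifferentiableAt ℂ N w := by
    intro w hw
    refine ((hΦ w hw).div differentiableAt_id (hw0 w hw)).sub ?_
    exact (differentiableAt_const _).div (differentiableAt_id.add_const 1) (hw1 w hw)
  have hNl : N lam = 0 := by
    simp only [hN, hc]
    field_simp
    ring
  have hC0 : 0 ≤ C := (norm_nonneg _).trans (hb lam (by simpa using hl.le))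
  set K : ℝ := C + ‖c * (lam + 1)‖ with hK
  have hK0 : 0 ≤ K := by positivity
  have hNb : ∀ w : ℂ, A ≤ w.re → ‖N w‖ ≤ K / ‖w‖ := by
    intro w hw
    have h0 : 0 < ‖w‖ := norm_pos_iff.mpr (hw0 w hw)
    have h1 : ‖w‖ ≤ ‖w + 1‖ := lc_norm_add_one (hA.le.trans hw)
    calc ‖N w‖ ≤ ‖Φ w / w‖ + ‖c * (lam + 1) / (w + 1)‖ := norm_sub_le _ _
      _ = ‖Φ w‖ / ‖w‖ + ‖c * (lam + 1)‖ / ‖w + 1‖ := by rw [norm_div, norm_div]
      _ ≤ C / ‖w‖ + ‖c * (lam + 1)‖ / ‖w‖ := by
          gcongr
          exact hb w hw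
      _ = K / ‖w‖ := by rw [hK, add_div]
  set g : ℂ → ℂ := fun w => -dslope N lam w with hg
  have hgne : ∀ w : ℂ, w ≠ lam → g w = N w / (lam - w) := by
    intro w hw
    have h1 : w - lam ≠ 0 := sub_ne_zero.mpr hw
    have h2 : (lam : ℂ) - w ≠ 0 := sub_ne_zero.mpr (Ne.symm hw)
    simp only [hg]
    rw [dslope_of_ne _ hw, slope_def_field, hNl]
    field_simp
    ring
  have hgd : ∀ w : ℂ, A ≤ w.re → DifferentiableAt ℂ g w := by
    intro w hw
    by_cases hwl : w = lam
    · subst hwl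
      have ho : IsOpen {w : ℂ | A < w.re} := isOpen_lt continuous_const Complex.continuous_re
      have hmem : {w : ℂ | A < w.re} ∈ 𝓝 (lam : ℂ) := ho.mem_nhds (by simpa using hl)
      have h1 : DifferentiableOn ℂ N {w : ℂ | A < w.re} := fun w hw =>
        (hNd w (le_of_lt hw)).differentiableWithinAt
      exact (((Complex.differentiableOn_dslope hmem).mpr h1).differentiableAt hmem).neg
    · exact ((differentiableAt_dslope_of_ne hwl).mpr (hNd w hw)).neg
  -- the bound in the half plane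
  obtain ⟨M, hM⟩ : ∃ M : ℝ, ∀ w ∈ Metric.closedBall (lam : ℂ) 1 ∩ {w : ℂ | A ≤ w.re},
      ‖g w‖ ≤ M := by
    have hcp : IsCompact (Metric.closedBall (lam : ℂ) 1 ∩ {w : ℂ | A ≤ w.re}) :=
      (isCompact_closedBall _ _).inter_right (isClosed_le continuous_const Complex.continuous_re)
    exact hcp.exists_bound_of_continuousOn fun w hw => (hgd w hw.2).continuousAt.continuousWithinAt
  set m : ℝ := min A 1 with hm
  have hm0 : 0 < m := lt_min hA one_pos
  set D : ℝ := max (2 * M) (2 * K / m) with hD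
  have hgb : ∀ w : ℂ, A ≤ w.re → ‖g w‖ ≤ D / (1 + w.im ^ 2) := by
    intro w hw
    have hpos : 0 < 1 + w.im ^ 2 := by positivity
    rw [le_div_iff₀ hpos]
    rcases le_or_gt ‖w - lam‖ 1 with h | h
    · have h1 : ‖g w‖ ≤ M := hM w ⟨by simpa [dist_eq_norm] using h, hw⟩
      have h2 : |w.im| ≤ 1 := lc_abs_im_sub.trans h
      have h3 : w.im ^ 2 ≤ 1 := by
        rw [← sq_abs]
        nlinarith [abs_nonneg w.im]
      have h4 : 0 ≤ M := (norm_nonneg _).trans h1
      calc ‖g w‖ * (1 + w.im ^ 2) ≤ M * 2 := by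
            gcongr
            linarith
        _ = 2 * M := by ring
        _ ≤ D := le_max_left _ _
    · have hne : w ≠ lam := by
        rintro rfl
        simp at h
        linarith
      have h0 : 0 < ‖w‖ := norm_pos_iff.mpr (hw0 w hw)
      have h1 : 0 < ‖w - lam‖ := one_pos.trans h
      have h2 : ‖g w‖ ≤ K / ‖w‖ / ‖w - lam‖ := by
        rw [hgne w hne, norm_div, norm_sub_rev (lam : ℂ) w]
        gcongr
        exact hNb w hw
      have h3 : m * (1 + w.im ^ 2) ≤ 2 * (‖w‖ * ‖w - lam‖) := by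
        have hmA : m ≤ A := min_le_left _ _
        have hm1 : m ≤ 1 := min_le_right _ _
        have hA' : A ≤ ‖w‖ := hw.trans ((le_abs_self _).trans (Complex.abs_re_le_norm w))
        rcases le_or_gt |w.im| 1 with h4 | h4
        · have h5 : w.im ^ 2 ≤ 1 := by
            rw [← sq_abs]
            nlinarith [abs_nonneg w.im]
          nlinarith
        · have h5 : |w.im| ≤ ‖w‖ := Complex.abs_im_le_norm w
          have h6 : |w.im| ≤ ‖w - lam‖ := lc_abs_im_sub
          have h7 : w.im ^ 2 ≤ ‖w‖ * ‖w - lam‖ := by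
            rw [← sq_abs, sq]
            exact mul_le_mul h5 h6 (abs_nonneg _) (norm_nonneg _)
          have h8 : 1 ≤ w.im ^ 2 := by
            rw [← sq_abs]
            nlinarith
          nlinarith
      calc ‖g w‖ * (1 + w.im ^ 2) ≤ K / ‖w‖ / ‖w - lam‖ * (1 + w.im ^ 2) := by gcongr
        _ = K / m * (m * (1 + w.im ^ 2) / (‖w‖ * ‖w - lam‖)) := by field_simp
        _ ≤ K / m * 2 := by
            gcongr
            rw [div_le_iff₀ (by positivity)]
            exact h3
        _ = 2 * K / m := by ring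
        _ ≤ D := le_max_right _ _
  -- the integral of `g` over the line is zero
  have hg0 : ∫ y : ℝ, g ((A : ℂ) + y * I) = 0 := by
    have hbd : ∀ R : ℝ, 0 < R → ‖∫ y : ℝ, g ((A : ℂ) + y * I)‖ ≤ K * Real.pi / R := by
      intro R hR
      have hAB : A ≤ lam + R := by linarith
      rw [shift (g := g) (B := lam + R) (C := D) hAB (fun w hw _ => hgd w hw)
        (fun w hw _ => hgb w hw)]
      have hpt : ∀ y : ℝ, ‖g (((lam + R : ℝ) : ℂ) + y * I)‖ ≤ K / R * (R / (R ^ 2 + y ^ 2)) := by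
        intro y
        set w : ℂ := ((lam + R : ℝ) : ℂ) + y * I with hwdef
        have hre : w.re = lam + R := by simp [hwdef]
        have him : w.im = y := by simp [hwdef]
        have hwA : A ≤ w.re := by rw [hre]; linarith
        have hne : w ≠ lam := by
          intro h
          have := congrArg Complex.re h
          rw [hre] at this
          simp at this
          linarith
        have hs1 : ‖w - lam‖ ^ 2 = R ^ 2 + y ^ 2 := by
          rw [Complex.sq_norm, Complex.normSq_apply]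
          simp only [Complex.sub_re, Complex.sub_im, hre, him, Complex.ofReal_re,
            Complex.ofReal_im]
          ring
        have hs2 : ‖w - lam‖ ≤ ‖w‖ := by
          refine le_of_sq_le_sq ?_ (norm_nonneg _)
          rw [hs1, Complex.sq_norm, Complex.normSq_apply, hre, him]
          nlinarith
        have h1 : 0 < ‖w - lam‖ := norm_pos_iff.mpr (sub_ne_zero.mpr hne)
        calc ‖g w‖ = ‖N w‖ / ‖w - lam‖ := by rw [hgne w hne, norm_div, norm_sub_rev (lam : ℂ) w]
          _ ≤ K / ‖w‖ / ‖w - lam‖ := by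
              gcongr
              exact hNb w hwA
          _ ≤ K / ‖w - lam‖ / ‖w - lam‖ := by gcongr
          _ = K / ‖w - lam‖ ^ 2 := by rw [div_div, sq]
          _ = K / R * (R / (R ^ 2 + y ^ 2)) := by
              rw [hs1]
              field_simp
      calc ‖∫ y : ℝ, g (((lam + R : ℝ) : ℂ) + y * I)‖
          ≤ ∫ y : ℝ, ‖g (((lam + R : ℝ) : ℂ) + y * I)‖ := norm_integral_le_integral_norm _
        _ ≤ ∫ y : ℝ, K / R * (R / (R ^ 2 + y ^ 2)) :=
            integral_mono_of_nonneg (Filter.Eventually.of_forall fun y => norm_nonneg _)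
              ((lc_cauchy hR).1.const_mul _) (Filter.Eventually.of_forall hpt)
        _ = K * Real.pi / R := by
            rw [integral_const_mul, (lc_cauchy hR).2]
            ring
    have hlim : Tendsto (fun R : ℝ => K * Real.pi / R) atTop (𝓝 0) :=
      tendsto_const_nhds.div_atTop tendsto_id
    have hle : ‖∫ y : ℝ, g ((A : ℂ) + y * I)‖ ≤ 0 :=
      ge_of_tendsto hlim ((eventually_gt_atTop 0).mono fun R hR => hbd R hR)
    exact norm_le_zero_iff.mp hle
  have hgi : Integrable fun y : ℝ => g ((A : ℂ) + y * I) :=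
    line_integrable (C := D) (fun y => hgd _ (by simp)) fun y => by
      simpa using hgb ((A : ℂ) + y * I) (by simp)
  obtain ⟨h2i, h2⟩ := lc_two hA hl
  have hpt : ∀ y : ℝ, Φ ((A : ℂ) + y * I)
      / (((A : ℂ) + y * I) * ((lam : ℂ) - ((A : ℂ) + y * I))) = g ((A : ℂ) + y * I)
      + c * (((lam : ℂ) + 1) / ((((A : ℂ) + y * I) + 1) * ((lam : ℂ) - ((A : ℂ) + y * I)))) := by
    intro y
    set w : ℂ := (A : ℂ) + y * I with hwdef
    have hre : w.re = A := by simp [hwdef]
    have hne : w ≠ lam := by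
      intro h
      have := congrArg Complex.re h
      rw [hre] at this
      simp at this
      linarith
    have a1 : w ≠ 0 := hw0 w hre.ge
    have a2 : w + 1 ≠ 0 := hw1 w hre.ge
    have a3 : (lam : ℂ) - w ≠ 0 := sub_ne_zero.mpr (Ne.symm hne)
    rw [hgne w hne]
    simp only [hN]
    field_simp
    ring
  simp_rw [hpt]
  rw [integral_add hgi (h2i.const_mul c), hg0, integral_const_mul, h2, zero_add]
  have hpi : (Real.pi : ℂ) ≠ 0 := by exact_mod_cast Real.pi_ne_zero
  field_simp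

end Pool.Agent.Helper66.RF
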