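import Pool.Agent.Helper66.RF.Defs

set_option autoImplicit false

/-!
Sectors and half planes.
-/

namespace Pool.Agent.Helper66.RF

open Complex MeasureTheory Set Filter Topology

/-- PIECE RF-Za1.  The sector in terms of `w`, `s = 1 + w^a`.
Proof: for `Re w > 0`: `w^a ≠ 0` and `|arg (w^a)| = a |arg w| < pi a / 2` (`pw_eq`,
`Complex.arg_mul_cos_add_sin_mul_I`-type lemma; `|arg w| < pi/2`).  Conversely for `z = s - 1 ≠ 0` with
`|arg z| < pi a / 2` take `w = z^(1/a)`: `arg w = arg z / a`, so `Re w > 0`, and `w^a = z`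
(`Complex.cpow_mul`/`log` computation: `log w = log z / a`). -/
theorem sector_iff {F : ℂ → ℂ} {a : ℝ} (h0 : 0 < a) (h1 : a < 1) :
    (∀ s : ℂ, s ≠ 1 → |arg (s - 1)| < Real.pi * a / 2 → F s ≠ 0) ↔
      ∀ w : ℂ, 0 < w.re → F (1 + w ^ (a : ℂ)) ≠ 0 := by
  have hpi := Real.pi_pos
  constructor
  · intro h w hw
    have hw0 := ne_zero_of_re hw
    have harg : |arg w| < Real.pi / 2 := Complex.abs_arg_lt_pi_div_two_iff.mpr (Or.inl hw)
    have hlt := abs_lt.mp harg
    have hpow : arg (w ^ (a : ℂ)) = a * arg w := by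
      have hr : 0 < ‖w‖ ^ a := Real.rpow_pos_of_pos (norm_pos_iff.mpr hw0) a
      rw [pw_eq hw0, Complex.exp_mul_I]
      refine Complex.arg_mul_cos_add_sin_mul_I hr ⟨?_, ?_⟩ <;> nlinarith
    refine h _ ?_ ?_
    · intro h1
      exact pw_ne_zero (a := a) hw0 (by linear_combination h1)
    · rw [add_sub_cancel_left, hpow, abs_mul, abs_of_pos h0]
      nlinarith
  · intro h s hs harg
    have hz : s - 1 ≠ 0 := sub_ne_zero.mpr hs
    have hlt := abs_lt.mp harg
    have him : (log (s - 1) * ((a⁻¹ : ℝ) : ℂ)).im = arg (s - 1) / a := by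
      rw [Complex.im_mul_ofReal, Complex.log_im, div_eq_mul_inv]
    have hb : |arg (s - 1) / a| < Real.pi / 2 := by
      rw [abs_div, abs_of_pos h0, div_lt_iff₀ h0]
      linarith
    have hb' := abs_lt.mp hb
    have hone : ((a⁻¹ : ℝ) : ℂ) * (a : ℂ) = 1 := by
      rw [← Complex.ofReal_mul, inv_mul_cancel₀ h0.ne', Complex.ofReal_one]
    have hww : ((s - 1) ^ ((a⁻¹ : ℝ) : ℂ)) ^ (a : ℂ) = s - 1 := by
      rw [← Complex.cpow_mul _ (by rw [him]; linarith) (by rw [him]; linarith), hone,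
        Complex.cpow_one]
    have hre : 0 < ((s - 1) ^ ((a⁻¹ : ℝ) : ℂ)).re := by
      rw [Complex.cpow_def_of_ne_zero hz, Complex.exp_re, him]
      exact mul_pos (Real.exp_pos _) (Real.cos_pos_of_mem_Ioo ⟨hb'.1, hb'.2⟩)
    have := h _ hre
    rw [hww] at this
    rwa [add_sub_cancel] at this

/-- PIECE RF-Za1, second statement: the half plane is the union of the sectors. -/
theorem half_iff {F : ℂ → ℂ} :
    (∀ s : ℂ, 1 < s.re → F s ≠ 0) ↔
      ∀ a : ℝ, 0 < a → a < 1 → ∀ s : ℂ, s ≠ 1 → |arg (s - 1)| < Real.pi * a / 2 → F s ≠ 0 := by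
  have hpi := Real.pi_pos
  constructor
  · intro h a h0 h1 s hs harg
    have h2 : |arg (s - 1)| < Real.pi / 2 := by nlinarith
    rcases Complex.abs_arg_lt_pi_div_two_iff.mp h2 with h3 | h3
    · refine h s ?_
      rw [Complex.sub_re, Complex.one_re] at h3
      linarith
    · exact absurd (sub_eq_zero.mp h3) hs
  · intro h s hs
    have hre : 0 < (s - 1).re := by
      rw [Complex.sub_re, Complex.one_re]
      linarith
    have harg : |arg (s - 1)| < Real.pi / 2 := Complex.abs_arg_lt_pi_div_two_iff.mpr (Or.inl hre)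
    have hx : 2 * |arg (s - 1)| / Real.pi < 1 := by
      rw [div_lt_one hpi]
      linarith
    have hx0 : 0 ≤ 2 * |arg (s - 1)| / Real.pi := by positivity
    refine h ((2 * |arg (s - 1)| / Real.pi + 1) / 2) (by linarith) (by linarith) s ?_ ?_
    · rintro rfl
      simp at hre
    · have h4 : Real.pi * (2 * |arg (s - 1)| / Real.pi) = 2 * |arg (s - 1)| := by
        field_simp
      have h5 : Real.pi * ((2 * |arg (s - 1)| / Real.pi + 1) / 2) / 2
          = (Real.pi * (2 * |arg (s - 1)| / Real.pi) + Real.pi) / 4 := by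
        ring
      rw [h5, h4]
      linarith

/-- A zero in a thin sector lies in the unit disc around `1`, to the right of `1`, near the axis. -/
lemma sector_bounds {z : ℂ} {t : ℝ} (ht : t ≤ Real.pi / 4) (hz : |arg z| < t) (hre : z.re ≤ 1 / 2) :
    ‖z‖ ≤ 1 ∧ 0 ≤ z.re ∧ |z.im| ≤ t := by
  have hpi := Real.pi_pos
  have ht0 : 0 < t := lt_of_le_of_lt (abs_nonneg _) hz
  have hcos : 1 / 2 ≤ Real.cos (arg z) := by
    rw [← Real.cos_abs, ← Real.cos_pi_div_three]
    apply Real.cos_le_cos_of_nonneg_of_le_pi (abs_nonneg _)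
    · linarith
    · linarith
  have h1 : ‖z‖ * Real.cos (arg z) = z.re := Complex.norm_mul_cos_arg z
  have h2 : ‖z‖ * Real.sin (arg z) = z.im := Complex.norm_mul_sin_arg z
  have h0 : 0 ≤ ‖z‖ := norm_nonneg z
  have hn : ‖z‖ ≤ 1 := by nlinarith
  refine ⟨hn, ?_, ?_⟩
  · rw [← h1]; positivity
  · rw [← h2, abs_mul, abs_of_nonneg h0]
    have h3 : |Real.sin (arg z)| ≤ |arg z| := Real.abs_sin_le_abs
    have h4 : 0 ≤ |Real.sin (arg z)| := abs_nonneg _
    nlinarith

/-- PIECE RF-Za2.  Without real zeros `> 1` some sector is zero-free.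
Proof: by contradiction: for every `n` there is a zero `s_n ≠ 1` with `|arg (s_n - 1)| < pi / (2 (n + 2))`;
`Re s_n > 1` and `Re s_n ≤ 3/2`, so `|Im s_n|` is bounded (`≤ (Re s_n - 1) tan`): the `s_n` lie in a
compact set and a subsequence converges to some `s`; `Im s = 0`, `1 ≤ Re s ≤ 3/2`, `F s = 0` by
continuity.  If `s ≠ 1` this contradicts `hreal`; if `s = 1` the zeros `s_n ≠ 1` accumulate at `1`,
so `F` vanishes identically near `1` (`AnalyticAt.frequently_zero_iff_eventually_zero`), against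
`hm`.  (One can also use the isolated zeros near `1` and compactness of
`{1 + r ≤ Re s ≤ 3/2, |Im s| ≤ 1/2}`.) -/
theorem exists_sector {F : ℂ → ℂ} (hF : Differentiable ℂ F) (hm : analyticOrderAt F 1 ≠ ⊤)
    (hfar : ∀ s : ℂ, 3 / 2 < s.re → F s ≠ 0)
    (hreal : ∀ x : ℝ, 1 < x → x ≤ 3 / 2 → F x ≠ 0) :
    ∃ a : ℝ, 0 < a ∧ a < 1 ∧ ∀ s : ℂ, s ≠ 1 → |arg (s - 1)| < Real.pi * a / 2 → F s ≠ 0 := by
  by_contra hcon
  push Not at hcon
  have hpi := Real.pi_pos
  have hex : ∀ n : ℕ, ∃ s : ℂ, s ≠ 1 ∧ |arg (s - 1)| < Real.pi * (1 / ((n : ℝ) + 2)) / 2 ∧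
      F s = 0 := by
    intro n
    have hn : (0 : ℝ) ≤ n := Nat.cast_nonneg n
    apply hcon
    · positivity
    · rw [div_lt_one (by positivity)]; linarith
  choose s hs1 hs2 hs3 using hex
  have hre : ∀ n, (s n).re ≤ 3 / 2 := by
    intro n
    by_contra h
    exact hfar (s n) (not_le.mp h) (hs3 n)
  have hb : ∀ n : ℕ, ‖s n - 1‖ ≤ 1 ∧ 0 ≤ (s n - 1).re ∧
      |(s n - 1).im| ≤ Real.pi * (1 / ((n : ℝ) + 2)) / 2 := by
    intro n
    have hn : (0 : ℝ) ≤ n := Nat.cast_nonneg n
    refine sector_bounds ?_ (hs2 n) ?_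
    · have h5 : 1 / ((n : ℝ) + 2) ≤ 1 / 2 := by
        apply one_div_le_one_div_of_le <;> linarith
      nlinarith
    · have := hre n
      rw [Complex.sub_re, Complex.one_re]
      linarith
  have hcomp : IsCompact (Metric.closedBall (1 : ℂ) 1) := isCompact_closedBall _ _
  obtain ⟨c, -, φ, hφ, hlim⟩ := hcomp.tendsto_subseq (x := s) (fun n => by
    rw [Metric.mem_closedBall, dist_eq_norm]
    exact (hb n).1)
  have hF0 : F c = 0 := by
    have h6 : Tendsto (fun n => F ((s ∘ φ) n)) atTop (𝓝 (F c)) :=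
      (hF.continuous.tendsto c).comp hlim
    have h7 : (fun n => F ((s ∘ φ) n)) = fun _ => (0 : ℂ) := by
      funext n
      exact hs3 (φ n)
    rw [h7] at h6
    exact (tendsto_nhds_unique h6 tendsto_const_nhds)
  have hlre : Tendsto (fun n => (s (φ n)).re) atTop (𝓝 c.re) :=
    (Complex.continuous_re.tendsto c).comp hlim
  have hlim2 : Tendsto (fun n => (s (φ n)).im) atTop (𝓝 c.im) :=
    (Complex.continuous_im.tendsto c).comp hlim
  have hc1 : 1 ≤ c.re := by
    refine ge_of_tendsto' hlre fun n => ?_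
    have := (hb (φ n)).2.1
    rw [Complex.sub_re, Complex.one_re] at this
    linarith
  have hc2 : c.re ≤ 3 / 2 := le_of_tendsto' hlre fun n => hre _
  have hc3 : c.im = 0 := by
    have h8 : Tendsto (fun n : ℕ => Real.pi * (1 / (((φ n : ℕ) : ℝ) + 2)) / 2) atTop (𝓝 0) := by
      have h9 : Tendsto (fun n : ℕ => Real.pi * (1 / ((n : ℝ) + 2)) / 2) atTop (𝓝 0) := by
        have h10 : Tendsto (fun n : ℕ => 1 / ((n : ℝ) + 2)) atTop (𝓝 0) := by
          have h11 : Tendsto (fun n : ℕ => (n : ℝ) + 2) atTop atTop :=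
            tendsto_atTop_add_const_right _ _ tendsto_natCast_atTop_atTop
          refine h11.inv_tendsto_atTop.congr fun n => ?_
          simp
        have h12 := (h10.const_mul Real.pi).div_const 2
        simpa using h12
      exact h9.comp hφ.tendsto_atTop
    have h13 : Tendsto (fun n => (s (φ n)).im) atTop (𝓝 0) := by
      refine squeeze_zero_norm (fun n => ?_) h8
      have := (hb (φ n)).2.2
      rw [Complex.sub_im, Complex.one_im, sub_zero] at this
      exact this
    exact tendsto_nhds_unique hlim2 h13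
  have hcx : c = ((c.re : ℝ) : ℂ) := Complex.ext (by simp) (by simp [hc3])
  rcases lt_or_eq_of_le hc1 with h | h
  · refine hreal c.re h hc2 ?_
    rw [← hcx]
    exact hF0
  · have hc : c = 1 := by rw [hcx, ← h]; simp
    rw [hc] at hlim
    have hfr : ∃ᶠ z in 𝓝[≠] (1 : ℂ), F z = 0 := by
      have h14 : Tendsto (s ∘ φ) atTop (𝓝[≠] (1 : ℂ)) := by
        refine tendsto_nhdsWithin_iff.mpr ⟨hlim, Eventually.of_forall fun n => ?_⟩
        exact hs1 (φ n)
      exact h14.frequently (Frequently.of_forall fun n => hs3 (φ n))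
    have han : AnalyticAt ℂ F 1 := hF.analyticAt 1
    exact hm (analyticOrderAt_eq_top.mpr (han.frequently_zero_iff_eventually_zero.mp hfr))

end Pool.Agent.Helper66.RF
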