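import Pool.Agent.Helper66.RF.Bb
import Pool.Agent.Helper66.RF.Bc
import Pool.Agent.Helper66.RF.Bd
import Pool.Agent.Helper66.RF.Ed
import Pool.Agent.Helper66.RF.Fa
import Pool.Agent.Helper66.RF.Da
import Pool.Agent.Helper66.RF.Cb
import Pool.Agent.Helper66.RF.Za
import Pool.Agent.Helper99.CM.TpSharp

set_option autoImplicit false

/-!
The product form with sub-logarithmic smoothing is equivalent to a sector free of zeros.
-/

namespace Pool.Agent.Helper66.RF

open Complex MeasureTheory Set Filter Topology Pool.Agent.Helper9.BSD Pool.Agent.Helper99.CM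

/-- The smoothed sum over `n ≤ x`. -/
noncomputable def finSum (b : ℕ → ℝ) (a c x : ℝ) : ℝ :=
  ∑ n ∈ Finset.Icc 1 ⌊x⌋₊, b n * wt a (Real.log n / (c * Real.log x) ^ a)

lemma exists_line {a : ℝ} (h0 : 0 < a) (h1 : a < 1) : ∃ A : ℝ, 0 < A ∧ ca a * A ^ a = 4 ∧
    A * (ca a / 4) ^ (1 / a) = 1 := by
  have hca := ca_pos h0 h1
  refine ⟨(4 / ca a) ^ (1 / a), by positivity, ?_, ?_⟩
  · rw [← Real.rpow_mul (by positivity), one_div_mul_cancel h0.ne', Real.rpow_one]
    field_simp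
  · rw [← Real.mul_rpow (by positivity) (by positivity)]
    have : 4 / ca a * (ca a / 4) = 1 := by field_simp
    rw [this, Real.one_rpow]

lemma exists_line' {a c : ℝ} (h0 : 0 < a) (h1 : a < 1) (hc : c < (ca a / 4) ^ (1 / a)) :
    ∃ A : ℝ, 0 < A ∧ 4 ≤ ca a * A ^ a ∧ c * A < 1 := by
  obtain ⟨A, hA, hA2, hA3⟩ := exists_line h0 h1
  refine ⟨A, hA, hA2.ge, ?_⟩
  rw [← hA3, mul_comm]
  exact mul_lt_mul_of_pos_left hc hA

/-- The limit of the smoothed sums when the sector is free of zeros. -/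
theorem star_limit (W : WeierstrassCurve ℤ) {F : ℂ → ℂ} {m : ℕ} (hF : IsCont W F m) {a : ℝ}
    (h0 : 0 < a) (h1 : a < 1) (hz : ∀ w : ℂ, 0 < w.re → F (1 + w ^ (a : ℂ)) ≠ 0) :
    Tendsto (fun T : ℝ => Ser (lam W) a T + a * m * Real.log T) atTop
      (𝓝 (Real.log ‖iteratedDeriv m F 1 / (m.factorial : ℂ)‖
        - Real.eulerMascheroniConstant * (a * m))) := by
  obtain ⟨hFd, hFL, hm⟩ := hF
  have hf : ∀ w : ℂ, 0 < w.re → DifferentiableAt ℂ (fun w : ℂ => F (1 + w ^ (a : ℂ))) w := by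
    intro w hw
    exact (hFd _).comp w ((hasDerivAt_pw (mem_slit hw)).differentiableAt.const_add 1)
  obtain ⟨g, hg, hexp, hgP⟩ := exists_Phi h0 h1 (bd_lam W) hf hz
    (fun w _ hw2 => exp_Phi_lam W hFL hw2)
  obtain ⟨ℓ, hℓ, hn, hn'⟩ := near h0 h1 hFd hm hg hexp
  have hG : Good g (a * m) ℓ := ⟨hg, hn, hn', far h0 h1 (bd_lam W) hgP,
    fun δ R hδ => middle h0 h1 hFd hg hexp hδ⟩
  have hlim := limit hG
  obtain ⟨A, hA0, hA2, -⟩ := exists_line h0 h1
  have hca := ca_pos h0 h1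
  have key : ∀ T : ℝ, 0 < T → ((Ser (lam W) a T : ℝ) : ℂ) = (1 / (2 * (Real.pi : ℂ))) * ∫ y : ℝ,
      cexp ((T : ℂ) * (1 + (y : ℂ) * I)) * (g (1 + (y : ℂ) * I) / (1 + (y : ℂ) * I)) := by
    intro T hT
    rw [(series_line h0 h1 (bd_lam W) hA0 hA2.ge hT).2]
    have hmv := move hG hA0 one_pos hT.le
    simp only [Complex.ofReal_one] at hmv
    rw [← hmv]
    congr 1
    refine integral_congr_ae (Eventually.of_forall fun y => ?_)
    have hre : ((A : ℂ) + y * I).re = A := by simp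
    have hw0 : 0 < ((A : ℂ) + y * I).re := by rw [hre]; exact hA0
    have h2 : 2 < (((A : ℂ) + y * I) ^ (a : ℂ)).re := by
      have h3 := re_pw_ge h0 h1 hw0.le (ne_zero_of_re hw0)
      have h4 : A ≤ ‖(A : ℂ) + y * I‖ := by
        have := Complex.abs_re_le_norm ((A : ℂ) + y * I)
        rwa [hre, abs_of_pos hA0] at this
      have h5 : A ^ a ≤ ‖(A : ℂ) + y * I‖ ^ a := Real.rpow_le_rpow hA0.le h4 h0.le
      have h6 := mul_le_mul_of_nonneg_left h5 hca.le
      linarith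
    simp only
    rw [hgP _ hw0 h2]
  have hlim2 : Tendsto (fun T : ℝ => ((Ser (lam W) a T + a * m * Real.log T : ℝ) : ℂ)) atTop
      (𝓝 (ℓ - (Real.eulerMascheroniConstant : ℂ) * ((a * m : ℝ) : ℂ))) := by
    refine hlim.congr' ?_
    filter_upwards [eventually_gt_atTop 0] with T hT
    rw [← key T hT]
    push_cast
    ring
  have hre := (Complex.continuous_re.tendsto _).comp hlim2
  have e1 : (ℓ - (Real.eulerMascheroniConstant : ℂ) * ((a * m : ℝ) : ℂ)).re
      = Real.log ‖iteratedDeriv m F 1 / (m.factorial : ℂ)‖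
        - Real.eulerMascheroniConstant * (a * m) := by
    rw [← hℓ, Complex.norm_exp, Real.log_exp, Complex.sub_re, ← Complex.ofReal_mul,
      Complex.ofReal_re]
  rw [e1] at hre
  exact hre.congr fun T => Complex.ofReal_re _

/-- The same for the sums over `n ≤ x` at `T = c log x`. -/
theorem fin_limit (W : WeierstrassCurve ℤ) {F : ℂ → ℂ} {m : ℕ} (hF : IsCont W F m) {a c : ℝ}
    (h0 : 0 < a) (h1 : a < 1) (hz : ∀ w : ℂ, 0 < w.re → F (1 + w ^ (a : ℂ)) ≠ 0) (hc : 0 < c)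
    (hc2 : c < (ca a / 4) ^ (1 / a)) :
    Tendsto (fun x : ℝ => finSum (lam W) a c x + a * m * Real.log (Real.log x)) atTop
      (𝓝 (Real.log ‖iteratedDeriv m F 1 / (m.factorial : ℂ)‖
        - Real.eulerMascheroniConstant * (a * m) - a * m * Real.log c)) := by
  obtain ⟨A, hA, hA2, hcA⟩ := exists_line' h0 h1 hc2
  have ht := fin_tail h0 h1 (bd_lam W) hA hA2 hc hcA
  have hT : Tendsto (fun x : ℝ => c * Real.log x) atTop atTop :=
    Real.tendsto_log_atTop.const_mul_atTop hc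
  have h2 := (star_limit W hF h0 h1 hz).comp hT
  have h3 := (h2.sub ht).sub_const (a * m * Real.log c)
  rw [sub_zero] at h3
  refine h3.congr' ?_
  filter_upwards [eventually_gt_atTop 1] with x hx
  have hlx := Real.log_pos hx
  simp only [Function.comp, finSum, Ser]
  rw [Real.log_mul hc.ne' hlx.ne']
  ring

/-- From the sums over `n ≤ x` to the full sums. -/
lemma fin_transfer {b : ℕ → ℝ} (hb : Bd b) {a c : ℝ} (h0 : 0 < a) (h1 : a < 1) (hc : 0 < c)
    (hc2 : c < (ca a / 4) ^ (1 / a)) (σ : ℝ)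
    (h : ∀ ε : ℝ, 0 < ε → ∀ᶠ x : ℝ in atTop, σ * finSum b a c x ≤ x ^ ε) :
    ∀ ε : ℝ, 0 < ε → ∀ᶠ T : ℝ in atTop, σ * Ser b a T ≤ Real.exp (ε * T) := by
  intro ε hε
  obtain ⟨A, hA, hA2, hcA⟩ := exists_line' h0 h1 hc2
  have ht := (fin_tail h0 h1 hb hA hA2 hc hcA).const_mul σ
  rw [mul_zero] at ht
  have h2 : ∀ᶠ x : ℝ in atTop, σ * Ser b a (c * Real.log x) ≤ x ^ (ε * c / 2) + 1 := by
    have h3 := (tendsto_order.mp ht).2 1 (by norm_num)
    filter_upwards [h (ε * c / 2) (by positivity), h3] with x hx1 hx2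
    simp only [finSum] at hx1
    simp only [Ser]
    rw [mul_sub] at hx2
    linarith
  have hT : Tendsto (fun T : ℝ => Real.exp (T / c)) atTop atTop :=
    Real.tendsto_exp_atTop.comp (tendsto_id.atTop_div_const hc)
  have h6 : ∀ᶠ T : ℝ in atTop, 2 ≤ Real.exp (ε * T / 2) := by
    have h7 : Tendsto (fun T : ℝ => Real.exp (ε * T / 2)) atTop atTop :=
      Real.tendsto_exp_atTop.comp ((tendsto_id.const_mul_atTop hε).atTop_div_const two_pos)
    exact h7.eventually_ge_atTop 2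
  filter_upwards [hT.eventually h2, h6] with T hT1 hT2
  rw [Real.log_exp, mul_div_cancel₀ _ hc.ne', ← Real.exp_mul] at hT1
  have e1 : T / c * (ε * c / 2) = ε * T / 2 := by field_simp
  have e2 : Real.exp (ε * T) = Real.exp (ε * T / 2) * Real.exp (ε * T / 2) := by
    rw [← Real.exp_add]
    congr 1
    ring
  rw [e1] at hT1
  rw [e2]
  nlinarith

/-- The converse for the sums over `n ≤ x`. -/
theorem fin_converse (W : WeierstrassCurve ℤ) {F : ℂ → ℂ} {m : ℕ} (hF : IsCont W F m) {a c : ℝ}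
    (h0 : 0 < a) (h1 : a < 1) (hc : 0 < c) (hc2 : c < (ca a / 4) ^ (1 / a))
    (hb : ∀ ε : ℝ, 0 < ε → ∀ᶠ x : ℝ in atTop, -finSum (lam W) a c x ≤ x ^ ε) :
    ∀ w : ℂ, 0 < w.re → F (1 + w ^ (a : ℂ)) ≠ 0 := by
  have h := fin_transfer (bd_lam W) h0 h1 hc hc2 (-1) (fun ε hε => by
    simpa only [neg_one_mul] using hb ε hε)
  exact converse_exp W hF.1 hF.2.1 h0 h1 (fun ε hε => by
    simpa only [neg_one_mul] using h ε hε)

/-- The same for lower bounds. -/
theorem fin_converse_low (W : WeierstrassCurve ℤ) {F : ℂ → ℂ} {m : ℕ} (hF : IsCont W F m)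
    {a c : ℝ} (h0 : 0 < a) (h1 : a < 1) (hc : 0 < c) (hc2 : c < (ca a / 4) ^ (1 / a))
    (hreal : ∀ x : ℝ, 1 < x → F x ≠ 0)
    (hb : ∀ ε : ℝ, 0 < ε → ∀ᶠ x : ℝ in atTop, finSum (lam W) a c x ≤ x ^ ε) :
    ∀ w : ℂ, 0 < w.re → F (1 + w ^ (a : ℂ)) ≠ 0 := by
  have h := fin_transfer (bd_lam W) h0 h1 hc hc2 1 (fun ε hε => by
    simpa only [one_mul] using hb ε hε)
  exact converse_low W hF.1 hF.2.1 h0 h1 hreal (fun ε hε => by
    simpa only [one_mul] using h ε hε)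

/-- The comparison for the sums over `n ≤ x`. -/
theorem fin_compare (W : WeierstrassCurve ℤ) (hΔ : W.Δ ≠ 0) (hS : SqWin W) {a c : ℝ}
    (h0 : 0 < a) (h1 : a < 1) (hc : 0 < c) (hc2 : c < (ca a / 4) ^ (1 / a)) :
    Tendsto (fun x : ℝ => finSum (cc W) a c x + finSum (lam W) a c x) atTop (𝓝 (dd W)) := by
  obtain ⟨A, hA, hA2, hcA⟩ := exists_line' h0 h1 hc2
  have hb : Bd (fun n => cc W n + lam W n) := by
    refine ⟨fun n => ?_, ?_, ?_⟩
    · have h3 := cc_bound W n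
      have h4 := abs_lam_le W n
      exact (abs_add_le _ _).trans (by linarith)
    · show cc W 0 + lam W 0 = 0
      rw [(bd_cc W).2.1, (bd_lam W).2.1, add_zero]
    · show cc W 1 + lam W 1 = 0
      rw [(bd_cc W).2.2, (bd_lam W).2.2, add_zero]
  have ht := fin_tail h0 h1 hb hA hA2 hc hcA
  have hT : Tendsto (fun x : ℝ => (c * Real.log x) ^ a) atTop atTop :=
    (tendsto_rpow_atTop h0).comp (Real.tendsto_log_atTop.const_mul_atTop hc)
  have h2 := (compare_wt W hΔ hS h0 h1).comp hT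
  have h3 := h2.sub ht
  rw [sub_zero] at h3
  refine h3.congr fun x => ?_
  simp only [Function.comp, finSum]
  rw [sub_sub_cancel, ← Finset.sum_add_distrib]
  exact Finset.sum_congr rfl fun n _ => by ring

/-- The weighted product over the good primes `p ≤ x`. -/
lemma exp_cc (W : WeierstrassCurve ℤ) (a c x : ℝ) :
    ∏ p ∈ (Finset.Icc 1 ⌊x⌋₊).filter (fun p : ℕ => p.Prime ∧ ¬ (p : ℤ) ∣ W.Δ),
      ((numPts W p : ℝ) / p) ^ wt a (Real.log p / (c * Real.log x) ^ a)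
      = Real.exp (finSum (cc W) a c x) := by
  unfold finSum
  rw [Real.exp_sum, Finset.prod_filter]
  refine Finset.prod_congr rfl fun p _ => ?_
  unfold cc
  split_ifs with h
  · have h1 : 0 < numPts W p := numPts_pos W p
    have h2 : 0 < p := h.1.pos
    rw [Real.rpow_def_of_pos (by positivity)]
  · rw [zero_mul, Real.exp_zero]

/-- The exponent and the constant are determined. -/
lemma unique_aux {P : ℝ → ℝ} {κ κ₀ C K : ℝ} (hC : 0 < C) (hK : 0 < K)
    (h1 : Tendsto (fun x => P x / (Real.log x) ^ κ) atTop (𝓝 C))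
    (h2 : Tendsto (fun x => P x / (Real.log x) ^ κ₀) atTop (𝓝 K)) : κ = κ₀ ∧ C = K := by
  have hq : Tendsto (fun x : ℝ => (Real.log x) ^ (κ - κ₀)) atTop (𝓝 (K / C)) := by
    refine (h2.div h1 hC.ne').congr' ?_
    have h3 := (tendsto_order.mp h1).1 0 hC
    filter_upwards [h3, eventually_gt_atTop 1] with x hx1 hx2
    have hlx := Real.log_pos hx2
    have hp : P x ≠ 0 := by
      rintro h
      rw [h, zero_div] at hx1
      exact lt_irrefl _ hx1
    simp only [Pi.div_apply]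
    rw [Real.rpow_sub hlx]
    have := (Real.rpow_pos_of_pos hlx κ).ne'
    have := (Real.rpow_pos_of_pos hlx κ₀).ne'
    field_simp
  have hκ : κ = κ₀ := by
    rcases lt_trichotomy κ κ₀ with h | h | h
    · exfalso
      have h4 : Tendsto (fun x : ℝ => (Real.log x) ^ (κ - κ₀)) atTop (𝓝 0) := by
        have h5 := (tendsto_rpow_neg_atTop (y := κ₀ - κ) (by linarith)).comp
          Real.tendsto_log_atTop
        rw [neg_sub] at h5
        exact h5
      have h6 := tendsto_nhds_unique hq h4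
      have : 0 < K / C := by positivity
      linarith
    · exact h
    · exfalso
      have h4 : Tendsto (fun x : ℝ => (Real.log x) ^ (κ - κ₀)) atTop atTop :=
        (tendsto_rpow_atTop (by linarith)).comp Real.tendsto_log_atTop
      exact not_tendsto_nhds_of_tendsto_atTop h4 _ hq
  refine ⟨hκ, ?_⟩
  subst hκ
  exact tendsto_nhds_unique h1 h2

/-- Constants and powers of `log x` are negligible against powers of `x`. -/
lemma rpow_room (κ D : ℝ) {ε : ℝ} (hε : 0 < ε) :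
    ∀ᶠ x : ℝ in atTop, |κ| * |Real.log (Real.log x)| + D ≤ x ^ ε := by
  have h1 : ∀ᶠ x : ℝ in atTop, |Real.log x| ≤ 1 / (2 * (|κ| + 1)) * |x ^ ε| := by
    have h2 := (isLittleO_log_rpow_atTop hε).def (c := 1 / (2 * (|κ| + 1))) (by positivity)
    simpa only [Real.norm_eq_abs] using h2
  have h3 := (tendsto_rpow_atTop hε).eventually_ge_atTop (2 * D)
  have h4 := Real.tendsto_log_atTop.eventually_ge_atTop 1
  filter_upwards [h1, h3, h4, eventually_gt_atTop 1] with x hx1 hx2 hx3 hx4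
  have hx0 : 0 < x := by linarith
  have h5 : 0 ≤ x ^ ε := by positivity
  rw [abs_of_nonneg h5, abs_of_nonneg (by linarith)] at hx1
  have h6 : |Real.log (Real.log x)| ≤ Real.log x := by
    rw [abs_of_nonneg (Real.log_nonneg hx3)]
    exact (Real.log_le_sub_one_of_pos (by linarith)).trans (by linarith)
  have h7 : |κ| * |Real.log (Real.log x)| ≤ |κ| * (1 / (2 * (|κ| + 1)) * x ^ ε) :=
    mul_le_mul_of_nonneg_left (h6.trans hx1) (abs_nonneg _)
  have h8 : |κ| * (1 / (2 * (|κ| + 1)) * x ^ ε) ≤ 1 / 2 * x ^ ε := by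
    have h9 : |κ| * (1 / (2 * (|κ| + 1))) ≤ 1 / 2 := by
      rw [mul_one_div, div_le_div_iff₀ (by positivity) (by norm_num)]
      linarith [abs_nonneg κ]
    calc |κ| * (1 / (2 * (|κ| + 1)) * x ^ ε) = |κ| * (1 / (2 * (|κ| + 1))) * x ^ ε := by ring
      _ ≤ 1 / 2 * x ^ ε := mul_le_mul_of_nonneg_right h9 h5
  linarith

/-- Consequences of an asymptotic formula. -/
lemma growth_aux {P : ℝ → ℝ} {κ C : ℝ} (hC : 0 < C)
    (h : Tendsto (fun x => P x / (Real.log x) ^ κ) atTop (𝓝 C)) {ε : ℝ} (hε : 0 < ε) :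
    ∀ᶠ x : ℝ in atTop, P x ≤ Real.exp (x ^ ε) ∧ Real.exp (-x ^ ε) ≤ P x := by
  have h1 := (tendsto_order.mp h).2 (C + 1) (by linarith)
  have h2 := (tendsto_order.mp h).1 (C / 2) (by linarith)
  have h3 := rpow_room κ (|Real.log (C + 1)| + |Real.log (C / 2)|) hε
  filter_upwards [h1, h2, h3, eventually_gt_atTop 1] with x hx1 hx2 hx3 hx4
  have hlx := Real.log_pos hx4
  have hp := Real.rpow_pos_of_pos hlx κ
  rw [div_lt_iff₀ hp] at hx1
  rw [lt_div_iff₀ hp] at hx2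
  have h4 : |κ * Real.log (Real.log x)| = |κ| * |Real.log (Real.log x)| := abs_mul _ _
  have h5 := neg_abs_le (κ * Real.log (Real.log x))
  have h6 := le_abs_self (κ * Real.log (Real.log x))
  have h7 := le_abs_self (Real.log (C + 1))
  have h8 := neg_abs_le (Real.log (C / 2))
  have h9 := abs_nonneg (Real.log (C + 1))
  have h10 := abs_nonneg (Real.log (C / 2))
  constructor
  · refine hx1.le.trans ?_
    rw [Real.rpow_def_of_pos hlx]
    nth_rewrite 1 [← Real.exp_log (show 0 < C + 1 by linarith)]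
    rw [← Real.exp_add, Real.exp_le_exp]
    linarith
  · refine le_trans ?_ hx2.le
    rw [Real.rpow_def_of_pos hlx]
    nth_rewrite 1 [← Real.exp_log (show 0 < C / 2 by linarith)]
    rw [← Real.exp_add, Real.exp_le_exp]
    linarith

/-- From the implications to the equivalences. -/
theorem law_aux {P : ℝ → ℝ} {S R : Prop} {κ₀ K : ℝ} (hK : 0 < K)
    (h1 : S → Tendsto (fun x => P x / (Real.log x) ^ κ₀) atTop (𝓝 K))
    (h2 : (∀ ε : ℝ, 0 < ε → ∀ᶠ x : ℝ in atTop, P x ≤ Real.exp (x ^ ε)) → S)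
    (h3 : R → (∀ ε : ℝ, 0 < ε → ∀ᶠ x : ℝ in atTop, Real.exp (-x ^ ε) ≤ P x) → S) :
    (∀ κ C : ℝ, 0 < C → (Tendsto (fun x => P x / (Real.log x) ^ κ) atTop (𝓝 C) ↔
      S ∧ κ = κ₀ ∧ C = K)) ∧
    ((∀ ε : ℝ, 0 < ε → ∀ᶠ x : ℝ in atTop, P x ≤ Real.exp (x ^ ε)) ↔ S) ∧
    (R → ((∀ ε : ℝ, 0 < ε → ∀ᶠ x : ℝ in atTop, Real.exp (-x ^ ε) ≤ P x) ↔ S)) := by
  refine ⟨fun κ C hC => ⟨fun h => ?_, ?_⟩,
    ⟨h2, fun hS ε hε => (growth_aux hK (h1 hS) hε).mono fun x hx => hx.1⟩,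
    fun hR => ⟨h3 hR, fun hS ε hε => (growth_aux hK (h1 hS) hε).mono fun x hx => hx.2⟩⟩
  · have hS := h2 fun ε hε => (growth_aux hC h hε).mono fun x hx => hx.1
    obtain ⟨e1, e2⟩ := unique_aux hC hK h (h1 hS)
    exact ⟨hS, e1, e2⟩
  · rintro ⟨hS, rfl, rfl⟩
    exact h1 hS

/-- From a limit of `G + κ log log x` to the asymptotics of `exp (- G)`. -/
lemma exp_lim {G : ℝ → ℝ} {κ L : ℝ}
    (h : Tendsto (fun x : ℝ => G x + κ * Real.log (Real.log x)) atTop (𝓝 L)) :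
    Tendsto (fun x : ℝ => Real.exp (-G x) / (Real.log x) ^ κ) atTop (𝓝 (Real.exp (-L))) := by
  have h2 := (Real.continuous_exp.tendsto _).comp h.neg
  refine h2.congr' ?_
  filter_upwards [eventually_gt_atTop 1] with x hx
  have hlx := Real.log_pos hx
  simp only [Function.comp]
  rw [Real.rpow_def_of_pos hlx, ← Real.exp_sub]
  congr 1
  ring

/-- The value of the constant. -/
lemma const_eq {a c : ℝ} {m : ℕ} {q : ℝ} (hq : 0 < q) (hc : 0 < c) :
    Real.exp (-(Real.log q - Real.eulerMascheroniConstant * (a * m) - a * m * Real.log c))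
      = (c * Real.exp Real.eulerMascheroniConstant) ^ (a * m) / q := by
  rw [Real.rpow_def_of_pos (by positivity), Real.log_mul hc.ne' (Real.exp_ne_zero _),
    Real.log_exp]
  have h2 : -(Real.log q - Real.eulerMascheroniConstant * (a * m) - a * m * Real.log c)
      = (Real.log c + Real.eulerMascheroniConstant) * (a * m) - Real.log q := by ring
  rw [h2, Real.exp_sub, Real.exp_log hq]

lemma lead_pos {F : ℂ → ℂ} {m : ℕ} (hF : Differentiable ℂ F) (hm : analyticOrderAt F 1 = m) :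
    0 < ‖iteratedDeriv m F 1 / (m.factorial : ℂ)‖ :=
  norm_pos_iff.mpr (leading_coeff F hF m hm).1

/-- The law for the truncated Euler product. -/
theorem law_star (W : WeierstrassCurve ℤ) {F : ℂ → ℂ} {m : ℕ} (hF : IsCont W F m) {a c : ℝ}
    (h0 : 0 < a) (h1 : a < 1) (hc : 0 < c) (hc2 : c < (ca a / 4) ^ (1 / a)) :
    (∀ κ C : ℝ, 0 < C → (Tendsto (fun x => Real.exp (-finSum (lam W) a c x) / (Real.log x) ^ κ)
        atTop (𝓝 C) ↔
      (∀ s : ℂ, s ≠ 1 → |arg (s - 1)| < Real.pi * a / 2 → F s ≠ 0) ∧ κ = a * m ∧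
        C = (c * Real.exp Real.eulerMascheroniConstant) ^ (a * m)
          / ‖iteratedDeriv m F 1 / (m.factorial : ℂ)‖)) ∧
    ((∀ ε : ℝ, 0 < ε → ∀ᶠ x : ℝ in atTop,
        Real.exp (-finSum (lam W) a c x) ≤ Real.exp (x ^ ε)) ↔
      (∀ s : ℂ, s ≠ 1 → |arg (s - 1)| < Real.pi * a / 2 → F s ≠ 0)) ∧
    ((∀ x : ℝ, 1 < x → F x ≠ 0) → ((∀ ε : ℝ, 0 < ε → ∀ᶠ x : ℝ in atTop,
        Real.exp (-x ^ ε) ≤ Real.exp (-finSum (lam W) a c x)) ↔
      (∀ s : ℂ, s ≠ 1 → |arg (s - 1)| < Real.pi * a / 2 → F s ≠ 0))) := by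
  have hq := lead_pos hF.1 hF.2.2
  refine law_aux (by positivity) ?_ ?_ ?_
  · intro hS
    rw [sector_iff h0 h1] at hS
    have h2 := exp_lim (fin_limit W hF h0 h1 hS hc hc2)
    rwa [const_eq hq hc] at h2
  · intro hB
    rw [sector_iff h0 h1]
    refine fin_converse W hF h0 h1 hc hc2 fun ε hε => ?_
    filter_upwards [hB ε hε] with x hx
    exact Real.exp_le_exp.mp hx
  · intro hR hB
    rw [sector_iff h0 h1]
    refine fin_converse_low W hF h0 h1 hc hc2 hR fun ε hε => ?_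
    filter_upwards [hB ε hε] with x hx
    have h2 := Real.exp_le_exp.mp hx
    linarith

/-- The law for the product of the `N_p / p`. -/
theorem law_bsd (W : WeierstrassCurve ℤ) (hΔ : W.Δ ≠ 0) (hSq : SqWin W) {F : ℂ → ℂ} {m : ℕ}
    (hF : IsCont W F m) {a c : ℝ}
    (h0 : 0 < a) (h1 : a < 1) (hc : 0 < c) (hc2 : c < (ca a / 4) ^ (1 / a)) :
    (∀ κ C : ℝ, 0 < C → (Tendsto (fun x : ℝ =>
        (∏ p ∈ (Finset.Icc 1 ⌊x⌋₊).filter (fun p : ℕ => p.Prime ∧ ¬ (p : ℤ) ∣ W.Δ),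
          ((numPts W p : ℝ) / p) ^ wt a (Real.log p / (c * Real.log x) ^ a)) / (Real.log x) ^ κ)
        atTop (𝓝 C) ↔
      (∀ s : ℂ, s ≠ 1 → |arg (s - 1)| < Real.pi * a / 2 → F s ≠ 0) ∧ κ = a * m ∧
        C = √2 * (c * Real.exp Real.eulerMascheroniConstant) ^ (a * m)
          / (‖iteratedDeriv m F 1 / (m.factorial : ℂ)‖ * badProd W))) ∧
    ((∀ ε : ℝ, 0 < ε → ∀ᶠ x : ℝ in atTop,
        ∏ p ∈ (Finset.Icc 1 ⌊x⌋₊).filter (fun p : ℕ => p.Prime ∧ ¬ (p : ℤ) ∣ W.Δ),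
          ((numPts W p : ℝ) / p) ^ wt a (Real.log p / (c * Real.log x) ^ a)
        ≤ Real.exp (x ^ ε)) ↔
      (∀ s : ℂ, s ≠ 1 → |arg (s - 1)| < Real.pi * a / 2 → F s ≠ 0)) ∧
    ((∀ x : ℝ, 1 < x → F x ≠ 0) → ((∀ ε : ℝ, 0 < ε → ∀ᶠ x : ℝ in atTop,
        Real.exp (-x ^ ε) ≤
        ∏ p ∈ (Finset.Icc 1 ⌊x⌋₊).filter (fun p : ℕ => p.Prime ∧ ¬ (p : ℤ) ∣ W.Δ),
          ((numPts W p : ℝ) / p) ^ wt a (Real.log p / (c * Real.log x) ^ a)) ↔
      (∀ s : ℂ, s ≠ 1 → |arg (s - 1)| < Real.pi * a / 2 → F s ≠ 0))) := by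
  have hq := lead_pos hF.1 hF.2.2
  have hb := badProd_pos W hΔ
  have hcmp := fin_compare W hΔ hSq h0 h1 hc hc2
  have hroom : ∀ (D ε : ℝ), 0 < ε → ∀ᶠ x : ℝ in atTop, x ^ (ε / 2) + D ≤ x ^ ε := by
    intro D ε hε
    have h3 := (tendsto_rpow_atTop (show 0 < ε / 2 by linarith)).eventually_ge_atTop (1 + |D|)
    filter_upwards [h3, eventually_gt_atTop 0] with x hx1 hx2
    have e : x ^ ε = x ^ (ε / 2) * x ^ (ε / 2) := by
      rw [← Real.rpow_add hx2, add_halves]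
    rw [e]
    nlinarith [le_abs_self D, abs_nonneg D]
  refine law_aux (by positivity) ?_ ?_ ?_
  · intro hS
    have h2 := ((law_star W hF h0 h1 hc hc2).1 (a * m) _ (by positivity)).mpr ⟨hS, rfl, rfl⟩
    have h3 := (Real.continuous_exp.tendsto _).comp hcmp
    have h4 := h3.mul h2
    rw [exp_dd W hΔ] at h4
    have e : √2 * (c * Real.exp Real.eulerMascheroniConstant) ^ (a * m)
          / (‖iteratedDeriv m F 1 / (m.factorial : ℂ)‖ * badProd W)
        = √2 / badProd W * ((c * Real.exp Real.eulerMascheroniConstant) ^ (a * m)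
          / ‖iteratedDeriv m F 1 / (m.factorial : ℂ)‖) := by
      field_simp
    rw [e]
    refine h4.congr fun x => ?_
    simp only [Function.comp]
    rw [exp_cc, ← mul_div_assoc, ← Real.exp_add]
    congr 2
    ring
  · intro hB
    refine (law_star W hF h0 h1 hc hc2).2.1.mp fun ε hε => ?_
    have h3 := (tendsto_order.mp hcmp).1 (dd W - 1) (by linarith)
    filter_upwards [hB (ε / 2) (by linarith), h3, hroom (1 - dd W) ε hε] with x hx1 hx2 hx3
    rw [exp_cc, Real.exp_le_exp] at hx1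
    rw [Real.exp_le_exp]
    linarith
  · intro hR hB
    refine ((law_star W hF h0 h1 hc hc2).2.2 hR).mp fun ε hε => ?_
    have h3 := (tendsto_order.mp hcmp).2 (dd W + 1) (by linarith)
    filter_upwards [hB (ε / 2) (by linarith), h3, hroom (1 + dd W) ε hε] with x hx1 hx2 hx3
    rw [exp_cc, Real.exp_le_exp] at hx1
    rw [Real.exp_le_exp]
    linarith

/-- No real zeros beyond `1` means a small sector free of zeros. -/
theorem real_iff (W : WeierstrassCurve ℤ) (hΔ : W.Δ ≠ 0) {F : ℂ → ℂ} {m : ℕ} (hF : IsCont W F m) :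
    (∀ x : ℝ, 1 < x → F x ≠ 0) ↔ ∃ a : ℝ, 0 < a ∧ a < 1 ∧
      ∀ s : ℂ, s ≠ 1 → |arg (s - 1)| < Real.pi * a / 2 → F s ≠ 0 := by
  have hpi := Real.pi_pos
  constructor
  · intro h
    refine exists_sector hF.1 ?_ ?_ (fun x hx _ => h x hx)
    · rw [hF.2.2]
      exact ENat.natCast_ne_top m
    · intro s hs
      have h2 := LE_eq' W hΔ (s - 1) (by simp only [Complex.sub_re, Complex.one_re]; linarith)
      rw [add_sub_cancel] at h2
      rw [hF.2.1 s hs, h2]
      exact Complex.exp_ne_zero _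
  · rintro ⟨a, h0, h1, h⟩ x hx
    refine h x ?_ ?_
    · intro h2
      have h3 : x = 1 := by exact_mod_cast h2
      linarith
    · have h2 : ((x : ℂ) - 1) = ((x - 1 : ℝ) : ℂ) := by push_cast; ring
      rw [h2, Complex.arg_ofReal_of_nonneg (by linarith), abs_zero]
      positivity

end Pool.Agent.Helper66.RF
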