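import Pool.Agent.Helper66.RF.Wa
import Pool.Agent.Helper66.RF.Sa

set_option autoImplicit false

/-!
The smoothed sum as a line integral.
-/

namespace Pool.Agent.Helper66.RF

open Complex MeasureTheory Set Filter Topology

/-- The bound for the terms of the smoothed sum on the line. -/
lemma series_term_bound {a A T : ℝ} (h0 : 0 < a) (h1 : a < 1) {b : ℕ → ℝ} (hb : Bd b) (hA : 0 < A)
    (hA2 : 4 ≤ ca a * A ^ a) :
    ∃ D : ℝ, 0 ≤ D ∧ ∀ (n : ℕ) (y : ℝ),
      ‖(b n : ℂ) * (cexp ((T : ℂ) * ((A : ℂ) + y * I)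
        - ((Real.log n : ℝ) : ℂ) * ((A : ℂ) + y * I) ^ (a : ℂ)) / ((A : ℂ) + y * I))‖
        ≤ D * (1 / (n : ℝ) ^ 2) * (1 + y ^ 2)⁻¹ := by
  have hca : 0 < ca a := ca_pos h0 h1
  obtain ⟨K, hK0, hK⟩ := aux_exp_bound (a := a) (k := ca a / 4) h0 (by positivity)
  refine ⟨6 * (Real.exp (T * A) / A) * K, by positivity, fun n y => ?_⟩
  rcases Nat.lt_or_ge n 2 with hn | hn
  · have hbn : b n = 0 := by
      interval_cases n
      · exact hb.2.1
      · exact hb.2.2
    rw [hbn]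
    simp only [Complex.ofReal_zero, zero_mul, norm_zero]
    positivity
  set w : ℂ := (A : ℂ) + y * I with hw
  have hre : w.re = A := by simp [hw]
  have him : w.im = y := by simp [hw]
  have hpos : 0 < w.re := by rw [hre]; exact hA
  have hw0 : w ≠ 0 := ne_zero_of_re hpos
  have hAw : A ≤ ‖w‖ := by
    have h := le_trans (le_abs_self _) (Complex.abs_re_le_norm w)
    rwa [hre] at h
  have hyw : |y| ≤ ‖w‖ := by
    have h := Complex.abs_im_le_norm w
    rwa [him] at h
  have hX := re_pw_ge h0 h1 hpos.le hw0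
  have hX1 : ca a * A ^ a ≤ ca a * ‖w‖ ^ a :=
    mul_le_mul_of_nonneg_left (Real.rpow_le_rpow hA.le hAw h0.le) hca.le
  have hX2 : ca a * |y| ^ a ≤ ca a * ‖w‖ ^ a :=
    mul_le_mul_of_nonneg_left (Real.rpow_le_rpow (abs_nonneg _) hyw h0.le) hca.le
  set X : ℝ := (w ^ (a : ℂ)).re with hXdef
  have hn2 : (2 : ℝ) ≤ n := by exact_mod_cast hn
  have hn0 : (0 : ℝ) < n := by linarith
  have hlog : (1 : ℝ) / 2 ≤ Real.log n := by
    have h2 : Real.log 2 ≤ Real.log n := Real.log_le_log (by norm_num) hn2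
    have := Real.log_two_gt_d9
    linarith
  have hX4 : 4 ≤ X := by linarith
  have hXy : ca a * |y| ^ a ≤ X := by linarith
  have hexp : T * w.re - Real.log n * X ≤ T * A + (-(2 * Real.log n)) + (-(ca a / 4 * |y| ^ a)) := by
    rw [hre]
    nlinarith
  rw [norm_mul, norm_div, Complex.norm_exp, Complex.norm_real, Real.norm_eq_abs]
  have e1 : ((T : ℂ) * w - ((Real.log n : ℝ) : ℂ) * w ^ (a : ℂ)).re = T * w.re - Real.log n * X := by
    rw [Complex.sub_re, Complex.re_ofReal_mul, Complex.re_ofReal_mul]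
  rw [e1]
  have e2 : Real.exp (T * w.re - Real.log n * X)
      ≤ Real.exp (T * A) * (1 / (n : ℝ) ^ 2) * (K / (1 + y ^ 2)) := by
    calc Real.exp (T * w.re - Real.log n * X)
        ≤ Real.exp (T * A + (-(2 * Real.log n)) + (-(ca a / 4 * |y| ^ a))) :=
          Real.exp_le_exp.mpr hexp
      _ = Real.exp (T * A) * Real.exp (-(2 * Real.log n)) * Real.exp (-(ca a / 4 * |y| ^ a)) := by
          rw [Real.exp_add, Real.exp_add]
      _ = Real.exp (T * A) * (1 / (n : ℝ) ^ 2) * Real.exp (-(ca a / 4 * |y| ^ a)) := by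
          congr 2
          rw [Real.exp_neg, one_div]
          congr 1
          rw [show 2 * Real.log (n : ℝ) = Real.log n + Real.log n by ring, Real.exp_add,
            Real.exp_log hn0]
          ring
      _ ≤ Real.exp (T * A) * (1 / (n : ℝ) ^ 2) * (K / (1 + y ^ 2)) :=
          mul_le_mul_of_nonneg_left (hK y) (by positivity)
  have e3 : Real.exp (T * w.re - Real.log n * X) / ‖w‖
      ≤ Real.exp (T * A) * (1 / (n : ℝ) ^ 2) * (K / (1 + y ^ 2)) / A := by
    exact div_le_div₀ (by positivity) e2 hA hAw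
  calc |b n| * (Real.exp (T * w.re - Real.log n * X) / ‖w‖)
      ≤ 6 * (Real.exp (T * A) * (1 / (n : ℝ) ^ 2) * (K / (1 + y ^ 2)) / A) :=
        mul_le_mul (hb.1 n) e3 (by positivity) (by norm_num)
    _ = 6 * (Real.exp (T * A) / A) * K * (1 / (n : ℝ) ^ 2) * (1 + y ^ 2)⁻¹ := by
        ring

/-- PIECE RF-Sb1.  For `A > 0` with `4 ≤ ca a * A^a` and every `T > 0` the smoothed sum converges
absolutely and equals `(1 / 2 pi) * integral of exp (T w) Phi(w) / w` over the line `w = A + i y`.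
Proof: `wt_scale` with `u = log n`, `n ≥ 2` (terms `n = 0, 1` vanish, also in `Phi`), sum over `n`
and exchange (`hasSum_integral_of_summable_integral_norm`): the `n`-th integrand is at most
`6 exp (T A) / |w| * exp (- log n * ca |w|^a)` and, as in `wt_bound`,
`exp (- log n ca |w|^a) ≤ exp (- log n * ca A^a / 2) exp (- (1/4) ca |w|^a) ≤ n^(-2) exp (- (1/4) ca |w|^a)`
(`log n ≥ 1/2`).  Pointwise `sum b n exp (T w - log n w^a) / w = exp (T w) (Phi w / w)`. -/
theorem series_line {a A T : ℝ} (h0 : 0 < a) (h1 : a < 1) {b : ℕ → ℝ} (hb : Bd b) (hA : 0 < A)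
    (hA2 : 4 ≤ ca a * A ^ a) (hT : 0 < T) :
    Summable (fun n : ℕ => b n * wt a (Real.log n / T ^ a)) ∧
    ((Ser b a T : ℝ) : ℂ) = (1 / (2 * (Real.pi : ℂ))) * ∫ y : ℝ,
      cexp ((T : ℂ) * ((A : ℂ) + y * I)) * (Phi b a ((A : ℂ) + y * I) / ((A : ℂ) + y * I)) := by
  obtain ⟨D, hD0, hD⟩ := series_term_bound (T := T) h0 h1 hb hA hA2
  set F : ℕ → ℝ → ℂ := fun n y => (b n : ℂ) * (cexp ((T : ℂ) * ((A : ℂ) + y * I)
        - ((Real.log n : ℝ) : ℂ) * ((A : ℂ) + y * I) ^ (a : ℂ)) / ((A : ℂ) + y * I)) with hF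
  have hint : ∀ n, Integrable (F n) := by
    intro n
    rcases Nat.lt_or_ge n 2 with hn | hn
    · have hbn : b n = 0 := by
        interval_cases n
        · exact hb.2.1
        · exact hb.2.2
      have : F n = fun _ => 0 := by
        funext y
        simp [hF, hbn]
      rw [this]
      exact integrable_zero _ _ _
    · have hn2 : (1 : ℝ) < n := by exact_mod_cast (by omega : 1 < n)
      exact (wt_int (a := a) (A := A) (u := Real.log n) (T := T) h0 h1 hA (Real.log_pos hn2)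
        hT.le).const_mul _
  have hsum : Summable fun n => ∫ y, ‖F n y‖ := by
    have hs : Summable fun n : ℕ => D * Real.pi * (1 / (n : ℝ) ^ 2) :=
      (Real.summable_one_div_nat_pow.mpr (by norm_num)).mul_left _
    refine Summable.of_nonneg_of_le (fun n => integral_nonneg fun y => norm_nonneg _) (fun n => ?_) hs
    calc ∫ y, ‖F n y‖ ≤ ∫ y : ℝ, D * (1 / (n : ℝ) ^ 2) * (1 + y ^ 2)⁻¹ := by
          apply integral_mono (hint n).norm (integrable_inv_one_add_sq.const_mul _)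
          intro y
          exact hD n y
      _ = D * Real.pi * (1 / (n : ℝ) ^ 2) := by
          rw [integral_const_mul, integral_univ_inv_one_add_sq]
          ring
  have hhas := hasSum_integral_of_summable_integral_norm hint hsum
  have hterm : ∀ n, ∫ y, F n y = (2 * (Real.pi : ℂ)) * ((b n * wt a (Real.log n / T ^ a) : ℝ) : ℂ) := by
    intro n
    rcases Nat.lt_or_ge n 2 with hn | hn
    · have hbn : b n = 0 := by
        interval_cases n
        · exact hb.2.1
        · exact hb.2.2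
      simp [hF, hbn]
    · have hn2 : (1 : ℝ) < n := by exact_mod_cast (by omega : 1 < n)
      have h := wt_scale (a := a) (u := Real.log n) (T := T) (A := A) h0 h1 (Real.log_pos hn2) hT hA
      simp only [hF]
      rw [integral_const_mul, Complex.ofReal_mul, h]
      have hpi : (2 * (Real.pi : ℂ)) ≠ 0 := by
        have hpi : (Real.pi : ℂ) ≠ 0 := by exact_mod_cast Real.pi_ne_zero
        exact mul_ne_zero two_ne_zero hpi
      generalize (∫ y : ℝ, cexp ((T : ℂ) * ((A : ℂ) + y * I)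
        - ((Real.log n : ℝ) : ℂ) * ((A : ℂ) + y * I) ^ (a : ℂ)) / ((A : ℂ) + y * I)) = J
      rw [mul_left_comm, one_div, ← mul_assoc (2 * (Real.pi : ℂ)), mul_inv_cancel₀ hpi, one_mul]
  have hpt : ∀ y : ℝ, ∑' n, F n y =
      cexp ((T : ℂ) * ((A : ℂ) + y * I)) * (Phi b a ((A : ℂ) + y * I) / ((A : ℂ) + y * I)) := by
    intro y
    unfold Phi
    rw [mul_div_assoc', mul_div_right_comm, ← tsum_mul_left]
    refine tsum_congr fun n => ?_
    simp only [hF]
    rw [sub_eq_add_neg, Complex.exp_add, neg_mul]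
    ring
  have hpi2 : (2 * (Real.pi : ℂ)) ≠ 0 := by
    have hpi : (Real.pi : ℂ) ≠ 0 := by exact_mod_cast Real.pi_ne_zero
    exact mul_ne_zero two_ne_zero hpi
  simp only [hterm, hpt] at hhas
  have hhas2 : HasSum (fun n : ℕ => ((b n * wt a (Real.log n / T ^ a) : ℝ) : ℂ))
      ((1 / (2 * (Real.pi : ℂ))) * ∫ y : ℝ,
      cexp ((T : ℂ) * ((A : ℂ) + y * I)) * (Phi b a ((A : ℂ) + y * I) / ((A : ℂ) + y * I))) := by
    have h := hhas.mul_left (1 / (2 * (Real.pi : ℂ)))
    have he : (fun n : ℕ => ((b n * wt a (Real.log n / T ^ a) : ℝ) : ℂ)) = fun n : ℕ =>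
        1 / (2 * (Real.pi : ℂ)) * (2 * (Real.pi : ℂ)
          * ((b n * wt a (Real.log n / T ^ a) : ℝ) : ℂ)) := by
      funext n
      rw [← mul_assoc, one_div, inv_mul_cancel₀ hpi2, one_mul]
    rw [he]
    exact h
  have hsm : Summable (fun n : ℕ => b n * wt a (Real.log n / T ^ a)) := by
    have h := hhas2.summable
    exact_mod_cast h
  refine ⟨hsm, ?_⟩
  unfold Ser
  rw [Complex.ofReal_tsum]
  exact hhas2.tsum_eq

/-- The terms of the smoothed sum. -/
private lemma sb2_term {a A C : ℝ} {b : ℕ → ℝ} (hb : Bd b) (hC0 : 0 ≤ C)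
    (hA2 : 4 ≤ ca a * A ^ a)
    (hC : ∀ u T : ℝ, 1 / 2 ≤ u → 0 < T →
      |wt a (u / T ^ a)| ≤ C * Real.exp (A * T) * Real.exp (-(ca a * A ^ a / 2) * u))
    {T : ℝ} (hT : 0 < T) (n : ℕ) :
    |b n * wt a (Real.log n / T ^ a)| ≤ 6 * (C * Real.exp (A * T)) * (1 / (n : ℝ) ^ 2) := by
  obtain ⟨hb1, hb2, hb3⟩ := hb
  match n with
  | 0 => simp [hb2]
  | 1 => rw [hb3]; simp; positivity
  | (k + 2) =>
    set m : ℕ := k + 2 with hm
    have hm2 : (2 : ℝ) ≤ (m : ℝ) := by
      rw [hm]; push_cast; linarith [(Nat.cast_nonneg k : (0 : ℝ) ≤ (k : ℝ))]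
    have hm0 : (0 : ℝ) < (m : ℝ) := by linarith
    have hlog : 1 / 2 ≤ Real.log (m : ℝ) := by
      have h2 : Real.log 2 ≤ Real.log (m : ℝ) := Real.log_le_log (by norm_num) hm2
      have h3 := Real.log_two_gt_d9
      linarith
    have h4 := hC _ T hlog hT
    have h5 : Real.exp (-(ca a * A ^ a / 2) * Real.log (m : ℝ)) ≤ 1 / (m : ℝ) ^ 2 := by
      have h6 : (1 : ℝ) / (m : ℝ) ^ 2 = Real.exp (-2 * Real.log (m : ℝ)) := by
        rw [neg_mul, Real.exp_neg, one_div]
        congr 1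
        rw [mul_comm, Real.exp_mul, Real.exp_log hm0]
        norm_cast
      rw [h6]
      refine Real.exp_le_exp.2 ?_
      nlinarith
    rw [abs_mul]
    calc |b m| * |wt a (Real.log (m : ℝ) / T ^ a)|
        ≤ 6 * (C * Real.exp (A * T) * Real.exp (-(ca a * A ^ a / 2) * Real.log (m : ℝ))) :=
          mul_le_mul (hb1 m) h4 (abs_nonneg _) (by norm_num)
      _ ≤ 6 * (C * Real.exp (A * T) * (1 / (m : ℝ) ^ 2)) := by
          refine mul_le_mul_of_nonneg_left ?_ (by norm_num)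
          exact mul_le_mul_of_nonneg_left h5 (by positivity)
      _ = 6 * (C * Real.exp (A * T)) * (1 / (m : ℝ) ^ 2) := by ring

private lemma sb2_sum : Summable fun n : ℕ => 1 / (n : ℝ) ^ 2 :=
  Real.summable_one_div_nat_pow.2 (by norm_num)

private lemma sb2_norm {A : ℝ} (hA : 0 < A) (y : ℝ) :
    (min 1 (A ^ 2)) * (1 + y ^ 2) ≤ (1 + ‖(A : ℂ) + y * I‖) * ‖(A : ℂ) + y * I‖ := by
  have h1 : ‖(A : ℂ) + y * I‖ ^ 2 = A ^ 2 + y ^ 2 := by
    rw [← Complex.normSq_eq_norm_sq, Complex.normSq_apply]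
    simp
    ring
  have h2 : (min 1 (A ^ 2)) ≤ 1 := min_le_left _ _
  have h3 : (min 1 (A ^ 2)) ≤ A ^ 2 := min_le_right _ _
  have h4 := norm_nonneg ((A : ℂ) + y * I)
  nlinarith [sq_nonneg y, mul_le_mul_of_nonneg_right h2 (sq_nonneg y)]

/-- PIECE RF-Sb2.  Bound and continuity: `|Ser b a T| ≤ C exp (A T)` for `T > 0` (from `wt_bound` and
`sum n^(-2)`), and `Ser b a` is continuous on `(0, oo)` (from `series_line`: the integrand is
continuous in `T` and dominated by `exp (A T0) * C / (1 + y^2)` for `T ≤ T0`, see `Phi_half`). -/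
theorem Ser_bound {a A : ℝ} (h0 : 0 < a) (h1 : a < 1) {b : ℕ → ℝ} (hb : Bd b) (hA : 0 < A)
    (hA2 : 4 ≤ ca a * A ^ a) :
    (∃ C : ℝ, 0 ≤ C ∧ ∀ T : ℝ, 0 < T → |Ser b a T| ≤ C * Real.exp (A * T)) ∧
      ContinuousOn (Ser b a) (Ioi 0) := by
  constructor
  · obtain ⟨C, hC0, hC⟩ := wt_bound h0 h1 hA
    have hS0 : 0 ≤ ∑' n : ℕ, 1 / (n : ℝ) ^ 2 := tsum_nonneg fun n => by positivity
    refine ⟨6 * C * ∑' n : ℕ, 1 / (n : ℝ) ^ 2, by positivity, fun T hT => ?_⟩
    have h2 : ∀ n : ℕ, ‖b n * wt a (Real.log n / T ^ a)‖ ≤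
        6 * (C * Real.exp (A * T)) * (1 / (n : ℝ) ^ 2) := fun n => by
      rw [Real.norm_eq_abs]
      exact sb2_term hb hC0 hA2 hC hT n
    have h3 := tsum_of_norm_bounded ((sb2_sum.mul_left (6 * (C * Real.exp (A * T)))).hasSum) h2
    rw [tsum_mul_left, Real.norm_eq_abs] at h3
    unfold Ser
    refine h3.trans (le_of_eq ?_)
    ring
  · obtain ⟨C, hC0, hC⟩ := Phi_half h0 h1 hb hA hA2
    set F : ℝ → ℝ → ℂ := fun T y =>
      cexp ((T : ℂ) * ((A : ℂ) + y * I)) * (Phi b a ((A : ℂ) + y * I) / ((A : ℂ) + y * I)) with hF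
    have hre : ∀ y : ℝ, ((A : ℂ) + y * I).re = A := fun y => by simp
    have hne : ∀ y : ℝ, ((A : ℂ) + y * I) ≠ 0 := fun y =>
      ne_zero_of_re (by rw [hre]; exact hA)
    have hline : Continuous fun y : ℝ => ((A : ℂ) + y * I) := by fun_prop
    have hPhi : Continuous fun y : ℝ => Phi b a ((A : ℂ) + y * I) := by
      rw [continuous_iff_continuousAt]
      intro y
      exact ContinuousAt.comp (g := Phi b a) (f := fun y : ℝ => ((A : ℂ) + y * I))
        (hC _ (hre y).ge).1.continuousAt hline.continuousAt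
    have hcont : ∀ T : ℝ, Continuous (F T) := fun T =>
      (Complex.continuous_exp.comp (continuous_const.mul hline)).mul (hPhi.div hline hne)
    have hm : 0 < min 1 (A ^ 2) := lt_min one_pos (by positivity)
    have hbd : ∀ T0 T : ℝ, T ≤ T0 → ∀ y : ℝ,
        ‖F T y‖ ≤ Real.exp (T0 * A) * C / min 1 (A ^ 2) * (1 + y ^ 2)⁻¹ := by
      intro T0 T hT y
      have h2 : ‖cexp ((T : ℂ) * ((A : ℂ) + y * I))‖ ≤ Real.exp (T0 * A) := by
        rw [Complex.norm_exp, Complex.re_ofReal_mul, hre]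
        exact Real.exp_le_exp.2 (mul_le_mul_of_nonneg_right hT hA.le)
      have hnw : 0 < ‖(A : ℂ) + y * I‖ := norm_pos_iff.2 (hne y)
      have h3 : ‖Phi b a ((A : ℂ) + y * I) / ((A : ℂ) + y * I)‖ ≤
          C / min 1 (A ^ 2) * (1 + y ^ 2)⁻¹ := by
        rw [norm_div]
        have h4 := (hC _ (hre y).ge).2
        calc ‖Phi b a ((A : ℂ) + y * I)‖ / ‖(A : ℂ) + y * I‖
            ≤ C / (1 + ‖(A : ℂ) + y * I‖) / ‖(A : ℂ) + y * I‖ := by gcongr
          _ = C / ((1 + ‖(A : ℂ) + y * I‖) * ‖(A : ℂ) + y * I‖) := by rw [div_div]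
          _ ≤ C / (min 1 (A ^ 2) * (1 + y ^ 2)) := by
              refine div_le_div_of_nonneg_left hC0 (by positivity) (sb2_norm hA y)
          _ = C / min 1 (A ^ 2) * (1 + y ^ 2)⁻¹ := by
              rw [← div_div, div_eq_mul_inv (C / min 1 (A ^ 2))]
      simp only [hF]
      rw [norm_mul]
      calc ‖cexp ((T : ℂ) * ((A : ℂ) + y * I))‖ *
            ‖Phi b a ((A : ℂ) + y * I) / ((A : ℂ) + y * I)‖
          ≤ Real.exp (T0 * A) * (C / min 1 (A ^ 2) * (1 + y ^ 2)⁻¹) :=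
            mul_le_mul h2 h3 (norm_nonneg _) (Real.exp_pos _).le
        _ = _ := by ring
    intro T0 hT0
    have hT0' : 0 < T0 := hT0
    refine ContinuousAt.continuousWithinAt ?_
    have hint : ContinuousAt (fun T : ℝ => ∫ y : ℝ, F T y) T0 := by
      refine continuousAt_of_dominated
        (bound := fun y => Real.exp ((T0 + 1) * A) * C / min 1 (A ^ 2) * (1 + y ^ 2)⁻¹) ?_ ?_ ?_ ?_
      · exact Eventually.of_forall fun T => (hcont T).aestronglyMeasurable
      · filter_upwards [Iio_mem_nhds (lt_add_one T0)] with T hT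
        exact Eventually.of_forall fun y => hbd (T0 + 1) T (le_of_lt hT) y
      · exact (integrable_inv_one_add_sq).const_mul _
      · refine Eventually.of_forall fun y => Continuous.continuousAt ?_
        simp only [hF]
        fun_prop
    have hfun : ContinuousAt (fun T : ℝ =>
        ((1 / (2 * (Real.pi : ℂ))) * ∫ y : ℝ, F T y).re) T0 :=
      Complex.continuous_re.continuousAt.comp (hint.const_mul _)
    refine hfun.congr ?_
    filter_upwards [Ioi_mem_nhds hT0'] with T hT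
    have h5 := (series_line h0 h1 hb hA hA2 (show 0 < T from hT)).2
    rw [← h5, Complex.ofReal_re]

end Pool.Agent.Helper66.RF
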