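import Pool.Agent.Helper66.RF.Sb
import Pool.Agent.Helper66.RF.Lc

set_option autoImplicit false

/-!
The Laplace transform of the smoothed sum.
-/

namespace Pool.Agent.Helper66.RF

open Complex MeasureTheory Set Filter Topology

lemma sc_normSq_line (A y : ℝ) : ‖(A : ℂ) + y * I‖ ^ 2 = A ^ 2 + y ^ 2 := by
  rw [← Complex.normSq_eq_norm_sq, Complex.normSq_add_mul_I]

lemma sc_re_line (A y : ℝ) : ((A : ℂ) + y * I).re = A := by simp

/-- The function `Phi w / w` is integrable on the line `Re w = A`. -/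
lemma sc_integrable {a A : ℝ} (h0 : 0 < a) (h1 : a < 1) {b : ℕ → ℝ} (hb : Bd b)
    (hA : 0 < A) (hA2 : 4 ≤ ca a * A ^ a) :
    Integrable fun y : ℝ => Phi b a ((A : ℂ) + y * I) / ((A : ℂ) + y * I) := by
  obtain ⟨C, hC0, hC⟩ := Phi_half h0 h1 hb hA hA2
  refine line_integrable (g := fun w => Phi b a w / w) (C := C / min 1 (A ^ 2)) ?_ ?_
  · intro y
    have hre := sc_re_line A y
    exact (hC _ (by rw [hre])).1.div differentiableAt_id
      (ne_zero_of_re (by rw [hre]; exact hA))
  · intro y
    have hre := sc_re_line A y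
    have hb1 := (hC ((A : ℂ) + y * I) (by rw [hre])).2
    have hn := sc_normSq_line A y
    have hpos : 0 < ‖(A : ℂ) + y * I‖ :=
      norm_pos_iff.mpr (ne_zero_of_re (by rw [hre]; exact hA))
    have hm : 0 < min 1 (A ^ 2) := lt_min one_pos (by positivity)
    have hm1 : min 1 (A ^ 2) ≤ 1 := min_le_left _ _
    have hm2 : min 1 (A ^ 2) ≤ A ^ 2 := min_le_right _ _
    change ‖Phi b a ((A : ℂ) + y * I) / ((A : ℂ) + y * I)‖ ≤ _
    rw [norm_div, div_le_iff₀ hpos]
    refine hb1.trans ?_
    rw [div_div, div_mul_eq_mul_div, div_le_div_iff₀ (by positivity) (by positivity)]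
    have key : min 1 (A ^ 2) * (1 + y ^ 2) ≤
        ‖(A : ℂ) + y * I‖ * (1 + ‖(A : ℂ) + y * I‖) := by
      nlinarith [sq_nonneg y]
    calc C * (min 1 (A ^ 2) * (1 + y ^ 2))
        ≤ C * (‖(A : ℂ) + y * I‖ * (1 + ‖(A : ℂ) + y * I‖)) :=
          mul_le_mul_of_nonneg_left key hC0
      _ = C * ‖(A : ℂ) + y * I‖ * (1 + ‖(A : ℂ) + y * I‖) := by ring

/-- The inner integral. -/
lemma sc_inner {A lam : ℝ} (hl : A < lam) (y : ℝ) :
    ∫ T in Ioi (0 : ℝ), cexp (((A : ℂ) + y * I - lam) * T)
      = 1 / ((lam : ℂ) - ((A : ℂ) + y * I)) := by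
  rw [integral_exp_mul_complex_Ioi (by simp; exact hl)]
  simp only [ofReal_zero, mul_zero, Complex.exp_zero]
  rw [← neg_sub (lam : ℂ) ((A : ℂ) + y * I), div_neg, neg_div, neg_neg]

/-- PIECE RF-Sc.  For `lam > A` (`A` as in `series_line`) the Laplace transform of `T ↦ Ser b a T` at
`lam` is `Phi(lam) / lam`.
Proof: integrability from `Ser_bound`.  Insert `series_line` and exchange the integrals over `T > 0`
and `y` (`integral_integral_swap`; `|exp (- lam T) exp (T w) Phi(w)/w| ≤ exp (-(lam - A) T) C / (1 + y^2)`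
by `Phi_half`), `∫ T in Ioi 0, exp (-(lam - w) T) = 1 / (lam - w)` (`integral_exp_mul_complex_Ioi` or
similar), then `residue`. -/
theorem series_laplace {a A lam : ℝ} (h0 : 0 < a) (h1 : a < 1) {b : ℕ → ℝ} (hb : Bd b)
    (hA : 0 < A) (hA2 : 4 ≤ ca a * A ^ a) (hl : A < lam) :
    IntegrableOn (fun T : ℝ => Ser b a T * Real.exp (-lam * T)) (Ioi 0) ∧
    ((∫ T in Ioi (0 : ℝ), Ser b a T * Real.exp (-lam * T) : ℝ) : ℂ)
      = Phi b a (lam : ℂ) / (lam : ℂ) := by
  constructor
  · obtain ⟨⟨C, hC0, hC⟩, hcont⟩ := Ser_bound h0 h1 hb hA hA2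
    have hint : IntegrableOn (fun T : ℝ => C * Real.exp ((A - lam) * T)) (Ioi 0) :=
      (integrableOn_exp_mul_Ioi (by linarith) 0).const_mul C
    refine Integrable.mono' hint ?_ ?_
    · exact (hcont.mul (by fun_prop)).aestronglyMeasurable measurableSet_Ioi
    · refine (ae_restrict_iff' measurableSet_Ioi).mpr (Eventually.of_forall fun T hT => ?_)
      rw [norm_mul, Real.norm_eq_abs, Real.norm_eq_abs, abs_of_pos (Real.exp_pos _)]
      calc |Ser b a T| * Real.exp (-lam * T)
          ≤ (C * Real.exp (A * T)) * Real.exp (-lam * T) :=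
            mul_le_mul_of_nonneg_right (hC T hT) (Real.exp_pos _).le
        _ = C * Real.exp ((A - lam) * T) := by
            rw [mul_assoc, ← Real.exp_add]
            congr 2
            ring
  · obtain ⟨C, hC0, hC⟩ := Phi_half h0 h1 hb hA hA2
    set g : ℝ → ℂ := fun y => Phi b a ((A : ℂ) + y * I) / ((A : ℂ) + y * I) with hg
    have hgi : Integrable g := sc_integrable h0 h1 hb hA hA2
    -- the double integrand
    have hF : Integrable (Function.uncurry fun (T y : ℝ) =>
        cexp (((A : ℂ) + y * I - lam) * T) * g y) ((volume.restrict (Ioi 0)).prod volume) := by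
      have hfi : Integrable (fun T : ℝ => cexp (((A : ℂ) - lam) * T))
          (volume.restrict (Ioi 0)) :=
        integrableOn_exp_mul_complex_Ioi (by simp; exact hl) 0
      have h3 := hfi.mul_prod hgi
      have h4 : Integrable (fun z : ℝ × ℝ => cexp (((z.2 : ℂ) * I) * z.1) *
          (cexp (((A : ℂ) - lam) * z.1) * g z.2)) ((volume.restrict (Ioi 0)).prod volume) := by
        refine h3.bdd_mul (c := 1) ?_ ?_
        · exact (by fun_prop : Continuous fun z : ℝ × ℝ =>
            cexp (((z.2 : ℂ) * I) * z.1)).aestronglyMeasurable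
        · refine Eventually.of_forall fun z => ?_
          rw [Complex.norm_exp]
          simp
      refine h4.congr (Eventually.of_forall fun z => ?_)
      simp only [Function.uncurry]
      rw [← mul_assoc, ← Complex.exp_add]
      congr 2
      ring
    have e1 : ((∫ T in Ioi (0 : ℝ), Ser b a T * Real.exp (-lam * T) : ℝ) : ℂ)
        = ∫ T in Ioi (0 : ℝ), (1 / (2 * (Real.pi : ℂ))) *
            ∫ y : ℝ, cexp (((A : ℂ) + y * I - lam) * T) * g y := by
      rw [← integral_complex_ofReal]
      refine setIntegral_congr_fun measurableSet_Ioi fun T hT => ?_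
      rw [ofReal_mul, (series_line h0 h1 hb hA hA2 hT).2, mul_assoc, ← integral_mul_const]
      congr 1
      refine integral_congr_ae (Eventually.of_forall fun y => ?_)
      simp only [hg, ofReal_exp]
      rw [mul_right_comm, ← Complex.exp_add]
      congr 2
      push_cast
      ring
    rw [e1, integral_const_mul, integral_integral_swap hF]
    rw [← residue (Φ := Phi b a) (C := C) hA hl (fun w hw => (hC w hw).1) (fun w hw => ?_)]
    · congr 1
      refine integral_congr_ae (Eventually.of_forall fun y => ?_)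
      simp only [hg]
      rw [integral_mul_const, sc_inner hl y]
      rw [div_mul_div_comm, one_mul, mul_comm ((lam : ℂ) - _)]
    · refine (hC w hw).2.trans (div_le_self hC0 ?_)
      linarith [norm_nonneg w]

end Pool.Agent.Helper66.RF
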