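import Pool.Agent.Helper66.RF.La

set_option autoImplicit false

/-!
The weight as a line integral, scaling and the exponential bound.
-/

namespace Pool.Agent.Helper66.RF

open Complex MeasureTheory Set Filter Topology

/-- An elementary bound: `(1 + y^2) exp (-k |y|^a)` is bounded. -/
lemma aux_exp_bound {a k : ℝ} (h0 : 0 < a) (hk : 0 < k) :
    ∃ K : ℝ, 0 ≤ K ∧ ∀ y : ℝ, Real.exp (-(k * |y| ^ a)) ≤ K / (1 + y ^ 2) := by
  set n : ℕ := ⌈2 / a⌉₊ with hn
  refine ⟨2 + (n.factorial : ℝ) / k ^ n, by positivity, fun y => ?_⟩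
  rw [le_div_iff₀ (by positivity)]
  have hy0 : 0 ≤ |y| := abs_nonneg y
  set t : ℝ := |y| ^ a with ht
  have ht0 : 0 ≤ t := Real.rpow_nonneg hy0 a
  have hy2 : y ^ 2 ≤ 1 + t ^ n := by
    rcases le_total |y| 1 with h | h
    · have h2 : y ^ 2 ≤ 1 := by
        rw [← sq_abs]
        exact pow_le_one₀ hy0 h
      have h3 : 0 ≤ t ^ n := pow_nonneg ht0 n
      linarith
    · have h2 : y ^ 2 ≤ t ^ n := by
        have h3 : t ^ n = |y| ^ (a * (n : ℝ)) := by
          rw [ht, ← Real.rpow_natCast, ← Real.rpow_mul hy0]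
        have h4 : (2 : ℝ) ≤ a * (n : ℝ) := by
          have h5 : 2 / a ≤ (n : ℝ) := Nat.le_ceil _
          rw [div_le_iff₀ h0] at h5
          linarith
        rw [h3, ← sq_abs]
        calc |y| ^ 2 = |y| ^ (2 : ℝ) := by
              rw [← Real.rpow_natCast]
              norm_num
          _ ≤ |y| ^ (a * (n : ℝ)) := Real.rpow_le_rpow_of_exponent_le h h4
      linarith
  have he0 : 0 < Real.exp (-(k * t)) := Real.exp_pos _
  have he1 : Real.exp (-(k * t)) ≤ 1 := by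
    rw [Real.exp_le_one_iff]
    have : 0 ≤ k * t := by positivity
    linarith
  have h6 : t ^ n * Real.exp (-(k * t)) ≤ (n.factorial : ℝ) / k ^ n := by
    have h7 : (k * t) ^ n / (n.factorial : ℝ) ≤ Real.exp (k * t) :=
      Real.pow_div_factorial_le_exp (k * t) (by positivity) n
    rw [Real.exp_neg, ← div_eq_mul_inv, div_le_div_iff₀ (Real.exp_pos _) (by positivity)]
    rw [div_le_iff₀ (by positivity), mul_pow] at h7
    linarith
  calc Real.exp (-(k * t)) * (1 + y ^ 2) ≤ Real.exp (-(k * t)) * (2 + t ^ n) := by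
        apply mul_le_mul_of_nonneg_left _ he0.le
        linarith
    _ = 2 * Real.exp (-(k * t)) + t ^ n * Real.exp (-(k * t)) := by ring
    _ ≤ 2 + (n.factorial : ℝ) / k ^ n := by linarith

/-- PIECE RF-Wa1.  A bound for the integrand: on the strip `A ≤ Re w ≤ B` (`0 < A`), for `u > 0`,
`T ≥ 0`: `|exp (T w - u w^a) / w| ≤ C / (1 + (Im w)^2)`.
Proof: `|exp (T w)| ≤ exp (T B)`, `|1 / w| ≤ 1 / A`, and `Re w^a ≥ ca a * |w|^a ≥ ca a * |Im w|^a`
(`re_pw_ge`), so it suffices that `exp (- u ca |y|^a) ≤ C' / (1 + y^2)`; use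
`Real.add_one_le_exp`-type bounds or that `v^k * exp (-v)` is bounded with `v = u ca |y|^a` and
`k ≥ 2 / a` a natural number. -/
theorem integrand_bound {a A B u T : ℝ} (h0 : 0 < a) (h1 : a < 1) (hA : 0 < A) (hu : 0 < u)
    (hT : 0 ≤ T) : ∃ C : ℝ, 0 ≤ C ∧ ∀ w : ℂ, A ≤ w.re → w.re ≤ B →
      ‖cexp ((T : ℂ) * w - (u : ℂ) * w ^ (a : ℂ)) / w‖ ≤ C / (1 + w.im ^ 2) := by
  have hca : 0 < ca a := ca_pos h0 h1
  obtain ⟨K, hK0, hK⟩ := aux_exp_bound (a := a) (k := u * ca a) h0 (mul_pos hu hca)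
  refine ⟨Real.exp (T * B) / A * K, by positivity, fun w hw1 hw2 => ?_⟩
  have hre : 0 < w.re := lt_of_lt_of_le hA hw1
  have hw0 : w ≠ 0 := ne_zero_of_re hre
  have hnw : 0 < ‖w‖ := norm_pos_iff.mpr hw0
  rw [norm_div, Complex.norm_exp, div_le_iff₀ hnw]
  have e1 : ((T : ℂ) * w - (u : ℂ) * w ^ (a : ℂ)).re = T * w.re - u * (w ^ (a : ℂ)).re := by
    rw [Complex.sub_re, Complex.re_ofReal_mul, Complex.re_ofReal_mul]
  rw [e1]
  have e2 : ca a * ‖w‖ ^ a ≤ (w ^ (a : ℂ)).re := re_pw_ge h0 h1 hre.le hw0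
  have e3 : |w.im| ^ a ≤ ‖w‖ ^ a :=
    Real.rpow_le_rpow (abs_nonneg _) (Complex.abs_im_le_norm w) h0.le
  have e4 : T * w.re - u * (w ^ (a : ℂ)).re ≤ T * B + -(u * ca a * |w.im| ^ a) := by
    have e5 : T * w.re ≤ T * B := mul_le_mul_of_nonneg_left hw2 hT
    have e6 : u * (ca a * |w.im| ^ a) ≤ u * (w ^ (a : ℂ)).re :=
      mul_le_mul_of_nonneg_left
        (le_trans (mul_le_mul_of_nonneg_left e3 hca.le) e2) hu.le
    have e7 : u * ca a * |w.im| ^ a = u * (ca a * |w.im| ^ a) := by ring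
    rw [e7]
    linarith
  have e8 : A ≤ ‖w‖ := le_trans hw1 (le_trans (le_abs_self _) (Complex.abs_re_le_norm w))
  calc Real.exp (T * w.re - u * (w ^ (a : ℂ)).re)
      ≤ Real.exp (T * B + -(u * ca a * |w.im| ^ a)) := Real.exp_le_exp.mpr e4
    _ = Real.exp (T * B) * Real.exp (-(u * ca a * |w.im| ^ a)) := Real.exp_add _ _
    _ ≤ Real.exp (T * B) * (K / (1 + w.im ^ 2)) :=
        mul_le_mul_of_nonneg_left (hK w.im) (Real.exp_pos _).le
    _ = Real.exp (T * B) / A * K / (1 + w.im ^ 2) * A := by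
        field_simp
    _ ≤ Real.exp (T * B) / A * K / (1 + w.im ^ 2) * ‖w‖ := by
        apply mul_le_mul_of_nonneg_left e8
        positivity

/-- PIECE RF-Wa1, second statement (immediate from `line_integrable` and `integrand_bound`). -/
theorem wt_int {a A u T : ℝ} (h0 : 0 < a) (h1 : a < 1) (hA : 0 < A) (hu : 0 < u) (hT : 0 ≤ T) :
    Integrable fun y : ℝ => cexp ((T : ℂ) * ((A : ℂ) + y * I)
      - (u : ℂ) * ((A : ℂ) + y * I) ^ (a : ℂ)) / ((A : ℂ) + y * I) := by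
  obtain ⟨C, _, hC⟩ := integrand_bound (a := a) (A := A) (B := A) (u := u) (T := T) h0 h1 hA hu hT
  have hre : ∀ y : ℝ, ((A : ℂ) + y * I).re = A := fun y => by simp
  have him : ∀ y : ℝ, ((A : ℂ) + y * I).im = y := fun y => by simp
  refine line_integrable (g := fun w : ℂ =>
    cexp ((T : ℂ) * w - (u : ℂ) * w ^ (a : ℂ)) / w) (A := A) (C := C) (fun y => ?_) (fun y => ?_)
  · have hpos : 0 < ((A : ℂ) + y * I).re := by rw [hre]; exact hA
    have hd : DifferentiableAt ℂ (fun w : ℂ => w ^ (a : ℂ)) ((A : ℂ) + y * I) :=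
      (hasDerivAt_pw (mem_slit hpos)).differentiableAt
    refine DifferentiableAt.div ?_ differentiableAt_id (ne_zero_of_re hpos)
    exact ((differentiableAt_id.const_mul (T : ℂ)).sub (hd.const_mul (u : ℂ))).cexp
  · have h := hC ((A : ℂ) + y * I) (hre y).ge (hre y).le
    rw [him] at h
    exact h

/-- PIECE RF-Wa2.  The weight as an integral over any line `Re w = A > 0`.
Proof: for `A = 1` the integral of the complex integrand has real part `2 pi * wt a x`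
(`integral_re`-type lemma, `x > 0`) and imaginary part `0` (the integrand at `-y` is the complex
conjugate of the one at `y` by `pw_conj`, so its imaginary part is odd: `integral_neg_eq_self` /
`integral_comp_neg`).  Then `shift` between `1` and `A` (in the right order) with
`integrand_bound` (`T = 1`). -/
theorem wt_line {a x A : ℝ} (h0 : 0 < a) (h1 : a < 1) (hx : 0 < x) (hA : 0 < A) :
    ((wt a x : ℝ) : ℂ) = (1 / (2 * (Real.pi : ℂ))) * ∫ y : ℝ,
      cexp (((A : ℂ) + y * I) - (x : ℂ) * ((A : ℂ) + y * I) ^ (a : ℂ)) / ((A : ℂ) + y * I) := by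
  set g : ℂ → ℂ := fun w => cexp (w - (x : ℂ) * w ^ (a : ℂ)) / w with hgdef
  have hg : ∀ w : ℂ, 0 < w.re → DifferentiableAt ℂ g w := by
    intro w hw
    have hd := (hasDerivAt_pw (a := a) (mem_slit hw)).differentiableAt
    refine DifferentiableAt.div ?_ differentiableAt_id (ne_zero_of_re hw)
    exact (differentiableAt_id.sub (hd.const_mul _)).cexp
  have hm : 0 < min 1 A := lt_min one_pos hA
  obtain ⟨C, hC0, hC⟩ := integrand_bound (a := a) (A := min 1 A) (B := max 1 A) (u := x) (T := 1)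
    h0 h1 hm hx zero_le_one
  have hC' : ∀ w : ℂ, min 1 A ≤ w.re → w.re ≤ max 1 A → ‖g w‖ ≤ C / (1 + w.im ^ 2) := by
    intro w hw1 hw2
    have h := hC w hw1 hw2
    rw [Complex.ofReal_one, one_mul] at h
    exact h
  have hshift : ∫ y : ℝ, g (((1 : ℝ) : ℂ) + y * I) = ∫ y : ℝ, g ((A : ℂ) + y * I) := by
    rcases le_total 1 A with h | h
    · refine shift (g := g) (A := 1) (B := A) (C := C) h ?_ ?_
      · intro w hw1 _
        exact hg w (by linarith)
      · intro w hw1 hw2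
        exact hC' w (by rwa [min_eq_left h]) (by rwa [max_eq_right h])
    · refine (shift (g := g) (A := A) (B := 1) (C := C) h ?_ ?_).symm
      · intro w hw1 _
        exact hg w (by linarith)
      · intro w hw1 hw2
        exact hC' w (by rwa [min_eq_right h]) (by rwa [max_eq_left h])
  have hint : Integrable fun y : ℝ => g (((1 : ℝ) : ℂ) + y * I) := by
    have h := wt_int (a := a) (A := 1) (u := x) (T := 1) h0 h1 one_pos hx zero_le_one
    refine h.congr (Filter.Eventually.of_forall fun y => ?_)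
    simp only [hgdef, Complex.ofReal_one, one_mul]
  have hconj : ∀ y : ℝ, g (((1 : ℝ) : ℂ) + ((-y : ℝ) : ℂ) * I)
      = (starRingEnd ℂ) (g (((1 : ℝ) : ℂ) + y * I)) := by
    intro y
    have hw : 0 < (((1 : ℝ) : ℂ) + (y : ℂ) * I).re := by simp
    have he : ((1 : ℝ) : ℂ) + ((-y : ℝ) : ℂ) * I
        = (starRingEnd ℂ) (((1 : ℝ) : ℂ) + (y : ℂ) * I) := by
      simp
    rw [he]
    simp only [hgdef]
    rw [pw_conj hw, map_div₀, ← Complex.exp_conj, map_sub, map_mul (starRingEnd ℂ) (x : ℂ),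
      Complex.conj_ofReal]
  have him : (∫ y : ℝ, g (((1 : ℝ) : ℂ) + y * I)).im = 0 := by
    have h2 : (∫ y : ℝ, g (((1 : ℝ) : ℂ) + y * I)).im
        = ∫ y : ℝ, (g (((1 : ℝ) : ℂ) + y * I)).im :=
      (Complex.imCLM.integral_comp_comm hint).symm
    have h3 : ∫ y : ℝ, (g (((1 : ℝ) : ℂ) + ((-y : ℝ) : ℂ) * I)).im
        = ∫ y : ℝ, (g (((1 : ℝ) : ℂ) + y * I)).im :=
      integral_neg_eq_self (fun y : ℝ => (g (((1 : ℝ) : ℂ) + y * I)).im) volume
    have h4 : ∫ y : ℝ, (g (((1 : ℝ) : ℂ) + ((-y : ℝ) : ℂ) * I)).im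
        = - ∫ y : ℝ, (g (((1 : ℝ) : ℂ) + y * I)).im := by
      rw [← integral_neg]
      refine integral_congr_ae (Filter.Eventually.of_forall fun y => ?_)
      show (g (((1 : ℝ) : ℂ) + ((-y : ℝ) : ℂ) * I)).im = -(g (((1 : ℝ) : ℂ) + y * I)).im
      rw [hconj y, Complex.conj_im]
    rw [h2]
    linarith
  have hre : (∫ y : ℝ, g (((1 : ℝ) : ℂ) + y * I)).re
      = ∫ y : ℝ, (g (((1 : ℝ) : ℂ) + y * I)).re :=
    (Complex.reCLM.integral_comp_comm hint).symm
  have hwt : wt a x = (1 / (2 * Real.pi)) * ∫ y : ℝ, (g (((1 : ℝ) : ℂ) + y * I)).re := by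
    unfold wt
    rw [if_neg (not_le.mpr hx)]
    simp only [hgdef, Complex.ofReal_one]
  show ((wt a x : ℝ) : ℂ) = (1 / (2 * (Real.pi : ℂ))) * ∫ y : ℝ, g ((A : ℂ) + y * I)
  rw [← hshift, hwt, ← hre]
  apply Complex.ext
  · rw [show (1 / (2 * (Real.pi : ℂ))) = ((1 / (2 * Real.pi) : ℝ) : ℂ) by push_cast; ring,
      Complex.re_ofReal_mul, Complex.ofReal_re]
  · rw [show (1 / (2 * (Real.pi : ℂ))) = ((1 / (2 * Real.pi) : ℝ) : ℂ) by push_cast; ring,
      Complex.im_ofReal_mul, Complex.ofReal_im, him, mul_zero]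

/-- PIECE RF-Wa3.  Scaling `w → T w`: `wt_line` with `x = u / T^a` and the line `A T`, then the
substitution `y = T y'` (`integral_comp_mul_left`), `(T w)^a = T^a w^a` (`pw_real_mul`). -/
theorem wt_scale {a u T A : ℝ} (h0 : 0 < a) (h1 : a < 1) (hu : 0 < u) (hT : 0 < T) (hA : 0 < A) :
    ((wt a (u / T ^ a) : ℝ) : ℂ) = (1 / (2 * (Real.pi : ℂ))) * ∫ y : ℝ,
      cexp ((T : ℂ) * ((A : ℂ) + y * I) - (u : ℂ) * ((A : ℂ) + y * I) ^ (a : ℂ))
        / ((A : ℂ) + y * I) := by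
  have hTA : 0 < A * T := mul_pos hA hT
  have hTa : (0 : ℝ) < T ^ a := Real.rpow_pos_of_pos hT a
  have hx : 0 < u / T ^ a := div_pos hu hTa
  have hTc : (T : ℂ) ≠ 0 := by exact_mod_cast hT.ne'
  have h := wt_line (a := a) (x := u / T ^ a) (A := A * T) h0 h1 hx hTA
  rw [h]
  congr 1
  set G : ℝ → ℂ := fun y => cexp ((((A * T : ℝ) : ℂ) + y * I)
    - ((u / T ^ a : ℝ) : ℂ) * (((A * T : ℝ) : ℂ) + y * I) ^ (a : ℂ))
      / (((A * T : ℝ) : ℂ) + y * I) with hG
  have hsub : ∫ y : ℝ, G (T * y) = |T⁻¹| • ∫ y : ℝ, G y :=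
    Measure.integral_comp_mul_left G T
  rw [abs_of_pos (inv_pos.mpr hT)] at hsub
  have hsub2 : ∫ y : ℝ, G y = (T : ℂ) * ∫ y : ℝ, G (T * y) := by
    rw [hsub, Complex.real_smul, ← mul_assoc, Complex.ofReal_inv, mul_inv_cancel₀ hTc, one_mul]
  rw [hsub2, ← integral_const_mul]
  refine integral_congr_ae (Filter.Eventually.of_forall fun y => ?_)
  simp only [hG]
  have hw : ((A * T : ℝ) : ℂ) + ((T * y : ℝ) : ℂ) * I = (T : ℂ) * ((A : ℂ) + y * I) := by
    push_cast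
    ring
  have hre : 0 < ((A : ℂ) + y * I).re := by simpa using hA
  have hw0 : (A : ℂ) + y * I ≠ 0 := ne_zero_of_re hre
  rw [hw, pw_real_mul hT]
  have he : ((u / T ^ a : ℝ) : ℂ) * (((T ^ a : ℝ) : ℂ) * ((A : ℂ) + y * I) ^ (a : ℂ))
      = (u : ℂ) * ((A : ℂ) + y * I) ^ (a : ℂ) := by
    rw [← mul_assoc, ← Complex.ofReal_mul, div_mul_cancel₀ _ hTa.ne']
  rw [he]
  field_simp

/-- PIECE RF-Wa3, second statement.  From `wt_scale`: the integrand is at most
`exp (A T) / |w| * exp (- u ca |w|^a)` and, as `u ≥ 1/2` and `|w| ≥ A`,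
`exp (- u ca |w|^a) ≤ exp (- (u/2) ca A^a) * exp (- (1/4) ca |w|^a)`; so
`C = (1 / 2 pi) * integral of exp (- (1/4) ca |w|^a) / |w|` works. -/
theorem wt_bound {a A : ℝ} (h0 : 0 < a) (h1 : a < 1) (hA : 0 < A) :
    ∃ C : ℝ, 0 ≤ C ∧ ∀ u T : ℝ, 1 / 2 ≤ u → 0 < T →
      |wt a (u / T ^ a)| ≤ C * Real.exp (A * T) * Real.exp (-(ca a * A ^ a / 2) * u) := by
  have hca : 0 < ca a := ca_pos h0 h1
  obtain ⟨K, hK0, hK⟩ := aux_exp_bound (a := a) (k := ca a / 4) h0 (by positivity)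
  refine ⟨K / (2 * A), by positivity, fun u T hu hT => ?_⟩
  have hu0 : 0 < u := by linarith
  have hs := wt_scale (a := a) (u := u) (T := T) (A := A) h0 h1 hu0 hT hA
  have hn : |wt a (u / T ^ a)| = ‖((wt a (u / T ^ a) : ℝ) : ℂ)‖ := by
    rw [Complex.norm_real, Real.norm_eq_abs]
  rw [hn, hs, norm_mul]
  have hpi := Real.pi_pos
  have hc : ‖(1 / (2 * (Real.pi : ℂ)))‖ = 1 / (2 * Real.pi) := by
    rw [show (1 / (2 * (Real.pi : ℂ))) = ((1 / (2 * Real.pi) : ℝ) : ℂ) by push_cast; ring,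
      Complex.norm_real, Real.norm_eq_abs, abs_of_pos (by positivity)]
  rw [hc]
  set M : ℝ := Real.exp (A * T) * Real.exp (-(ca a * A ^ a / 2) * u) * (K / A) with hM
  have hle : ‖∫ y : ℝ, cexp ((T : ℂ) * ((A : ℂ) + y * I)
      - (u : ℂ) * ((A : ℂ) + y * I) ^ (a : ℂ)) / ((A : ℂ) + y * I)‖
      ≤ ∫ y : ℝ, M * (1 + y ^ 2)⁻¹ := by
    refine norm_integral_le_of_norm_le (integrable_inv_one_add_sq.const_mul M)
      (Filter.Eventually.of_forall fun y => ?_)
    set w : ℂ := (A : ℂ) + y * I with hwdef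
    have hre : w.re = A := by simp [hwdef]
    have him : w.im = y := by simp [hwdef]
    have hrp : 0 < w.re := by rw [hre]; exact hA
    have hw0 : w ≠ 0 := ne_zero_of_re hrp
    have hnw : 0 < ‖w‖ := norm_pos_iff.mpr hw0
    have hAw : A ≤ ‖w‖ := by
      have h := Complex.abs_re_le_norm w
      rw [hre, abs_of_pos hA] at h
      exact h
    have hyw : |y| ≤ ‖w‖ := by
      have h := Complex.abs_im_le_norm w
      rwa [him] at h
    have e1 : ((T : ℂ) * w - (u : ℂ) * w ^ (a : ℂ)).re = T * A - u * (w ^ (a : ℂ)).re := by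
      rw [Complex.sub_re, Complex.re_ofReal_mul, Complex.re_ofReal_mul, hre]
    have e2 : ca a * ‖w‖ ^ a ≤ (w ^ (a : ℂ)).re := re_pw_ge h0 h1 hrp.le hw0
    have e3 : |y| ^ a ≤ ‖w‖ ^ a := Real.rpow_le_rpow (abs_nonneg _) hyw h0.le
    have e4 : A ^ a ≤ ‖w‖ ^ a := Real.rpow_le_rpow hA.le hAw h0.le
    have hn0 : 0 ≤ ‖w‖ ^ a := Real.rpow_nonneg hnw.le a
    have e5 : T * A - u * (w ^ (a : ℂ)).re
        ≤ A * T + (-(ca a * A ^ a / 2) * u) + -(ca a / 4 * |y| ^ a) := by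
      have f1 : u * (ca a * ‖w‖ ^ a) ≤ u * (w ^ (a : ℂ)).re := mul_le_mul_of_nonneg_left e2 hu0.le
      have f2 : ca a * A ^ a ≤ ca a * ‖w‖ ^ a := mul_le_mul_of_nonneg_left e4 hca.le
      have f3 : ca a * |y| ^ a ≤ ca a * ‖w‖ ^ a := mul_le_mul_of_nonneg_left e3 hca.le
      have f4 : u / 2 * (ca a * A ^ a) ≤ u / 2 * (ca a * ‖w‖ ^ a) :=
        mul_le_mul_of_nonneg_left f2 (by linarith)
      have f5 : (1 / 4 : ℝ) * (ca a * |y| ^ a) ≤ 1 / 4 * (ca a * ‖w‖ ^ a) :=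
        mul_le_mul_of_nonneg_left f3 (by norm_num)
      have f6 : (1 / 4 : ℝ) * (ca a * ‖w‖ ^ a) ≤ u / 2 * (ca a * ‖w‖ ^ a) :=
        mul_le_mul_of_nonneg_right (by linarith) (by positivity)
      nlinarith
    rw [norm_div, Complex.norm_exp, e1, div_le_iff₀ hnw]
    calc Real.exp (T * A - u * (w ^ (a : ℂ)).re)
        ≤ Real.exp (A * T + (-(ca a * A ^ a / 2) * u) + -(ca a / 4 * |y| ^ a)) :=
          Real.exp_le_exp.mpr e5
      _ = Real.exp (A * T) * Real.exp (-(ca a * A ^ a / 2) * u)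
            * Real.exp (-(ca a / 4 * |y| ^ a)) := by rw [Real.exp_add, Real.exp_add]
      _ ≤ Real.exp (A * T) * Real.exp (-(ca a * A ^ a / 2) * u) * (K / (1 + y ^ 2)) :=
          mul_le_mul_of_nonneg_left (hK y) (by positivity)
      _ = M * (1 + y ^ 2)⁻¹ * A := by
          rw [hM]
          field_simp
      _ ≤ M * (1 + y ^ 2)⁻¹ * ‖w‖ := by
          apply mul_le_mul_of_nonneg_left hAw
          positivity
  have hint : ∫ y : ℝ, M * (1 + y ^ 2)⁻¹ = M * Real.pi := by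
    rw [integral_const_mul, integral_univ_inv_one_add_sq]
  rw [hint] at hle
  calc 1 / (2 * Real.pi) * ‖∫ y : ℝ, cexp ((T : ℂ) * ((A : ℂ) + y * I)
      - (u : ℂ) * ((A : ℂ) + y * I) ^ (a : ℂ)) / ((A : ℂ) + y * I)‖
      ≤ 1 / (2 * Real.pi) * (M * Real.pi) := mul_le_mul_of_nonneg_left hle (by positivity)
    _ = K / (2 * A) * Real.exp (A * T) * Real.exp (-(ca a * A ^ a / 2) * u) := by
        rw [hM]
        field_simp

end Pool.Agent.Helper66.RF
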