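import Pool.Agent.Helper66.RF.Wa
import Pool.Agent.Helper66.RF.Lb
import Pool.Agent.Helper66.RF.Ka

set_option autoImplicit false

/-!
Derivative, decay and the value at zero of the weight.
-/

namespace Pool.Agent.Helper66.RF

open Complex MeasureTheory Set Filter Topology

private lemma wb1_re (y : ℝ) : (1 + (y : ℂ) * I).re = 1 := by simp

private lemma wb1_ne (y : ℝ) : (1 + (y : ℂ) * I) ≠ 0 :=
  ne_zero_of_re (by rw [wb1_re]; exact one_pos)

private lemma wb1_cont (z : ℂ) : Continuous fun y : ℝ => (1 + (y : ℂ) * I) ^ z := by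
  refine Continuous.cpow (by fun_prop) continuous_const fun y => ?_
  exact mem_slit (by rw [wb1_re]; exact one_pos)

private lemma wb1_contd (a x : ℝ) : Continuous fun y : ℝ =>
    (cexp ((1 + (y : ℂ) * I) - (x : ℂ) * (1 + (y : ℂ) * I) ^ (a : ℂ))
      * (1 + (y : ℂ) * I) ^ ((a : ℂ) - 1)).re := by
  have h1 := wb1_cont (a : ℂ)
  have h2 := wb1_cont ((a : ℂ) - 1)
  exact Complex.continuous_re.comp (((by fun_prop : Continuous fun y : ℝ =>
    (1 + (y : ℂ) * I) - (x : ℂ) * (1 + (y : ℂ) * I) ^ (a : ℂ)).cexp).mul h2)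

private lemma wb1_contw (a x : ℝ) : Continuous fun y : ℝ =>
    (cexp ((1 + (y : ℂ) * I) - (x : ℂ) * (1 + (y : ℂ) * I) ^ (a : ℂ)) / (1 + (y : ℂ) * I)).re := by
  have h1 := wb1_cont (a : ℂ)
  exact Complex.continuous_re.comp (((by fun_prop : Continuous fun y : ℝ =>
    (1 + (y : ℂ) * I) - (x : ℂ) * (1 + (y : ℂ) * I) ^ (a : ℂ)).cexp).div (by fun_prop) wb1_ne)

/-- The common bound for the derivative integrands. -/
private lemma wb1_bound {a s : ℝ} (h0 : 0 < a) (h1 : a < 1) (hs : 0 < s) :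
    ∃ C : ℝ, ∀ x y : ℝ, s ≤ x →
      |(cexp ((1 + (y : ℂ) * I) - (x : ℂ) * (1 + (y : ℂ) * I) ^ (a : ℂ))
        * (1 + (y : ℂ) * I) ^ ((a : ℂ) - 1)).re| ≤ C * (1 + y ^ 2)⁻¹ := by
  have hca : 0 < ca a := ca_pos h0 h1
  obtain ⟨K, hK0, hK⟩ := aux_exp_bound (a := a) (k := s * ca a) h0 (mul_pos hs hca)
  refine ⟨Real.exp 1 * K, fun x y hx => ?_⟩
  have hw := wb1_ne y
  have hre := wb1_re y
  set w : ℂ := 1 + (y : ℂ) * I with hwd
  have him : w.im = y := by simp [hwd]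
  have hn1 : 1 ≤ ‖w‖ := by
    have := Complex.abs_re_le_norm w
    rw [hre, abs_one] at this
    exact this
  refine (Complex.abs_re_le_norm _).trans ?_
  rw [norm_mul, Complex.norm_exp, Complex.sub_re, hre, Complex.re_ofReal_mul]
  have e0 : ‖w ^ ((a : ℂ) - 1)‖ ≤ 1 := by
    have : (a : ℂ) - 1 = ((a - 1 : ℝ) : ℂ) := by push_cast; ring
    rw [this, norm_pw hw]
    exact Real.rpow_le_one_of_one_le_of_nonpos hn1 (by linarith)
  have e2 : ca a * ‖w‖ ^ a ≤ (w ^ (a : ℂ)).re := re_pw_ge h0 h1 (by rw [hre]; norm_num) hw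
  have e3 : |y| ^ a ≤ ‖w‖ ^ a := by
    refine Real.rpow_le_rpow (abs_nonneg _) ?_ h0.le
    have := Complex.abs_im_le_norm w
    rwa [him] at this
  have e4 : ca a * |y| ^ a ≤ (w ^ (a : ℂ)).re :=
    (mul_le_mul_of_nonneg_left e3 hca.le).trans e2
  have e5 : 0 ≤ ca a * |y| ^ a := by positivity
  have e6 : s * (ca a * |y| ^ a) ≤ x * (w ^ (a : ℂ)).re :=
    mul_le_mul hx e4 e5 (hs.le.trans hx)
  have e7 : 1 - x * (w ^ (a : ℂ)).re ≤ 1 + -(s * ca a * |y| ^ a) := by
    have : s * ca a * |y| ^ a = s * (ca a * |y| ^ a) := by ring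
    rw [this]
    linarith
  calc Real.exp (1 - x * (w ^ (a : ℂ)).re) * ‖w ^ ((a : ℂ) - 1)‖
      ≤ Real.exp (1 + -(s * ca a * |y| ^ a)) * 1 :=
        mul_le_mul (Real.exp_le_exp.mpr e7) e0 (norm_nonneg _) (Real.exp_pos _).le
    _ = Real.exp 1 * Real.exp (-(s * ca a * |y| ^ a)) := by rw [mul_one, Real.exp_add]
    _ ≤ Real.exp 1 * (K / (1 + y ^ 2)) :=
        mul_le_mul_of_nonneg_left (hK y) (Real.exp_pos _).le
    _ = Real.exp 1 * K * (1 + y ^ 2)⁻¹ := by ring

/-- PIECE RF-Wb1.  Derivative: for `x > 0`, `d/dx wt a x = - wd a x`.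
Proof: `hasDerivAt_integral_of_dominated_loc_of_deriv_le` on the ball of radius `x / 2`: the
derivative in `x` of `Re (exp (w - x w^a) / w)` is `- Re (exp (w - x w^a) w^(a-1))` (with
`w^a / w = w^(a-1)`, `w = 1 + i y`), bounded by `e * |w|^(a-1) * exp (-(x/2) ca |w|^a) ≤ C / (1 + y^2)`
(bound as in `integrand_bound`).  Near `x > 0` the `if` in `wt` is the second branch. -/
theorem hasDerivAt_wt {a x : ℝ} (h0 : 0 < a) (h1 : a < 1) (hx : 0 < x) :
    HasDerivAt (wt a) (-(wd a x)) x := by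
  obtain ⟨C, hC⟩ := wb1_bound (a := a) (s := x / 2) h0 h1 (by linarith)
  have hint0 : Integrable fun y : ℝ =>
      (cexp ((1 + (y : ℂ) * I) - (x : ℂ) * (1 + (y : ℂ) * I) ^ (a : ℂ))
        / (1 + (y : ℂ) * I)).re := by
    have h := wt_int (A := 1) (u := x) (T := 1) h0 h1 one_pos hx zero_le_one
    have h2 : Integrable fun y : ℝ =>
      cexp ((1 + (y : ℂ) * I) - (x : ℂ) * (1 + (y : ℂ) * I) ^ (a : ℂ)) / (1 + (y : ℂ) * I) := by
      simpa using h
    exact h2.re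
  have hmain := hasDerivAt_integral_of_dominated_loc_of_deriv_le (μ := volume)
    (F := fun t y : ℝ => (cexp ((1 + (y : ℂ) * I) - (t : ℂ) * (1 + (y : ℂ) * I) ^ (a : ℂ))
      / (1 + (y : ℂ) * I)).re)
    (F' := fun t y : ℝ => -(cexp ((1 + (y : ℂ) * I) - (t : ℂ) * (1 + (y : ℂ) * I) ^ (a : ℂ))
      * (1 + (y : ℂ) * I) ^ ((a : ℂ) - 1)).re)
    (x₀ := x) (s := Ioi (x / 2)) (bound := fun y => C * (1 + y ^ 2)⁻¹)
    (Ioi_mem_nhds (by linarith))
    (Eventually.of_forall fun t => (wb1_contw a t).aestronglyMeasurable) hint0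
    (wb1_contd a x).neg.aestronglyMeasurable
    (Eventually.of_forall fun y t ht => by
      rw [norm_neg, Real.norm_eq_abs]
      exact hC t y (le_of_lt ht))
    (integrable_inv_one_add_sq.const_mul C)
    (Eventually.of_forall fun y t _ => by
      have hw := wb1_ne y
      have hd : HasDerivAt (fun z : ℂ => cexp ((1 + (y : ℂ) * I) - z * (1 + (y : ℂ) * I) ^ (a : ℂ))
          / (1 + (y : ℂ) * I))
          (-(cexp ((1 + (y : ℂ) * I) - (t : ℂ) * (1 + (y : ℂ) * I) ^ (a : ℂ))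
            * (1 + (y : ℂ) * I) ^ ((a : ℂ) - 1))) (t : ℂ) := by
        have e := (((hasDerivAt_id (t : ℂ)).mul_const ((1 + (y : ℂ) * I) ^ (a : ℂ))).const_sub
          (1 + (y : ℂ) * I)).cexp.div_const (1 + (y : ℂ) * I)
        refine e.congr_deriv ?_
        rw [Complex.cpow_sub _ _ hw, Complex.cpow_one]
        simp only [id]
        ring
      have := hd.real_of_complex
      simpa using this)
  have h3 := hmain.2.const_mul (1 / (2 * Real.pi))
  rw [integral_neg, mul_neg] at h3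
  refine h3.congr_of_eventuallyEq ?_
  filter_upwards [Ioi_mem_nhds hx] with t ht
  unfold wt
  rw [if_neg (not_le.2 ht)]

/-- PIECE RF-Wb1, second statement (dominated convergence, same bound). -/
theorem wd_continuousOn {a : ℝ} (h0 : 0 < a) (h1 : a < 1) : ContinuousOn (wd a) (Ioi 0) := by
  intro x hx
  have hx' : 0 < x := hx
  obtain ⟨C, hC⟩ := wb1_bound (a := a) (s := x / 2) h0 h1 (by linarith)
  refine ContinuousAt.continuousWithinAt ?_
  unfold wd
  refine ContinuousAt.mul continuousAt_const ?_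
  refine continuousAt_of_dominated (bound := fun y => C * (1 + y ^ 2)⁻¹) ?_ ?_
    (integrable_inv_one_add_sq.const_mul C) ?_
  · exact Eventually.of_forall fun t => (wb1_contd a t).aestronglyMeasurable
  · filter_upwards [Ioi_mem_nhds (show x / 2 < x by linarith)] with t ht
    exact Eventually.of_forall fun y => by
      rw [Real.norm_eq_abs]
      exact hC t y (le_of_lt ht)
  · refine Eventually.of_forall fun y => ?_
    have : Continuous fun t : ℝ =>
      (cexp ((1 + (y : ℂ) * I) - (t : ℂ) * (1 + (y : ℂ) * I) ^ (a : ℂ))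
        * (1 + (y : ℂ) * I) ^ ((a : ℂ) - 1)).re := by
      fun_prop
    exact this.continuousAt

/-- `exp (- s r^a)` decays faster than `r^(-2)`. -/
lemma wb2_exp {a s : ℝ} (h0 : 0 < a) (hs : 0 < s) :
    ∃ K : ℝ, 0 ≤ K ∧ ∀ r : ℝ, 1 ≤ r → Real.exp (-(s * r ^ a)) ≤ K / r ^ 2 := by
  obtain ⟨n, hn⟩ := exists_nat_ge (2 / a)
  have hn2 : 2 ≤ a * n := by
    rw [div_le_iff₀ h0] at hn
    linarith
  refine ⟨(n.factorial : ℝ) / s ^ n, by positivity, fun r hr => ?_⟩
  have hr0 : 0 < r := by linarith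
  have hv : 0 ≤ s * r ^ a := by positivity
  have h := Real.pow_div_factorial_le_exp _ hv n
  have hf : (0 : ℝ) < n.factorial := by exact_mod_cast n.factorial_pos
  have h2 : r ^ 2 ≤ (r ^ a) ^ n := by
    rw [← Real.rpow_natCast (r ^ a) n, ← Real.rpow_mul hr0.le, ← Real.rpow_natCast r 2]
    exact Real.rpow_le_rpow_of_exponent_le hr (by exact_mod_cast hn2)
  have h3 : s ^ n * r ^ 2 / n.factorial ≤ Real.exp (s * r ^ a) := by
    refine le_trans ?_ h
    rw [mul_pow]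
    gcongr
  rw [Real.exp_neg, inv_le_comm₀ (Real.exp_pos _) (by positivity)]
  refine le_trans (le_of_eq ?_) h3
  field_simp

/-- The line `Re w = 1`. -/
lemma wb2_line (y : ℝ) : ‖(1 : ℂ) + y * I‖ = (1 + y ^ 2) ^ (1 / 2 : ℝ) := by
  rw [← Real.sqrt_eq_rpow, Complex.norm_def, Complex.normSq_apply]
  congr 1
  simp
  ring

lemma wb2_one_le (y : ℝ) : 1 ≤ ‖(1 : ℂ) + y * I‖ := by
  have := Complex.abs_re_le_norm ((1 : ℂ) + y * I)
  simpa using this

lemma wb2_ne (y : ℝ) : (1 : ℂ) + y * I ≠ 0 := ne_zero_of_re (by simp)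

lemma wb2_norm_exp {a x y : ℝ} (h0 : 0 < a) (h1 : a < 1) (hx : 0 < x) :
    ‖cexp (-((x : ℂ) * ((1 : ℂ) + y * I) ^ (a : ℂ)))‖
      ≤ Real.exp (-(x * (ca a * ‖(1 : ℂ) + y * I‖ ^ a))) := by
  rw [Complex.norm_exp]
  apply Real.exp_le_exp.mpr
  simp only [Complex.neg_re, Complex.re_ofReal_mul]
  have := re_pw_ge h0 h1 (w := (1 : ℂ) + y * I) (by simp) (wb2_ne y)
  nlinarith

lemma wb2_norm_pw {a y : ℝ} (z : ℂ) (hz : z = (a : ℂ)) :
    ‖((1 : ℂ) + y * I) ^ z‖ = ‖(1 : ℂ) + y * I‖ ^ a := by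
  rw [hz, norm_pw (wb2_ne y)]

/-- The derivative of `w^(a-1) exp (- x w^a)`. -/
lemma wb2_deriv {a x : ℝ} {w : ℂ} (hw : 0 < w.re) :
    HasDerivAt (fun w : ℂ => w ^ ((a : ℂ) - 1) * cexp (-((x : ℂ) * w ^ (a : ℂ))))
      ((((a : ℂ) - 1) * w ^ ((a : ℂ) - 2) - (a : ℂ) * x * (w ^ ((a : ℂ) - 1) * w ^ ((a : ℂ) - 1)))
        * cexp (-((x : ℂ) * w ^ (a : ℂ)))) w := by
  have hs := mem_slit hw
  have e1 : HasDerivAt (fun w : ℂ => w ^ ((a : ℂ) - 1)) (((a : ℂ) - 1) * w ^ ((a : ℂ) - 2)) w := by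
    have h := (hasDerivAt_id w).cpow_const (c := (a : ℂ) - 1) hs
    have e : (a : ℂ) - 1 - 1 = (a : ℂ) - 2 := by ring
    simpa [e] using h
  have e2 := ((hasDerivAt_pw (a := a) hs).const_mul (x : ℂ)).neg.cexp
  refine (e1.mul e2).congr_deriv ?_
  simp only [Pi.neg_apply]
  ring

/-- The norm of the derivative. -/
lemma wb2_bound {a x : ℝ} (h0 : 0 < a) (h1 : a < 1) (hx : 0 < x) (y : ℝ) :
    ‖((((a : ℂ) - 1) * ((1 : ℂ) + y * I) ^ ((a : ℂ) - 2)
      - (a : ℂ) * x * (((1 : ℂ) + y * I) ^ ((a : ℂ) - 1) * ((1 : ℂ) + y * I) ^ ((a : ℂ) - 1)))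
        * cexp (-((x : ℂ) * ((1 : ℂ) + y * I) ^ (a : ℂ))))‖
      ≤ ((1 - a) + a / ca a) * (1 + y ^ 2) ^ (-(2 - a) / 2) := by
  have hca := ca_pos h0 h1
  set R := ‖(1 : ℂ) + y * I‖ with hR
  have hR1 : 1 ≤ R := wb2_one_le y
  have hR0 : 0 < R := by linarith
  have hE := wb2_norm_exp (y := y) h0 h1 hx
  rw [← hR] at hE
  have hpw : (1 + y ^ 2) ^ (-(2 - a) / 2) = R ^ (a - 2) := by
    rw [hR, wb2_line, ← Real.rpow_mul (by positivity)]
    congr 1
    ring
  rw [hpw, norm_mul]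
  have hA : ‖((a : ℂ) - 1) * ((1 : ℂ) + y * I) ^ ((a : ℂ) - 2)‖ = (1 - a) * R ^ (a - 2) := by
    rw [norm_mul, wb2_norm_pw (a := a - 2) _ (by push_cast; ring)]
    congr 1
    have : (a : ℂ) - 1 = ((a - 1 : ℝ) : ℂ) := by push_cast; ring
    rw [this, Complex.norm_real, Real.norm_eq_abs, abs_of_neg (by linarith)]
    ring
  have hB : ‖(a : ℂ) * x * (((1 : ℂ) + y * I) ^ ((a : ℂ) - 1) * ((1 : ℂ) + y * I) ^ ((a : ℂ) - 1))‖
      = a * R ^ (a - 2) * (x * R ^ a) := by
    rw [norm_mul, norm_mul, norm_mul, wb2_norm_pw (a := a - 1) _ (by push_cast; ring),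
      Complex.norm_real, Complex.norm_real, Real.norm_eq_abs, Real.norm_eq_abs, abs_of_pos h0,
      abs_of_pos hx, ← hR]
    have : R ^ (a - 1) * R ^ (a - 1) = R ^ (a - 2) * R ^ a := by
      rw [← Real.rpow_add hR0, ← Real.rpow_add hR0]
      congr 1
      ring
    rw [this]
    ring
  have hP : 0 < R ^ (a - 2) := by positivity
  have hv : 0 ≤ x * R ^ a := by positivity
  have hkey : (x * R ^ a) * Real.exp (-(x * (ca a * R ^ a))) ≤ 1 / ca a := by
    rw [le_div_iff₀ hca, Real.exp_neg]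
    have h := Real.add_one_le_exp (x * (ca a * R ^ a))
    have hpos := Real.exp_pos (x * (ca a * R ^ a))
    rw [mul_assoc, mul_comm, mul_assoc, inv_mul_le_iff₀ hpos]
    nlinarith
  have hle1 : Real.exp (-(x * (ca a * R ^ a))) ≤ 1 := by
    rw [Real.exp_le_one_iff]
    have : 0 ≤ x * (ca a * R ^ a) := by positivity
    linarith
  calc _ ≤ ((1 - a) * R ^ (a - 2) + a * R ^ (a - 2) * (x * R ^ a))
        * Real.exp (-(x * (ca a * R ^ a))) := by
        refine mul_le_mul ?_ hE (norm_nonneg _) ?_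
        · exact (norm_sub_le _ _).trans (by rw [hA, hB])
        · have : 0 ≤ 1 - a := by linarith
          positivity
    _ = (1 - a) * R ^ (a - 2) * Real.exp (-(x * (ca a * R ^ a)))
        + a * R ^ (a - 2) * ((x * R ^ a) * Real.exp (-(x * (ca a * R ^ a)))) := by ring
    _ ≤ (1 - a) * R ^ (a - 2) * 1 + a * R ^ (a - 2) * (1 / ca a) := by
        have : 0 ≤ 1 - a := by linarith
        gcongr
    _ = _ := by ring

/-- Integrability of the majorant. -/
lemma wb2_int {a : ℝ} (h1 : a < 1) :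
    Integrable fun y : ℝ => (1 + y ^ 2) ^ (-(2 - a) / 2) := by
  have h := integrable_rpow_neg_one_add_norm_sq (E := ℝ) (μ := volume) (r := 2 - a)
    (by simp; linarith)
  simpa using h

lemma wb2_cont {z : ℂ} : Continuous fun y : ℝ => ((1 : ℂ) + y * I) ^ z := by
  refine continuous_iff_continuousAt.mpr fun y => ?_
  exact ContinuousAt.cpow (by fun_prop) continuousAt_const (mem_slit (by simp))

/-- Integrability of `w^(a-1) exp (- x w^a)` over the line. -/
lemma wb2_intg {a x : ℝ} (h0 : 0 < a) (h1 : a < 1) (hx : 0 < x) :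
    Integrable fun y : ℝ => ((1 : ℂ) + y * I) ^ ((a : ℂ) - 1)
      * cexp (-((x : ℂ) * ((1 : ℂ) + y * I) ^ (a : ℂ))) := by
  have hca := ca_pos h0 h1
  obtain ⟨K, hK, hk⟩ := wb2_exp (a := a) (s := x * ca a) h0 (by positivity)
  have hm : Integrable fun y : ℝ => K * (1 + y ^ 2)⁻¹ := (integrable_inv_one_add_sq).const_mul K
  refine hm.mono' ?_ (Eventually.of_forall fun y => ?_)
  · refine Continuous.aestronglyMeasurable ?_
    exact wb2_cont.mul (by
      have := wb2_cont (z := (a : ℂ))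
      fun_prop)
  · set R := ‖(1 : ℂ) + y * I‖ with hR
    have hR1 : 1 ≤ R := wb2_one_le y
    have hR0 : 0 < R := by linarith
    have hE := wb2_norm_exp (y := y) h0 h1 hx
    rw [← hR] at hE
    have hk' := hk R hR1
    have hRsq : R ^ 2 = 1 + y ^ 2 := by
      rw [hR, ← Complex.normSq_eq_norm_sq, Complex.normSq_apply]
      simp
      ring
    rw [norm_mul, wb2_norm_pw (a := a - 1) _ (by push_cast; ring), ← hR]
    have hle : R ^ (a - 1) ≤ 1 := Real.rpow_le_one_of_one_le_of_nonpos hR1 (by linarith)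
    calc R ^ (a - 1) * ‖cexp (-((x : ℂ) * ((1 : ℂ) + y * I) ^ (a : ℂ)))‖
        ≤ 1 * Real.exp (-(x * (ca a * R ^ a))) := by gcongr
      _ = Real.exp (-(x * ca a * R ^ a)) := by rw [one_mul]; ring_nf
      _ ≤ K / R ^ 2 := hk'
      _ = K * (1 + y ^ 2)⁻¹ := by rw [hRsq]; rfl

/-- PIECE RF-Wb2.  The derivative is bounded near `0`: `|wd a x| ≤ C` for `0 < x ≤ 1`.
Proof: `wd a x` is the real part of `(1 / 2 pi) * integral of exp w * G(w)`, `w = 1 + i y`,
`G(w) = w^(a-1) exp (- x w^a)`, `G'(w) = ((a - 1) w^(a-2) - a x w^(2a-2)) exp (- x w^a)`.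
By `parts` (`T = 1`) it is minus the same integral with `G'`.  Now
`|G'(w)| ≤ (1 - a) |w|^(a-2) + a |w|^(a-2) * (x |w|^a exp (- x ca |w|^a)) ≤ C |w|^(a-2)` because
`v exp (- ca v) ≤ 1 / ca`, and `|w|^(a-2)` is integrable over the line as `a < 1`
(`|w|^(a-2) = (1 + y^2)^((a-2)/2)`: `integrable_rpow_neg_one_add_norm_sq`), with `C` independent
of `x`. -/
theorem wd_bounded {a : ℝ} (h0 : 0 < a) (h1 : a < 1) :
    ∃ C : ℝ, 0 ≤ C ∧ ∀ x : ℝ, 0 < x → x ≤ 1 → |wd a x| ≤ C := by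
  have hca := ca_pos h0 h1
  have hq : 0 ≤ (1 - a) + a / ca a := by
    have : 0 ≤ 1 - a := by linarith
    positivity
  refine ⟨(1 / (2 * Real.pi)) * ∫ y : ℝ, Real.exp 1 * (((1 - a) + a / ca a)
    * (1 + y ^ 2) ^ (-(2 - a) / 2)), ?_, fun x hx _ => ?_⟩
  · have := Real.pi_pos
    refine mul_nonneg (by positivity) (integral_nonneg fun y => ?_)
    positivity
  set g : ℂ → ℂ := fun w => w ^ ((a : ℂ) - 1) * cexp (-((x : ℂ) * w ^ (a : ℂ))) with hg
  set g' : ℂ → ℂ := fun w => ((((a : ℂ) - 1) * w ^ ((a : ℂ) - 2)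
      - (a : ℂ) * x * (w ^ ((a : ℂ) - 1) * w ^ ((a : ℂ) - 1)))
        * cexp (-((x : ℂ) * w ^ (a : ℂ)))) with hg'
  have i1 : Integrable fun y : ℝ => g (((1 : ℝ) : ℂ) + y * I) := by
    simpa [hg] using wb2_intg h0 h1 hx
  have i2 : Integrable fun y : ℝ => g' (((1 : ℝ) : ℂ) + y * I) := by
    refine ((wb2_int h1).const_mul ((1 - a) + a / ca a)).mono' ?_
      (Eventually.of_forall fun y => ?_)
    · refine Continuous.aestronglyMeasurable ?_
      have c0 := wb2_cont (z := (a : ℂ))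
      have c1 := wb2_cont (z := (a : ℂ) - 1)
      have c2 := wb2_cont (z := (a : ℂ) - 2)
      simp only [hg', ofReal_one]
      fun_prop
    · simpa [hg'] using wb2_bound h0 h1 hx y
  have hP := parts (T := 1) (A := 1) one_pos (g := g) (g' := g')
    (fun y => wb2_deriv (by simp)) i1 i2
  have hen : ∀ y : ℝ, ‖cexp ((1 : ℂ) + y * I)‖ = Real.exp 1 := by
    intro y
    rw [Complex.norm_exp]
    simp
  have i3 : Integrable fun y : ℝ => cexp ((1 : ℂ) + y * I) * g ((1 : ℂ) + y * I) := by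
    refine Integrable.bdd_mul (c := Real.exp 1) ?_ ?_ ?_
    · simpa using i1
    · exact Continuous.aestronglyMeasurable (by fun_prop)
    · exact Eventually.of_forall fun y => (hen y).le
  have hw : wd a x = (1 / (2 * Real.pi))
      * (∫ y : ℝ, cexp ((1 : ℂ) + y * I) * g ((1 : ℂ) + y * I)).re := by
    unfold wd
    congr 1
    have hre := integral_re (𝕜 := ℂ) i3
    simp only [RCLike.re_to_complex] at hre
    rw [← hre]
    refine integral_congr_ae (Eventually.of_forall fun y => ?_)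
    simp only [hg]
    congr 1
    rw [sub_eq_add_neg, Complex.exp_add]
    ring
  have hP' : ∫ y : ℝ, cexp ((1 : ℂ) + y * I) * g ((1 : ℂ) + y * I)
      = -∫ y : ℝ, cexp ((1 : ℂ) + y * I) * g' ((1 : ℂ) + y * I) := by
    simpa using hP
  rw [hw, hP', abs_mul, abs_of_pos (by have := Real.pi_pos; positivity)]
  have hpi := Real.pi_pos
  refine mul_le_mul_of_nonneg_left ?_ (by positivity)
  refine (Complex.abs_re_le_norm _).trans ?_
  rw [norm_neg]
  refine (norm_integral_le_integral_norm _).trans ?_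
  refine integral_mono_of_nonneg (Eventually.of_forall fun y => norm_nonneg _)
    (((wb2_int h1).const_mul _).const_mul _) (Eventually.of_forall fun y => ?_)
  simp only [norm_mul (cexp _), hen]
  exact mul_le_mul_of_nonneg_left (wb2_bound h0 h1 hx y) (Real.exp_pos 1).le

/-- PIECE RF-Wb3.  Decay of the derivative: for `x ≥ 1` and every `B` one has
`|wd a x| ≤ C exp (- B x)`.  Proof: move the line from `1` to a large `A` with `ca a * A^a ≥ B`
(`shift`; the bound of the integrand `exp (w - x w^a) w^(a-1)` as in `integrand_bound`; the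
integral over the line `1` is real as in `wt_line`), and on that line
`|exp (w - x w^a) w^(a-1)| ≤ exp A * |w|^(a-1) exp (- (x - 1) ca A^a) exp (- ca |w|^a)`.
(For `B ≤ 0` the statement follows from the one for `B = 1`.) -/
theorem wd_decay {a : ℝ} (h0 : 0 < a) (h1 : a < 1) (B : ℝ) :
    ∃ C : ℝ, 0 ≤ C ∧ ∀ x : ℝ, 1 ≤ x → |wd a x| ≤ C * Real.exp (-B * x) := by
  have hca := ca_pos h0 h1
  obtain ⟨A, hA1, hAB⟩ : ∃ A : ℝ, 1 ≤ A ∧ B ≤ ca a * A ^ a := by
    have h2 : Tendsto (fun A : ℝ => A ^ a) atTop atTop := tendsto_rpow_atTop h0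
    obtain ⟨A, hA1, hA2⟩ := ((h2.eventually_ge_atTop (B / ca a)).and
      (eventually_ge_atTop 1)).exists
    refine ⟨A, hA2, ?_⟩
    rw [div_le_iff₀ hca] at hA1
    linarith
  obtain ⟨K, hK0, hK⟩ := aux_exp_bound (a := a) (k := ca a) h0 hca
  refine ⟨Real.exp (A + B) * K / 2, by positivity, fun x hx => ?_⟩
  have hx0 : 0 < x := by linarith
  set g : ℂ → ℂ := fun w => cexp (w - (x : ℂ) * w ^ (a : ℂ)) * w ^ ((a : ℂ) - 1) with hg
  -- the norm
  have hnorm : ∀ w : ℂ, 1 ≤ w.re → w.re ≤ A → ∀ r : ℝ, 0 ≤ r → r ≤ ‖w‖ →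
      ‖g w‖ ≤ Real.exp A * Real.exp (-((x - 1) * (ca a * r ^ a))) * (K / (1 + w.im ^ 2)) := by
    intro w hw1 hw2 r hr0 hr
    have hre : 0 < w.re := by linarith
    have hw0 : w ≠ 0 := ne_zero_of_re hre
    have hw1' : 1 ≤ ‖w‖ := hw1.trans ((le_abs_self _).trans (Complex.abs_re_le_norm w))
    have e1 : ‖w ^ ((a : ℂ) - 1)‖ ≤ 1 := by
      rw [Complex.norm_cpow_of_ne_zero hw0]
      have e2 : ((a : ℂ) - 1).re = a - 1 := by simp
      have e3 : ((a : ℂ) - 1).im = 0 := by simp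
      rw [e2, e3, mul_zero, Real.exp_zero, div_one]
      exact Real.rpow_le_one_of_one_le_of_nonpos hw1' (by linarith)
    have e4 : ca a * ‖w‖ ^ a ≤ (w ^ (a : ℂ)).re := re_pw_ge h0 h1 hre.le hw0
    have e5 : |w.im| ^ a ≤ ‖w‖ ^ a :=
      Real.rpow_le_rpow (abs_nonneg _) (Complex.abs_im_le_norm w) h0.le
    have e6 : r ^ a ≤ ‖w‖ ^ a := Real.rpow_le_rpow hr0 hr h0.le
    have e7 : (w - (x : ℂ) * w ^ (a : ℂ)).re ≤
        A + -((x - 1) * (ca a * r ^ a)) + -(ca a * |w.im| ^ a) := by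
      rw [Complex.sub_re, Complex.re_ofReal_mul]
      have e8 : x * (ca a * ‖w‖ ^ a) ≤ x * (w ^ (a : ℂ)).re :=
        mul_le_mul_of_nonneg_left e4 hx0.le
      have e9 : (x - 1) * (ca a * r ^ a) ≤ (x - 1) * (ca a * ‖w‖ ^ a) :=
        mul_le_mul_of_nonneg_left (mul_le_mul_of_nonneg_left e6 hca.le) (by linarith)
      have e10 : ca a * |w.im| ^ a ≤ ca a * ‖w‖ ^ a := mul_le_mul_of_nonneg_left e5 hca.le
      nlinarith
    rw [hg]
    change ‖cexp (w - (x : ℂ) * w ^ (a : ℂ)) * w ^ ((a : ℂ) - 1)‖ ≤ _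
    rw [norm_mul, Complex.norm_exp]
    calc Real.exp (w - (x : ℂ) * w ^ (a : ℂ)).re * ‖w ^ ((a : ℂ) - 1)‖
        ≤ Real.exp (A + -((x - 1) * (ca a * r ^ a)) + -(ca a * |w.im| ^ a)) * 1 :=
          mul_le_mul (Real.exp_le_exp.2 e7) e1 (norm_nonneg _) (Real.exp_pos _).le
      _ = Real.exp A * Real.exp (-((x - 1) * (ca a * r ^ a))) *
          Real.exp (-(ca a * |w.im| ^ a)) := by rw [mul_one, Real.exp_add, Real.exp_add]
      _ ≤ _ := mul_le_mul_of_nonneg_left (hK w.im) (by positivity)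
  have hd : ∀ w : ℂ, 0 < w.re → DifferentiableAt ℂ g w := by
    intro w hw
    have e1 := (hasDerivAt_pw (a := a) (mem_slit hw)).differentiableAt
    refine DifferentiableAt.mul ?_ ?_
    · exact (differentiableAt_id.sub (e1.const_mul _)).cexp
    · exact differentiableAt_id.cpow_const (mem_slit hw)
  have hb : ∀ w : ℂ, 1 ≤ w.re → w.re ≤ A → ‖g w‖ ≤ (Real.exp A * K) / (1 + w.im ^ 2) := by
    intro w hw1 hw2
    have e1 := hnorm w hw1 hw2 0 le_rfl (norm_nonneg _)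
    rw [Real.zero_rpow h0.ne', mul_zero, mul_zero, neg_zero, Real.exp_zero, mul_one] at e1
    refine e1.trans (le_of_eq ?_)
    ring
  have hshift : ∫ y : ℝ, g (((1 : ℝ) : ℂ) + y * I) = ∫ y : ℝ, g ((A : ℂ) + y * I) :=
    shift (g := g) (A := 1) (B := A) (C := Real.exp A * K) hA1
      (fun w hw1 _ => hd w (by linarith)) hb
  have hint : Integrable fun y : ℝ => g (((1 : ℝ) : ℂ) + y * I) :=
    line_integrable (g := g) (A := 1) (C := Real.exp A * K)
      (fun y => hd _ (by simp)) (fun y => by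
        have e1 := hb (((1 : ℝ) : ℂ) + y * I) (by simp) (by simpa using hA1)
        simpa using e1)
  have hline : ∀ y : ℝ, ‖g ((A : ℂ) + y * I)‖ ≤
      Real.exp (A + B) * K * Real.exp (-B * x) * (1 + y ^ 2)⁻¹ := by
    intro y
    have e0 : ((A : ℂ) + y * I).re = A := by simp
    have e0' : ((A : ℂ) + y * I).im = y := by simp
    have e1 := hnorm ((A : ℂ) + y * I) (by rw [e0]; exact hA1) (by rw [e0]) A (by linarith) (by
      have e2 := Complex.abs_re_le_norm ((A : ℂ) + y * I)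
      rw [e0] at e2
      exact (le_abs_self A).trans e2)
    rw [e0'] at e1
    refine e1.trans ?_
    have e3 : Real.exp A * Real.exp (-((x - 1) * (ca a * A ^ a))) ≤
        Real.exp (A + B) * Real.exp (-B * x) := by
      rw [← Real.exp_add, ← Real.exp_add]
      refine Real.exp_le_exp.2 ?_
      have e4 : (x - 1) * B ≤ (x - 1) * (ca a * A ^ a) :=
        mul_le_mul_of_nonneg_left hAB (by linarith)
      linarith
    calc Real.exp A * Real.exp (-((x - 1) * (ca a * A ^ a))) * (K / (1 + y ^ 2))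
        ≤ Real.exp (A + B) * Real.exp (-B * x) * (K / (1 + y ^ 2)) :=
          mul_le_mul_of_nonneg_right e3 (by positivity)
      _ = _ := by
          rw [div_eq_mul_inv]
          ring
  have hwd : wd a x = (1 / (2 * Real.pi)) * (∫ y : ℝ, g ((A : ℂ) + y * I)).re := by
    rw [← hshift]
    unfold wd
    congr 1
    have e1 : (∫ y : ℝ, g (((1 : ℝ) : ℂ) + y * I)).re =
        ∫ y : ℝ, (g (((1 : ℝ) : ℂ) + y * I)).re :=
      (Complex.reCLM.integral_comp_comm hint).symm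
    rw [e1]
    simp only [hg, Complex.ofReal_one]
  have hnI : ‖∫ y : ℝ, g ((A : ℂ) + y * I)‖ ≤
      Real.exp (A + B) * K * Real.exp (-B * x) * Real.pi := by
    rw [← integral_univ_inv_one_add_sq, ← integral_const_mul]
    exact norm_integral_le_of_norm_le (integrable_inv_one_add_sq.const_mul _)
      (Eventually.of_forall hline)
  have hpi := Real.pi_pos
  rw [hwd, abs_mul, abs_of_pos (by positivity : 0 < 1 / (2 * Real.pi))]
  calc 1 / (2 * Real.pi) * |(∫ y : ℝ, g ((A : ℂ) + y * I)).re|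
      ≤ 1 / (2 * Real.pi) * (Real.exp (A + B) * K * Real.exp (-B * x) * Real.pi) :=
        mul_le_mul_of_nonneg_left ((Complex.abs_re_le_norm _).trans hnI) (by positivity)
    _ = Real.exp (A + B) * K / 2 * Real.exp (-B * x) := by
        field_simp

/-- PIECE RF-Wb4.  Decay of the weight: `|wt a x| ≤ C exp (- B x)` for `x ≥ 1` and every `B`.
Proof: `wt_bound` with `T = 1`, `u = x` and `A` large (`ca a * A^a / 2 ≥ B`; `A^a` tends to
infinity). -/
theorem wt_decay {a : ℝ} (h0 : 0 < a) (h1 : a < 1) (B : ℝ) :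
    ∃ C : ℝ, 0 ≤ C ∧ ∀ x : ℝ, 1 ≤ x → |wt a x| ≤ C * Real.exp (-B * x) := by
  have hca := ca_pos h0 h1
  obtain ⟨A, hA, hAB⟩ : ∃ A : ℝ, 0 < A ∧ B ≤ ca a * A ^ a / 2 := by
    have h2 : Tendsto (fun A : ℝ => A ^ a) atTop atTop := tendsto_rpow_atTop h0
    obtain ⟨A, hA1, hA2⟩ := ((h2.eventually_ge_atTop (2 * B / ca a)).and
      (eventually_gt_atTop 0)).exists
    refine ⟨A, hA2, ?_⟩
    rw [div_le_iff₀ hca] at hA1
    linarith
  obtain ⟨C, hC0, hC⟩ := wt_bound h0 h1 hA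
  refine ⟨C * Real.exp A, by positivity, fun x hx => ?_⟩
  have h3 := hC x 1 (by linarith) one_pos
  rw [Real.one_rpow, div_one, mul_one] at h3
  refine h3.trans (mul_le_mul_of_nonneg_left (Real.exp_le_exp.2 ?_) (by positivity))
  have h4 : B * x ≤ ca a * A ^ a / 2 * x := mul_le_mul_of_nonneg_right hAB (by linarith)
  linarith

/-- the integrand after one integration by parts -/
private noncomputable def wb4_h (a x y : ℝ) : ℂ :=
  cexp (1 + (y : ℂ) * I) * ((1 + (a : ℂ) * (x : ℂ) * (1 + (y : ℂ) * I) ^ (a : ℂ)) *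
    cexp (-((x : ℂ) * (1 + (y : ℂ) * I) ^ (a : ℂ))) / (1 + (y : ℂ) * I) ^ 2)

private lemma wb4_re (y : ℝ) : (1 + (y : ℂ) * I).re = 1 := by simp

private lemma wb4_ne (y : ℝ) : (1 + (y : ℂ) * I) ≠ 0 :=
  ne_zero_of_re (by rw [wb4_re]; exact one_pos)

private lemma wb4_norm_sq (y : ℝ) : ‖(1 + (y : ℂ) * I)‖ ^ 2 = 1 + y ^ 2 := by
  rw [← Complex.normSq_eq_norm_sq, Complex.normSq_apply]
  simp
  ring

private lemma wb4_cont_pw (a : ℝ) : Continuous fun y : ℝ => (1 + (y : ℂ) * I) ^ (a : ℂ) := by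
  refine Continuous.cpow (by fun_prop) continuous_const fun y => ?_
  exact mem_slit (by rw [wb4_re]; exact one_pos)

private lemma wb4_cont (a x : ℝ) : Continuous (wb4_h a x) := by
  unfold wb4_h
  have h1 := wb4_cont_pw a
  refine Continuous.mul (by fun_prop) (Continuous.div ?_ (by fun_prop) fun y =>
    pow_ne_zero _ (wb4_ne y))
  exact Continuous.mul (continuous_const.add (continuous_const.mul h1))
    (Complex.continuous_exp.comp (continuous_const.mul h1).neg)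

private lemma wb4_aux {c v : ℝ} (hc : 0 < c) : v * Real.exp (-(c * v)) ≤ 1 / c := by
  have h1 := Real.add_one_le_exp (c * v)
  have h2 : v * c ≤ Real.exp (c * v) := by linarith
  rw [Real.exp_neg, le_div_iff₀ hc, mul_assoc, mul_comm (Real.exp (c * v))⁻¹ c, ← mul_assoc]
  rw [← div_eq_mul_inv, div_le_one (Real.exp_pos _)]
  exact h2

private lemma wb4_inner {a x : ℝ} (h0 : 0 < a) (h1 : a < 1) (hx : 0 ≤ x) (y : ℝ) :
    ‖(1 + (a : ℂ) * (x : ℂ) * (1 + (y : ℂ) * I) ^ (a : ℂ)) *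
      cexp (-((x : ℂ) * (1 + (y : ℂ) * I) ^ (a : ℂ))) / (1 + (y : ℂ) * I) ^ 2‖ ≤
      (1 + a / ca a) * (1 + y ^ 2)⁻¹ := by
  have hca := ca_pos h0 h1
  have hw := wb4_ne y
  set w : ℂ := 1 + (y : ℂ) * I with hwd
  have hre : 0 ≤ w.re := by rw [hwd, wb4_re]; exact zero_le_one
  rw [norm_div, norm_pow, hwd, wb4_norm_sq, ← hwd, norm_mul, div_eq_mul_inv]
  refine mul_le_mul_of_nonneg_right ?_ (by positivity)
  have h2 : ‖1 + (a : ℂ) * (x : ℂ) * w ^ (a : ℂ)‖ ≤ 1 + a * (x * ‖w‖ ^ a) := by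
    refine (norm_add_le _ _).trans ?_
    rw [norm_one, norm_mul, norm_mul, norm_pw hw, Complex.norm_real, Complex.norm_real,
      Real.norm_of_nonneg h0.le, Real.norm_of_nonneg hx, mul_assoc]
  have h3 : ‖cexp (-((x : ℂ) * w ^ (a : ℂ)))‖ ≤ Real.exp (-(ca a * (x * ‖w‖ ^ a))) := by
    rw [Complex.norm_exp]
    refine Real.exp_le_exp.2 ?_
    rw [Complex.neg_re, Complex.re_ofReal_mul]
    have h4 := re_pw_ge h0 h1 hre hw
    have h5 := mul_le_mul_of_nonneg_left h4 hx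
    linarith
  have hv : 0 ≤ x * ‖w‖ ^ a := by positivity
  have h4 := wb4_aux (v := x * ‖w‖ ^ a) hca
  have h5 : Real.exp (-(ca a * (x * ‖w‖ ^ a))) ≤ 1 := by
    rw [Real.exp_le_one_iff]
    have := mul_nonneg hca.le hv
    linarith
  calc ‖1 + (a : ℂ) * (x : ℂ) * w ^ (a : ℂ)‖ * ‖cexp (-((x : ℂ) * w ^ (a : ℂ)))‖
      ≤ (1 + a * (x * ‖w‖ ^ a)) * Real.exp (-(ca a * (x * ‖w‖ ^ a))) :=
        mul_le_mul h2 h3 (norm_nonneg _) (by positivity)
    _ = Real.exp (-(ca a * (x * ‖w‖ ^ a))) +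
        a * ((x * ‖w‖ ^ a) * Real.exp (-(ca a * (x * ‖w‖ ^ a)))) := by ring
    _ ≤ 1 + a * (1 / ca a) := add_le_add h5 (mul_le_mul_of_nonneg_left h4 h0.le)
    _ = 1 + a / ca a := by ring

private lemma wb4_bound {a x : ℝ} (h0 : 0 < a) (h1 : a < 1) (hx : 0 ≤ x) (y : ℝ) :
    ‖wb4_h a x y‖ ≤ Real.exp 1 * (1 + a / ca a) * (1 + y ^ 2)⁻¹ := by
  unfold wb4_h
  rw [norm_mul, Complex.norm_exp, wb4_re]
  exact (mul_le_mul_of_nonneg_left (wb4_inner h0 h1 hx y) (Real.exp_pos 1).le).trans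
    (le_of_eq (by ring))

private lemma wb4_parts {a x : ℝ} (h0 : 0 < a) (h1 : a < 1) (hx : 0 < x) :
    wt a x = (1 / (2 * Real.pi)) * (∫ y : ℝ, wb4_h a x y).re := by
  have hint := wt_int (A := 1) (u := x) (T := 1) h0 h1 one_pos hx zero_le_one
  have hint0 := wt_int (A := 1) (u := x) (T := 0) h0 h1 one_pos hx le_rfl
  have hp := parts (T := 1) (A := 1) one_pos
    (g := fun w : ℂ => cexp (-((x : ℂ) * w ^ (a : ℂ))) / w)
    (g' := fun w : ℂ => -((1 + (a : ℂ) * (x : ℂ) * w ^ (a : ℂ)) *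
      cexp (-((x : ℂ) * w ^ (a : ℂ))) / w ^ 2)) ?_ ?_ ?_
  · have e1 : wt a x = (1 / (2 * Real.pi)) * (∫ y : ℝ,
        cexp ((1 + (y : ℂ) * I) - (x : ℂ) * (1 + (y : ℂ) * I) ^ (a : ℂ)) / (1 + (y : ℂ) * I)).re := by
      unfold wt
      rw [if_neg (not_le.2 hx)]
      congr 1
      have hint' : Integrable fun y : ℝ =>
          cexp ((1 + (y : ℂ) * I) - (x : ℂ) * (1 + (y : ℂ) * I) ^ (a : ℂ)) /
            (1 + (y : ℂ) * I) := by simpa using hint
      exact Complex.reCLM.integral_comp_comm hint'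
    rw [e1]
    congr 2
    simp only [Complex.ofReal_one, one_mul, div_one, neg_mul] at hp
    have e2 : (∫ y : ℝ, cexp ((1 + (y : ℂ) * I) - (x : ℂ) * (1 + (y : ℂ) * I) ^ (a : ℂ)) /
        (1 + (y : ℂ) * I)) = ∫ y : ℝ, cexp (1 + (y : ℂ) * I) *
          (cexp (-((x : ℂ) * (1 + (y : ℂ) * I) ^ (a : ℂ))) / (1 + (y : ℂ) * I)) := by
      refine integral_congr_ae (Eventually.of_forall fun y => ?_)
      simp only
      rw [sub_eq_add_neg, Complex.exp_add, mul_div_assoc]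
    rw [e2, hp, ← integral_neg]
    refine integral_congr_ae (Eventually.of_forall fun y => ?_)
    simp only [wb4_h]
    ring
  · intro y
    have hw : (((1 : ℝ) : ℂ) + y * I) ≠ 0 := by
      have := wb4_ne y
      simpa using this
    have hs : (((1 : ℝ) : ℂ) + y * I) ∈ slitPlane := mem_slit (by simp)
    have h2 := hasDerivAt_pw (a := a) hs
    have h3 := ((h2.const_mul (x : ℂ)).neg.cexp).div (hasDerivAt_id _) hw
    refine h3.congr_deriv ?_
    simp only [id, Pi.neg_apply]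
    have h4 : (((1 : ℝ) : ℂ) + y * I) ^ ((a : ℂ) - 1) =
        (((1 : ℝ) : ℂ) + y * I) ^ (a : ℂ) / (((1 : ℝ) : ℂ) + y * I) := by
      rw [Complex.cpow_sub _ _ hw, Complex.cpow_one]
    rw [h4]
    field_simp
    ring
  · have h5 : (fun y : ℝ => (fun w : ℂ => cexp (-((x : ℂ) * w ^ (a : ℂ))) / w)
        (((1 : ℝ) : ℂ) + y * I)) = fun y : ℝ => cexp (((0 : ℝ) : ℂ) * (((1 : ℝ) : ℂ) + y * I)
      - (x : ℂ) * (((1 : ℝ) : ℂ) + y * I) ^ (a : ℂ)) / (((1 : ℝ) : ℂ) + y * I) := by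
      funext y
      simp
    rw [h5]
    exact hint0
  · refine Integrable.mono' ((integrable_inv_one_add_sq).const_mul (1 + a / ca a)) ?_ ?_
    · have h6 := wb4_cont_pw a
      have h7 : Continuous fun y : ℝ => (((1 : ℝ) : ℂ) + y * I) ^ (a : ℂ) := by simpa using h6
      refine Continuous.aestronglyMeasurable (Continuous.neg (Continuous.div ?_ (by fun_prop)
        fun y => pow_ne_zero _ ?_))
      · exact Continuous.mul (continuous_const.add (continuous_const.mul h7))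
          (Complex.continuous_exp.comp (continuous_const.mul h7).neg)
      · have := wb4_ne y
        simpa using this
    · refine Eventually.of_forall fun y => ?_
      have h6 := wb4_inner h0 h1 hx.le y
      simp only [norm_neg]
      simpa using h6

/-- PIECE RF-Wb4, second statement.  The value at `0`: `wt a x → 1` as `x → 0+`.
Proof: by `parts` (`T = 1`, `A = 1`) applied to `G(w) = exp (- x w^a) / w`, whose derivative is
`- (1 + a x w^a) exp (- x w^a) / w^2`, one gets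
`wt a x = Re ((1 / 2 pi) * integral of e^w (1 + a x w^a) exp (- x w^a) / w^2)` for `x > 0`; the
integrand is bounded by `e (1 + a / ca) / |w|^2` (again `v exp (- ca v) ≤ 1 / ca`) and tends to
`e^w / w^2` as `x → 0`; dominated convergence (`tendsto_integral_filter_of_dominated_convergence`)
and `K0`. -/
theorem wt_tendsto {a : ℝ} (h0 : 0 < a) (h1 : a < 1) : Tendsto (wt a) (𝓝[>] 0) (𝓝 1) := by
  have hlim : Tendsto (fun x : ℝ => ∫ y : ℝ, wb4_h a x y) (𝓝[>] 0) (𝓝 (∫ y : ℝ, wb4_h a 0 y)) := by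
    refine tendsto_integral_filter_of_dominated_convergence
      (fun y => Real.exp 1 * (1 + a / ca a) * (1 + y ^ 2)⁻¹) ?_ ?_ ?_ ?_
    · exact Eventually.of_forall fun x => (wb4_cont a x).aestronglyMeasurable
    · filter_upwards [self_mem_nhdsWithin] with x hx
      exact Eventually.of_forall fun y => wb4_bound h0 h1 (le_of_lt hx) y
    · exact (integrable_inv_one_add_sq).const_mul _
    · refine Eventually.of_forall fun y => ?_
      have h2 : Continuous fun x : ℝ => wb4_h a x y := by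
        unfold wb4_h
        refine Continuous.mul continuous_const (Continuous.div_const ?_ _)
        fun_prop
      exact (h2.tendsto 0).mono_left nhdsWithin_le_nhds
  have h2 : ∫ y : ℝ, wb4_h a 0 y = ∫ y : ℝ, cexp (1 + (y : ℂ) * I) / (1 + (y : ℂ) * I) ^ 2 := by
    refine integral_congr_ae (Eventually.of_forall fun y => ?_)
    simp only [wb4_h]
    simp [div_eq_mul_inv]
  have h3 : (1 / (2 * Real.pi)) * (∫ y : ℝ, wb4_h a 0 y).re = 1 := by
    rw [h2]
    have h4 := congrArg Complex.re K0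
    have h5 : (1 / (2 * (Real.pi : ℂ))) = ((1 / (2 * Real.pi) : ℝ) : ℂ) := by push_cast; ring
    rw [h5, Complex.re_ofReal_mul, Complex.one_re] at h4
    exact h4
  have h4 : Tendsto (fun x : ℝ => (1 / (2 * Real.pi)) * (∫ y : ℝ, wb4_h a x y).re) (𝓝[>] 0)
      (𝓝 ((1 / (2 * Real.pi)) * (∫ y : ℝ, wb4_h a 0 y).re)) :=
    Tendsto.const_mul _ ((Complex.continuous_re.tendsto _).comp hlim)
  rw [h3] at h4
  refine h4.congr' ?_
  filter_upwards [self_mem_nhdsWithin] with x hx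
  exact (wb4_parts h0 h1 hx).symm

end Pool.Agent.Helper66.RF
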