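import Pool.Agent.Helper66.RF.Wb

set_option autoImplicit false

/-!
The summation method with the weights `wt a (log n / τ)` is regular.
-/

namespace Pool.Agent.Helper66.RF

open Complex MeasureTheory Set Filter Topology

/-- PIECE RF-Wc1.  Summability.  Proof: for `n ≥ 2` with `log n / τ ≥ 1` use `wt_decay` with
`B = 2 τ`: `|wt| ≤ C exp (- 2 log n) = C / n^2`; only finitely many `n` have `log n / τ < 1`. -/
theorem summable_wt {a τ : ℝ} (h0 : 0 < a) (h1 : a < 1) (hτ : 0 < τ) {b : ℕ → ℝ} (hb : Bd b) :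
    Summable fun n : ℕ => b n * wt a (Real.log n / τ) := by
  obtain ⟨C, hC, hdec⟩ := wt_decay h0 h1 (2 * τ)
  have hg : Summable fun n : ℕ => 6 * C * (1 / (n : ℝ) ^ 2) :=
    (Real.summable_one_div_nat_pow.mpr (by norm_num)).mul_left _
  refine Summable.of_norm_bounded_eventually_nat hg ?_
  have htend : Tendsto (fun n : ℕ => Real.log n / τ) atTop atTop :=
    (Real.tendsto_log_atTop.comp tendsto_natCast_atTop_atTop).atTop_div_const hτ
  filter_upwards [htend.eventually_ge_atTop 1, eventually_gt_atTop 0] with n hn hn0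
  have hn' : (0 : ℝ) < n := by exact_mod_cast hn0
  have hexp : Real.exp (-(2 * τ) * (Real.log n / τ)) = 1 / (n : ℝ) ^ 2 := by
    rw [show -(2 * τ) * (Real.log n / τ) = -(2 * Real.log n) by field_simp, Real.exp_neg,
      show (2 : ℝ) * Real.log n = Real.log n + Real.log n by ring, Real.exp_add,
      Real.exp_log hn', one_div, sq]
  have h2 : |wt a (Real.log n / τ)| ≤ C * (1 / (n : ℝ) ^ 2) := by
    have h3 := hdec _ hn
    rwa [hexp] at h3
  rw [Real.norm_eq_abs, abs_mul]
  calc |b n| * |wt a (Real.log n / τ)| ≤ 6 * (C * (1 / (n : ℝ) ^ 2)) :=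
        mul_le_mul (hb.1 n) h2 (abs_nonneg _) (by norm_num)
    _ = 6 * C * (1 / (n : ℝ) ^ 2) := by ring

private lemma wc2_integrable {a : ℝ} (h0 : 0 < a) (h1 : a < 1) : IntegrableOn (wd a) (Ioi 0) := by
  have hc := wd_continuousOn h0 h1
  obtain ⟨C, -, hb⟩ := wd_bounded h0 h1
  obtain ⟨C', -, hd⟩ := wd_decay h0 h1 1
  have hm : AEStronglyMeasurable (wd a) (volume.restrict (Ioi 0)) :=
    hc.aestronglyMeasurable measurableSet_Ioi
  rw [← Ioc_union_Ioi_eq_Ioi (zero_le_one (α := ℝ))]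
  refine IntegrableOn.union ?_ ?_
  · have hi : IntegrableOn (fun _ : ℝ => C) (Ioc 0 1) :=
      integrableOn_const measure_Ioc_lt_top.ne
    refine Integrable.mono' hi
      (hm.mono_measure (Measure.restrict_mono Ioc_subset_Ioi_self le_rfl)) ?_
    refine (ae_restrict_iff' measurableSet_Ioc).mpr (ae_of_all _ fun x hx => ?_)
    rw [Real.norm_eq_abs]
    exact hb x hx.1 hx.2
  · have hi : IntegrableOn (fun x : ℝ => C' * Real.exp (-1 * x)) (Ioi 1) :=
      (integrableOn_exp_mul_Ioi (by norm_num) _).const_mul C'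
    refine Integrable.mono' hi
      (hm.mono_measure (Measure.restrict_mono (Ioi_subset_Ioi zero_le_one) le_rfl)) ?_
    refine (ae_restrict_iff' measurableSet_Ioi).mpr (ae_of_all _ fun x hx => ?_)
    rw [Real.norm_eq_abs]
    exact hd x (le_of_lt hx)

private lemma wc2_lim {a : ℝ} (h0 : 0 < a) (h1 : a < 1) : Tendsto (wt a) atTop (𝓝 0) := by
  obtain ⟨C, -, hd⟩ := wt_decay h0 h1 1
  have h2 : Tendsto (fun x : ℝ => C * Real.exp (-1 * x)) atTop (𝓝 0) := by
    have h3 : Tendsto (fun x : ℝ => Real.exp (-x)) atTop (𝓝 0) := Real.tendsto_exp_neg_atTop_nhds_zero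
    have h4 := h3.const_mul C
    rw [mul_zero] at h4
    refine h4.congr fun x => ?_
    rw [neg_one_mul]
  refine squeeze_zero_norm' ?_ h2
  filter_upwards [eventually_ge_atTop 1] with x hx
  rw [Real.norm_eq_abs]
  exact hd x hx

private lemma wc2_formula {a y : ℝ} (h0 : 0 < a) (h1 : a < 1) (hy : 0 ≤ y)
    (hc : ContinuousWithinAt (wt a) (Ici y) y) : ∫ x in Ioi y, wd a x = wt a y := by
  have hi : IntegrableOn (fun x => -(wd a x)) (Ioi y) :=
    ((wc2_integrable h0 h1).mono_set (Ioi_subset_Ioi hy)).neg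
  have h := integral_Ioi_of_hasDerivAt_of_tendsto (f := wt a) (f' := fun x => -(wd a x)) hc
    (fun x hx => hasDerivAt_wt h0 h1 (lt_of_le_of_lt hy hx)) hi (wc2_lim h0 h1)
  rw [integral_neg] at h
  linarith

/-- PIECE RF-Wc2.  `wt a y` is the integral of `wd a` over `(y, oo)`, for `y > 0`, and the
integral over `(0, oo)` is `1`; `wd a` is integrable on `(0, oo)`.
Proof: `integral_Ioi_of_hasDerivAt_of_tendsto` with `hasDerivAt_wt`, `wt_decay` (limit `0` at
infinity), integrability from `wd_bounded`, `wd_decay`, `wd_continuousOn`; for `0` use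
`wt_tendsto` (or let `y → 0+` in the first formula). -/
theorem wt_eq {a : ℝ} (h0 : 0 < a) (h1 : a < 1) :
    IntegrableOn (wd a) (Ioi 0) ∧ (∫ x in Ioi (0 : ℝ), wd a x = 1) ∧
      ∀ y : ℝ, 0 < y → wt a y = ∫ x in Ioi y, wd a x := by
  refine ⟨wc2_integrable h0 h1, ?_, fun y hy => ?_⟩
  · have hw0 : wt a 0 = 1 := by
      unfold wt
      rw [if_pos le_rfl]
    have hc : ContinuousWithinAt (wt a) (Ici 0) 0 := by
      rw [← continuousWithinAt_Ioi_iff_Ici]
      unfold ContinuousWithinAt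
      rw [hw0]
      exact wt_tendsto h0 h1
    rw [wc2_formula h0 h1 le_rfl hc, hw0]
  · exact (wc2_formula h0 h1 hy.le (hasDerivAt_wt h0 h1 hy).continuousAt.continuousWithinAt).symm

/-- The terms of the exchanged sum (piece RF-Wc3). -/
private noncomputable def wc3f (a τ : ℝ) (b : ℕ → ℝ) (n : ℕ) : ℝ → ℝ :=
  (Ioi (Real.log n / τ)).indicator (fun x => b n * wd a x)

private lemma wc3_integrable {a τ : ℝ} (h0 : 0 < a) (h1 : a < 1) (b : ℕ → ℝ) (n : ℕ) :
    Integrable (wc3f a τ b n) (volume.restrict (Ioi (0 : ℝ))) := by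
  unfold wc3f
  exact ((wt_eq h0 h1).1.const_mul (b n)).indicator measurableSet_Ioi

private lemma wc3_log_div_nonneg {τ : ℝ} (hτ : 0 < τ) (n : ℕ) : 0 ≤ Real.log n / τ :=
  div_nonneg (Real.log_natCast_nonneg n) hτ.le

private lemma wc3_integral {a τ : ℝ} (h0 : 0 < a) (h1 : a < 1) (hτ : 0 < τ) {b : ℕ → ℝ}
    (hb : Bd b) (n : ℕ) :
    ∫ x in Ioi (0 : ℝ), wc3f a τ b n x = b n * wt a (Real.log n / τ) := by
  unfold wc3f
  rw [setIntegral_indicator measurableSet_Ioi, Ioi_inter_Ioi, sup_eq_right.mpr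
    (wc3_log_div_nonneg hτ n), integral_const_mul]
  rcases Nat.lt_or_ge n 2 with hn | hn
  · have : b n = 0 := by
      interval_cases n
      · exact hb.2.1
      · exact hb.2.2
    rw [this]; simp
  · have hpos : 0 < Real.log n / τ :=
      div_pos (Real.log_pos (by exact_mod_cast (by omega : 1 < n))) hτ
    rw [(wt_eq h0 h1).2.2 _ hpos]

private lemma wc3_norm {a τ : ℝ} (hτ : 0 < τ) (b : ℕ → ℝ) (n : ℕ) :
    ∫ x in Ioi (0 : ℝ), ‖wc3f a τ b n x‖ =
      |b n| * ∫ x in Ioi (Real.log n / τ), |wd a x| := by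
  unfold wc3f
  have : (fun x => ‖(Ioi (Real.log n / τ)).indicator (fun x => b n * wd a x) x‖) =
      (Ioi (Real.log n / τ)).indicator (fun x => |b n| * |wd a x|) := by
    funext x
    rw [norm_indicator_eq_indicator_norm]
    congr 1
    funext x
    rw [Real.norm_eq_abs, abs_mul]
  rw [this, setIntegral_indicator measurableSet_Ioi, Ioi_inter_Ioi, sup_eq_right.mpr
    (wc3_log_div_nonneg hτ n), integral_const_mul]

private lemma wc3_summable {a τ : ℝ} (h0 : 0 < a) (h1 : a < 1) (hτ : 0 < τ) {b : ℕ → ℝ}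
    (hb : Bd b) : Summable fun n : ℕ => ∫ x in Ioi (0 : ℝ), ‖wc3f a τ b n x‖ := by
  obtain ⟨C, hC, hdec⟩ := wd_decay h0 h1 (2 * τ)
  have hg : Summable fun n : ℕ => 6 * (C / (2 * τ)) * (1 / (n : ℝ) ^ 2) :=
    (Real.summable_one_div_nat_pow.mpr (by norm_num)).mul_left _
  refine Summable.of_norm_bounded_eventually_nat hg ?_
  have htend : Tendsto (fun n : ℕ => Real.log n / τ) atTop atTop :=
    (Real.tendsto_log_atTop.comp tendsto_natCast_atTop_atTop).atTop_div_const hτ
  filter_upwards [htend.eventually_ge_atTop 1, eventually_gt_atTop 0] with n hn hn0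
  rw [wc3_norm hτ, norm_mul, Real.norm_eq_abs, abs_abs]
  have hneg : -(2 * τ) < 0 := by linarith
  have hint : IntegrableOn (fun x => |wd a x|) (Ioi (Real.log n / τ)) :=
    ((wt_eq h0 h1).1.mono_set (Ioi_subset_Ioi (wc3_log_div_nonneg hτ n))).abs
  have hle : ∫ x in Ioi (Real.log n / τ), |wd a x| ≤
      ∫ x in Ioi (Real.log n / τ), C * Real.exp (-(2 * τ) * x) :=
    setIntegral_mono_on hint ((integrableOn_exp_mul_Ioi hneg _).const_mul C) measurableSet_Ioi
      fun x hx => hdec x (hn.trans (le_of_lt hx))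
  have hval : ∫ x in Ioi (Real.log n / τ), C * Real.exp (-(2 * τ) * x) =
      C / (2 * τ) * (1 / (n : ℝ) ^ 2) := by
    rw [integral_const_mul, integral_exp_mul_Ioi hneg]
    have hn' : (0 : ℝ) < n := by exact_mod_cast hn0
    have : Real.exp (-(2 * τ) * (Real.log n / τ)) = 1 / (n : ℝ) ^ 2 := by
      rw [show -(2 * τ) * (Real.log n / τ) = -(2 * Real.log n) by field_simp, Real.exp_neg,
        show (2 : ℝ) * Real.log n = Real.log n + Real.log n by ring, Real.exp_add,
        Real.exp_log hn', one_div, sq]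
    rw [this]
    field_simp
  have hnn : 0 ≤ ∫ x in Ioi (Real.log n / τ), |wd a x| :=
    integral_nonneg fun x => abs_nonneg _
  rw [Real.norm_eq_abs, abs_of_nonneg hnn]
  calc |b n| * ∫ x in Ioi (Real.log n / τ), |wd a x|
      ≤ 6 * (C / (2 * τ) * (1 / (n : ℝ) ^ 2)) :=
        mul_le_mul (hb.1 n) (hle.trans_eq hval) hnn (by norm_num)
    _ = 6 * (C / (2 * τ)) * (1 / (n : ℝ) ^ 2) := by ring

private lemma wc3_tsum {a τ : ℝ} (hτ : 0 < τ) {b : ℕ → ℝ} (hb : Bd b) (x : ℝ) :
    ∑' n : ℕ, wc3f a τ b n x =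
      wd a x * ∑ n ∈ Finset.range ⌈Real.exp (x * τ)⌉₊, b n := by
  have key : ∀ n : ℕ, wc3f a τ b n x =
      if n ∈ Finset.range ⌈Real.exp (x * τ)⌉₊ then b n * wd a x else 0 := by
    intro n
    unfold wc3f
    rcases Nat.eq_zero_or_pos n with rfl | hn
    · rw [hb.2.1]; simp
    · have hn' : (0 : ℝ) < n := by exact_mod_cast hn
      have hiff : x ∈ Ioi (Real.log n / τ) ↔ n ∈ Finset.range ⌈Real.exp (x * τ)⌉₊ := by
        rw [mem_Ioi, div_lt_iff₀ hτ, Finset.mem_range, Nat.lt_ceil,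
          Real.log_lt_iff_lt_exp hn']
      by_cases hx : x ∈ Ioi (Real.log n / τ)
      · rw [indicator_of_mem hx, if_pos (hiff.mp hx)]
      · rw [indicator_of_notMem hx, if_neg (fun h => hx (hiff.mpr h))]
  rw [tsum_congr key, tsum_eq_sum (s := Finset.range ⌈Real.exp (x * τ)⌉₊)
    (fun n hn => if_neg hn), Finset.mul_sum]
  refine Finset.sum_congr rfl fun n hn => ?_
  rw [if_pos hn, mul_comm]

private lemma wc3_exchange {a τ : ℝ} (h0 : 0 < a) (h1 : a < 1) (hτ : 0 < τ) {b : ℕ → ℝ}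
    (hb : Bd b) :
    ∑' n : ℕ, b n * wt a (Real.log n / τ) =
      ∫ x in Ioi (0 : ℝ), wd a x * ∑ n ∈ Finset.range ⌈Real.exp (x * τ)⌉₊, b n := by
  have h := hasSum_integral_of_summable_integral_norm
    (fun n => wc3_integrable (τ := τ) h0 h1 b n) (wc3_summable h0 h1 hτ hb)
  rw [← h.tsum_eq.trans (integral_congr_ae (ae_of_all _ fun x => wc3_tsum hτ hb x))]
  exact tsum_congr fun n => (wc3_integral h0 h1 hτ hb n).symm

private lemma wc3_range {b : ℕ → ℝ} (h0 : b 0 = 0) (N : ℕ) :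
    ∑ n ∈ Finset.Icc 1 N, b n = ∑ n ∈ Finset.range (N + 1), b n := by
  induction N with
  | zero => simp [h0]
  | succ k ih => rw [Finset.sum_Icc_succ_top (by omega), ih, Finset.sum_range_succ _ (k + 1)]

/-- PIECE RF-Wc3.  Regularity.  If the finite sums `D(N)` of `b` tend to `d`, then the smoothed sums
tend to `d` as `τ → oo`.
Proof: for `τ > 0`, `sum b n wt (log n / τ) = integral over x > 0 of wd a x * D(floor (exp (x τ)))`
(`wt_eq` for `n ≥ 2`, exchange of sum and integral: `integral_tsum`-type lemma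
`hasSum_integral_of_summable_integral_norm`, the sum of `6 * integral over x > log n / τ of |wd|`
converges by `wd_decay` with `B = 2 τ`, as in `summable_wt`; the sum over `n ≥ 2` with
`log n < x τ`, i.e. `n ≤ floor (exp (x τ))` up to a null set of `x`, is `D`).  `D` is bounded and
`D(floor (exp (x τ))) → d` for each `x > 0`, so by dominated convergence the limit is
`d * integral of wd = d`. -/
theorem toeplitz {a : ℝ} (h0 : 0 < a) (h1 : a < 1) {b : ℕ → ℝ} (hb : Bd b) {d : ℝ}
    (hd : Tendsto (fun N : ℕ => ∑ n ∈ Finset.Icc 1 N, b n) atTop (𝓝 d)) :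
    Tendsto (fun τ : ℝ => ∑' n : ℕ, b n * wt a (Real.log n / τ)) atTop (𝓝 d) := by
  have hE : Tendsto (fun M : ℕ => ∑ n ∈ Finset.range M, b n) atTop (𝓝 d) := by
    rw [← tendsto_add_atTop_iff_nat 1]
    exact hd.congr fun N => wc3_range hb.2.1 N
  obtain ⟨K, hK⟩ := hE.norm.bddAbove_range
  have hK' : ∀ M : ℕ, ‖∑ n ∈ Finset.range M, b n‖ ≤ K := fun M => hK ⟨M, rfl⟩
  have hwd := (wt_eq h0 h1).1
  have hmain : Tendsto (fun τ : ℝ => ∫ x in Ioi (0 : ℝ),
      wd a x * ∑ n ∈ Finset.range ⌈Real.exp (x * τ)⌉₊, b n) atTop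
      (𝓝 (∫ x in Ioi (0 : ℝ), wd a x * d)) := by
    refine tendsto_integral_filter_of_dominated_convergence (fun x => ‖wd a x‖ * K) ?_ ?_
      (hwd.norm.mul_const K) ?_
    · refine Eventually.of_forall fun τ => hwd.aestronglyMeasurable.mul ?_
      have hm : Measurable fun x : ℝ => ∑ n ∈ Finset.range ⌈Real.exp (x * τ)⌉₊, b n :=
        (measurable_from_top (f := fun M : ℕ => ∑ n ∈ Finset.range M, b n)).comp
          (Nat.measurable_ceil.comp (Real.measurable_exp.comp (measurable_id.mul_const τ)))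
      exact hm.aestronglyMeasurable
    · refine Eventually.of_forall fun τ => ae_of_all _ fun x => ?_
      rw [norm_mul]
      exact mul_le_mul_of_nonneg_left (hK' _) (norm_nonneg _)
    · refine (ae_restrict_iff' measurableSet_Ioi).mpr (ae_of_all _ fun x hx => ?_)
      have hx' : (0 : ℝ) < x := hx
      refine Tendsto.const_mul _ (hE.comp ?_)
      exact tendsto_nat_ceil_atTop.comp
        (Real.tendsto_exp_atTop.comp (tendsto_id.const_mul_atTop hx'))
  rw [integral_mul_const, (wt_eq h0 h1).2.1, one_mul] at hmain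
  refine hmain.congr' ?_
  filter_upwards [eventually_gt_atTop 0] with τ hτ
  exact (wc3_exchange h0 h1 hτ hb).symm

end Pool.Agent.Helper66.RF
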